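import Mathlib

/-!
# LX-ABP4: a group of order `p^k`, `1 ≤ k ≤ 4`, has a commutative subgroup of index `p` (proved)
-/

set_option autoImplicit false

open scoped Classical

noncomputable section

namespace H83.LX

theorem abp_index {P : Type} [Group P] [Finite P] {p : ℕ} (hp : p.Prime) {k : ℕ}
    (hk : Nat.card P = p ^ (k + 1)) (A : Subgroup P) (hA : Nat.card A = p ^ k) :
    A.index = p := by
  have h1 := Subgroup.card_mul_index A
  rw [hk, hA, pow_succ] at h1
  exact Nat.eq_of_mul_eq_mul_left (pow_pos hp.pos k) h1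

theorem abp_comm {P : Type} [Group P] [Finite P] {p : ℕ} (hp : p.Prime) {k : ℕ}
    (hk : Nat.card P = p ^ (k + 1)) (hc : ∀ a b : P, a * b = b * a) :
    ∃ A : Subgroup P, A.index = p ∧ ∀ a ∈ A, ∀ b ∈ A, a * b = b * a := by
  have : Fact p.Prime := ⟨hp⟩
  obtain ⟨A, hA⟩ := Sylow.exists_subgroup_card_pow_prime (G := P) p (n := k)
    (by rw [hk]; exact pow_dvd_pow p (Nat.le_succ k))
  exact ⟨A, abp_index hp hk A hA, fun a _ b _ => hc a b⟩

/-- if the centre has index at most `p` then the group is commutative -/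
theorem abp_center {C : Type} [Group C] [Finite C] {p : ℕ} (hp : p.Prime)
    (h : (Subgroup.center C).index ∣ p) : ∀ a b : C, a * b = b * a := by
  have : Fact p.Prime := ⟨hp⟩
  have hcyc : IsCyclic (C ⧸ Subgroup.center C) := by
    rcases (Nat.dvd_prime hp).mp h with h1 | h1
    · have h2 : Nat.card (C ⧸ Subgroup.center C) = 1 := h1
      have : Subsingleton (C ⧸ Subgroup.center C) := (Nat.card_eq_one_iff_unique.mp h2).1
      infer_instance
    · exact isCyclic_of_prime_card (p := p) h1
  intro a b
  exact commutative_of_cyclic_center_quotient (QuotientGroup.mk' (Subgroup.center C))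
    (by rw [QuotientGroup.ker_mk']) a b

theorem abp4 {P : Type} [Group P] [Finite P] {p : ℕ} (hp : p.Prime) {k : ℕ} (hk0 : k ≠ 0)
    (hk4 : k ≤ 4) (hk : Nat.card P = p ^ k) :
    ∃ A : Subgroup P, A.index = p ∧ ∀ a ∈ A, ∀ b ∈ A, a * b = b * a := by
  have : Fact p.Prime := ⟨hp⟩
  have hPG : IsPGroup p P := IsPGroup.of_card hk
  by_cases hcomm : ∀ a b : P, a * b = b * a
  · obtain ⟨l, rfl⟩ := Nat.exists_eq_succ_of_ne_zero hk0
    exact abp_comm hp hk hcomm
  -- the centre
  have hntP : Nontrivial P := by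
    rw [← Finite.one_lt_card_iff_nontrivial, hk]
    exact Nat.one_lt_pow hk0 hp.one_lt
  have hntZ : Nontrivial (Subgroup.center P) := hPG.center_nontrivial
  obtain ⟨z, hz⟩ := IsPGroup.iff_card.mp (hPG.to_subgroup (Subgroup.center P))
  have hz0 : z ≠ 0 := by
    rintro rfl
    rw [pow_zero] at hz
    have := (Finite.one_lt_card_iff_nontrivial (α := Subgroup.center P)).mpr hntZ
    omega
  have hidx := Subgroup.card_mul_index (Subgroup.center P)
  rw [hz, hk] at hidx
  have hzk : z + 2 ≤ k := by
    by_contra hlt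
    apply hcomm
    apply abp_center hp
    have h1 : p ^ k ∣ p ^ (z + 1) := pow_dvd_pow p (by omega)
    rw [← hidx, pow_succ] at h1
    exact Nat.dvd_of_mul_dvd_mul_left (pow_pos hp.pos z) h1
  -- a subgroup generated by the centre and one more element
  have key : ∀ (C : Subgroup P) (x : P), x ∈ C → x ∉ Subgroup.center P →
      (∀ c ∈ C, c * x = x * c) → Subgroup.center P ≤ C → Nat.card C ∣ p ^ (z + 2) →
      ∀ a ∈ C, ∀ b ∈ C, a * b = b * a := by
    intro C x hxC hxZ hCx hZC hcard
    have hlt : (Subgroup.center P).subgroupOf C < Subgroup.center C := by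
      rw [SetLike.lt_iff_le_and_exists]
      refine ⟨fun c hc => ?_, ⟨x, hxC⟩, ?_, ?_⟩
      · rw [Subgroup.mem_subgroupOf, Subgroup.mem_center_iff] at hc
        rw [Subgroup.mem_center_iff]
        intro d
        exact Subtype.ext (hc d)
      · rw [Subgroup.mem_center_iff]
        intro d
        exact Subtype.ext (hCx d d.2)
      · rw [Subgroup.mem_subgroupOf]
        exact hxZ
    have h1 : Nat.card ((Subgroup.center P).subgroupOf C) = p ^ z := by
      rw [← hz]
      exact Nat.card_congr (Subgroup.subgroupOfEquivOfLe hZC).toEquiv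
    obtain ⟨y, hy⟩ := IsPGroup.iff_card.mp ((hPG.to_subgroup C).to_subgroup (Subgroup.center C))
    have h2 : p ^ z < p ^ y := by
      rw [← h1, ← hy]
      exact Set.ncard_lt_ncard (s := ((Subgroup.center P).subgroupOf C : Set C))
        (t := (Subgroup.center C : Set C)) hlt (Set.toFinite _)
    have h3 : z < y := (Nat.pow_lt_pow_iff_right hp.one_lt).mp h2
    have h4 : (Subgroup.center C).index ∣ p := by
      have h5 := Subgroup.card_mul_index (Subgroup.center C)
      rw [hy] at h5
      have h6 : p ^ y * (Subgroup.center C).index ∣ p ^ (z + 2) := by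
        rw [h5]
        exact hcard
      have h7 : p ^ (z + 2) ∣ p ^ y * p := by
        rw [← pow_succ]
        exact pow_dvd_pow p (by omega)
      exact Nat.dvd_of_mul_dvd_mul_left (pow_pos hp.pos y) (h6.trans h7)
    intro a ha b hb
    exact congrArg Subtype.val (abp_center hp h4 ⟨a, ha⟩ ⟨b, hb⟩)
  have hnc : ∃ x : P, x ∉ Subgroup.center P := by
    by_contra hall
    push Not at hall
    apply hcomm
    intro a b
    exact (Subgroup.mem_center_iff.mp (hall b) a)
  rcases Nat.lt_or_ge z (k - 2) with hz2 | hz2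
  · -- `z = 1`, `k = 4`
    have hz1 : z = 1 := by omega
    have hk4' : k = 4 := by omega
    subst hz1 hk4'
    -- a noncentral element which is central modulo the centre
    have hPZ : IsPGroup p (P ⧸ Subgroup.center P) := hPG.to_quotient _
    have hntQ : Nontrivial (P ⧸ Subgroup.center P) := by
      obtain ⟨x, hx⟩ := hnc
      exact ⟨⟨(x : P ⧸ Subgroup.center P), 1, fun h => hx ((QuotientGroup.eq_one_iff x).mp h)⟩⟩
    have hntZQ : Nontrivial (Subgroup.center (P ⧸ Subgroup.center P)) := hPZ.center_nontrivial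
    obtain ⟨⟨y, hy⟩, hy1⟩ := exists_ne (1 : Subgroup.center (P ⧸ Subgroup.center P))
    obtain ⟨x, rfl⟩ := QuotientGroup.mk_surjective y
    have hxZ : x ∉ Subgroup.center P := by
      intro h
      exact hy1 (Subtype.ext ((QuotientGroup.eq_one_iff x).mpr h))
    have hcz : ∀ g : P, g * x * g⁻¹ * x⁻¹ ∈ Subgroup.center P := by
      intro g
      rw [← QuotientGroup.eq_one_iff]
      have h1 := Subgroup.mem_center_iff.mp hy (g : P ⧸ Subgroup.center P)
      have h2 : ((g * x * g⁻¹ * x⁻¹ : P) : P ⧸ Subgroup.center P) =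
          (g : P ⧸ Subgroup.center P) * x * (g : P ⧸ Subgroup.center P)⁻¹ *
            (x : P ⧸ Subgroup.center P)⁻¹ := rfl
      rw [h2, h1, mul_inv_cancel_right, mul_inv_cancel]
    let f : P →* Subgroup.center P := MonoidHom.mk' (fun g => ⟨g * x * g⁻¹ * x⁻¹, hcz g⟩) (by
      intro g h
      apply Subtype.ext
      change g * h * x * (g * h)⁻¹ * x⁻¹ = (g * x * g⁻¹ * x⁻¹) * (h * x * h⁻¹ * x⁻¹)
      have h1 := Subgroup.mem_center_iff.mp (hcz h) g
      calc g * h * x * (g * h)⁻¹ * x⁻¹ = (g * (h * x * h⁻¹ * x⁻¹)) * (x * g⁻¹ * x⁻¹) := by group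
        _ = (h * x * h⁻¹ * x⁻¹) * g * (x * g⁻¹ * x⁻¹) := by rw [h1]
        _ = (h * x * h⁻¹ * x⁻¹) * (g * x * g⁻¹ * x⁻¹) := by group
        _ = _ := ((Subgroup.mem_center_iff.mp (hcz h) (g * x * g⁻¹ * x⁻¹))).symm)
    have hf : ∀ g, g ∈ f.ker ↔ g * x = x * g := by
      intro g
      rw [MonoidHom.mem_ker]
      constructor
      · intro h
        have h1 : g * x * g⁻¹ * x⁻¹ = 1 := congrArg Subtype.val h
        rw [mul_inv_eq_one, mul_inv_eq_iff_eq_mul] at h1
        exact h1
      · intro h
        apply Subtype.ext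
        change g * x * g⁻¹ * x⁻¹ = 1
        rw [h, mul_inv_cancel_right, mul_inv_cancel]
    have hidx' : f.ker.index ∣ p := by
      rw [Subgroup.index_ker]
      have h1 := Subgroup.card_subgroup_dvd_card f.range
      rwa [hz, pow_one] at h1
    have hne : f.ker.index ≠ 1 := by
      intro h
      rw [Subgroup.index_eq_one] at h
      apply hxZ
      rw [Subgroup.mem_center_iff]
      intro g
      exact (hf g).mp (h ▸ Subgroup.mem_top g)
    have hip : f.ker.index = p := ((Nat.dvd_prime hp).mp hidx').resolve_left hne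
    refine ⟨f.ker, hip, key f.ker x ((hf x).mpr rfl) hxZ (fun c hc => (hf c).mp hc) ?_ ?_⟩
    · intro c hc
      rw [hf]
      exact ((Subgroup.mem_center_iff.mp hc x)).symm
    · have h1 := Subgroup.card_mul_index f.ker
      rw [hip, hk] at h1
      refine ⟨1, ?_⟩
      have h2 : Nat.card f.ker * p = p ^ 3 * p := by rw [h1]; ring
      rw [mul_one]
      exact (Nat.eq_of_mul_eq_mul_right hp.pos h2).symm
  · -- the centre has index `p²`
    have hkz : k = z + 2 := by omega
    obtain ⟨x, hx⟩ := hnc
    have h1 : ∀ g ∈ Subgroup.center P ⊔ Subgroup.zpowers x, g * x = x * g := by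
      intro g hg
      have h2 : Subgroup.center P ⊔ Subgroup.zpowers x ≤ Subgroup.centralizer {x} := by
        rw [sup_le_iff]
        constructor
        · intro c hc
          rw [Subgroup.mem_centralizer_singleton_iff]
          exact (Subgroup.mem_center_iff.mp hc x).symm
        · rw [Subgroup.zpowers_le, Subgroup.mem_centralizer_singleton_iff]
      exact Subgroup.mem_centralizer_singleton_iff.mp (h2 hg)
    have hxC : x ∈ Subgroup.center P ⊔ Subgroup.zpowers x :=
      Subgroup.mem_sup_right (Subgroup.mem_zpowers x)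
    have hcommC := key (Subgroup.center P ⊔ Subgroup.zpowers x) x hxC hx h1 le_sup_left (by
      rw [← hkz, ← hk]
      exact Subgroup.card_subgroup_dvd_card _)
    refine ⟨Subgroup.center P ⊔ Subgroup.zpowers x, ?_, hcommC⟩
    -- its order
    obtain ⟨y, hy⟩ := IsPGroup.iff_card.mp
      (hPG.to_subgroup (Subgroup.center P ⊔ Subgroup.zpowers x))
    have hlt : p ^ z < p ^ y := by
      rw [← hz, ← hy]
      refine Set.ncard_lt_ncard (s := (Subgroup.center P : Set P))
        (t := ((Subgroup.center P ⊔ Subgroup.zpowers x : Subgroup P) : Set P)) ?_ (Set.toFinite _)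
      have : Subgroup.center P < Subgroup.center P ⊔ Subgroup.zpowers x := by
        rw [SetLike.lt_iff_le_and_exists]
        exact ⟨le_sup_left, x, hxC, hx⟩
      exact this
    have hzy : z < y := (Nat.pow_lt_pow_iff_right hp.one_lt).mp hlt
    have hi := Subgroup.card_mul_index (Subgroup.center P ⊔ Subgroup.zpowers x)
    rw [hy, hk, hkz] at hi
    have hdvd : (Subgroup.center P ⊔ Subgroup.zpowers x).index ∣ p := by
      have h7 : p ^ (z + 2) ∣ p ^ y * p := by
        rw [← pow_succ]
        exact pow_dvd_pow p (by omega)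
      rw [← hi] at h7
      exact Nat.dvd_of_mul_dvd_mul_left (pow_pos hp.pos y) h7
    refine ((Nat.dvd_prime hp).mp hdvd).resolve_left fun h => ?_
    rw [Subgroup.index_eq_one] at h
    apply hcomm
    intro a b
    exact hcommC a (h ▸ Subgroup.mem_top a) b (h ▸ Subgroup.mem_top b)

end H83.LX
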