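import Pool.Agent.H83.LX.ADef

/-!
# [H83 LX GRPM] the group data (70-120 lines)

`Q` finite, `M` normal of index `p`, `c ∉ M`, `c^p = 1`. For `m ∈ M` let `δ m = m⁻¹ (c m c⁻¹) ∈ M` (`M` normal). By hypothesis every `m' ∈ M` commutes with
every `δ m`. So `δ (m m') = m'⁻¹ m⁻¹ (c m c⁻¹) (c m' c⁻¹) = m'⁻¹ (δ m) (c m' c⁻¹) = (δ m) (m'⁻¹ c m' c⁻¹) = δ m δ m'`: `δ : M → M` is a homomorphism. `D` = the
range of `δ` as a subgroup of `M` (or of `Q`); it is commutative (the elements of `D` lie in `M` and commute with all `δ m`). `j` the inclusion, `del = δ`.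
`θ`: conjugation by `c` maps `D` to `D`: `c δ(m) c⁻¹ = δ (c m c⁻¹)` (and `c⁻¹` as well). `gen`: `Q ⧸ M` has prime order `p` and is generated by the
class of `c` (`c ∉ M`): `isCyclic`/`mem_zpowers` for groups of prime order; `g c^{-k} ∈ M`. `notin`: `c^k ∈ M` and `p ∤ k` would give `c ∈ M`
(`c^p = 1`, Bezout; or `orderOf (class of c) = p`).
-/

set_option autoImplicit false

open scoped NumberField Pointwise
open scoped Classical

noncomputable section

namespace H83.LX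

open H38.TD H38.ML

theorem grpm {Q : Type} [Group Q] [Finite Q] {p : ℕ} (hp : p.Prime) (M : Subgroup Q)
    (hn : M.Normal) (hi : M.index = p) (c : Q) (hc : c ∉ M) (hcp : c ^ p = 1)
    (hcen : ∀ m ∈ M, ∀ m' ∈ M, m' * (m⁻¹ * (c * m * c⁻¹)) = m⁻¹ * (c * m * c⁻¹) * m') :
    ∃ (D : Type) (_ : CommGroup D) (_ : Finite D) (X : MXD p D Q), X.M = M ∧ X.c = c ∧
      ∀ d, ∃ m ∈ M, X.j d = m⁻¹ * (c * m * c⁻¹) := by
  have hcM : ∀ m ∈ M, c * m * c⁻¹ ∈ M := fun m hm => hn.conj_mem m hm c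
  let δ : M →* Q := MonoidHom.mk' (fun m => (m : Q)⁻¹ * (c * m * c⁻¹)) (by
    intro a b
    have h := hcen a a.2 b b.2
    have h2 : ((a * b : M) : Q) = a * b := rfl
    rw [h2]
    calc ((a : Q) * b)⁻¹ * (c * (a * b) * c⁻¹)
        = (b : Q)⁻¹ * ((a : Q)⁻¹ * (c * a * c⁻¹) * b) * ((b : Q)⁻¹ * (c * b * c⁻¹)) := by group
      _ = (b : Q)⁻¹ * (b * ((a : Q)⁻¹ * (c * a * c⁻¹))) * ((b : Q)⁻¹ * (c * b * c⁻¹)) := by
          rw [h]
      _ = _ := by group)
  have hδ : ∀ m : M, δ m = (m : Q)⁻¹ * (c * m * c⁻¹) := fun _ => rfl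
  have hδM : ∀ m : M, δ m ∈ M := fun m => M.mul_mem (M.inv_mem m.2) (hcM m m.2)
  have hRM : ∀ x ∈ δ.range, x ∈ M := by
    rintro _ ⟨m, rfl⟩
    exact hδM m
  have hcenR : ∀ m ∈ M, ∀ x ∈ δ.range, m * x = x * m := by
    rintro m hm _ ⟨m', rfl⟩
    rw [hδ]
    exact hcen m' m'.2 m hm
  let instC : CommGroup δ.range :=
    { (inferInstance : Group δ.range) with
      mul_comm := fun a b => Subtype.ext (hcenR a (hRM a a.2) b b.2) }
  have hcR : ∀ x ∈ δ.range, c * x * c⁻¹ ∈ δ.range := by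
    rintro _ ⟨m, rfl⟩
    refine ⟨⟨c * m * c⁻¹, hcM m m.2⟩, ?_⟩
    rw [hδ, hδ]
    simp only
    group
  let θ0 : δ.range →* δ.range :=
    MonoidHom.mk' (fun x => ⟨c * x * c⁻¹, hcR x x.2⟩) (by
      intro a b
      apply Subtype.ext
      have h2 : ((a * b : δ.range) : Q) = a * b := rfl
      simp only [MulMemClass.mk_mul_mk]
      rw [h2]
      group)
  have hθ0 : Function.Injective θ0 := by
    intro a b hab
    have h1 : c * (a : Q) * c⁻¹ = c * b * c⁻¹ := congrArg Subtype.val hab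
    apply Subtype.ext
    have h2 := congrArg (fun x => c⁻¹ * x * c) h1
    simpa [mul_assoc] using h2
  have hfin : Finite δ.range := inferInstance
  have hbij : Function.Bijective θ0 := ⟨hθ0, Finite.surjective_of_injective hθ0⟩
  have hFp : Fact p.Prime := ⟨hp⟩
  have hcard : Nat.card (Q ⧸ M) = p := hi
  have hc1 : (QuotientGroup.mk c : Q ⧸ M) ≠ 1 := by
    rw [Ne, QuotientGroup.eq_one_iff]
    exact hc
  refine ⟨δ.range, instC, hfin,
    { M := M, j := δ.range.subtype, θ := MulEquiv.ofBijective θ0 hbij, c := c,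
      del := δ.rangeRestrict
      jinj := Subtype.val_injective
      jM := fun d => hRM d d.2
      cen := fun m hm d => hcenR m hm d d.2
      cp := hcp
      conj := fun d => rfl
      dsur := δ.rangeRestrict_surjective
      cj := fun m => by
        have h1 : δ.range.subtype (δ.rangeRestrict m) = (m : Q)⁻¹ * (c * m * c⁻¹) := rfl
        rw [h1]
        group
      gen := ?_
      notin := ?_ }, rfl, rfl, ?_⟩
  · intro g
    obtain ⟨k, hk⟩ := mem_powers_of_prime_card hcard hc1 (g' := (QuotientGroup.mk g : Q ⧸ M))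
    have hk' : (QuotientGroup.mk (c ^ k) : Q ⧸ M) = QuotientGroup.mk g := hk
    have h1 : (c ^ k)⁻¹ * g ∈ M := QuotientGroup.eq.1 hk'
    have h2 : g * (c ^ k)⁻¹ ∈ M := hn.mem_comm_iff.1 h1
    exact ⟨⟨g * (c ^ k)⁻¹, h2⟩, k, by simp⟩
  · intro k hk
    have h1 : (QuotientGroup.mk c : Q ⧸ M) ^ k = 1 := by
      rw [← QuotientGroup.mk_pow, QuotientGroup.eq_one_iff]
      exact hk
    have h2 : (QuotientGroup.mk c : Q ⧸ M) ^ p = 1 := by
      rw [← QuotientGroup.mk_pow, hcp]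
      rfl
    have h3 : orderOf (QuotientGroup.mk c : Q ⧸ M) = p := orderOf_eq_prime h2 hc1
    rw [← h3]
    exact orderOf_dvd_of_pow_eq_one h1
  · rintro ⟨_, m, rfl⟩
    exact ⟨m, m.2, rfl⟩

end H83.LX
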