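import Pool.Agent.H83.LW.HXM
import Pool.Agent.H83.LW.CNTA

/-!
# LX-ADEF: definitions for the algebraic part (complete)

`MXD p D Q`: a group `Q = M ⟨c⟩`, `c^p = 1`, `M` of index `p`, a commutative subgroup `j(D)` of the centre of `M` such that
`c m c⁻¹ = m j(del m)` for a surjective homomorphism `del : M → D`; `c j(d) c⁻¹ = j(θ d)`.
`OverQ`: `ρ` modulo `M` is the Kummer character of `x`. `CjAt`: the images of the inertia groups over `v` consist of conjugates of powers of `c`.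
-/

set_option autoImplicit false

open scoped NumberField Pointwise
open scoped Classical

noncomputable section

namespace H83.LX

open H38.TD H38.ML

/-- the group data -/
structure MXD (p : ℕ) (D Q : Type) [CommGroup D] [Group Q] where
  /-- the subgroup of index `p` -/
  M : Subgroup Q
  /-- the inclusion -/
  j : D →* Q
  /-- conjugation by `c` on `D` -/
  θ : D ≃* D
  /-- the generator of the complement -/
  c : Q
  /-- the commutator with `c` -/
  del : M →* D
  jinj : Function.Injective j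
  jM : ∀ d, j d ∈ M
  cen : ∀ m ∈ M, ∀ d, m * j d = j d * m
  cp : c ^ p = 1
  conj : ∀ d, c * j d * c⁻¹ = j (θ d)
  dsur : Function.Surjective del
  cj : ∀ m : M, c * m * c⁻¹ = m * j (del m)
  gen : ∀ g : Q, ∃ (m : M) (k : ℕ), g = m * c ^ k
  notin : ∀ k : ℕ, c ^ k ∈ M → p ∣ k

section homs

variable {K Ω : Type} [Field K] [Field Ω] [Algebra K Ω]

/-- `ρ` modulo `M` is the Kummer character of `x` -/
def OverQ {D Q : Type} [CommGroup D] [Group Q] {p : ℕ} (X : MXD p D Q) (ζp : K) (x : Kˣ)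
    (ρ : Gal(Ω/K) →* Q) : Prop :=
  ∃ B : Ω, B ^ p = algebraMap K Ω x ∧ ∀ (σ : Gal(Ω/K)) (k : ℕ),
    σ B = algebraMap K Ω ζp ^ k * B → ∃ m ∈ X.M, ρ σ = m * X.c ^ k

/-- the images of the inertia groups over `v` consist of conjugates of powers of `c` -/
def CjAt {Q : Type} [Group Q] (c : Q) (ρ : Gal(Ω/K) →* Q) (v : Ideal (𝓞 K)) : Prop :=
  ∀ 𝔓 : Ideal (𝓞 Ω), 𝔓.IsPrime → 𝔓.under (𝓞 K) = v →
    ∀ τ ∈ 𝔓.inertia Gal(Ω/K), ∃ (g : Q) (k : ℕ), ρ τ = g * c ^ k * g⁻¹

end homs

end H83.LX
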