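import Pool.Agent.H38.TD.TdOne
import Pool.Agent.H83.LX.ADef

/-!
# LX-TDO: from homomorphisms to fields, with a condition on the inertia groups (adaptation of `td_one`; proved)
-/

open scoped NumberField Pointwise
open H38.ML

noncomputable section

namespace H83.LX

open H38.TD

theorem orbs_of_mem {n : ℕ} (G : Subgroup (Equiv.Perm (Fin n))) {p : ℕ} (hp : p.Prime)
    (J : Subgroup G)
    (hleast : ∀ g ∈ J, orderOf g = p → ind (g : Equiv.Perm (Fin n)) = indG G)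
    (hJ : Nat.card J ∣ p) : n ≤ indG G + orbs (J.map G.subtype) := by
  rcases (Nat.dvd_prime hp).mp hJ with h | h
  · rw [Subgroup.card_eq_one] at h
    rw [h, Subgroup.map_bot, orbs_bot]
    omega
  · have := Fact.mk hp
    have : IsCyclic J := isCyclic_of_prime_card h
    obtain ⟨g, hg⟩ := (Subgroup.isCyclic_iff_exists_zpowers_eq_top J).mp inferInstance
    have h1 : orderOf g = p := by rw [← Nat.card_zpowers, hg, h]
    have h2 := hleast g (by rw [← hg]; exact Subgroup.mem_zpowers g) h1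
    rw [← h2, ← hg, MonoidHom.map_zpowers]
    change n ≤ (n - orbs (Subgroup.zpowers (g : Equiv.Perm (Fin n)))) +
      orbs (Subgroup.zpowers (g : Equiv.Perm (Fin n)))
    omega

/-- For one homomorphism onto `G ⧸ N`: a homomorphism onto `G` whose field has a small
discriminant. -/
theorem tdo {n : ℕ} (G : Subgroup (Equiv.Perm (Fin n)))
    (hG : MulAction.IsPretransitive G (Fin n)) (i₀ : Fin n) {p : ℕ} (hp : p.Prime)
    (N : Subgroup G) [N.Normal] (Λ : Set (G ⧸ N))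
    (hleast : ∀ g : G, orderOf g = p → (g : G ⧸ N) ∈ Λ →
      ind (g : Equiv.Perm (Fin n)) = indG G)
    (htow : GoodTower N) (K : IntermediateField ℚ QBar) [FiniteDimensional ℚ K]
    [NumberField K] (htc : NumberField.IsTotallyComplex K)
    (hpl : 2 * Nat.card G + 1 ≤ Fintype.card (NumberField.InfinitePlace K)) (ζ : K)
    (hζ : IsPrimitiveRoot ζ (Nat.card G)) (ρ : Gal(QBar/K) →* G ⧸ N)
    (hρ : Function.Surjective ρ) (hft : FT ρ) (S : Set (Ideal (𝓞 K)))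
    (hSG : ∀ v : Pl K, v.asIdeal ∉ S → ((Nat.card G : ℕ) : 𝓞 K) ∉ v.asIdeal)
    (hsm : ∀ v : Pl K, v.asIdeal ∉ S → ∀ 𝔓 : Ideal (𝓞 QBar), 𝔓.IsPrime →
      𝔓.under (𝓞 K) = v.asIdeal → Nat.card ((𝔓.inertia Gal(QBar/K)).map ρ) ∣ p)
    (hΛ : ∀ v : Pl K, v.asIdeal ∉ S → ∀ 𝔓 : Ideal (𝓞 QBar), 𝔓.IsPrime →
      𝔓.under (𝓞 K) = v.asIdeal → ∀ τ ∈ 𝔓.inertia Gal(QBar/K), ρ τ = 1 ∨ ρ τ ∈ Λ)
    (T : Finset (Pl K)) (hTS : ∀ v ∈ T, v.asIdeal ∉ S)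
    (hT : ∀ v : Pl K, v.asIdeal ∉ S → v ∉ T → UnrAt ρ v.asIdeal)
    (C : ℕ)
    (hC : ∀ (L : IntermediateField K QBar) (_ : FiniteDimensional K L)
      (_ : NumberField L), Module.finrank K L = n →
      ∀ (T : Finset (Ideal (𝓞 K))) (w : ℕ), (∀ v ∈ T, v.IsPrime ∧ v ≠ ⊥) →
        (∀ v ∈ T, ∃ 𝔓 : Ideal (𝓞 QBar), 𝔓.IsPrime ∧ 𝔓.under (𝓞 K) = v ∧
          n ≤ w + embOrb L (𝔓.inertia Gal(QBar/K))) →
        (∀ v : Ideal (𝓞 K), v.IsPrime → v ≠ ⊥ → v ∉ S → v ∉ T →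
          ∃ 𝔓 : Ideal (𝓞 QBar), 𝔓.IsPrime ∧ 𝔓.under (𝓞 K) = v ∧
            n ≤ embOrb L (𝔓.inertia Gal(QBar/K))) →
        Ideal.absNorm (differentIdeal (𝓞 K) (𝓞 L)) ≤ C * (∏ v ∈ T, Ideal.absNorm v) ^ w) :
    ∃ ρ' : Gal(QBar/K) →* G, Function.Surjective ρ' ∧ FT ρ' ∧
      (∀ σ, ((ρ' σ : G) : G ⧸ N) = ρ σ) ∧
      relDisc K (fieldOf i₀ ρ') ≤ C * (∏ v ∈ T, nv v) ^ indG G := by
  obtain ⟨ρ', hρ', hρft, hρN, hρI⟩ := low_chain2 N htow htc hpl ζ hζ ρ hρ hft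
  refine ⟨ρ', hρ', hρft, hρN, ?_⟩
  obtain ⟨hfin, hrank, hsmall, horb⟩ := small_field G hG K i₀ ρ' hρ' hρft
  have := hfin
  have : NumberField (fieldOf i₀ ρ') := NumberField.of_module_finite K _
  have hdisc : relDisc K (fieldOf i₀ ρ') =
      Ideal.absNorm (differentIdeal (𝓞 K) (𝓞 (fieldOf i₀ ρ'))) := by
    rw [relDisc, dif_pos (show NumberField (fieldOf i₀ ρ') from inferInstance)]
  have hprod : (∏ v ∈ T, nv v) =
      ∏ v ∈ T.map ⟨fun v : Pl K => v.asIdeal, fun _ _ h =>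
        IsDedekindDomain.HeightOneSpectrum.ext h⟩, Ideal.absNorm v := by
    rw [Finset.prod_map]
    rfl
  rw [hdisc, hprod]
  have hTmem : ∀ v ∈ T.map ⟨fun v : Pl K => v.asIdeal, fun _ _ h =>
        IsDedekindDomain.HeightOneSpectrum.ext h⟩, ∃ u : Pl K, u ∈ T ∧ u.asIdeal = v := by
    intro v hv
    obtain ⟨u, hu, rfl⟩ := Finset.mem_map.mp hv
    exact ⟨u, hu, rfl⟩
  refine hC _ hfin inferInstance hrank _ (indG G) ?_ ?_ ?_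
  · intro v hv
    obtain ⟨u, _, rfl⟩ := hTmem v hv
    exact ⟨u.isPrime, u.ne_bot⟩
  · intro v hv
    obtain ⟨u, hu, rfl⟩ := hTmem v hv
    obtain ⟨𝔓, h𝔓, h𝔓v⟩ := exists_over (Ω := QBar) u.asIdeal u.isPrime
    refine ⟨𝔓, h𝔓, h𝔓v, ?_⟩
    rw [horb]
    have hG𝔓 : ((Nat.card G : ℕ) : 𝓞 QBar) ∉ 𝔓 :=
      natCast_notMem_over (K := K) 𝔓 _ (by rw [h𝔓v]; exact hSG u (hTS u hu))
    refine orbs_of_mem G hp ((𝔓.inertia Gal(QBar/K)).map ρ') (fun g hg hgp => hleast g hgp ?_) ?_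
    · obtain ⟨τ, hτ, rfl⟩ := hg
      rw [hρN]
      refine (hΛ u (hTS u hu) 𝔓 h𝔓 h𝔓v τ hτ).resolve_left fun h => ?_
      rw [hρI 𝔓 h𝔓 hG𝔓 τ hτ h, orderOf_one] at hgp
      exact hp.one_lt.ne hgp
    have h1 := hsm u (hTS u hu) 𝔓 h𝔓 h𝔓v
    have h2 : Nat.card ((𝔓.inertia Gal(QBar/K)).map ρ') =
        Nat.card ((𝔓.inertia Gal(QBar/K)).map ρ) := by
      have h3 : (𝔓.inertia Gal(QBar/K)).map ρ =
          ((𝔓.inertia Gal(QBar/K)).map ρ').map (QuotientGroup.mk' N) := by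
        rw [Subgroup.map_map]
        congr 1
        ext σ
        exact (hρN σ).symm
      rw [h3]
      refine Nat.card_congr (Equiv.ofBijective
        (fun x => ⟨QuotientGroup.mk' N x.1, ⟨x.1, x.2, rfl⟩⟩) ⟨?_, ?_⟩)
      · rintro ⟨x, hx⟩ ⟨y, hy⟩ hxy
        obtain ⟨τ, hτ, rfl⟩ := hx
        obtain ⟨τ', hτ', rfl⟩ := hy
        have h4 : ((ρ' τ : G) : G ⧸ N) = ((ρ' τ' : G) : G ⧸ N) := congrArg Subtype.val hxy
        rw [hρN, hρN] at h4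
        have h5 : ρ (τ⁻¹ * τ') = 1 := by rw [map_mul, map_inv, h4, inv_mul_cancel]
        have h6 := hρI 𝔓 h𝔓 hG𝔓 (τ⁻¹ * τ') (mul_mem (inv_mem hτ) hτ') h5
        rw [map_mul, map_inv, inv_mul_eq_one] at h6
        exact Subtype.ext h6
      · rintro ⟨_, ⟨x, hx, rfl⟩⟩
        exact ⟨⟨x, hx⟩, rfl⟩
    rw [h2]
    exact h1
  · intro v hvp hv0 hvS hvT
    obtain ⟨𝔓, h𝔓, h𝔓v⟩ := exists_over (Ω := QBar) v hvp
    refine ⟨𝔓, h𝔓, h𝔓v, ?_⟩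
    rw [horb]
    let u : Pl K := ⟨v, hvp, hv0⟩
    have hG𝔓 : ((Nat.card G : ℕ) : 𝓞 QBar) ∉ 𝔓 :=
      natCast_notMem_over (K := K) 𝔓 _ (by rw [h𝔓v]; exact hSG u hvS)
    have h1 : (𝔓.inertia Gal(QBar/K)).map ρ' = ⊥ := by
      rw [eq_bot_iff]
      rintro _ ⟨τ, hτ, rfl⟩
      rw [Subgroup.mem_bot]
      apply hρI 𝔓 h𝔓 hG𝔓 τ hτ
      refine hT u hvS ?_ 𝔓 h𝔓 h𝔓v τ hτ
      intro hu
      exact hvT (Finset.mem_map.mpr ⟨u, hu, rfl⟩)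
    rw [h1, Subgroup.map_bot, orbs_bot]

end H83.LX
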