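import Pool.Agent.H83.LX.CNTX
import Pool.Agent.H83.LX.TDO
import Pool.Agent.H83.LX.GRPM

/-!
# LX-TDX: the lower bound (final assembly; proved)
-/

open scoped NumberField Pointwise
open H38.ML

noncomputable section

namespace H83.LX

open H38.TD

/-- powers of `c` modulo `p` -/
theorem tdx_pow {Q : Type} [Group Q] {p : ℕ} {c : Q} (hc : c ^ p = 1) {k k' : ℕ}
    (h : ((k : ZMod p)) = k') : c ^ k = c ^ k' := by
  rw [ZMod.natCast_eq_natCast_iff] at h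
  exact pow_eq_pow_iff_modEq.2 (h.of_dvd (orderOf_dvd_of_pow_eq_one hc))

theorem tdx {n : ℕ} (hn : 2 ≤ n) (G : Subgroup (Equiv.Perm (Fin n)))
    (hG : MulAction.IsPretransitive G (Fin n)) {p : ℕ} (hp : p.Prime)
    (N : Subgroup G) (hN : N.Normal) (htow : GoodTower N) (hNp : ¬ p ∣ Nat.card N)
    (M : Subgroup G) (hM : M.Normal) (hNM : N ≤ M) (hi : M.index = p)
    (hMr : Realizable (M.map (QuotientGroup.mk' N))) (c : G) (hc : c ∉ M) (hcp : c ^ p ∈ N)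
    (hcen : ∀ m ∈ M, ∀ m' ∈ M,
      m' * (m⁻¹ * c * m * c⁻¹) * m'⁻¹ * (m⁻¹ * c * m * c⁻¹)⁻¹ ∈ N)
    (hD : ∀ m ∈ M, ∃ k : ℕ, (m⁻¹ * c * m * c⁻¹) ^ p ^ k ∈ N)
    (hleast : ∀ g : G, (g ≠ 1 ∧ ind (g : Equiv.Perm (Fin n)) = indG G) ↔
      (orderOf g = p ∧ ∃ (h : G) (k : ℕ), h⁻¹ * g * h * (c ^ k)⁻¹ ∈ N)) :
    ∃ K₀ : IntermediateField ℚ QBar, FiniteDimensional ℚ K₀ ∧
      ∀ K : IntermediateField ℚ QBar, K₀ ≤ K → FiniteDimensional ℚ K →
        ∃ c : ℝ, 0 < c ∧ ∃ B₀ : ℝ, ∀ B : ℝ, B₀ ≤ B →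
          ((⌈c * B ^ (1 / (indG G : ℝ)) * Real.log B ^ (betaAll G K - 1)⌉₊ : ℕ) : ℕ∞) ≤
            nK G K B := by
  classical
  have := Fact.mk hp
  have : NeZero p := ⟨hp.ne_zero⟩
  -- the quotient
  set π := QuotientGroup.mk' N with hπ
  have hπs : Function.Surjective π := QuotientGroup.mk'_surjective N
  have hker : ∀ g : G, π g = 1 ↔ g ∈ N := fun g => QuotientGroup.eq_one_iff g
  have hMM : ∀ g : G, π g ∈ M.map π ↔ g ∈ M := by
    intro g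
    constructor
    · rintro ⟨m, hm, h⟩
      have h1 : m⁻¹ * g ∈ N := by
        rw [← hker, map_mul, map_inv, h, inv_mul_cancel]
      have h2 := mul_mem hm (hNM h1)
      rwa [mul_inv_cancel_left] at h2
    · exact fun h => ⟨g, h, rfl⟩
  have hMn : (M.map π).Normal := hM.map π hπs
  have hMi : (M.map π).index = p := by
    rw [Subgroup.index_map, QuotientGroup.ker_mk', sup_of_le_left hNM, hi,
      MonoidHom.range_eq_top.mpr hπs, Subgroup.index_top, mul_one]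
  have hcp' : (π c) ^ p = 1 := by rw [← map_pow, hker]; exact hcp
  obtain ⟨D, i1, i2, X, hXM, hXc, hXj⟩ := grpm hp (M.map π) hMn hMi (π c)
    (fun h => hc ((hMM c).1 h)) hcp' (by
      rintro _ ⟨m, hm, rfl⟩ _ ⟨m', hm', rfl⟩
      have h1 := (hker _).2 (hcen m hm m' hm')
      simp only [map_mul, map_inv] at h1
      rw [mul_inv_eq_one, mul_inv_eq_iff_eq_mul] at h1
      simp only [← mul_assoc] at h1 ⊢
      exact h1)
  have hPD : IsPGroup p D := by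
    intro d
    obtain ⟨_, ⟨m, hm, rfl⟩, hd⟩ := hXj d
    obtain ⟨k, hk⟩ := hD m hm
    refine ⟨k, X.jinj ?_⟩
    rw [map_pow, map_one, hd]
    have h1 := (hker _).2 hk
    simp only [map_pow, map_mul, map_inv] at h1
    simp only [← mul_assoc] at h1 ⊢
    exact h1
  obtain ⟨k, hk⟩ := IsPGroup.iff_card.mp hPD
  have hDp : ∀ d : D, d ^ p ^ k = 1 := by
    intro d
    rw [← hk]
    exact pow_card_eq_one'
  have hDQ : Nat.card D ∣ Nat.card (G ⧸ N) := by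
    rw [← Nat.card_range_of_injective X.jinj]
    exact Subgroup.card_subgroup_dvd_card X.j.range
  have hQG : Nat.card (G ⧸ N) ∣ Nat.card G := by
    rw [Subgroup.card_eq_card_quotient_mul_card_subgroup N]
    exact dvd_mul_right _ _
  have hDG : Nat.card D ∣ Nat.card G := hDQ.trans hQG
  have hpG : p ∣ Nat.card G := by
    rw [← hi]
    exact Subgroup.index_dvd_card M
  have hDle : Nat.card D ≤ Nat.card G := Nat.le_of_dvd Nat.card_pos hDG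
  obtain ⟨K₁, hK₁, hreal⟩ := hMr
  obtain ⟨K₂, hK₂, hbase⟩ := base_field (4 * Nat.card G) (2 * Nat.card G + 8)
    (Nat.mul_pos (by norm_num) Nat.card_pos)
  refine ⟨K₁ ⊔ K₂, IntermediateField.finiteDimensional_sup K₁ K₂, ?_⟩
  intro K hK hKfin
  have : NumberField K := numberField_of_finite K
  obtain ⟨⟨ζ₀, hζ₀⟩, htc, hpl⟩ := hbase K inferInstance (le_trans le_sup_right hK)
  obtain ⟨ψ', hψ's, hψ'f⟩ := hreal K (le_trans le_sup_left hK) hKfin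
  obtain ⟨ζG, hζG⟩ : ∃ ζG : K, IsPrimitiveRoot ζG (Nat.card G) :=
    ⟨ζ₀ ^ 4, hζ₀.pow (Nat.mul_pos (by norm_num) Nat.card_pos) rfl⟩
  have hmone : H63.MA.MOne p K := by
    by_cases h2 : p = 2
    · subst h2
      have h4 : IsPrimitiveRoot (ζ₀ ^ Nat.card G) 4 :=
        hζ₀.pow (Nat.mul_pos (by norm_num) Nat.card_pos) (mul_comm _ _)
      have h5 : IsPrimitiveRoot ((ζ₀ ^ Nat.card G) ^ 2) 2 := h4.pow (by norm_num) (by norm_num)
      exact ⟨ζ₀ ^ Nat.card G, h5.eq_neg_one_of_two_right⟩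
    · exact H63.MA.mone_odd hp h2 K
  -- roots of unity
  obtain ⟨ζ, hζ⟩ : ∃ ζ : K, IsPrimitiveRoot ζ (p ^ k) := by
    rw [← hk]
    obtain ⟨m, hm⟩ := hDG
    exact ⟨ζG ^ m, hζG.pow Nat.card_pos (by rw [hm, mul_comm])⟩
  obtain ⟨ζp, hζp⟩ : ∃ ζ : K, IsPrimitiveRoot ζ p := by
    obtain ⟨m, hm⟩ := hpG
    exact ⟨ζG ^ m, hζG.pow Nat.card_pos (by rw [hm, mul_comm])⟩
  -- the homomorphism onto `M`
  obtain ⟨ψ, hψs, hψf⟩ : ∃ ψ : Gal(QBar/K) →* X.M, Function.Surjective ψ ∧ FT ψ := by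
    rw [hXM]
    exact ⟨ψ', hψ's, hψ'f⟩
  -- bad primes
  have hGne : (((Nat.card G * n.factorial : ℕ) : ℕ) : 𝓞 K) ≠ 0 := by
    rw [Nat.cast_ne_zero]
    exact Nat.mul_ne_zero Nat.card_pos.ne' (Nat.factorial_ne_zero n)
  let B₀ : Set (Ideal (𝓞 K)) := {v | ∃ Q : Ideal (𝓞 K), Q.IsPrime ∧
    Ideal.span {(((Nat.card G * n.factorial : ℕ) : ℕ) : 𝓞 K)} ≤ Q ∧ Q.under (𝓞 K) = v}
  have hB₀ : B₀.Finite := finite_primes_below K K _ (by simpa using hGne)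
  let S₀ : Set (Pl K) := {v | v.asIdeal ∈ B₀}
  have hS₀ : S₀.Finite := by
    refine Set.Finite.of_finite_image (f := fun v : Pl K => v.asIdeal) (hB₀.subset ?_) ?_
    · rintro _ ⟨v, hv, rfl⟩
      exact hv
    · intro v _ v' _ h
      exact IsDedekindDomain.HeightOneSpectrum.ext h
  have hS₀mem : ∀ v : Pl K, (((Nat.card G * n.factorial : ℕ) : ℕ) : 𝓞 K) ∈ v.asIdeal →
      v ∈ S₀ := by
    intro v hmem
    refine ⟨v.asIdeal, v.isPrime, ?_, ?_⟩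
    · rw [Ideal.span_singleton_le_iff_mem]; exact hmem
    · ext x; simp [Ideal.mem_comap]
  -- the classes
  have hleast' : ∀ g : G, g ≠ 1 → ind (g : Equiv.Perm (Fin n)) = indG G →
      g ∈ (⊤ : Subgroup G) ∧ Nat.Coprime (orderOf g) (Nat.card N) := by
    intro g hg hi
    refine ⟨Subgroup.mem_top g, ?_⟩
    rw [((hleast g).mp ⟨hg, hi⟩).1]
    exact (Nat.Prime.coprime_iff_not_dvd hp).mpr hNp
  have hbeta := beta_eq_betaAll G K ⊤ N hleast'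
  obtain ⟨a₀, g, hga, hg, ha1, hnconj⟩ := classes G K ζG hζG ⊤ N
  have hcls : ∀ i, ∃ (h : G ⧸ N) (l : ℕ), a₀ i = h * (π c) ^ l * h⁻¹ := by
    intro i
    obtain ⟨-, h, l, hl⟩ := (hleast (g i)).mp ⟨(hg i).2.1, (hg i).2.2.1⟩
    refine ⟨π h, l, ?_⟩
    have h1 := (hker _).2 hl
    simp only [map_mul, map_inv, map_pow] at h1
    have h2 : π (g i) = a₀ i := hga i
    rw [h2, mul_inv_eq_one] at h1
    rw [← h1]
    group
  have hbp : betaAll G K ≤ p - 1 := by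
    rw [← hbeta]
    choose h l hl using hcls
    have h0 : ∀ i, (l i : ZMod p) ≠ 0 := by
      intro i h0
      apply ha1 i
      rw [hl i, tdx_pow hcp' (k' := 0) (by rw [h0, Nat.cast_zero]), pow_zero]
      simp
    have hinj : Function.Injective (fun i => (⟨(l i : ZMod p), h0 i⟩ : {z : ZMod p // z ≠ 0})) := by
      intro i i' hii
      have h1 : (l i : ZMod p) = l i' := congrArg Subtype.val hii
      apply hnconj i i' (h i' * (h i)⁻¹)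
      rw [hl i, hl i', tdx_pow hcp' h1]
      group
    have h2 := Fintype.card_le_of_injective _ hinj
    rw [Fintype.card_fin, Fintype.card_subtype_compl, ZMod.card] at h2
    simpa using h2
  have hXcc : X.c = π c := hXc
  obtain ⟨S, hS, hS₀S, c₁, hc₁, X₀, hcount⟩ := cntx (Ω := QBar) X hp hmone k ζ hζ ζp hζp hDp htc
    (Nat.card D + 6) (by omega) le_rfl S₀ hS₀ ψ hψs hψf
  let S' : Set (Ideal (𝓞 K)) := (fun v : Pl K => v.asIdeal) '' S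
  have hS' : S'.Finite := hS.image _
  have hS'S : ∀ v : Pl K, v.asIdeal ∉ S' → v ∉ S := fun v hv h => hv ⟨v, h, rfl⟩
  have hSS' : ∀ v : Pl K, v ∉ S → v.asIdeal ∉ S' := by
    rintro v hv ⟨u, hu, h⟩
    exact hv (IsDedekindDomain.HeightOneSpectrum.ext h ▸ hu)
  have hSG : ∀ v : Pl K, v.asIdeal ∉ S' → ((Nat.card G : ℕ) : 𝓞 K) ∉ v.asIdeal := by
    intro v hv h
    apply hS'S v hv
    apply hS₀S
    apply hS₀mem v
    rw [Nat.cast_mul]
    exact Ideal.mul_mem_right _ _ h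
  have hSn : ∀ v : Ideal (𝓞 K), v.IsPrime → v ≠ ⊥ → v ∉ S' →
      ((n.factorial : ℕ) : 𝓞 K) ∉ v := by
    intro v hvp hv0 hv h
    apply hS'S ⟨v, hvp, hv0⟩ hv
    apply hS₀S
    apply hS₀mem ⟨v, hvp, hv0⟩
    rw [Nat.cast_mul]
    exact Ideal.mul_mem_left _ _ h
  obtain ⟨C, hC0, hC⟩ := disc_bound QBar n S' hS' hSn
  have i₀ : Fin n := ⟨0, by omega⟩
  have hone : ∀ (Y : ℝ) (ρ : Gal(QBar/K) →* G ⧸ N), (Function.Surjective ρ ∧ FT ρ ∧
      (∀ v : Pl K, v ∉ S → SmallAt p ρ v.asIdeal ∧ CjAt X.c ρ v.asIdeal) ∧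
          ∃ T : Finset (Pl K), (∀ v ∈ T, v ∉ S) ∧ ((∏ v ∈ T, nv v : ℕ) : ℝ) ≤ Y ∧
            ∀ v, v ∉ S → v ∉ T → UnrAt ρ v.asIdeal) →
      ∃ ρ' : Gal(QBar/K) →* G, Function.Surjective ρ' ∧ FT ρ' ∧
        (∀ σ, ((ρ' σ : G) : G ⧸ N) = ρ σ) ∧
        (relDisc K (fieldOf i₀ ρ') : ℝ) ≤ C * Y ^ indG G := by
    intro Y ρ ⟨hsur, hft, hsm, T, hTS, hTX, hTun⟩
    have hcj : ∀ v : Pl K, v ∉ S → ∀ 𝔓 : Ideal (𝓞 QBar), 𝔓.IsPrime →
        𝔓.under (𝓞 K) = v.asIdeal → ∀ τ ∈ 𝔓.inertia Gal(QBar/K),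
          ∃ (h : G ⧸ N) (l : ℕ), ρ τ = h * (π c) ^ l * h⁻¹ := by
      intro v hv 𝔓 h𝔓 h𝔓v τ hτ
      obtain ⟨h, l, hl⟩ := (hsm v hv).2 𝔓 h𝔓 h𝔓v τ hτ
      exact ⟨h, l, by rw [hl, hXcc]⟩
    have hsm' : ∀ v : Pl K, v.asIdeal ∉ S' → ∀ 𝔓 : Ideal (𝓞 QBar), 𝔓.IsPrime →
        𝔓.under (𝓞 K) = v.asIdeal → Nat.card ((𝔓.inertia Gal(QBar/K)).map ρ) ∣ p := by
      intro v hv 𝔓 h𝔓 h𝔓v
      have h1 := (hsm v (hS'S v hv)).1 𝔓 h𝔓 h𝔓v
      have h2 : IsPGroup p ((𝔓.inertia Gal(QBar/K)).map ρ) := by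
        rintro ⟨_, ⟨τ, hτ, rfl⟩⟩
        obtain ⟨h, l, hl⟩ := hcj v (hS'S v hv) 𝔓 h𝔓 h𝔓v τ hτ
        refine ⟨1, Subtype.ext ?_⟩
        change (ρ τ) ^ p ^ 1 = 1
        rw [hl, pow_one, conj_pow, ← pow_mul, mul_comm l p, pow_mul, hcp', one_pow, mul_one,
          mul_inv_cancel]
      obtain ⟨m, hm⟩ := IsPGroup.iff_card.mp h2
      rw [hm] at h1 ⊢
      have h4 : m ≤ 1 := by
        by_contra h
        have h5 : p ^ 1 < p ^ m := Nat.pow_lt_pow_right hp.one_lt (by omega)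
        rw [pow_one] at h5
        omega
      calc p ^ m ∣ p ^ 1 := pow_dvd_pow p h4
        _ = p := pow_one p
    obtain ⟨ρ', h1, h2, h3, h4⟩ := tdo G hG i₀ hp N
      {y | ∃ (h : G ⧸ N) (l : ℕ), y = h * (π c) ^ l * h⁻¹}
      (by
        rintro g hgp ⟨h, l, hl⟩
        obtain ⟨h, rfl⟩ := hπs h
        refine ((hleast g).mpr ⟨hgp, h, l, ?_⟩).2
        rw [← hker]
        have hl' : π g = π h * (π c) ^ l * (π h)⁻¹ := hl
        simp only [map_mul, map_inv, map_pow]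
        rw [hl']
        group) htow K
      htc (by omega) ζG hζG ρ hsur hft S' hSG hsm'
      (fun v hv 𝔓 h𝔓 h𝔓v τ hτ => Or.inr (hcj v (hS'S v hv) 𝔓 h𝔓 h𝔓v τ hτ)) T
      (fun v hv => hSS' v (hTS v hv)) (fun v hv hvT => hTun v (hS'S v hv) hvT) C hC
    refine ⟨ρ', h1, h2, h3, ?_⟩
    calc (relDisc K (fieldOf i₀ ρ') : ℝ) ≤ ((C * (∏ v ∈ T, nv v) ^ indG G : ℕ) : ℝ) := by
          exact_mod_cast h4
      _ = (C : ℝ) * ((∏ v ∈ T, nv v : ℕ) : ℝ) ^ indG G := by push_cast; ring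
      _ ≤ (C : ℝ) * Y ^ indG G := by
          apply mul_le_mul_of_nonneg_left _ (Nat.cast_nonneg C)
          exact pow_le_pow_left₀ (Nat.cast_nonneg _) hTX _
  choose! ρf hρf using hone
  have hind : 0 < indG G := by
    have hGb : G ≠ ⊥ := by
      rintro rfl
      rw [Subgroup.card_bot] at hpG
      exact hp.one_lt.ne' (Nat.dvd_one.mp hpG)
    obtain ⟨g₀, hg₀⟩ := exists_least G hGb
    rw [← hg₀.2]
    exact ind_pos _ (fun h => hg₀.1 (Subtype.ext h))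
  obtain ⟨c', hc', B₁, hB⟩ := asym (indG G) (betaAll G K - 1) (Nat.card G ^ Nat.card G) C hind
    (pow_pos Nat.card_pos _) hC0 c₁ hc₁ (max X₀ 3)
  refine ⟨c', hc', B₁, ?_⟩
  intro B hBB
  obtain ⟨Y, hY₀, hY0, hYB, hYc⟩ := hB B hBB
  have hY₀' : X₀ ≤ Y := (le_max_left _ _).trans hY₀
  have hY3 : 3 ≤ Y := (le_max_right _ _).trans hY₀
  obtain ⟨Fs, hTc, hTs⟩ := hcount Y hY₀'
  have hinj : Set.InjOn (ρf Y) (Fs : Set (Gal(QBar/K) →* G ⧸ N)) := by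
    intro ρ hρ ρ₂ hρ₂ h
    apply MonoidHom.ext
    intro σ
    have h1 := (hρf Y ρ (hTs ρ hρ)).2.2.1 σ
    have h2 := (hρf Y ρ₂ (hTs ρ₂ hρ₂)).2.2.1 σ
    rw [← h1, ← h2, h]
  have hmany := many_classes G hG K i₀ B (Fs.image (ρf Y)) (by
    intro ρ hρ
    obtain ⟨ρ₂, hρ₂, rfl⟩ := Finset.mem_image.mp hρ
    obtain ⟨h1, h2, _, h4⟩ := hρf Y ρ₂ (hTs ρ₂ hρ₂)
    exact ⟨h1, h2, h4.trans hYB⟩)
  rw [Finset.card_image_of_injOn hinj] at hmany
  have hlogY : 1 ≤ Real.log Y := by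
    rw [Real.le_log_iff_exp_le (by linarith)]
    exact (Real.exp_one_lt_d9.le.trans (by norm_num)).trans hY3
  cases hk' : nK G K B using ENat.recTopCoe with
  | top => exact le_top
  | coe k' =>
    rw [hk'] at hmany
    have h1 : Fs.card ≤ Nat.card G ^ Nat.card G * k' := by exact_mod_cast hmany
    have h2 : (Fs.card : ℝ) ≤ ((Nat.card G ^ Nat.card G : ℕ) : ℝ) * k' := by exact_mod_cast h1
    have hpos : (0 : ℝ) < ((Nat.card G ^ Nat.card G : ℕ) : ℝ) := by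
      exact_mod_cast pow_pos (Nat.card_pos (α := G)) _
    have h3 : c' * B ^ (1 / (indG G : ℝ)) * Real.log B ^ (betaAll G K - 1) ≤ (k' : ℝ) := by
      refine hYc.trans ?_
      rw [div_le_iff₀ hpos]
      calc c₁ * Y * Real.log Y ^ (betaAll G K - 1) ≤ c₁ * Y * Real.log Y ^ (p - 2) := by
            apply mul_le_mul_of_nonneg_left _ (by positivity)
            exact pow_le_pow_right₀ hlogY (by omega)
        _ ≤ Fs.card := hTc
        _ ≤ ((Nat.card G ^ Nat.card G : ℕ) : ℝ) * k' := h2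
        _ = k' * ((Nat.card G ^ Nat.card G : ℕ) : ℝ) := mul_comm _ _
    have h4 : ⌈c' * B ^ (1 / (indG G : ℝ)) * Real.log B ^ (betaAll G K - 1)⌉₊ ≤ k' :=
      Nat.ceil_le.mpr h3
    exact_mod_cast h4

end H83.LX
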