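import Pool.Agent.H83.LX.ADef

/-!
# LX-BDEF: more definitions for the algebraic part (complete)

`InQ X ρ v`: the images of the elements of the inertia groups over `v` are of the form `j(a) c^k`, and equal to `1` if `p ∣ k`.
`HasE q ζ x σ n`: `σ B = ζ^n B` for every root `B^q = x`.
-/

set_option autoImplicit false

open scoped NumberField Pointwise
open scoped Classical

noncomputable section

namespace H83.LX

open H38.TD H38.ML

section homs

variable {K Ω : Type} [Field K] [Field Ω] [Algebra K Ω]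

/-- the property of the inertia groups over `v` -/
def InQ {D Q : Type} [CommGroup D] [Group Q] {p : ℕ} (X : MXD p D Q)
    (ρ : Gal(Ω/K) →* Q) (v : Ideal (𝓞 K)) : Prop :=
  ∀ 𝔓 : Ideal (𝓞 Ω), 𝔓.IsPrime → 𝔓.under (𝓞 K) = v →
    ∀ τ ∈ 𝔓.inertia Gal(Ω/K), ∃ (a : D) (k : ℕ), ρ τ = X.j a * X.c ^ k ∧ (p ∣ k → ρ τ = 1)

/-- `σ` acts on all `q`-th roots of `x` by `ζ^n` -/
def HasE (q : ℕ) (ζ : K) (x : Kˣ) (σ : Gal(Ω/K)) (n : ℤ) : Prop :=
  ∀ B : Ω, B ^ q = algebraMap K Ω x → σ B = algebraMap K Ω ζ ^ n * B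

end homs

end H83.LX
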