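import Pool.Agent.H83.LX.BDef

/-!
# LX-DKY: the subspace of given independent units (the second half of `dkx` in `H83/LW/UCRD.lean`; proved)
-/

set_option autoImplicit false

open scoped NumberField Pointwise
open IsDedekindDomain
open scoped Classical

noncomputable section

namespace H83.LX

open H63.MA H38.BB H83.LW

variable {K : Type} [Field K] [NumberField K] {p : ℕ} {ζ : K}

theorem dky (D : RD K p ζ) {e : ℕ} (d : Fin e → Kˣ)
    (hd0 : ∀ j v, v ∉ D.S0 → ord v (d j) = 0)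
    (hind : ∀ n : Fin e → ℤ, (∃ y : Kˣ, ∏ j, d j ^ n j = y ^ p) → ∀ j, (p : ℤ) ∣ n j) :
    ∃ 𝒦 : Submodule (ZMod p) (Fin D.r → ZMod p), DK D.toRD0 e d 𝒦 := by
  have hκ : ∀ j : Fin e, ∃ κ : Fin D.r → ZMod p, ∀ v, D.Gd v → D.LL v (d j) = dt κ (D.q v) := by
    intro j
    obtain ⟨κ, h⟩ := D.rec1 (d j)
    refine ⟨κ, fun v hv => ?_⟩
    rw [h v hv]
    have h1 : ∀ w : Pl K, (if w ∈ D.S0 then (0 : ZMod p) else
        D.lam w * (ord w (d j) : ZMod p) * D.LL w (D.pi v)) = 0 := by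
      intro w
      split_ifs with hw
      · rfl
      · rw [hd0 j w hw, Int.cast_zero, mul_zero, zero_mul]
    rw [finsum_congr h1, finsum_zero, add_zero]
    rfl
  choose κ hκ using hκ
  have hdtsum : ∀ (a : Fin e → ZMod p) (x : Fin D.r → ZMod p),
      dt (∑ j, a j • κ j) x = ∑ j, a j * dt (κ j) x := by
    intro a x
    unfold dt
    simp only [Finset.sum_apply, Pi.smul_apply, smul_eq_mul, Finset.sum_mul, Finset.mul_sum]
    rw [Finset.sum_comm]
    simp only [mul_assoc]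
  have hrep : ∀ κ' ∈ Submodule.span (ZMod p) (Set.range κ), ∃ a : Fin e → ZMod p,
      ∀ v, D.Gd v → dt κ' (D.q v) = ∑ j, a j * D.LL v (d j) := by
    intro κ' h
    obtain ⟨a, rfl⟩ := (Submodule.mem_span_range_iff_exists_fun (ZMod p)).mp h
    refine ⟨a, fun v hv => ?_⟩
    rw [hdtsum]
    exact Finset.sum_congr rfl fun j _ => by rw [hκ j v hv]
  have hmem : ∀ j, κ j ∈ Submodule.span (ZMod p) (Set.range κ) := fun j =>
    Submodule.subset_span ⟨j, rfl⟩
  refine ⟨Submodule.span (ZMod p) (Set.range κ), ⟨hd0, hind, fun v hv => ⟨fun h j => ?_,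
    fun h κ' h' => ?_⟩, hrep⟩⟩
  · rw [hκ j v hv]
    exact h _ (hmem j)
  · obtain ⟨a, ha⟩ := hrep κ' h'
    rw [ha v hv]
    exact Finset.sum_eq_zero fun j _ => by rw [h j, mul_zero]

end H83.LX
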