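import Pool.Agent.H83.LX.ADef

/-!
# [H83 LX GRPE] the generators modulo `D₁ = {x / θ x}` (80-130 lines)

`φ x = x * (θ x)⁻¹` is an endomorphism of `D` with kernel `fx θ` and range `D₁`, so `#(D ⧸ D₁) = #(fx θ)`. `D ⧸ D₁` is killed by `p`: `θ^i z ≡ z` modulo `D₁`, so
`z^p ≡ ∏_{i<p} θ^i z = nh θ p z = 1`. So `D ⧸ D₁` is a finite commutative group of exponent `p`, i.e. a vector space over `ZMod p` (`Additive`,
`AddCommGroup.zmodModule`), with a basis of `e` elements; `# = p^e`. Choose `m j` lifting the basis. Spanning: every `z` is congruent to a product of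
powers of the `m j`. Independence: `∏ m_j^{n_j} ∈ D₁` implies that all `n_j` are divisible by `p` (`ZMod.intCast_zmod_eq_zero_iff_dvd`). (See `grpb1` in
`H83/LW/GRPB.lean`, where the same is done for another subgroup.)
-/

set_option autoImplicit false

open scoped NumberField Pointwise
open scoped Classical

noncomputable section

namespace H83.LX

open H38.TD H38.ML

private theorem grpe_vsK (K Q : Type) [Field K] [AddCommGroup Q] [Finite Q] [Module K Q] :
    ∃ (e : ℕ) (b : Fin e → Q), Nat.card Q = Nat.card K ^ e ∧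
      (∀ z : Q, ∃ n : Fin e → K, z = ∑ j, n j • b j) ∧
      ∀ n : Fin e → K, ∑ j, n j • b j = 0 → ∀ j, n j = 0 := by
  have : Module.Finite K Q := Module.Finite.of_finite
  let b := Module.finBasis K Q
  refine ⟨Module.finrank K Q, b, Module.natCard_eq_pow_finrank, ?_, ?_⟩
  · intro z
    exact ⟨fun j => b.repr z j, (b.sum_repr z).symm⟩
  · intro n hn j
    exact (Fintype.linearIndependent_iff.1 b.linearIndependent) _ hn j

private theorem grpe_vs {Q : Type} [AddCommGroup Q] [Finite Q] {p : ℕ} (hp : p.Prime)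
    (hQ : ∀ x : Q, p • x = 0) : ∃ (e : ℕ) (b : Fin e → Q), Nat.card Q = p ^ e ∧
      (∀ z : Q, ∃ n : Fin e → ℤ, z = ∑ j, n j • b j) ∧
      ∀ n : Fin e → ℤ, ∑ j, n j • b j = 0 → ∀ j, (p : ℤ) ∣ n j := by
  have : Fact p.Prime := ⟨hp⟩
  let inst : Module (ZMod p) Q := AddCommGroup.zmodModule hQ
  obtain ⟨e, b, h1, h2, h3⟩ := grpe_vsK (ZMod p) Q
  rw [Nat.card_zmod] at h1
  refine ⟨e, b, h1, ?_, ?_⟩
  · intro z
    obtain ⟨n, hn⟩ := h2 z
    refine ⟨fun j => ((n j).val : ℤ), ?_⟩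
    rw [hn]
    refine Finset.sum_congr rfl fun j _ => ?_
    rw [← Int.cast_smul_eq_zsmul (ZMod p)]
    congr 1
    simp
  · intro n hn j
    have h4 : ∑ j, ((n j : ℤ) : ZMod p) • b j = 0 := by
      rw [← hn]
      refine Finset.sum_congr rfl fun j _ => ?_
      rw [Int.cast_smul_eq_zsmul (ZMod p)]
    exact (ZMod.intCast_zmod_eq_zero_iff_dvd (n j) p).1 (h3 _ h4 j)

theorem grpe {D : Type} [CommGroup D] [Finite D] {p : ℕ} (hp : p.Prime) (θ : D ≃* D)
    (hN : ∀ d, nh θ p d = 1) :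
    ∃ (e : ℕ) (m : Fin e → D), Nat.card (fx θ) = p ^ e ∧
      (∀ z : D, ∃ (n : Fin e → ℤ) (x : D), z = (∏ j, m j ^ n j) * (x * (θ x)⁻¹)) ∧
      ∀ n : Fin e → ℤ, (∃ x : D, ∏ j, m j ^ n j = x * (θ x)⁻¹) → ∀ j, (p : ℤ) ∣ n j := by
  let φ : D →* D := MonoidHom.mk' (fun x => x * (θ x)⁻¹) (by
    intro a b
    simp only [map_mul, mul_inv]
    exact mul_mul_mul_comm _ _ _ _)
  have hφ : ∀ x, φ x = x * (θ x)⁻¹ := fun _ => rfl
  set D1 := φ.range with hD1
  have hker : φ.ker = fx θ := by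
    ext x
    rw [MonoidHom.mem_ker, hφ, mul_inv_eq_one]
    exact eq_comm
  have hcard : Nat.card (D ⧸ D1) = Nat.card (fx θ) := by
    have h1 : φ.ker.index = Nat.card φ.range := Subgroup.index_ker φ
    have h2 := φ.ker.card_mul_index
    have h3 := D1.card_mul_index
    rw [h1, hker] at h2
    have h4 : 0 < Nat.card φ.range := Nat.card_pos
    have h5 : Nat.card φ.range * D1.index = Nat.card φ.range * Nat.card (fx θ) := by
      rw [h3, ← h2, mul_comm]
    exact Nat.eq_of_mul_eq_mul_left h4 h5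
  have hstep : ∀ (z : D) (i : ℕ), z * (((θ : MulAut D) ^ i) z)⁻¹ ∈ D1 := by
    intro z i
    induction i with
    | zero => simp
    | succ i ih =>
      have h1 : φ (((θ : MulAut D) ^ i) z) ∈ D1 := ⟨_, rfl⟩
      have h2 := D1.mul_mem ih h1
      rw [hφ] at h2
      rw [pow_succ', MulAut.mul_apply]
      convert h2 using 1
      group
  have hpow : ∀ z : D, z ^ p ∈ D1 := by
    intro z
    have h1 : z ^ p = ∏ i ∈ Finset.range p, (z * (((θ : MulAut D) ^ i) z)⁻¹) := by
      rw [Finset.prod_mul_distrib, Finset.prod_const, Finset.card_range, Finset.prod_inv_distrib]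
      have h2 : ∏ i ∈ Finset.range p, ((θ : MulAut D) ^ i) z = 1 := hN z
      rw [h2, inv_one, mul_one]
    rw [h1]
    exact D1.prod_mem fun i _ => hstep z i
  have hQ : ∀ x : Additive (D ⧸ D1), p • x = 0 := by
    intro x
    obtain ⟨a, ha⟩ := QuotientGroup.mk_surjective x.toMul
    have h1 : (x.toMul) ^ p = 1 := by
      rw [← ha, ← QuotientGroup.mk_pow, QuotientGroup.eq_one_iff]
      exact hpow a
    exact congrArg Additive.ofMul h1
  have : Finite (Additive (D ⧸ D1)) := inferInstanceAs (Finite (D ⧸ D1))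
  obtain ⟨e, b, h1, h2, h3⟩ := grpe_vs hp hQ
  choose m hm using fun i : Fin e => QuotientGroup.mk_surjective (b i).toMul
  have hsum : ∀ n : Fin e → ℤ,
      (∑ j, n j • b j).toMul = (QuotientGroup.mk (∏ j, m j ^ n j) : D ⧸ D1) := by
    intro n
    rw [QuotientGroup.mk_prod, toMul_sum]
    refine Finset.prod_congr rfl fun j _ => ?_
    rw [toMul_zsmul, ← hm j, QuotientGroup.mk_zpow]
  refine ⟨e, m, ?_, ?_, ?_⟩
  · rw [← hcard, ← h1]
    rfl
  · intro z
    obtain ⟨n, hn⟩ := h2 (Additive.ofMul (QuotientGroup.mk z))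
    have h4 : (QuotientGroup.mk z : D ⧸ D1) = QuotientGroup.mk (∏ j, m j ^ n j) := by
      rw [← hsum, ← hn]
      rfl
    obtain ⟨x, hx⟩ := QuotientGroup.eq.1 h4.symm
    refine ⟨n, x, ?_⟩
    rw [← hφ, hx]
    group
  · intro n hx
    apply h3
    obtain ⟨x, hx⟩ := hx
    have h4 : (QuotientGroup.mk (∏ j, m j ^ n j) : D ⧸ D1) = 1 := by
      rw [QuotientGroup.eq_one_iff, hx]
      exact ⟨x, rfl⟩
    rw [← hsum] at h4
    exact congrArg Additive.ofMul h4

end H83.LX
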