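import Pool.Agent.H83.LX.BDef

/-!
# [H83 LX OVQ] the class of `x` is determined (50-80 lines)

Compare `kdet` in `H38/TD/KxE.lean` (the same for `OverX`). `B^p = x`, `B'^p = x'` from the two hypotheses. Every `σ` has `σ B = ζ^k B`, `σ B' = ζ^{k'} B'` (`k, k' : ℕ`; `B, B' ≠ 0`,
roots of unity). `ρ σ = m c^k = m' c^{k'}` with `m, m' ∈ M`; say `k' ≤ k`: `c^{k - k'} = m⁻¹ m' ∈ M` (`c^k = c^{k-k'} c^{k'}`), so `p ∣ k - k'` (`X.notin`), and
`ζ^k = ζ^{k'}`; similarly for `k ≤ k'`. So `σ (B/B') = B/B'` for all `σ`, `B/B' ∈ K`, and `x = x' (B/B')^p`.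
-/

set_option autoImplicit false

open scoped NumberField Pointwise
open scoped Classical

noncomputable section

namespace H83.LX

open H38.TD H38.ML

variable {K Ω : Type} [Field K] [NumberField K] [Field Ω] [Algebra K Ω] [IsAlgClosure K Ω]

theorem ovq {D Q : Type} [CommGroup D] [Group Q] {p : ℕ} (X : MXD p D Q) (hp : p.Prime)
    (ζp : K) (hζp : IsPrimitiveRoot ζp p) (x x' : Kˣ) (ρ : Gal(Ω/K) →* Q)
    (h : OverQ X ζp x ρ) (h' : OverQ X ζp x' ρ) : ∃ y : Kˣ, x = x' * y ^ p := by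
  classical
  have hgal : IsGalois K Ω := IsAlgClosure.isGalois K Ω
  have hp0 : NeZero p := ⟨hp.ne_zero⟩
  have hz : IsPrimitiveRoot (algebraMap K Ω ζp) p :=
    hζp.map_of_injective (algebraMap K Ω).injective
  obtain ⟨B, hB, hBρ⟩ := h
  obtain ⟨B', hB', hBρ'⟩ := h'
  have hne : ∀ (x : Kˣ) (B : Ω), B ^ p = algebraMap K Ω x → B ≠ 0 := by
    intro x B hB h0
    rw [h0, zero_pow hp.ne_zero] at hB
    have h1 : algebraMap K Ω (x : K) = algebraMap K Ω 0 := by rw [map_zero]; exact hB.symm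
    exact x.ne_zero ((algebraMap K Ω).injective h1)
  have hk : ∀ (x : Kˣ) (B : Ω), B ^ p = algebraMap K Ω x → ∀ σ : Gal(Ω/K), ∃ k : ℕ,
      σ B = algebraMap K Ω ζp ^ k * B := by
    intro x B hB σ
    have h1 : (σ B) ^ p = B ^ p := by rw [← map_pow, hB, AlgEquiv.commutes]
    have h2 : (σ B / B) ^ p = 1 := by
      rw [div_pow, h1, div_self (pow_ne_zero _ (hne x B hB))]
    obtain ⟨l, -, hl⟩ := hz.eq_pow_of_pow_eq_one h2
    exact ⟨l, by rw [hl, div_mul_cancel₀ _ (hne x B hB)]⟩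
  have hB0 := hne x B hB
  have hB0' := hne x' B' hB'
  have hfix : ∀ σ : Gal(Ω/K), σ (B / B') = B / B' := by
    intro σ
    obtain ⟨k, hk1⟩ := hk x B hB σ
    obtain ⟨k', hk2⟩ := hk x' B' hB' σ
    have hzp : algebraMap K Ω ζp ^ p = 1 := hz.pow_eq_one
    have hk3 : σ B = algebraMap K Ω ζp ^ (k + p * k') * B := by
      rw [hk1, pow_add, pow_mul, hzp, one_pow, mul_one]
    obtain ⟨a, haM, ha⟩ := hBρ σ _ hk3
    obtain ⟨a', haM', ha'⟩ := hBρ' σ _ hk2
    have hle : k' ≤ k + p * k' := by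
      have := Nat.mul_le_mul_right k' hp.one_lt.le
      omega
    have h3 : X.c ^ (k + p * k' - k') ∈ X.M := by
      have h4 : a * X.c ^ (k + p * k') = a' * X.c ^ k' := ha.symm.trans ha'
      have h5 : k + p * k' = (k + p * k' - k') + k' := (Nat.sub_add_cancel hle).symm
      rw [h5, pow_add, ← mul_assoc] at h4
      have h6 := mul_right_cancel h4
      have h7 : X.c ^ (k + p * k' - k') = a⁻¹ * a' := by
        rw [← h6, inv_mul_cancel_left]
      rw [h7]
      exact X.M.mul_mem (X.M.inv_mem haM) haM'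
    have h4 := X.notin _ h3
    have h5 : algebraMap K Ω ζp ^ (k + p * k') = algebraMap K Ω ζp ^ k' := by
      obtain ⟨c, hc⟩ := h4
      have h6 : k + p * k' = k' + p * c := by omega
      rw [h6, pow_add, pow_mul, hzp, one_pow, mul_one]
    rw [map_div₀, hk3, hk2, h5, mul_div_mul_left _ _ (pow_ne_zero _ (hz.ne_zero hp.ne_zero))]
  obtain ⟨y, hy⟩ := (InfiniteGalois.mem_range_algebraMap_iff_fixed (B / B')).2 hfix
  have hy0 : y ≠ 0 := by
    rintro rfl
    rw [map_zero] at hy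
    exact (div_ne_zero hB0 hB0') hy.symm
  refine ⟨Units.mk0 y hy0, ?_⟩
  apply Units.ext
  apply (algebraMap K Ω).injective
  rw [Units.val_mul, Units.val_pow_eq_pow_val, Units.val_mk0, map_mul, map_pow, hy, ← hB, ← hB',
    div_pow, mul_div_cancel₀ _ (pow_ne_zero _ hB0')]

end H83.LX
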