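import Pool.Agent.H83.LX.XDef
import Pool.Agent.H38.BB.CLb

/-!
# [H83 LX XLOW] the lower bound for the number of Kummer classes of class `0` (80-140 lines)

`lb` (`H38/BB/CLb`) for the class data `c : CR p e (p - 1)` with all `x i = 0`, `Θ i = ⊤` (`self`: `dt θ 0 = 0`), `b = d`: `BS2 D d ∅` (`hK.ord0`), and
`bp d θ = ∏ d_j ^ (θ j).val` is not a `p`-th power for `θ ≠ 0` (`hK.ind`, `(θ j).val < p`). `N = p - 1 ≥ 1`, `N - 1 = p - 2`.
`akR D c d f j = d j` (`(0 : ZMod p).val = 0`, `pi ^ 0 = 1`), so `wtR c f (…) = ∏_i ∏_{v ∈ f i} (if all θ · (LL v (d j))_j = 0 then p^e else 0)`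
(`#⊤ = p^e`), and the condition means `LL v (d j) = 0` for all `j`, i.e. `v ⊥ 𝒦` (`hK.iff`, `v` good).
So the sum of `lb` is the sum over the disjoint `f : Fin (p-1) → GF D X` with `∏ nr ≤ X`, `qf (f i) = 0` for all `i`, all primes orthogonal to `𝒦`, of
`(p^e)^{∑ #(f i)}`. To `f` belongs the class `i_f = ∑_k ∑_{v ∈ f k} single v (k + 1)` (`k + 1 ≠ 0` in `ZMod p` for `k < p - 1`) with support `⋃ f k` (disjoint
union), `nr supp = ∏ nr (f k) ≤ X`, `cl i_f = ∑_k (k+1) • qf (f k) = 0`, so `i_f ∈ XY`; `f` is determined by `i_f`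
(`f k = {v : i_f v = k + 1}`). So the sum is at most `EX D 𝒦 e X` (`Finset.sum_le_sum_of_injOn`-type argument: `Finset.sum_image`, subset, nonnegative).
-/

set_option autoImplicit false

open scoped NumberField
open IsDedekindDomain
open scoped Classical

noncomputable section

namespace H83.LX

open H63.MA H38.BB H77.AB H77.GN H83.LW

variable {K : Type} [Field K] [NumberField K] {p : ℕ} {ζ : K} {e : ℕ}

private theorem xlw_apply {J : Type} [Fintype J] (g : J → Finset (Pl K)) (hd : Dj g)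
    (c : J → ZMod p) {a : J} {v : Pl K} (hv : v ∈ g a) :
    (∑ a, ∑ v ∈ g a, Finsupp.single v (c a)) v = c a := by
  rw [Finsupp.finsetSum_apply, Finset.sum_eq_single a]
  · rw [Finsupp.finsetSum_apply, Finset.sum_eq_single v]
    · rw [Finsupp.single_apply, if_pos rfl]
    · intro w _ hw
      rw [Finsupp.single_apply, if_neg hw]
    · intro h
      exact absurd hv h
  · intro a' _ ha'
    rw [Finsupp.finsetSum_apply]
    refine Finset.sum_eq_zero fun w hw => ?_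
    rw [Finsupp.single_apply, if_neg]
    rintro rfl
    exact Finset.disjoint_left.1 (hd a' a ha') hw hv
  · intro h
    exact absurd (Finset.mem_univ _) h

private theorem xlw_zero {J : Type} [Fintype J] (g : J → Finset (Pl K))
    (c : J → ZMod p) {v : Pl K} (hv : v ∉ Finset.univ.biUnion g) :
    (∑ a, ∑ v ∈ g a, Finsupp.single v (c a)) v = 0 := by
  rw [Finsupp.finsetSum_apply]
  refine Finset.sum_eq_zero fun a _ => ?_
  rw [Finsupp.finsetSum_apply]
  refine Finset.sum_eq_zero fun w hw => ?_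
  rw [Finsupp.single_apply, if_neg]
  rintro rfl
  exact hv (Finset.mem_biUnion.2 ⟨a, Finset.mem_univ _, hw⟩)

private theorem xlw_supp' {J : Type} [Fintype J] (g : J → Finset (Pl K)) (c : J → ZMod p) :
    (∑ a, ∑ v ∈ g a, Finsupp.single v (c a)).support ⊆ Finset.univ.biUnion g := by
  intro v hv
  by_contra h
  exact (Finsupp.mem_support_iff.1 hv) (xlw_zero g c h)

private theorem xlw_supp {J : Type} [Fintype J] (g : J → Finset (Pl K)) (hd : Dj g)
    (c : J → ZMod p) (hc : ∀ a, c a ≠ 0) :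
    (∑ a, ∑ v ∈ g a, Finsupp.single v (c a)).support = Finset.univ.biUnion g := by
  refine Finset.Subset.antisymm (xlw_supp' g c) fun v hv => ?_
  obtain ⟨a, -, ha⟩ := Finset.mem_biUnion.1 hv
  rw [Finsupp.mem_support_iff, xlw_apply g hd c ha]
  exact hc a

private theorem xlw_sum {M : Type} [AddCommMonoid M] {J : Type} [Fintype J]
    (g : J → Finset (Pl K)) (hd : Dj g)
    (c : J → ZMod p) (Φ : Pl K → ZMod p → M) (h0 : ∀ v, Φ v 0 = 0) :
    ∑ v ∈ (∑ a, ∑ v ∈ g a, Finsupp.single v (c a)).support,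
        Φ v ((∑ a, ∑ v ∈ g a, Finsupp.single v (c a)) v) =
      ∑ a, ∑ v ∈ g a, Φ v (c a) := by
  rw [Finset.sum_subset (xlw_supp' g c) (fun v _ hv => by
    rw [Finsupp.notMem_support_iff.1 hv, h0]), Finset.sum_biUnion (fun l _ l' _ h => hd l l' h)]
  refine Finset.sum_congr rfl fun a _ => Finset.sum_congr rfl fun v hv => ?_
  rw [xlw_apply g hd c hv]

private theorem xlw_le_nr {n : Finset (Pl K)} {v : Pl K} (hv : v ∈ n) : (nm v : ℝ) ≤ nr n := by
  have h1 : nr ({v} : Finset (Pl K)) ≤ nr n := nr_mono (Finset.singleton_subset_iff.2 hv)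
  have h2 : nr ({v} : Finset (Pl K)) = nm v := by
    unfold nr
    rw [Finset.prod_singleton]
  rwa [h2] at h1

/-- the class data -/
private def xlw_c (p e : ℕ) : CR p e (p - 1) where
  x _ _ := 0
  Θ _ := ⊤
  self i θ _ := by simp [dt]

private theorem xlw_card (p e : ℕ) [NeZero p] :
    Nat.card (⊤ : Submodule (ZMod p) (Fin e → ZMod p)) = p ^ e := by
  rw [Nat.card_congr (Submodule.topEquiv (R := ZMod p) (M := Fin e → ZMod p)).toEquiv,
    Nat.card_eq_fintype_card, Fintype.card_fun, ZMod.card, Fintype.card_fin]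

private theorem xlw_wt [NeZero p] (D : RD0 K p ζ) {d : Fin e → Kˣ}
    {𝒦 : Submodule (ZMod p) (Fin D.r → ZMod p)} (hK : DK D e d 𝒦)
    (f : Fin (p - 1) → Finset (Pl K)) (hf : ∀ k, ∀ v ∈ f k, D.Gd v) :
    wtR (xlw_c p e) f (fun v k => D.LL v (akR D (xlw_c p e) d f k)) =
      if ∀ k, ∀ v ∈ f k, ∀ κ ∈ 𝒦, dt κ (D.q v) = 0 then ((p : ℝ) ^ e) ^ (∑ k, (f k).card) else 0 := by
  have h1 : ∀ k, akR D (xlw_c p e) d f k = d k := by
    intro k
    unfold akR
    have : ∀ i : Fin (p - 1), ((xlw_c p e).x i k).val = 0 := fun i => by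
      change (0 : ZMod p).val = 0
      exact ZMod.val_zero
    simp [this]
  have h2 : ∀ k, ∀ v ∈ f k, ((∀ θ ∈ (xlw_c p e).Θ k, dt θ (fun j => D.LL v (d j)) = 0) ↔
      ∀ κ ∈ 𝒦, dt κ (D.q v) = 0) := by
    intro k v hv
    rw [hK.iff v (hf k v hv)]
    constructor
    · intro h j
      have h3 := h (Pi.single j 1) (Submodule.mem_top)
      unfold dt at h3
      rw [Finset.sum_eq_single j] at h3
      · rwa [Pi.single_eq_same, one_mul] at h3
      · intro i _ hij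
        rw [Pi.single_eq_of_ne hij, zero_mul]
      · intro h4
        exact absurd (Finset.mem_univ _) h4
    · intro h θ _
      unfold dt
      exact Finset.sum_eq_zero fun j _ => by
        simp only
        rw [h j, mul_zero]
  unfold wtR
  simp only [h1]
  by_cases h : ∀ k, ∀ v ∈ f k, ∀ κ ∈ 𝒦, dt κ (D.q v) = 0
  · rw [if_pos h, ← Finset.prod_pow_eq_pow_sum]
    refine Finset.prod_congr rfl fun k _ => ?_
    rw [← Finset.prod_const]
    refine Finset.prod_congr rfl fun v hv => ?_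
    rw [if_pos ((h2 k v hv).2 (h k v hv))]
    change ((Nat.card (⊤ : Submodule (ZMod p) (Fin e → ZMod p)) : ℕ) : ℝ) = _
    rw [xlw_card]
    push_cast
    rfl
  · rw [if_neg h]
    rw [not_forall] at h
    obtain ⟨k, hk⟩ := h
    rw [not_forall] at hk
    obtain ⟨v, hv⟩ := hk
    rw [Classical.not_imp] at hv
    refine Finset.prod_eq_zero (Finset.mem_univ k) (Finset.prod_eq_zero hv.1 ?_)
    rw [if_neg (fun h3 => hv.2 ((h2 k v hv.1).1 h3))]

private theorem xlw_ne [NeZero p] (k : Fin (p - 1)) : ((k.val + 1 : ℕ) : ZMod p) ≠ 0 := by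
  intro h
  rw [ZMod.natCast_eq_zero_iff] at h
  have h1 := Nat.le_of_dvd (Nat.succ_pos _) h
  have h2 := k.2
  omega

private theorem xlw_inj [NeZero p] {k k' : Fin (p - 1)}
    (h : ((k.val + 1 : ℕ) : ZMod p) = ((k'.val + 1 : ℕ) : ZMod p)) : k = k' := by
  rw [ZMod.natCast_eq_natCast_iff'] at h
  have h1 := k.2
  have h2 := k'.2
  rw [Nat.mod_eq_of_lt (by omega), Nat.mod_eq_of_lt (by omega)] at h
  exact Fin.ext (by omega)

theorem xlow [NeZero p] (hp : p.Prime) (hp2 : MOne p K) (hζ : IsPrimitiveRoot ζ p)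
    (D : RD K p ζ) {d : Fin e → Kˣ} {𝒦 : Submodule (ZMod p) (Fin D.r → ZMod p)}
    (hK : DK D.toRD0 e d 𝒦) :
    ∃ c Y₀ : ℝ, 0 < c ∧ 3 ≤ Y₀ ∧ ∀ Y : ℝ, Y₀ ≤ Y →
      c * Y * Real.log Y ^ (p - 2) ≤ EX D.toRD0 𝒦 e Y := by
  have hN : 1 ≤ p - 1 := by have := hp.two_le; omega
  have hb : BS2 D.toRD0 d ∅ :=
    ⟨fun v hv => absurd hv (Finset.notMem_empty v), fun k v hv _ => hK.ord0 k v hv⟩
  have hi : ∀ θ : Fin e → ZMod p, θ ≠ 0 → ¬ IsPow p (bp d θ) := by
    rintro θ hθ ⟨y, hy⟩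
    apply hθ
    funext j
    have h1 := hK.ind (fun j => ((θ j).val : ℤ)) ⟨y, by
      rw [hy]
      unfold bp
      exact Finset.prod_congr rfl fun j _ => zpow_natCast _ _⟩ j
    have h2 : p ∣ (θ j).val := by exact_mod_cast h1
    have h3 := Nat.eq_zero_of_dvd_of_lt h2 (ZMod.val_lt (θ j))
    exact (ZMod.val_eq_zero _).1 h3
  obtain ⟨c₀, X₀, hc₀, hX₀, hlb⟩ := lb hp hp2 hζ D (xlw_c p e) hN d hb hi
  refine ⟨c₀, X₀, hc₀, hX₀, fun Y hY => ?_⟩
  have h1 := hlb Y hY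
  have hpp : p - 1 - 1 = p - 2 := by omega
  rw [hpp] at h1
  refine h1.trans ?_
  obtain ⟨iF, hiF⟩ : ∃ iF : (Fin (p - 1) → Finset (Pl K)) → (Pl K →₀ ZMod p), iF = fun f =>
    ∑ k : Fin (p - 1), ∑ v ∈ f k, Finsupp.single v ((k.val + 1 : ℕ) : ZMod p) := ⟨_, rfl⟩
  obtain ⟨S, hS⟩ : ∃ S : Finset (Fin (p - 1) → Finset (Pl K)),
    S = (Fintype.piFinset (fun _ : Fin (p - 1) => GF D.toRD0 Y)).filter fun f =>
      Dj f ∧ ∏ i, nr (f i) ≤ Y ∧ (∀ i, qf D.toRD0 (f i) = 0) ∧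
        ∀ k, ∀ v ∈ f k, ∀ κ ∈ 𝒦, dt κ (D.q v) = 0 := ⟨_, rfl⟩
  have h2 : ∑ f ∈ Fintype.piFinset (fun _ : Fin (p - 1) => GF D.toRD0 Y),
      (if Dj f ∧ ∏ i, nr (f i) ≤ Y ∧ ∀ i, qf D.toRD0 (f i) = 0 then
        wtR (xlw_c p e) f (fun v k => D.LL v (akR D.toRD0 (xlw_c p e) d f k)) else 0) =
      ∑ f ∈ S, ((p : ℝ) ^ e) ^ (∑ k, (f k).card) := by
    rw [hS, Finset.sum_filter]
    refine Finset.sum_congr rfl fun f hf => ?_
    rw [Fintype.mem_piFinset] at hf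
    have hfg : ∀ k, ∀ v ∈ f k, D.toRD0.Gd v := fun k v hv => (rx_mem_GF.1 (hf k)).2 v hv
    by_cases h3 : Dj f ∧ ∏ i, nr (f i) ≤ Y ∧ ∀ i, qf D.toRD0 (f i) = 0
    · rw [if_pos h3, xlw_wt D.toRD0 hK f hfg]
      by_cases h4 : ∀ k, ∀ v ∈ f k, ∀ κ ∈ 𝒦, dt κ (D.q v) = 0
      · rw [if_pos h4, if_pos ⟨h3.1, h3.2.1, h3.2.2, h4⟩]
      · rw [if_neg h4, if_neg (fun h => h4 h.2.2.2)]
    · rw [if_neg h3, if_neg (fun h => h3 ⟨h.1, h.2.1, h.2.2.1⟩)]
  have hSm : ∀ f ∈ S, (∀ k, nr (f k) ≤ Y) ∧ (∀ k, ∀ v ∈ f k, D.toRD0.Gd v) ∧ Dj f ∧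
      ∏ i, nr (f i) ≤ Y ∧ (∀ i, qf D.toRD0 (f i) = 0) ∧
        ∀ k, ∀ v ∈ f k, ∀ κ ∈ 𝒦, dt κ (D.q v) = 0 := by
    intro f hf
    rw [hS, Finset.mem_filter, Fintype.mem_piFinset] at hf
    exact ⟨fun k => (rx_mem_GF.1 (hf.1 k)).1, fun k => (rx_mem_GF.1 (hf.1 k)).2, hf.2⟩
  have hsupp : ∀ f ∈ S, (iF f).support = Finset.univ.biUnion f := by
    intro f hf
    rw [hiF]
    exact xlw_supp f (hSm f hf).2.2.1 (fun k : Fin (p - 1) => ((k.val + 1 : ℕ) : ZMod p)) xlw_ne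
  have hcard : ∀ f ∈ S, (iF f).support.card = ∑ k, (f k).card := by
    intro f hf
    rw [hsupp f hf, Finset.card_biUnion]
    exact fun l _ l' _ h => (hSm f hf).2.2.1 l l' h
  have happ : ∀ f ∈ S, ∀ k, ∀ v ∈ f k, iF f v = ((k.val + 1 : ℕ) : ZMod p) := by
    intro f hf k v hv
    rw [hiF]
    exact xlw_apply f (hSm f hf).2.2.1 (fun k : Fin (p - 1) => ((k.val + 1 : ℕ) : ZMod p)) hv
  have hinj : Set.InjOn iF (S : Set (Fin (p - 1) → Finset (Pl K))) := by
    intro f hf f' hf' heq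
    have key : ∀ f ∈ S, ∀ f' ∈ S, iF f = iF f' → ∀ k, f k ⊆ f' k := by
      intro f hf f' hf' heq k v hv
      have h3 : v ∈ (iF f').support := by
        rw [← heq, hsupp f hf]
        exact Finset.mem_biUnion.2 ⟨k, Finset.mem_univ _, hv⟩
      rw [hsupp f' hf'] at h3
      obtain ⟨k', -, hk'⟩ := Finset.mem_biUnion.1 h3
      have h4 := happ f hf k v hv
      have h5 := happ f' hf' k' v hk'
      rw [heq, h5] at h4
      rw [← xlw_inj h4]
      exact hk'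
    funext k
    exact Finset.Subset.antisymm (key f hf f' hf' heq k) (key f' hf' f hf heq.symm k)
  have hmem : ∀ f ∈ S, iF f ∈ XY D.toRD0 𝒦 Y := by
    intro f hf
    obtain ⟨g1, g2, g3, g4, g5, g6⟩ := hSm f hf
    rw [mem_XY, hsupp f hf]
    refine ⟨fun v hv => ?_, ?_, ?_, fun v hv => ?_⟩
    · obtain ⟨k, -, hk⟩ := Finset.mem_biUnion.1 hv
      exact ⟨(xlw_le_nr hk).trans (g1 k), g2 k v hk⟩
    · have h3 : nr (Finset.univ.biUnion f) = ∏ i, nr (f i) := by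
        unfold nr
        exact Finset.prod_biUnion (fun l _ l' _ h => g3 l l' h)
      rw [h3]
      exact g4
    · unfold cl
      have h3 := xlw_sum f g3 (fun k : Fin (p - 1) => ((k.val + 1 : ℕ) : ZMod p))
        (fun v c => c • D.q v) (fun v => zero_smul _ _)
      rw [hiF]
      refine h3.trans (Finset.sum_eq_zero fun k _ => ?_)
      rw [← Finset.smul_sum]
      have h4 : ∑ v ∈ f k, D.q v = 0 := g5 k
      rw [h4, smul_zero]
    · obtain ⟨k, -, hk⟩ := Finset.mem_biUnion.1 hv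
      exact g6 k v hk
  rw [h2]
  unfold EX
  calc ∑ f ∈ S, ((p : ℝ) ^ e) ^ (∑ k, (f k).card)
      = ∑ f ∈ S, ((p : ℝ) ^ e) ^ (iF f).support.card :=
        Finset.sum_congr rfl fun f hf => by rw [hcard f hf]
    _ = ∑ i ∈ S.image iF, ((p : ℝ) ^ e) ^ i.support.card :=
        (Finset.sum_image (f := fun i : Pl K →₀ ZMod p => ((p : ℝ) ^ e) ^ i.support.card)
          hinj).symm
    _ ≤ _ := by
        refine Finset.sum_le_sum_of_subset_of_nonneg ?_ fun i _ _ => by positivity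
        intro i hi
        obtain ⟨f, hf, rfl⟩ := Finset.mem_image.1 hi
        exact hmem f hf

end H83.LX
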