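import Pool.Agent.H83.LX.XONE
import Pool.Agent.H83.LX.XLOW
import Pool.Agent.H83.LW.RLP

/-!
# [H83 LX XFIN] the number of the good classes of norm at most `Y` (80-120 lines; compare GOODM in H83/LW)

`h = p^e`, `w i = h^{#supp i}`. `0 ∈ XY` (if `1 ≤ Y`), `w 0 = 1`. For `i ∈ XY`, `i ≠ 0`: `#Rl = p` or `#Rl ≥ p²` (`rlp`; good primes are outside `S0`). Let `Gd` be the
sum of `w` over the `i ≠ 0` with `#Rl = p` and `Bd` the sum over the `i ≠ 0` with `#Rl ≠ p`: `EX = 1 + Gd + Bd`. So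
`∑ w #Rl ≥ p Gd + p² Bd = p (EX - 1) + (p² - p) Bd`. By `xone`: `(p² - p) Bd ≤ p + (p p^e / #U) EX + C Y (log Y)^{p-2-δ}`, `p p^e/#U ≤ p/32`, `p² - p ≥ p`
(`p ≥ 2`): `Bd ≤ 1 + EX/32 + C Y (log Y)^{p-2-δ}`. As `EX ≥ c Y (log Y)^{p-2}` (`xlow`) and `(log Y)^{-δ} → 0`, `Y → ∞`, for large `Y`:
`2 + C Y (log Y)^{p-2-δ} ≤ EX/4` (`(log Y)^{((p:ℝ) - 2) - δ} = (log Y)^{(p - 2 : ℕ)} (log Y)^{-δ}`, `Real.rpow_natCast`, `Nat.cast_sub`). So
`Gd = EX - 1 - Bd ≥ EX/2 ≥ (c/2) Y (log Y)^{p-2}`.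
-/

set_option autoImplicit false

open scoped NumberField
open IsDedekindDomain
open scoped Classical

noncomputable section

namespace H83.LX

open H63.MA H38.BB H77.AB H77.GN H83.LW

variable {K : Type} [Field K] [NumberField K] {p : ℕ} {ζ : K} {e : ℕ}

private theorem xfin_big (c C δ : ℝ) (hc : 0 < c) (hδ : 0 < δ) (n : ℕ) : ∃ Y₀ : ℝ, 3 ≤ Y₀ ∧
    ∀ Y : ℝ, Y₀ ≤ Y → 1 ≤ Real.log Y ∧
      2 + C * Y * Real.log Y ^ ((n : ℝ) - δ) ≤ (c / 4) * (Y * Real.log Y ^ n) := by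
  have h1 : Filter.Tendsto (fun Y : ℝ => C * Real.log Y ^ (-δ)) Filter.atTop (nhds (C * 0)) :=
    ((tendsto_rpow_neg_atTop hδ).comp Real.tendsto_log_atTop).const_mul C
  rw [mul_zero] at h1
  have h2 := h1.eventually (gt_mem_nhds (show (0 : ℝ) < c / 8 by positivity))
  obtain ⟨Y₁, hY₁⟩ := Filter.eventually_atTop.1 h2
  refine ⟨max (max Y₁ 3) (16 / c), (le_max_right _ _).trans (le_max_left _ _), fun Y hY => ?_⟩
  have h3 : Y₁ ≤ Y := ((le_max_left _ _).trans (le_max_left _ _)).trans hY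
  have h4 : 3 ≤ Y := ((le_max_right _ _).trans (le_max_left _ _)).trans hY
  have h5 : 16 / c ≤ Y := (le_max_right _ _).trans hY
  have hlog : 1 ≤ Real.log Y := by
    rw [Real.le_log_iff_exp_le (by linarith)]
    exact (Real.exp_one_lt_d9.le.trans (by norm_num)).trans h4
  refine ⟨hlog, ?_⟩
  have hl0 : 0 < Real.log Y := by linarith
  have h6 : Real.log Y ^ ((n : ℝ) - δ) = Real.log Y ^ n * Real.log Y ^ (-δ) := by
    rw [sub_eq_add_neg, Real.rpow_add hl0, Real.rpow_natCast]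
  have hX : Y ≤ Y * Real.log Y ^ n := le_mul_of_one_le_right (by linarith) (one_le_pow₀ hlog)
  have h7 : C * Real.log Y ^ (-δ) ≤ c / 8 := (hY₁ Y h3).le
  have h8 : 2 ≤ (c / 8) * (Y * Real.log Y ^ n) := by
    have h9 : 16 ≤ Y * c := (div_le_iff₀ hc).1 h5
    have h10 : (c / 8) * Y ≤ (c / 8) * (Y * Real.log Y ^ n) :=
      mul_le_mul_of_nonneg_left hX (by positivity)
    linarith
  have h11 : C * Y * Real.log Y ^ ((n : ℝ) - δ) =
      (C * Real.log Y ^ (-δ)) * (Y * Real.log Y ^ n) := by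
    rw [h6]; ring
  have h12 : (C * Real.log Y ^ (-δ)) * (Y * Real.log Y ^ n) ≤ (c / 8) * (Y * Real.log Y ^ n) :=
    mul_le_mul_of_nonneg_right h7 (by linarith)
  rw [h11]
  linarith

theorem xfin [NeZero p] (hp : p.Prime) (hp2 : MOne p K) (hζ : IsPrimitiveRoot ζ p)
    (D : RD K p ζ) {d : Fin e → Kˣ} {𝒦 : Submodule (ZMod p) (Fin D.r → ZMod p)}
    (hK : DK D.toRD0 e d 𝒦) {U : Type} [CommGroup U] [Fintype U] (F : U → Kˣ)
    (hU : UR D.toRD0 U F) (hUc : 32 * p ^ e ≤ Fintype.card U) :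
    ∃ c Y₀ : ℝ, 0 < c ∧ 3 ≤ Y₀ ∧ ∀ Y : ℝ, Y₀ ≤ Y →
      c * Y * Real.log Y ^ (p - 2) ≤
        ∑ i ∈ (XY D.toRD0 𝒦 Y).filter (fun i => i ≠ 0 ∧ (Rl D.toRD0 i).card = p),
          ((p : ℝ) ^ e) ^ i.support.card := by
  obtain ⟨C, δ, Y₁, hC, hδ, hY₁, h1⟩ := xone hp hζ D hK F hU
  obtain ⟨c, Y₂, hc, hY₂, h2⟩ := xlow hp hp2 hζ D hK
  obtain ⟨Y₃, hY₃, h3⟩ := xfin_big c C δ hc hδ (p - 2)
  have hp2r : (2 : ℝ) ≤ p := by exact_mod_cast hp.two_le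
  refine ⟨c / 2, max (max Y₁ Y₂) Y₃, by positivity, hY₃.trans (le_max_right _ _),
    fun Y hY => ?_⟩
  have a1 := h1 Y (((le_max_left _ _).trans (le_max_left _ _)).trans hY)
  have a2 := h2 Y (((le_max_right _ _).trans (le_max_left _ _)).trans hY)
  obtain ⟨hlog, a3⟩ := h3 Y ((le_max_right _ _).trans hY)
  have hcast : ((p - 2 : ℕ) : ℝ) = (p : ℝ) - 2 := by
    rw [Nat.cast_sub hp.two_le]
    norm_num
  rw [hcast] at a3
  obtain ⟨L, hL⟩ : ∃ L : ℝ, L = C * Y * Real.log Y ^ ((p : ℝ) - 2 - δ) := ⟨_, rfl⟩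
  have hY3 : 3 ≤ Y := hY₃.trans ((le_max_right _ _).trans hY)
  have hL0 : 0 ≤ L := by
    rw [hL]
    have : 0 ≤ Real.log Y ^ ((p : ℝ) - 2 - δ) := Real.rpow_nonneg (by linarith) _
    positivity
  rw [← hL] at a1 a3
  obtain ⟨S, hS⟩ : ∃ S, S = XY D.toRD0 𝒦 Y := ⟨_, rfl⟩
  obtain ⟨M, hM⟩ : ∃ M, M = EX D.toRD0 𝒦 e Y := ⟨_, rfl⟩
  have hMS : M = ∑ i ∈ S, ((p : ℝ) ^ e) ^ i.support.card := by rw [hM, hS]; rfl
  rw [← hS, ← hM] at a1
  rw [← hM] at a2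
  rw [← hS, Finset.sum_filter]
  obtain ⟨W, hW⟩ : ∃ W : (Pl K →₀ ZMod p) → ℝ, W = fun i => ((p : ℝ) ^ e) ^ i.support.card :=
    ⟨_, rfl⟩
  have hWi : ∀ i : Pl K →₀ ZMod p, ((p : ℝ) ^ e) ^ i.support.card = W i := fun i => by rw [hW]
  simp only [hWi] at a1 hMS ⊢
  have hW0 : ∀ i, 0 ≤ W i := fun i => by rw [hW]; positivity
  obtain ⟨Q, hQ⟩ : ∃ Q, Q = ∑ i ∈ S,
    (if i ≠ 0 ∧ (Rl D.toRD0 i).card ≠ p then W i else 0) := ⟨_, rfl⟩
  obtain ⟨G, hG⟩ : ∃ G, G = ∑ i ∈ S,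
    (if i ≠ 0 ∧ (Rl D.toRD0 i).card = p then W i else 0) := ⟨_, rfl⟩
  rw [← hG]
  have hpt : ∀ i ∈ S, (p : ℝ) * W i + ((p : ℝ) ^ 2 - p) *
      (if i ≠ 0 ∧ (Rl D.toRD0 i).card ≠ p then W i else 0) -
      (p : ℝ) * (if i = 0 then 1 else 0) ≤ W i * (Rl D.toRD0 i).card := by
    intro i hi
    have hWn := hW0 i
    by_cases h0 : i = 0
    · have hW1 : W i = 1 := by
        rw [hW, h0]
        simp
      rw [if_pos h0, if_neg (fun h => h.1 h0), hW1]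
      have h7 : (0 : ℝ) ≤ 1 * (Rl D.toRD0 i).card :=
        mul_nonneg zero_le_one (Nat.cast_nonneg _)
      linarith
    · rw [if_neg h0]
      rw [hS, mem_XY] at hi
      have hi' : ∀ v ∈ i.support, v ∉ D.S0 := fun v hv => (hi.1 v hv).2.1
      rcases rlp hp hp2 hζ D.toRD0 i hi' hi.2.2.1 h0 with h5 | h5
      · rw [if_neg (fun h => h.2 h5), h5]
        linarith
      · have h6 : ((p : ℝ) ^ 2) ≤ ((Rl D.toRD0 i).card : ℝ) := by exact_mod_cast h5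
        have h7 : (if i ≠ 0 ∧ (Rl D.toRD0 i).card ≠ p then W i else 0) ≤ W i := by
          split_ifs
          · exact le_refl _
          · exact hWn
        have h8 : ((p : ℝ) ^ 2 - p) * (if i ≠ 0 ∧ (Rl D.toRD0 i).card ≠ p then W i else 0) ≤
          ((p : ℝ) ^ 2 - p) * W i := mul_le_mul_of_nonneg_left h7 (by nlinarith)
        have h9 := mul_le_mul_of_nonneg_left h6 hWn
        linarith
  have hsum := Finset.sum_le_sum hpt
  rw [Finset.sum_sub_distrib, Finset.sum_add_distrib, ← Finset.mul_sum, ← Finset.mul_sum,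
    ← Finset.mul_sum, ← hMS, ← hQ] at hsum
  have h0 : ∑ i ∈ S, (if i = 0 then (1 : ℝ) else 0) ≤ 1 := by
    rw [Finset.sum_ite_eq' S (0 : Pl K →₀ ZMod p) (fun _ => (1 : ℝ))]
    split_ifs
    · exact le_refl _
    · exact zero_le_one
  have hsplit : M ≤ ∑ i ∈ S, (if i = 0 then (1 : ℝ) else 0) + G + Q := by
    rw [hMS, hG, hQ, ← Finset.sum_add_distrib, ← Finset.sum_add_distrib]
    refine Finset.sum_le_sum fun i _ => ?_
    by_cases h0 : i = 0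
    · have hW1 : W i = 1 := by
        rw [hW, h0]
        simp
      rw [if_pos h0, if_neg (fun h => h.1 h0), if_neg (fun h => h.1 h0), hW1]
      norm_num
    · by_cases h5 : (Rl D.toRD0 i).card = p
      · rw [if_neg h0, if_pos ⟨h0, h5⟩, if_neg (fun h => h.2 h5)]
        linarith
      · rw [if_neg h0, if_neg (fun h => h5 h.2), if_pos ⟨h0, h5⟩]
        linarith
  have hQ0 : 0 ≤ Q := by
    rw [hQ]
    refine Finset.sum_nonneg fun i _ => ?_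
    split_ifs
    · exact hW0 i
    · exact le_refl _
  have h5 : (p : ℝ) * ∑ i ∈ S, (if i = 0 then (1 : ℝ) else 0) ≤ (p : ℝ) * 1 :=
    mul_le_mul_of_nonneg_left h0 (by positivity)
  have hU1 : (32 : ℝ) * (p : ℝ) ^ e ≤ Fintype.card U := by exact_mod_cast hUc
  have hU0 : (0 : ℝ) < Fintype.card U := lt_of_lt_of_le (by positivity) hU1
  have h6 : (p : ℝ) * (p : ℝ) ^ e / Fintype.card U ≤ p / 32 := by
    rw [div_le_iff₀ hU0]
    nlinarith
  have hM0 : 0 ≤ M := by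
    rw [hMS]
    exact Finset.sum_nonneg fun i _ => hW0 i
  have h7 := mul_le_mul_of_nonneg_right h6 hM0
  have h8 : ((p : ℝ) ^ 2 - p) * Q ≤ p + (p / 32) * M + L := by linarith
  have h9 : (p : ℝ) * Q ≤ ((p : ℝ) ^ 2 - p) * Q := mul_le_mul_of_nonneg_right (by nlinarith) hQ0
  have h10 : L ≤ p * L := le_mul_of_one_le_left hL0 (by linarith)
  have h11 : (p : ℝ) * Q ≤ p * (1 + M / 32 + L) := by
    have e1 : (p : ℝ) * (1 + M / 32 + L) = p + (p / 32) * M + p * L := by ring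
    rw [e1]
    linarith
  have h12 : Q ≤ 1 + M / 32 + L := le_of_mul_le_mul_left h11 (by linarith)
  have h13 : 2 + L ≤ M / 4 := by
    have e2 : c * Y * Real.log Y ^ (p - 2) = c * (Y * Real.log Y ^ (p - 2)) := by ring
    rw [e2] at a2
    linarith
  have h14 : c / 2 * Y * Real.log Y ^ (p - 2) = c * Y * Real.log Y ^ (p - 2) / 2 := by ring
  rw [h14]
  linarith

end H83.LX
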