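import Pool.Agent.H83.LX.HXX
import Pool.Agent.H83.LX.XFIN
import Pool.Agent.H83.LX.OVQ
import Pool.Agent.H83.LX.DKY
import Pool.Agent.H83.LX.GRPE
import Pool.Agent.H83.LW.CNTT

/-!
# LX-CNTX: the count of the homomorphisms (assembly; proved)
-/

set_option autoImplicit false

open scoped NumberField Pointwise
open scoped Classical

noncomputable section

namespace H83.LX

open H38.TD H38.ML H83.LW

variable {K Ω : Type} [Field K] [NumberField K] [Field Ω] [Algebra K Ω] [IsAlgClosure K Ω]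

/-- a homomorphism of finite type is unramified outside a finite set -/
theorem ft_unr {H : Type} [Group H] (ρ : Gal(Ω/K) →* H) (h : FT ρ) :
    ∃ S : Finset (Pl K), ∀ v : Pl K, v ∉ S → UnrAt ρ v.asIdeal := by
  obtain ⟨M, hMfin, hMgal, e, heinj, he⟩ := factor ρ h
  have : NumberField M := NumberField.of_module_finite K M
  have h1 := finite_not_unr K M
  have h2 : {v : Pl K | v.asIdeal ∈ {v : Ideal (𝓞 K) | v.IsPrime ∧ v ≠ ⊥ ∧ ¬ Unr K M v}}.Finite := by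
    refine Set.Finite.of_finite_image (f := fun v : Pl K => v.asIdeal) (h1.subset ?_) ?_
    · rintro _ ⟨v, hv, rfl⟩
      exact hv
    · intro v _ v' _ h
      exact IsDedekindDomain.HeightOneSpectrum.ext h
  refine ⟨h2.toFinset, fun v hv 𝔓 h𝔓 h𝔓v τ hτ => ?_⟩
  rw [Set.Finite.mem_toFinset] at hv
  have h3 : Unr K M (𝔓.under (𝓞 K)) := by
    by_contra h
    apply hv
    refine ⟨v.isPrime, v.ne_bot, ?_⟩
    rw [← h𝔓v]
    exact h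
  rw [← he τ, res_eq_one M 𝔓 h3 τ hτ, map_one]

theorem cntx {D Q : Type} [CommGroup D] [Finite D] [Group Q] [Finite Q] {p : ℕ}
    (X : MXD p D Q) (hp : p.Prime) (hp2 : H63.MA.MOne p K) (k : ℕ) (ζ : K)
    (hζ : IsPrimitiveRoot ζ (p ^ k)) (ζp : K) (hζp : IsPrimitiveRoot ζp p)
    (hD : ∀ t : D, t ^ p ^ k = 1) (htc : NumberField.IsTotallyComplex K) (s : ℕ)
    (hs : s + 1 ≤ Fintype.card (NumberField.InfinitePlace K)) (hs1 : Nat.card D + 6 ≤ s)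
    (S₀ : Set (Pl K)) (hS₀ : S₀.Finite) (ψ : Gal(Ω/K) →* X.M)
    (hψs : Function.Surjective ψ) (hψf : FT ψ) :
    ∃ S : Set (Pl K), S.Finite ∧ S₀ ⊆ S ∧ ∃ c : ℝ, 0 < c ∧ ∃ Y₀ : ℝ, ∀ Y : ℝ, Y₀ ≤ Y →
      ∃ Fs : Finset (Gal(Ω/K) →* Q), c * Y * Real.log Y ^ (p - 2) ≤ (Fs.card : ℝ) ∧
        ∀ ρ ∈ Fs, Function.Surjective ρ ∧ FT ρ ∧
          (∀ v : Pl K, v ∉ S → SmallAt p ρ v.asIdeal ∧ CjAt X.c ρ v.asIdeal) ∧
          ∃ T : Finset (Pl K), (∀ v ∈ T, v ∉ S) ∧ ((∏ v ∈ T, nv v : ℕ) : ℝ) ≤ Y ∧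
            ∀ v : Pl K, v ∉ S → v ∉ T → UnrAt ρ v.asIdeal := by
  have : NeZero p := ⟨hp.ne_zero⟩
  obtain ⟨e, m, hcard, hgen, hind⟩ := grpe hp X.θ (mx_norm X)
  obtain ⟨r, g, b, d, hb, hdg, hdind, hval⟩ := seed (Ω := Ω) hp k ζ hζ hD X.θ m hgen hind
    (X.del.comp ψ) (X.dsur.comp hψs) (ft_comp X.del ψ hψf)
  obtain ⟨S₂, hS₂⟩ := ft_unr ψ hψf
  have hS₁ : (⋃ l, {v : Pl K | H63.MA.ord v (g l) ≠ 0}).Finite :=
    Set.finite_iUnion fun l => H63.MA.finite_ord (g l)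
  obtain ⟨R, hRS⟩ := H38.BB.exists_RD_of K hp hp2 hζp (hS₀.toFinset ∪ hS₁.toFinset ∪ S₂)
  have hg : ∀ l v, v ∉ R.S0 → H63.MA.ord v (g l) = 0 := by
    intro l v hv
    by_contra h
    apply hv
    apply hRS v
    rw [Finset.mem_union, Finset.mem_union]
    refine Or.inl (Or.inr ?_)
    rw [Set.Finite.mem_toFinset, Set.mem_iUnion]
    exact ⟨l, h⟩
  have hd0 : ∀ j v, v ∉ R.S0 → H63.MA.ord v (d j) = 0 := by
    intro j v hv
    obtain ⟨a, ha⟩ := hdg j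
    rw [ha, ← od_eq]
    have h1 : ∏ l, g l ^ a l ∈ TK K (R.S0 : Set (H63.MA.Pl K)) := by
      refine prod_mem fun l _ => zpow_mem ?_ _
      intro w hw
      rw [od_eq]
      exact hg l w fun h => hw (Finset.mem_coe.2 h)
    exact h1 v fun h => hv (Finset.mem_coe.1 h)
  have hψu : ∀ v : Pl K, v ∉ R.S0 → UnrAt ψ v.asIdeal := by
    intro v hv
    apply hS₂
    intro h
    exact hv (hRS v (Finset.mem_union_right _ h))
  obtain ⟨U, _, _, F, hU, hUc0⟩ := ucrd hp R.toRD0 htc s hs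
  have hpe : e ≤ Nat.card D ∧ p ^ e ≤ Nat.card D := by
    have h1 : p ^ e ≤ Nat.card D := by
      rw [← hcard]
      exact Subgroup.card_le_card_group _
    have h2 : e < p ^ e := Nat.lt_pow_self hp.one_lt
    exact ⟨by omega, h1⟩
  have hUc : 32 * p ^ e ≤ Fintype.card U := by
    refine le_trans ?_ hUc0
    calc 32 * p ^ e ≤ p ^ 5 * p ^ e :=
          Nat.mul_le_mul_right _ (by
            calc 32 = 2 ^ 5 := by norm_num
              _ ≤ p ^ 5 := Nat.pow_le_pow_left hp.two_le _)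
      _ = p ^ (5 + e) := by rw [pow_add]
      _ ≤ p ^ (s - 1) := Nat.pow_le_pow_right hp.pos (by omega)
  obtain ⟨𝒦, hK⟩ := dky R d hd0 hdind
  obtain ⟨c, Y₀, hc, hY₀, hfin⟩ := xfin hp hp2 hζp R hK F hU hUc
  -- the homomorphisms over the classes
  have hx : ∀ i : H63.MA.Pl K →₀ ZMod p, ∃ H : Finset (Gal(Ω/K) →* Q), (((∀ v ∈ i.support, R.Gd v) ∧
      cl R.toRD0 i = 0 ∧ i ≠ 0 ∧ (Rl R.toRD0 i).card = p ∧
      ∀ v ∈ i.support, ∀ κ ∈ 𝒦, H63.MA.dt κ (R.q v) = 0) →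
      Nat.card (fx X.θ) ^ i.support.card ≤ H.card) ∧
      ∀ ρ ∈ H, (∀ v ∈ i.support, R.Gd v) ∧ Function.Surjective ρ ∧ FT ρ ∧
        OverQ X ζp (xx R.toRD0 i) ρ ∧
        (∀ v : Pl K, v ∉ R.S0 → v ∉ i.support → UnrAt ρ v.asIdeal) ∧
        ∀ v : Pl K, v ∉ R.S0 → SmallAt p ρ v.asIdeal ∧ CjAt X.c ρ v.asIdeal := by
    intro i
    by_cases h : (∀ v ∈ i.support, R.Gd v) ∧
      cl R.toRD0 i = 0 ∧ i ≠ 0 ∧ (Rl R.toRD0 i).card = p ∧
      ∀ v ∈ i.support, ∀ κ ∈ 𝒦, H63.MA.dt κ (R.q v) = 0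
    · obtain ⟨h1, h2, h3, h4, h5⟩ := h
      obtain ⟨H, hH1, hH2⟩ := hxx (Ω := Ω) X hp hp2 k ζ hζ ζp hζp hD R.toRD0 m d 𝒦 hK g hg b hb ψ hψs
        hψf hψu hval i h1 h2 h3 h4 h5
      exact ⟨H, fun _ => hH1, fun ρ hρ => ⟨h1, hH2 ρ hρ⟩⟩
    · exact ⟨∅, fun h' => absurd h' h, fun ρ hρ => absurd hρ (Finset.notMem_empty ρ)⟩
  choose H hH1 hH2 using hx
  have hSm : ∀ v : Pl K, v ∉ (R.S0 : Set (H63.MA.Pl K)) ↔ v ∉ R.S0 := fun v =>
    not_congr Finset.mem_coe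
  refine ⟨(R.S0 : Set (H63.MA.Pl K)), Finset.finite_toSet _, fun v hv => ?_, c, hc, Y₀,
    fun Y hY => ?_⟩
  · refine Finset.mem_coe.2 (hRS v ?_)
    rw [Finset.mem_union, Finset.mem_union]
    exact Or.inl (Or.inl (hS₀.mem_toFinset.mpr hv))
  have hmemI : ∀ i, i ∈ (XY R.toRD0 𝒦 Y).filter (fun i => i ≠ 0 ∧ (Rl R.toRD0 i).card = p) →
      (∀ v ∈ i.support, R.Gd v) ∧ H63.MA.nr i.support ≤ Y ∧ cl R.toRD0 i = 0 ∧ i ≠ 0 ∧
        (Rl R.toRD0 i).card = p ∧ ∀ v ∈ i.support, ∀ κ ∈ 𝒦, H63.MA.dt κ (R.q v) = 0 := by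
    intro i hi
    rw [Finset.mem_filter, mem_XY] at hi
    obtain ⟨⟨h1, h2, h3, h4⟩, h5, h6⟩ := hi
    exact ⟨fun v hv => (h1 v hv).2, h2, h3, h5, h6, h4⟩
  have hfinY := hfin Y hY
  generalize (XY R.toRD0 𝒦 Y).filter (fun i => i ≠ 0 ∧ (Rl R.toRD0 i).card = p) = I at hmemI hfinY
  refine ⟨I.biUnion H, ?_, ?_⟩
  · have hdisj : (I : Set (H63.MA.Pl K →₀ ZMod p)).PairwiseDisjoint H := by
      intro i _ i' _ hne
      rw [Function.onFun, Finset.disjoint_left]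
      intro ρ h1 h2
      apply hne
      obtain ⟨g1, _, _, k1, _⟩ := hH2 i ρ h1
      obtain ⟨g2, _, _, k2, _⟩ := hH2 i' ρ h2
      obtain ⟨y, hy⟩ := ovq X hp ζp hζp _ _ ρ k1 k2
      exact cntt_inj R.toRD0 i i' (fun v hv => (g1 v hv).1) (fun v hv => (g2 v hv).1) y hy
    rw [Finset.card_biUnion (fun i hi i' hi' hne => hdisj hi hi' hne), Nat.cast_sum]
    refine hfinY.trans (Finset.sum_le_sum fun i hi => ?_)
    obtain ⟨h1, h2, h3, h5, h6, h4⟩ := hmemI i hi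
    have h7 := hH1 i ⟨h1, h3, h5, h6, h4⟩
    rw [hcard] at h7
    exact_mod_cast h7
  · intro ρ hρ
    rw [Finset.mem_biUnion] at hρ
    obtain ⟨i, hi, hρ⟩ := hρ
    obtain ⟨h1, h2, h3, h4, h5, h6⟩ := hH2 i ρ hρ
    refine ⟨h2, h3, fun v hv => h6 v ((hSm v).1 hv), i.support,
      fun v hv => (hSm v).2 (h1 v hv).1, ?_, fun v hv hv' => h5 v ((hSm v).1 hv) hv'⟩
    have h7 := (hmemI i hi).2.1
    unfold H63.MA.nr at h7
    push_cast at h7 ⊢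
    exact h7

end H83.LX
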