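import Pool.Agent.H83.LX.BDef

/-!
# LX-GDN: the field `K(x^{1/p})` and the units with given norms (the first half of `hxm` in `H83/LW/HXM.lean`; proved)
-/

set_option autoImplicit false

open scoped NumberField Pointwise
open scoped Classical

noncomputable section

namespace H83.LX

open H38.TD H38.ML H83.LW

variable {K Ω : Type} [Field K] [NumberField K] [Field Ω] [Algebra K Ω] [IsAlgClosure K Ω]

/-- the orders of `xx D i` -/
theorem gdn_od {p : ℕ} {ζp : K} (D : H63.MA.RD0 K p ζp) (i : H63.MA.Pl K →₀ ZMod p)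
    (hi : ∀ v ∈ i.support, v ∉ D.S0) (v : Pl K) (hv : v ∉ D.S0) :
    od v (xx D i) = ((i v).val : ℤ) := by
  rw [od_eq, ord_xx D i hi hv]

theorem gdn_supp {p : ℕ} [NeZero p] {ζp : K} (D : H63.MA.RD0 K p ζp)
    (i : H63.MA.Pl K →₀ ZMod p)
    (hi : ∀ v ∈ i.support, v ∉ D.S0) (v : Pl K) (hv : v ∈ i.support) :
    ¬ (p : ℤ) ∣ od v (xx D i) := by
  intro h
  rw [gdn_od D i hi v (hi v hv)] at h
  have h4 : p ∣ (i v).val := by exact_mod_cast h
  have h5 : 0 < (i v).val := Nat.pos_of_ne_zero fun h =>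
    (Finsupp.mem_support_iff.1 hv) ((ZMod.val_eq_zero _).1 h)
  exact absurd (Nat.le_of_dvd h5 h4) (not_le.2 (ZMod.val_lt _))

theorem gdn_out {p : ℕ} [NeZero p] {ζp : K} (D : H63.MA.RD0 K p ζp)
    (i : H63.MA.Pl K →₀ ZMod p)
    (hi : ∀ v ∈ i.support, v ∉ D.S0) (v : Pl K) (hv : v ∉ D.S0) (hv' : v ∉ i.support) :
    od v (xx D i) = 0 := by
  rw [gdn_od D i hi v hv, Finsupp.notMem_support_iff.1 hv', ZMod.val_zero]
  rfl

theorem gdn {p : ℕ} [NeZero p] (hp : p.Prime) (hp2 : H63.MA.MOne p K) (ζp : K)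
    (hζp : IsPrimitiveRoot ζp p) (D : H63.MA.RD0 K p ζp) (e : ℕ) (d : Fin e → Kˣ)
    (𝒦 : Submodule (ZMod p) (Fin D.r → ZMod p)) (hK : DK D e d 𝒦)
    (i : H63.MA.Pl K →₀ ZMod p) (hi : ∀ v ∈ i.support, D.Gd v)
    (hcl : cl D i = 0) (hne : i ≠ 0) (hgood : (Rl D i).card = p)
    (hY : ∀ v ∈ i.support, ∀ κ ∈ 𝒦, H63.MA.dt κ (D.q v) = 0) :
    ∃ (M : IntermediateField K Ω) (_ : FiniteDimensional K M) (_ : IsGalois K M)
      (_ : NumberField M) (_ : KX K M p ζp (xx D i)) (y : Fin e → Mˣ),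
      (∀ j, y j ∈ TU K M (D.S0 : Set (H63.MA.Pl K))) ∧ ∀ j, nU K M (y j) = d j := by
  have hiS : ∀ v ∈ i.support, v ∉ D.S0 := fun v hv => (hi v hv).1
  have hnp : ∀ y : Kˣ, y ^ p ≠ xx D i := by
    intro y hy
    exact xx_np hp D i hiS hne ⟨y, hy⟩
  obtain ⟨M, hM1, hM2, ⟨DX⟩⟩ := kxe (Ω := Ω) p hp ζp hζp (xx D i) hnp
  have hM3 : NumberField M := NumberField.of_module_finite K M
  obtain ⟨HK⟩ := kum_of (K := K) (M := M) hp DX
  have hnorm : ∀ j : Fin e, ∃ y : Mˣ, H63.MA.Nm K M y = d j ∧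
      ∀ w : H63.MA.Pl M, (∀ v ∈ D.S0, ¬ H63.MA.Over w v) → H63.MA.ord w y = 0 := by
    intro j
    refine good_norm hp hp2 hζp D i hiS hcl hgood HK (d j) (hK.ord0 j) ?_
    intro v hv
    exact (hK.iff v (hi v hv)).1 (hY v hv) j
  choose y hy1 hy2 using hnorm
  refine ⟨M, hM1, hM2, hM3, DX, y, fun j w hw => ?_, fun j => ?_⟩
  · rw [od_eq]
    exact hy2 j w fun v hv h => hw v (Finset.mem_coe.2 hv) ((ov_iff w v).2 h)
  · rw [nm_nU, hy1]

end H83.LX
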