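import Pool.Agent.H83.LX.ADef

/-!
# [H83 LX GRPF] facts on the group data (six theorems, 120-180 lines)

`δ = X.del`, `θ = X.θ`. Write `cᵏ m c⁻ᵏ = m j(δ_k m)`, `δ_k m = ∏_{i < k} θ^i (δ m)` (`mx_delk`: induction on `k`, `c m j(d) c⁻¹ = m j(δ m) j(θ d)`).
* `mx_theta`: `j(θ^k d) = c^k j(d) c^{-k}`, `c^p = 1`, `jinj`.
* `mx_del`: `c j(d) c⁻¹ = j(d) j(δ(j d))` and `= j(θ d)`.
* `mx_norm`: `d = δ m` (`dsur`): `∏_{i<p} θ^i (δ m) = δ_p m = 1` as `c^p = 1`. (`nh θ p d = ∏_{i < p} θ^i d`: `H38/TD/Defs`.)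
* `mx_fxp`: `θ d = d`: `d^p = nh θ p d = 1`.
* `mx_cen`: for `θ d = d` the element `j d` commutes with `M` (`cen`) and with `c` (`conj`), so with everything (`gen`).
* `mx_conj`: `p ∤ k`. The centraliser of `c^k` is the centraliser of `c` (`c` is a power of `c^k`, as `c^p = 1`), so the kernels of the homomorphisms
  `δ_k, δ : M → D` are equal (`δ_k m = 1` iff `c^k m c^{-k} = m`); so the range of `δ_k` has `#M / #ker = #D` elements, `δ_k` is surjective.
  Take `m` with `δ_k m = d⁻¹`: `m c^k m⁻¹ = m (c^k m⁻¹ c^{-k}) c^k = m m⁻¹ j(δ_k (m⁻¹)) c^k = j(d) c^k`. (`M` is finite since `Q` is.)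
-/

set_option autoImplicit false

open scoped NumberField Pointwise
open scoped Classical

noncomputable section

namespace H83.LX

open H38.TD H38.ML

variable {D Q : Type} [CommGroup D] [Group Q] {p : ℕ}

theorem mx_delk (X : MXD p D Q) (m : X.M) (k : ℕ) :
    X.c ^ k * (m : Q) * (X.c ^ k)⁻¹ =
      m * X.j (∏ i ∈ Finset.range k, ((X.θ : MulAut D) ^ i) (X.del m)) := by
  induction k with
  | zero => simp
  | succ k ih =>
    set w := ∏ i ∈ Finset.range k, ((X.θ : MulAut D) ^ i) (X.del m) with hw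
    have h1 : X.c ^ (k + 1) * (m : Q) * (X.c ^ (k + 1))⁻¹ =
        (X.c * m * X.c⁻¹) * (X.c * X.j w * X.c⁻¹) := by
      calc X.c ^ (k + 1) * (m : Q) * (X.c ^ (k + 1))⁻¹
          = X.c * (X.c ^ k * m * (X.c ^ k)⁻¹) * X.c⁻¹ := by
            rw [pow_succ', mul_inv_rev]; simp only [mul_assoc]
        _ = _ := by rw [ih]; group
    have h2 : X.θ w = ∏ i ∈ Finset.range k, ((X.θ : MulAut D) ^ (i + 1)) (X.del m) := by
      rw [hw, map_prod]
      refine Finset.prod_congr rfl fun i _ => ?_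
      rw [pow_succ', MulAut.mul_apply]
    rw [h1, X.cj, X.conj, mul_assoc, ← map_mul, Finset.prod_range_succ', h2, pow_zero,
      MulAut.one_apply, mul_comm (X.del m)]

theorem mx_thk (X : MXD p D Q) (k : ℕ) (d : D) :
    X.j (((X.θ : MulAut D) ^ k) d) = X.c ^ k * X.j d * (X.c ^ k)⁻¹ := by
  induction k with
  | zero => simp
  | succ k ih =>
    rw [pow_succ', MulAut.mul_apply]
    have h1 := X.conj (((X.θ : MulAut D) ^ k) d)
    rw [ih] at h1
    calc X.j (X.θ (((X.θ : MulAut D) ^ k) d))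
        = X.c * (X.c ^ k * X.j d * (X.c ^ k)⁻¹) * X.c⁻¹ := h1.symm
      _ = X.c ^ (k + 1) * X.j d * (X.c ^ (k + 1))⁻¹ := by
          rw [pow_succ', mul_inv_rev]
          simp only [mul_assoc]

theorem mx_theta (X : MXD p D Q) : (X.θ : MulAut D) ^ p = 1 := by
  ext d
  apply X.jinj
  rw [mx_thk, X.cp]
  simp

theorem mx_del (X : MXD p D Q) (d : D) : X.del ⟨X.j d, X.jM d⟩ = X.θ d * d⁻¹ := by
  have h1 := X.cj ⟨X.j d, X.jM d⟩
  have h2 : X.j (X.θ d) = X.j (d * X.del ⟨X.j d, X.jM d⟩) := by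
    rw [map_mul, ← X.conj]
    exact h1
  rw [X.jinj h2, mul_comm d, mul_inv_cancel_right]

theorem mx_norm (X : MXD p D Q) (d : D) : nh X.θ p d = 1 := by
  obtain ⟨m, rfl⟩ := X.dsur d
  have h := mx_delk X m p
  rw [X.cp, inv_one, one_mul, mul_one] at h
  have h1 : X.j (nh X.θ p (X.del m)) = X.j 1 := by
    rw [map_one]
    exact (mul_eq_left.1 h.symm)
  exact X.jinj h1

theorem mx_fxp (X : MXD p D Q) (d : D) (h : d ∈ fx X.θ) : d ^ p = 1 := by
  have h0 : X.θ d = d := h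
  have h1 : ∀ k : ℕ, ((X.θ : MulAut D) ^ k) d = d := by
    intro k
    induction k with
    | zero => simp
    | succ k ih =>
      rw [pow_succ', MulAut.mul_apply, ih]
      exact h0
  have h2 := mx_norm X d
  have h3 : nh X.θ p d = ∏ k ∈ Finset.range p, ((X.θ : MulAut D) ^ k) d := rfl
  rw [h3, Finset.prod_congr rfl fun k _ => h1 k, Finset.prod_const, Finset.card_range] at h2
  exact h2

theorem mx_cen (X : MXD p D Q) (d : D) (h : d ∈ fx X.θ) (g : Q) : X.j d * g = g * X.j d := by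
  have h0 : X.θ d = d := h
  have h1 : Commute X.c (X.j d) := by
    have h2 := X.conj d
    rw [h0] at h2
    exact mul_inv_eq_iff_eq_mul.1 h2
  obtain ⟨m, k, rfl⟩ := X.gen g
  have h2 : Commute (m : Q) (X.j d) := X.cen m m.2 d
  exact ((h2.mul_left (h1.pow_left k)).symm).eq

theorem mx_pow (hp : p.Prime) {c : Q} (hc : c ^ p = 1) (k : ℕ) (hk : ¬ p ∣ k) :
    ∃ a : ℤ, (c ^ k) ^ a = c := by
  have hcop : Nat.Coprime k p := ((Nat.Prime.coprime_iff_not_dvd hp).2 hk).symm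
  have h1 : (1 : ℤ) = k * Nat.gcdA k p + p * Nat.gcdB k p := by
    have := Nat.gcd_eq_gcd_ab k p
    rw [hcop.gcd_eq_one] at this
    exact_mod_cast this
  refine ⟨Nat.gcdA k p, ?_⟩
  calc (c ^ k) ^ Nat.gcdA k p = (c ^ k) ^ Nat.gcdA k p * (c ^ p) ^ Nat.gcdB k p := by
        rw [hc, one_zpow, mul_one]
    _ = c ^ ((k : ℤ) * Nat.gcdA k p + p * Nat.gcdB k p) := by
        rw [zpow_add, zpow_mul, zpow_mul, zpow_natCast, zpow_natCast]
    _ = c := by rw [← h1, zpow_one]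

theorem mx_conj [Finite Q] (hp : p.Prime) (X : MXD p D Q) (k : ℕ) (hk : ¬ p ∣ k) (d : D) :
    ∃ g : Q, g * X.c ^ k * g⁻¹ = X.j d * X.c ^ k := by
  have hfin : Finite D := Finite.of_injective _ X.jinj
  have hinj : Function.Injective (nh X.θ k) := by
    rw [injective_iff_map_eq_one]
    intro a ha
    obtain ⟨m, rfl⟩ := X.dsur a
    have h1 := mx_delk X m k
    have h2 : X.j (∏ i ∈ Finset.range k, ((X.θ : MulAut D) ^ i) (X.del m)) = 1 := by
      rw [← map_one X.j]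
      exact congrArg X.j ha
    rw [h2, mul_one] at h1
    have h3 : Commute (X.c ^ k) (m : Q) := mul_inv_eq_iff_eq_mul.1 h1
    obtain ⟨b, hb⟩ := mx_pow hp X.cp k hk
    have h4 : Commute X.c (m : Q) := by
      rw [← hb]
      exact h3.zpow_left b
    have h5 := X.cj m
    rw [h4.eq, mul_inv_cancel_right] at h5
    apply X.jinj
    rw [map_one]
    exact mul_eq_left.1 h5.symm
  have hsur : Function.Surjective (nh X.θ k) := Finite.surjective_of_injective hinj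
  obtain ⟨e, he⟩ := hsur d⁻¹
  obtain ⟨m, rfl⟩ := X.dsur e
  refine ⟨m, ?_⟩
  have h1 := mx_delk X m⁻¹ k
  have h2 : ∏ i ∈ Finset.range k, ((X.θ : MulAut D) ^ i) (X.del m⁻¹) = d := by
    have h3 : nh X.θ k (X.del m⁻¹) = d := by
      rw [map_inv, map_inv, he, inv_inv]
    exact h3
  rw [h2] at h1
  have h3 : ((m⁻¹ : X.M) : Q) = (m : Q)⁻¹ := rfl
  rw [h3] at h1
  calc (m : Q) * X.c ^ k * (m : Q)⁻¹ = m * (X.c ^ k * (m : Q)⁻¹ * (X.c ^ k)⁻¹) * X.c ^ k := by group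
    _ = m * ((m : Q)⁻¹ * X.j d) * X.c ^ k := by rw [h1]
    _ = X.j d * X.c ^ k := by group

end H83.LX
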