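import Pool.Agent.H83.LX.BDef
import Pool.Agent.H38.TD.HomEx

/-!
# [H83 LX HOMB] the homomorphism of the Kummer construction, with its values modulo `x / θ x` (100-160 lines)

Compare `homex` in `H38/TD/HomEx.lean` (copy its proof up to the `KumOut` structure `O`; index set `(J × Gal(M/K)) ⊕ J'`, `a' (j, g) = tb g (a j)`,
`a' j' = b j'`). `O.ρ σ = j (∏_x (a' (res M σ • x))^{κ σ x}) * ρb (res M σ)`, `σ (β x) = ζ^{κ σ x} β (res M σ • x)`, `β x ^ q = α x`. The same proof gives `IsKum`.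
Second property: let `D₁` be the set of the `x * (pd.θ x)⁻¹` (the range of an endomorphism of `A`, a subgroup). `tb g t * t⁻¹ ∈ D₁` for all `g, t` (`g = γ^k`: `D.gen`,
`htb`; induction). So, for fixed `j`, `∏_g (tb (res σ * g) (a j))^{κ σ (j, g)} ∈ (a j)^{s j} D₁`, `s j = ∑_g κ σ (j, g)`. Let
`B_j = ∏_g β (j, g)`. `B_j^q = ∏_g g (e j) = N (e j)` (`Algebra.norm_eq_prod_automorphisms`, `nU`), and
`σ B_j = ∏_g ζ^{κ σ (j, g)} β (j, res σ * g) = ζ^{s j} B_j` (reindexing by `g ↦ res σ * g`). The hypothesis gives `ζ^{s j} B_j = ζ^{n j} B_j`, so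
`(a j)^{s j} = (a j)^{n j}` (`hx_pow` in `HomEx`; `A^q = 1`). For `j'`: `σ (β j') = ζ^{κ} β j'` and `β j'` is a root of `f j'`: `(b j')^κ = (b j')^{n' j'}`.
-/

set_option autoImplicit false

open scoped NumberField Pointwise
open scoped Classical

noncomputable section

namespace H83.LX

open H38.TD H38.ML

variable {K Ω : Type} [Field K] [NumberField K] [Field Ω] [Algebra K Ω] [IsAlgClosure K Ω]

theorem homb (M : IntermediateField K Ω) [FiniteDimensional K M] [IsGalois K M]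
    {A P J J' : Type} [CommGroup A] [Group P] [Fintype J] [Fintype J'] {p : ℕ}
    (pd : H38.TD.PD p A P)
    {ζp : K} {x : Kˣ} (D : KX K M p ζp x) (q : ℕ) (hq : 0 < q) (ζ : K) (hζ : IsPrimitiveRoot ζ q)
    (hA : ∀ t : A, t ^ q = 1) (ρb : Gal(M/K) →* P) (tb : Gal(M/K) →* MulAut A)
    (htb : tb D.γ = pd.θ)
    (hconj : ∀ (g : Gal(M/K)) (t : A), pd.j (tb g t) = ρb g * pd.j t * (ρb g)⁻¹)
    (e : J → Mˣ) (f : J' → Kˣ) (a : J → A) (b : J' → A) (hb : ∀ j, pd.θ (b j) = b j) :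
    ∃ ρ : Gal(Ω/K) →* P, IsKum M pd q ζ ρb tb e f a b ρ ∧
      ∀ (σ : Gal(Ω/K)) (n : J → ℤ) (n' : J' → ℤ), (∀ j, HasE q ζ (nU K M (e j)) σ (n j)) →
        (∀ j, HasE q ζ (f j) σ (n' j)) →
        ∃ y : A, ρ σ = pd.j ((∏ j, a j ^ n j) * (∏ j, b j ^ n' j) * (y * (pd.θ y)⁻¹)) *
          ρb (res M σ) := by
  classical
  have hz : IsPrimitiveRoot (algebraMap K Ω ζ) q :=
    hζ.map_of_injective (algebraMap K Ω).injective
  have hbfix : ∀ (g : Gal(M/K)) j, tb g (b j) = b j := by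
    intro g j
    obtain ⟨k, rfl⟩ := D.gen g
    rw [map_pow]
    induction k with
    | zero => simp
    | succ k ih => rw [pow_succ, MulAut.mul_apply, htb, hb j, ← htb, ih]
  letI act : MulAction Gal(M/K) ((J × Gal(M/K)) ⊕ J') :=
    { smul := fun g x => Sum.elim (fun y => Sum.inl (y.1, g * y.2)) (fun j => Sum.inr j) x
      one_smul := by
        rintro (⟨j, h⟩ | j)
        · change Sum.inl (j, 1 * h) = _
          rw [one_mul]
        · rfl
      mul_smul := by
        rintro g g' (⟨j, h⟩ | j)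
        · change Sum.inl (j, g * g' * h) = Sum.inl (j, g * (g' * h))
          rw [mul_assoc]
        · rfl }
  let a' : (J × Gal(M/K)) ⊕ J' → A := Sum.elim (fun y => tb y.2 (a y.1)) b
  let α' : (J × Gal(M/K)) ⊕ J' → M :=
    Sum.elim (fun y => ((gU y.2 (e y.1) : Mˣ) : M)) (fun j => ((iU K M (f j) : Mˣ) : M))
  have hα : ∀ x, α' x ≠ 0 := by
    rintro (⟨j, h⟩ | j)
    · exact Units.ne_zero _
    · exact Units.ne_zero _
  have hαM : ∀ (g : Gal(M/K)) x, α' (g • x) = g (α' x) := by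
    rintro g (⟨j, h⟩ | j)
    · rfl
    · change algebraMap K M (f j) = g (algebraMap K M (f j))
      exact (AlgEquiv.commutes g _).symm
  have ha : ∀ (g : Gal(M/K)) x, pd.j (a' (g • x)) = ρb g * pd.j (a' x) * (ρb g)⁻¹ := by
    rintro g (⟨j, h⟩ | j)
    · change pd.j (tb (g * h) (a j)) = ρb g * pd.j (tb h (a j)) * (ρb g)⁻¹
      rw [map_mul, MulAut.mul_apply, hconj]
    · change pd.j (b j) = ρb g * pd.j (b j) * (ρb g)⁻¹
      rw [← hconj, hbfix]
  obtain ⟨O⟩ := exists_kumOut M ρb pd.j q hq ζ hζ hA a' α' hα hαM ha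
  have hβ0 : ∀ x, O.β x ≠ 0 := by
    intro x h0
    have h1 := O.hβ x
    rw [h0, zero_pow hq.ne'] at h1
    exact hα x (by exact_mod_cast h1.symm)
  refine ⟨O.ρ, ⟨O.ft, fun σ => ⟨_, O.hρ σ⟩, ?_⟩, ?_⟩
  · intro σ n m hres h1 h2
    have hk : ∀ x, σ (O.β x) = algebraMap K Ω ζ ^ O.κ σ x * O.β x := by
      intro x
      have h3 := O.hκ σ x
      rwa [hres, one_smul] at h3
    rw [O.hρ σ, hres, map_one, mul_one]
    congr 1
    simp only [one_smul]
    rw [Fintype.prod_sum_type, Fintype.prod_prod_type, kv]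
    congr 1
    · refine Finset.prod_congr rfl fun j _ => Finset.prod_congr rfl fun g _ => ?_
      refine hx_pow hq (hA _) hz (hβ0 (Sum.inl (j, g))) ?_
      rw [← hk, ← h1 j g _ (O.hβ (Sum.inl (j, g)))]
    · refine Finset.prod_congr rfl fun j _ => ?_
      refine hx_pow hq (hA _) hz (hβ0 (Sum.inr j)) ?_
      rw [← hk]
      exact h2 j _ (O.hβ (Sum.inr j))
  · intro σ n n' h1 h2
    let φ : A →* A := MonoidHom.mk' (fun y => y * (pd.θ y)⁻¹) (by
      intro u v
      simp only [map_mul, mul_inv]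
      exact mul_mul_mul_comm _ _ _ _)
    have hφ : ∀ y, φ y = y * (pd.θ y)⁻¹ := fun _ => rfl
    have hth : ∀ u : A, pd.θ u * u⁻¹ ∈ φ.range := by
      intro u
      refine ⟨u⁻¹, ?_⟩
      rw [hφ, map_inv, inv_inv, mul_comm]
    have htbD : ∀ (g : Gal(M/K)) (t : A), tb g t * t⁻¹ ∈ φ.range := by
      intro g t
      obtain ⟨k, rfl⟩ := D.gen g
      rw [map_pow, htb]
      induction k with
      | zero => simp
      | succ k ih =>
        rw [pow_succ', MulAut.mul_apply]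
        have h3 := mul_mem (hth (((pd.θ : MulAut A) ^ k) t)) ih
        rwa [mul_assoc, inv_mul_cancel_left] at h3
    set h := res M σ with hh
    -- the sums of the exponents
    have hs : ∀ j, a j ^ (∑ g, O.κ σ (Sum.inl (j, g))) = a j ^ n j := by
      intro j
      have hB : (∏ g, O.β (Sum.inl (j, g))) ^ q = algebraMap K Ω (nU K M (e j)) := by
        rw [← Finset.prod_pow, Finset.prod_congr rfl fun g _ => O.hβ (Sum.inl (j, g))]
        have h3 : algebraMap K M (nU K M (e j)) = ∏ g : Gal(M/K), g (e j : M) :=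
          Algebra.norm_eq_prod_automorphisms K (e j : M)
        have h4 : algebraMap K Ω (nU K M (e j)) =
            ((algebraMap K M (nU K M (e j)) : M) : Ω) := rfl
        rw [h4, h3]
        push_cast
        rfl
      have hσB : σ (∏ g, O.β (Sum.inl (j, g))) =
          algebraMap K Ω ζ ^ (∑ g, O.κ σ (Sum.inl (j, g))) * ∏ g, O.β (Sum.inl (j, g)) := by
        rw [map_prod, Finset.prod_congr rfl fun g _ => O.hκ σ (Sum.inl (j, g)),
          Finset.prod_mul_distrib, Finset.prod_pow_eq_pow_sum]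
        congr 1
        exact Equiv.prod_comp (Equiv.mulLeft h) fun g => O.β (Sum.inl (j, g))
      refine hx_pow hq (hA _) hz (y := ∏ g, O.β (Sum.inl (j, g)))
        (Finset.prod_ne_zero_iff.2 fun g _ => hβ0 _) ?_
      rw [← hσB]
      exact h1 j _ hB
    have hs' : ∀ j, b j ^ O.κ σ (Sum.inr j) = b j ^ n' j := by
      intro j
      refine hx_pow hq (hA _) hz (hβ0 (Sum.inr j)) ?_
      have h3 : σ (O.β (Sum.inr j)) = algebraMap K Ω ζ ^ O.κ σ (Sum.inr j) * O.β (Sum.inr j) :=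
        O.hκ σ (Sum.inr j)
      rw [← h3]
      exact h2 j _ (O.hβ (Sum.inr j))
    have hprod : ∀ j, ∃ y : A, ∏ g, (tb (h * g) (a j)) ^ O.κ σ (Sum.inl (j, g)) =
        a j ^ n j * φ y := by
      intro j
      have h3 : (∏ g, (tb (h * g) (a j) * (a j)⁻¹) ^ O.κ σ (Sum.inl (j, g))) ∈ φ.range :=
        prod_mem fun g _ => pow_mem (htbD _ _) _
      obtain ⟨y, hy⟩ := h3
      refine ⟨y, ?_⟩
      rw [hy, ← hs j, ← Finset.prod_pow_eq_pow_sum, ← Finset.prod_mul_distrib]
      refine Finset.prod_congr rfl fun g _ => ?_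
      rw [← mul_pow, mul_comm, inv_mul_cancel_right]
    choose y hy using hprod
    refine ⟨∏ j, y j, ?_⟩
    rw [O.hρ σ]
    congr 2
    rw [Fintype.prod_sum_type, Fintype.prod_prod_type, ← hφ, map_prod]
    have h3 : ∏ j, ∏ g, a' (h • Sum.inl (j, g)) ^ O.κ σ (Sum.inl (j, g)) =
        (∏ j, a j ^ n j) * ∏ j, φ (y j) := by
      rw [← Finset.prod_mul_distrib]
      exact Finset.prod_congr rfl fun j _ => hy j
    have h4 : ∏ j, a' (h • Sum.inr j) ^ O.κ σ (Sum.inr j) = ∏ j, b j ^ n' j :=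
      Finset.prod_congr rfl fun j _ => hs' j
    rw [h3, h4, mul_right_comm]

end H83.LX
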