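import Pool.Agent.H83.LX.GRPF

/-!
# [H83 LX MXH] from `(D × D) ⋊ C_p` to `Q` (70-110 lines)

`ρ σ = ψ σ * j(a) * c^k` if `ρ₁ σ = pd.j (a, δ(ψ σ)) * pd.c^k`, `δ = X.del`.
* well defined: `pd.j (a, d) pd.c^k = pd.j (a', d) pd.c^{k'}` implies `pd.c^{k - k'} ∈ range pd.j` (say `k' ≤ k`), so `p ∣ k - k'` (`pd.notin`), so `pd.c^k = pd.c^{k'}`
  (`pd.cp`), `a = a'` (`pd.jinj`), and `X.c^k = X.c^{k'}` (`X.cp`). So a function `ρ` with the property of the theorem exists (choice).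
* homomorphism: in `P`: `pd.j (a, d) pd.c^k pd.j (a', d') pd.c^{k'} = pd.j ((a, d) * pd.θ^k (a', d')) pd.c^{k+k'}` (`hc_conj` in `H38/TD/HomCnt`) and
  `pd.θ^k (a', d') = (θ^k a' * ∏_{i<k} θ^i d', d')` (induction, `hpd`). In `Q`, with `m = ψ σ`, `m' = ψ τ`, `d' = δ m'`:
  `m j(a) c^k m' j(a') c^{k'} = m j(a) (c^k m' c^{-k}) (c^k j(a') c^{-k}) c^{k+k'} = m j(a) m' j(∏_{i<k} θ^i d') j(θ^k a') c^{k+k'}` (`mx_delk`)
  `= m m' j(a θ^k a' ∏_{i<k} θ^i d') c^{k+k'}` (`X.cen`). So `ρ (σ τ) = ρ σ ρ τ`: both are given by the same `a` and `k + k'`. Use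
  `MonoidHom.mk'`.
-/

set_option autoImplicit false

open scoped NumberField Pointwise
open scoped Classical

noncomputable section

namespace H83.LX

open H38.TD H38.ML

private theorem mxh_uniq {A Q P : Type} [CommGroup A] [Group Q] [Group P] {p : ℕ} {c' : Q}
    (hc' : c' ^ p = 1) (pd : PD p A P) (x y : A) (k k' : ℕ)
    (h : pd.j x * pd.c ^ k = pd.j y * pd.c ^ k') : x = y ∧ c' ^ k = c' ^ k' := by
  have key : ∀ (x y : A) (n l : ℕ), pd.j x * pd.c ^ (n + l) = pd.j y * pd.c ^ l →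
      x = y ∧ c' ^ (n + l) = c' ^ l := by
    intro x y n l h
    rw [pow_add, ← mul_assoc] at h
    have h1 : pd.j x * pd.c ^ n = pd.j y := mul_right_cancel h
    have h2 : pd.c ^ n ∈ pd.j.range := ⟨x⁻¹ * y, by rw [map_mul, map_inv, ← h1]; group⟩
    obtain ⟨t, rfl⟩ := pd.notin n h2
    rw [pow_mul, pd.cp, one_pow, mul_one] at h1
    refine ⟨pd.jinj h1, ?_⟩
    rw [pow_add, pow_mul, hc', one_pow, one_mul]
  rcases le_total k' k with hk | hk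
  · obtain ⟨n, rfl⟩ := Nat.exists_eq_add_of_le' hk
    exact key x y n k' h
  · obtain ⟨n, rfl⟩ := Nat.exists_eq_add_of_le' hk
    have h1 := key y x n k h.symm
    exact ⟨h1.1.symm, h1.2.symm⟩

private theorem mxh_pow {D P : Type} [CommGroup D] [Group P] {p : ℕ} {θ : D ≃* D}
    (pd : PD p (D × D) P) (hpd : ∀ d : D × D, pd.θ d = (θ d.1 * d.2, d.2)) (k : ℕ)
    (x : D × D) : ((pd.θ : MulAut (D × D)) ^ k) x =
      (((θ : MulAut D) ^ k) x.1 * ∏ i ∈ Finset.range k, ((θ : MulAut D) ^ i) x.2, x.2) := by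
  induction k with
  | zero => simp
  | succ k ih =>
    rw [pow_succ', MulAut.mul_apply, ih]
    have h1 : ∀ y : D × D, (pd.θ : MulAut (D × D)) y = (θ y.1 * y.2, y.2) := hpd
    rw [h1]
    ext
    · simp only
      rw [Finset.prod_range_succ', map_mul, map_prod, pow_zero, MulAut.one_apply, pow_succ',
        MulAut.mul_apply, mul_assoc]
      congr 2
      refine Finset.prod_congr rfl fun i _ => ?_
      rw [pow_succ', MulAut.mul_apply]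
    · rfl

private theorem mxh_conj {A P : Type} [CommGroup A] [Group P] {p : ℕ} (pd : PD p A P) (k : ℕ)
    (a : A) : pd.j ((pd.θ ^ k : MulAut A) a) = pd.c ^ k * pd.j a * (pd.c ^ k)⁻¹ := by
  induction k with
  | zero => simp
  | succ k ih =>
    rw [pow_succ', MulAut.mul_apply]
    have h1 := pd.conj ((pd.θ ^ k : MulAut A) a)
    rw [ih] at h1
    calc pd.j (pd.θ ((pd.θ ^ k : MulAut A) a))
        = pd.c * (pd.c ^ k * pd.j a * (pd.c ^ k)⁻¹) * pd.c⁻¹ := h1.symm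
      _ = pd.c ^ (k + 1) * pd.j a * (pd.c ^ (k + 1))⁻¹ := by
          rw [pow_succ', mul_inv_rev]
          simp only [mul_assoc]

theorem mxh {D Q P Γ : Type} [CommGroup D] [Group Q] [Group P] [Group Γ] {p : ℕ}
    (X : MXD p D Q) (pd : PD p (D × D) P) (hpd : ∀ d : D × D, pd.θ d = (X.θ d.1 * d.2, d.2))
    (ψ : Γ →* X.M) (ρ₁ : Γ →* P)
    (h : ∀ σ, ∃ (a : D) (k : ℕ), ρ₁ σ = pd.j (a, X.del (ψ σ)) * pd.c ^ k) :
    ∃ ρ : Γ →* Q, ∀ (σ : Γ) (a : D) (k : ℕ),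
      ρ₁ σ = pd.j (a, X.del (ψ σ)) * pd.c ^ k → ρ σ = ψ σ * X.j a * X.c ^ k := by
  choose a k hak using h
  have hρ0 : ∀ (σ : Γ) (a' : D) (k' : ℕ), ρ₁ σ = pd.j (a', X.del (ψ σ)) * pd.c ^ k' →
      (ψ σ : Q) * X.j (a σ) * X.c ^ k σ = ψ σ * X.j a' * X.c ^ k' := by
    intro σ a' k' h'
    obtain ⟨h1, h2⟩ := mxh_uniq X.cp pd _ _ _ _ ((hak σ).symm.trans h')
    have h3 : a σ = a' := (Prod.ext_iff.1 h1).1
    rw [h2, h3]
  refine ⟨MonoidHom.mk' (fun σ => (ψ σ : Q) * X.j (a σ) * X.c ^ k σ) ?_, hρ0⟩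
  intro σ τ
  set w := ∏ i ∈ Finset.range (k σ), ((X.θ : MulAut D) ^ i) (X.del (ψ τ)) with hw
  have h1 : ρ₁ (σ * τ) = pd.j (a σ * (((X.θ : MulAut D) ^ k σ) (a τ) * w), X.del (ψ (σ * τ))) *
      pd.c ^ (k σ + k τ) := by
    have e1 : (a σ * (((X.θ : MulAut D) ^ k σ) (a τ) * w), X.del (ψ (σ * τ))) =
        (a σ, X.del (ψ σ)) * ((pd.θ : MulAut (D × D)) ^ k σ) (a τ, X.del (ψ τ)) := by
      rw [mxh_pow pd hpd, map_mul, map_mul]
      rfl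
    rw [e1, map_mul pd.j, mxh_conj, map_mul ρ₁, hak σ, hak τ, pow_add]
    group
  rw [hρ0 _ _ _ h1]
  have h2 := mx_delk X (ψ τ) (k σ)
  have h3 := mx_thk X (k σ) (a τ)
  rw [← hw] at h2
  have h4 : ((ψ (σ * τ) : X.M) : Q) = ψ σ * ψ τ := by rw [map_mul]; rfl
  have h5 := X.cen (ψ τ) (ψ τ).2 (a σ)
  rw [h4]
  symm
  calc ((ψ σ : Q) * X.j (a σ) * X.c ^ k σ) * (ψ τ * X.j (a τ) * X.c ^ k τ)
      = ψ σ * X.j (a σ) * (X.c ^ k σ * ψ τ * (X.c ^ k σ)⁻¹) *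
        (X.c ^ k σ * X.j (a τ) * (X.c ^ k σ)⁻¹) * (X.c ^ k σ * X.c ^ k τ) := by group
    _ = ψ σ * X.j (a σ) * (ψ τ * X.j w) * X.j (((X.θ : MulAut D) ^ k σ) (a τ)) *
        X.c ^ (k σ + k τ) := by rw [h2, ← h3, pow_add]
    _ = ψ σ * (X.j (a σ) * ψ τ) * (X.j w * X.j (((X.θ : MulAut D) ^ k σ) (a τ))) *
        X.c ^ (k σ + k τ) := by simp only [mul_assoc]
    _ = ψ σ * ψ τ * (X.j (a σ) * (X.j w * X.j (((X.θ : MulAut D) ^ k σ) (a τ)))) *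
        X.c ^ (k σ + k τ) := by rw [← h5]; simp only [mul_assoc]
    _ = _ := by rw [← map_mul, ← map_mul, mul_comm w]

end H83.LX
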