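import Pool.Agent.H83.LX.ADef

/-!
# [H83 LX PDX] the group `(D × D) ⋊ C_p` (60-100 lines)

`θ' (a, d) = (θ a * d, d)` is an automorphism of `D × D` (inverse: `(θ⁻¹ (a d⁻¹), d)`), and `θ'^k (a, d) = (θ^k a * ∏_{i<k} θ^i d, d)`, so `θ'^p = 1` by `hθ`, `hN`.
`P = (D × D) ⋊[φ] Multiplicative (ZMod p)` with `φ (ofAdd k) = θ'^k.val` (or `zpowersHom`/`ZMod.lift`-type: the homomorphism
`Multiplicative (ZMod p) →* MulAut (D × D)` with `ofAdd 1 ↦ θ'`, it exists because `θ'^p = 1`), `j = inl`, `c = inr (ofAdd 1)`. `conj`: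
`SemidirectProduct.inl_aut`. `gen`: `g = inl g.left * inr g.right`, `inr (ofAdd k) = c^k.val`. `notin`: the right component of `c^k` is `ofAdd k`,
and `(k : ZMod p) = 0` iff `p ∣ k`. `p` is prime, so `NeZero p`.
-/

set_option autoImplicit false

open scoped NumberField Pointwise
open scoped Classical

noncomputable section

namespace H83.LX

open H38.TD H38.ML

/-- the automorphism `(a, d) ↦ (θ a * d, d)` -/
def pdxT {D : Type} [CommGroup D] (θ : D ≃* D) : D × D ≃* D × D where
  toFun x := (θ x.1 * x.2, x.2)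
  invFun x := (θ.symm (x.1 * x.2⁻¹), x.2)
  left_inv x := by simp
  right_inv x := by simp
  map_mul' x y := by
    ext
    · simp only [Prod.fst_mul, Prod.snd_mul, map_mul]
      exact mul_mul_mul_comm _ _ _ _
    · rfl

theorem pdxT_pow {D : Type} [CommGroup D] (θ : D ≃* D) (k : ℕ) (x : D × D) :
    ((pdxT θ : MulAut (D × D)) ^ k) x =
      (((θ : MulAut D) ^ k) x.1 * ∏ i ∈ Finset.range k, ((θ : MulAut D) ^ i) x.2, x.2) := by
  induction k with
  | zero => simp
  | succ k ih =>
    rw [pow_succ', MulAut.mul_apply, ih]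
    have h1 : ∀ y : D × D, (pdxT θ : MulAut (D × D)) y = (θ y.1 * y.2, y.2) := fun _ => rfl
    rw [h1]
    ext
    · simp only
      rw [Finset.prod_range_succ', map_mul, map_prod, pow_zero, MulAut.one_apply, pow_succ',
        MulAut.mul_apply, mul_assoc]
      congr 2
      refine Finset.prod_congr rfl fun i _ => ?_
      rw [pow_succ', MulAut.mul_apply]
    · rfl

theorem pdx {D : Type} [CommGroup D] [Finite D] {p : ℕ} (hp : p.Prime) (θ : D ≃* D)
    (hθ : (θ : MulAut D) ^ p = 1) (hN : ∀ d, nh θ p d = 1) :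
    ∃ (P : Type) (_ : Group P) (_ : Finite P) (pd : PD p (D × D) P),
      ∀ d : D × D, pd.θ d = (θ d.1 * d.2, d.2) := by
  have hNe : NeZero p := ⟨hp.ne_zero⟩
  have hT : (pdxT θ : MulAut (D × D)) ^ p = 1 := by
    ext x
    · rw [pdxT_pow, hθ]
      have h2 : ∏ i ∈ Finset.range p, ((θ : MulAut D) ^ i) x.2 = 1 := hN x.2
      simp only
      rw [h2]
      simp
    · rw [pdxT_pow]
      rfl
  let φ : Multiplicative (ZMod p) →* MulAut (D × D) :=
    MonoidHom.mk' (fun x => (pdxT θ : MulAut (D × D)) ^ (Multiplicative.toAdd x).val) (by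
      intro a b
      simp only [toAdd_mul]
      rw [ZMod.val_add, ← pow_add]
      exact (pow_eq_pow_mod _ hT).symm)
  have hφ1 : φ (Multiplicative.ofAdd 1) = (pdxT θ : MulAut (D × D)) := by
    change (pdxT θ : MulAut (D × D)) ^ (1 : ZMod p).val = _
    have h1 : Fact (1 < p) := ⟨hp.one_lt⟩
    rw [ZMod.val_one, pow_one]
  have hfin : Finite ((D × D) ⋊[φ] Multiplicative (ZMod p)) := by
    have : Finite (Multiplicative (ZMod p)) := inferInstanceAs (Finite (ZMod p))
    exact Finite.of_equiv _ (SemidirectProduct.equivProd (φ := φ)).symm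
  have hpowr : ∀ k : ℕ, (SemidirectProduct.inr (Multiplicative.ofAdd (1 : ZMod p)) :
      (D × D) ⋊[φ] Multiplicative (ZMod p)) ^ k =
        SemidirectProduct.inr (Multiplicative.ofAdd (k : ZMod p)) := by
    intro k
    rw [← map_pow, ← ofAdd_nsmul, nsmul_eq_mul, mul_one]
  refine ⟨(D × D) ⋊[φ] Multiplicative (ZMod p), inferInstance, hfin,
    { θ := pdxT θ, j := SemidirectProduct.inl
      c := SemidirectProduct.inr (Multiplicative.ofAdd (1 : ZMod p))
      jinj := SemidirectProduct.inl_injective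
      cp := ?_
      conj := ?_
      gen := ?_
      notin := ?_ }, fun d => rfl⟩
  · rw [hpowr, ZMod.natCast_self, ofAdd_zero, map_one]
  · intro a
    rw [← map_inv, ← SemidirectProduct.inl_aut, hφ1]
  · intro g
    refine ⟨g.left, (Multiplicative.toAdd g.right).val, ?_⟩
    rw [hpowr, ZMod.natCast_zmod_val, ofAdd_toAdd, SemidirectProduct.inl_left_mul_inr_right]
  · rintro k ⟨a, ha⟩
    rw [hpowr] at ha
    have h1 := congrArg SemidirectProduct.rightHom ha
    rw [SemidirectProduct.rightHom_inl, SemidirectProduct.rightHom_inr] at h1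
    have h2 : (k : ZMod p) = 0 := (congrArg Multiplicative.toAdd h1).symm
    exact (ZMod.natCast_eq_zero_iff k p).1 h2

end H83.LX
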