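import Pool.Agent.H83.LX.KUMD

/-!
# [H83 LX SEED] the seeds of the Kummer construction (100-160 lines)

`q = p^k`. `kumd`: `r, g, z`. `hgen`: `z l = (∏_j (m j)^{a l j}) (x l) (θ (x l))⁻¹`. `d j = ∏_l (g l)^{a l j}`, `b l = (x l, x l * (θ (x l))⁻¹)`: `θ (x l) * (x l * (θ (x l))⁻¹) = x l`.
Values: exponents are additive. For every `σ` and `x : Kˣ` there is `n` with `HasE q ζ x σ n` (take one root `B₀ ≠ 0` (`IsAlgClosed.exists_pow_nat_eq`), `σ B₀ / B₀` is a `q`-th root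
of unity, so `ζ^n`; every other root is `ζ^i B₀` with `ζ ∈ K`), it is unique modulo `q`, and `HasE` for `x, x'` with `n, n'` gives `HasE` for `x x'` with `n + n'` and for `x^a` with `a n`.
So if `HasE (g l) σ (n' l)` and `HasE (d j) σ (n j)` then `n j ≡ ∑_l a l j n' l` modulo `q`, and
`η σ = ∏_l (z l)^{n' l} = ∏_j (m j)^{∑_l a l j n' l} ∏_l ((b l).2)^{n' l} = ∏_j (m j)^{n j} ∏_l ((b l).2)^{n' l}` as `D^q = 1`.
Independence: let `∏ (d j)^{n j} = y^p` and let `N j` be exponents of `σ` on the `d j`. If `k = 0` then `D` is trivial, so `m j = 1`, and `hind` for `n = 1` at `j`: `p ∣ 1`, so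
`e = 0`: nothing to prove. Let `k ≥ 1`. Let `B j` be `q`-th roots of `d j`, `C = ∏ (B j)^{n j}`: `C^q = y^p`, `C' = C^{q/p}` has `C'^p = y^p`, so `C' = ξ y` with `ξ^p = 1`,
`ξ ∈ K` (`ζ^{q/p}` is a primitive `p`-th root of unity), so `σ C' = C'`; and `σ C' = ζ^{(q/p) ∑ n j N j} C'`: so `p ∣ ∑_j n j N j` for all `σ`. Fix `j₀` and choose `σ` with
`η σ = m j₀` (surjective). By the value formula `∏_j (m j)^{N j - [j = j₀]}` is a product of elements `x (θ x)⁻¹` (the set of these is a subgroup: the range of an endomorphism;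
`(b l).2` lies in it), so `p ∣ N j - [j = j₀]` for all `j` by `hind`. So `∑ n j N j ≡ n j₀` modulo `p`, and `p ∣ n j₀`.
-/

set_option autoImplicit false

open scoped NumberField Pointwise
open scoped Classical

noncomputable section

namespace H83.LX

open H38.TD H38.ML

variable {K Ω : Type} [Field K] [NumberField K] [Field Ω] [Algebra K Ω] [IsAlgClosure K Ω]

private theorem seed_root {q : ℕ} (hq : 0 < q) {ζ : K} (hζ : IsPrimitiveRoot ζ q) {x : Kˣ}
    {σ : Gal(Ω/K)} {n : ℤ} {B₀ : Ω} (hB₀ : B₀ ^ q = algebraMap K Ω x)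
    (h : σ B₀ = algebraMap K Ω ζ ^ n * B₀) : HasE q ζ x σ n := by
  have hz : IsPrimitiveRoot (algebraMap K Ω ζ) q :=
    hζ.map_of_injective (algebraMap K Ω).injective
  have hne : B₀ ≠ 0 := by
    rintro rfl
    rw [zero_pow hq.ne'] at hB₀
    exact x.ne_zero ((map_eq_zero _).1 hB₀.symm)
  have hNe : NeZero q := ⟨hq.ne'⟩
  intro B hB
  have h3 : (B / B₀) ^ q = 1 := by
    rw [div_pow, hB, hB₀, div_self]
    rw [← hB₀]
    exact pow_ne_zero _ hne
  obtain ⟨i, -, hi⟩ := hz.eq_pow_of_pow_eq_one h3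
  have h4 : B = algebraMap K Ω ζ ^ i * B₀ := by
    rw [hi, div_mul_cancel₀ _ hne]
  rw [h4, map_mul, map_pow, AlgEquiv.commutes, h]
  ring

private theorem seed_ex {q : ℕ} (hq : 0 < q) {ζ : K} (hζ : IsPrimitiveRoot ζ q) (x : Kˣ)
    (σ : Gal(Ω/K)) : ∃ n : ℤ, HasE q ζ x σ n := by
  have hcl : IsAlgClosed Ω := IsAlgClosure.isAlgClosed K
  have hNe : NeZero q := ⟨hq.ne'⟩
  have hz : IsPrimitiveRoot (algebraMap K Ω ζ) q :=
    hζ.map_of_injective (algebraMap K Ω).injective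
  obtain ⟨B, hB⟩ := IsAlgClosed.exists_pow_nat_eq (algebraMap K Ω (x : K)) hq
  have hne : B ≠ 0 := by
    rintro rfl
    rw [zero_pow hq.ne'] at hB
    exact x.ne_zero ((map_eq_zero _).1 hB.symm)
  have h1 : (σ B / B) ^ q = 1 := by
    rw [div_pow, ← map_pow, hB, AlgEquiv.commutes, ← hB, div_self (pow_ne_zero _ hne)]
  obtain ⟨i, -, hi⟩ := hz.eq_pow_of_pow_eq_one h1
  refine ⟨i, seed_root hq hζ hB ?_⟩
  rw [zpow_natCast, hi, div_mul_cancel₀ _ hne]

private theorem seed_uniq {q : ℕ} (hq : 0 < q) {ζ : K} (hζ : IsPrimitiveRoot ζ q) {x : Kˣ}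
    {σ : Gal(Ω/K)} {n n' : ℤ} (h : HasE q ζ x σ n) (h' : HasE q ζ x σ n') :
    (q : ℤ) ∣ n - n' := by
  have hcl : IsAlgClosed Ω := IsAlgClosure.isAlgClosed K
  have hz : IsPrimitiveRoot (algebraMap K Ω ζ) q :=
    hζ.map_of_injective (algebraMap K Ω).injective
  obtain ⟨B, hB⟩ := IsAlgClosed.exists_pow_nat_eq (algebraMap K Ω (x : K)) hq
  have hne : B ≠ 0 := by
    rintro rfl
    rw [zero_pow hq.ne'] at hB
    exact x.ne_zero ((map_eq_zero _).1 hB.symm)
  have h1 := (h B hB).symm.trans (h' B hB)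
  have h2 := mul_right_cancel₀ hne h1
  have hz0 : algebraMap K Ω ζ ≠ 0 := hz.ne_zero hq.ne'
  have h3 : algebraMap K Ω ζ ^ (n - n') = 1 := by
    rw [zpow_sub₀ hz0, h2, div_self (zpow_ne_zero _ hz0)]
  exact (hz.zpow_eq_one_iff_dvd _).1 h3

private theorem seed_prod {q : ℕ} (hq : 0 < q) {ζ : K} (hζ : IsPrimitiveRoot ζ q) {r : ℕ}
    (g : Fin r → Kˣ) (a n : Fin r → ℤ) {σ : Gal(Ω/K)} (h : ∀ l, HasE q ζ (g l) σ (n l)) :
    HasE q ζ (∏ l, g l ^ a l) σ (∑ l, a l * n l) := by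
  have hcl : IsAlgClosed Ω := IsAlgClosure.isAlgClosed K
  have hz : IsPrimitiveRoot (algebraMap K Ω ζ) q :=
    hζ.map_of_injective (algebraMap K Ω).injective
  have hz0 : algebraMap K Ω ζ ≠ 0 := hz.ne_zero hq.ne'
  choose B hB using fun l => IsAlgClosed.exists_pow_nat_eq (algebraMap K Ω (g l : K)) hq
  have h1 : (∏ l, B l ^ a l) ^ q = algebraMap K Ω ((∏ l, g l ^ a l : Kˣ) : K) := by
    rw [Units.coe_prod, map_prod, ← Finset.prod_pow]
    refine Finset.prod_congr rfl fun l _ => ?_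
    rw [Units.val_zpow_eq_zpow_val, map_zpow₀, ← hB, ← zpow_natCast, ← zpow_mul, ← zpow_natCast,
      ← zpow_mul, mul_comm]
  refine seed_root hq hζ h1 ?_
  rw [map_prod]
  have h2 : ∀ l, σ (B l ^ a l) = algebraMap K Ω ζ ^ (a l * n l) * B l ^ a l := by
    intro l
    rw [map_zpow₀, h l _ (hB l), mul_zpow, ← zpow_mul, mul_comm (n l)]
  rw [Finset.prod_congr rfl fun l _ => h2 l, Finset.prod_mul_distrib]
  congr 1
  have key : ∀ s : Finset (Fin r), ∏ l ∈ s, algebraMap K Ω ζ ^ (a l * n l) =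
      algebraMap K Ω ζ ^ (∑ l ∈ s, a l * n l) := by
    intro s
    classical
    induction s using Finset.induction_on with
    | empty => simp
    | insert i s hi ih => rw [Finset.prod_insert hi, Finset.sum_insert hi, ih, zpow_add₀ hz0]
  exact key _

private theorem seed_powp {p m : ℕ} (hp : p.Prime) (hm : 0 < m) {ζ : K}
    (hζ : IsPrimitiveRoot ζ (p * m)) (y : Kˣ) {σ : Gal(Ω/K)} {n : ℤ}
    (h : HasE (p * m) ζ (y ^ p) σ n) : (p : ℤ) ∣ n := by
  have hcl : IsAlgClosed Ω := IsAlgClosure.isAlgClosed K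
  have hq : 0 < p * m := Nat.mul_pos hp.pos hm
  have hNe : NeZero p := ⟨hp.ne_zero⟩
  have hz : IsPrimitiveRoot (algebraMap K Ω ζ) (p * m) :=
    hζ.map_of_injective (algebraMap K Ω).injective
  have hξ : IsPrimitiveRoot (algebraMap K Ω ζ ^ m) p := hz.pow hq (mul_comm p m)
  obtain ⟨B, hB⟩ := IsAlgClosed.exists_pow_nat_eq (algebraMap K Ω ((y ^ p : Kˣ) : K)) hq
  have hy0 : algebraMap K Ω (y : K) ≠ 0 := by
    rw [Ne, map_eq_zero]
    exact y.ne_zero
  have h1 : (B ^ m / algebraMap K Ω (y : K)) ^ p = 1 := by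
    rw [div_pow, ← pow_mul, mul_comm m p, hB, Units.val_pow_eq_pow_val, map_pow,
      div_self (pow_ne_zero _ hy0)]
  obtain ⟨i, -, hi⟩ := hξ.eq_pow_of_pow_eq_one h1
  have h2 : B ^ m = (algebraMap K Ω ζ ^ m) ^ i * algebraMap K Ω (y : K) := by
    rw [hi, div_mul_cancel₀ _ hy0]
  have h3 : σ (B ^ m) = B ^ m := by
    rw [h2, map_mul, map_pow, map_pow, AlgEquiv.commutes, AlgEquiv.commutes]
  have h4 : σ (B ^ m) = (algebraMap K Ω ζ ^ m) ^ n * B ^ m := by
    rw [map_pow, h B hB, mul_pow, ← zpow_natCast, ← zpow_natCast (algebraMap K Ω ζ), ← zpow_mul,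
      ← zpow_mul, mul_comm (n : ℤ)]
  have hB0 : B ^ m ≠ 0 := by
    rw [h2]
    exact mul_ne_zero (pow_ne_zero _ (hξ.ne_zero hp.ne_zero)) hy0
  rw [h3] at h4
  have h5 : (algebraMap K Ω ζ ^ m) ^ n = 1 := (mul_eq_right₀ hB0).1 h4.symm
  exact (hξ.zpow_eq_one_iff_dvd _).1 h5

private theorem seed_sum {D ι : Type} [CommGroup D] (t : D) (s : Finset ι) (f : ι → ℤ) :
    ∏ l ∈ s, t ^ f l = t ^ (∑ l ∈ s, f l) := by
  classical
  induction s using Finset.induction_on with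
  | empty => simp
  | insert i s hi ih => rw [Finset.prod_insert hi, Finset.sum_insert hi, ih, zpow_add]

theorem seed {D : Type} [CommGroup D] [Finite D] {p : ℕ} (hp : p.Prime) (k : ℕ) (ζ : K)
    (hζ : IsPrimitiveRoot ζ (p ^ k)) (hD : ∀ d : D, d ^ p ^ k = 1) (θ : D ≃* D) {e : ℕ}
    (m : Fin e → D)
    (hgen : ∀ z : D, ∃ (n : Fin e → ℤ) (x : D), z = (∏ j, m j ^ n j) * (x * (θ x)⁻¹))
    (hind : ∀ n : Fin e → ℤ, (∃ x : D, ∏ j, m j ^ n j = x * (θ x)⁻¹) → ∀ j, (p : ℤ) ∣ n j)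
    (η : Gal(Ω/K) →* D) (hηs : Function.Surjective η) (hηf : FT η) :
    ∃ (r : ℕ) (g : Fin r → Kˣ) (b : Fin r → D × D) (d : Fin e → Kˣ),
      (∀ l, (θ (b l).1 * (b l).2, (b l).2) = b l) ∧
      (∀ j, ∃ a : Fin r → ℤ, d j = ∏ l, g l ^ a l) ∧
      (∀ n : Fin e → ℤ, (∃ y : Kˣ, ∏ j, d j ^ n j = y ^ p) → ∀ j, (p : ℤ) ∣ n j) ∧
      ∀ (σ : Gal(Ω/K)) (n : Fin e → ℤ) (n' : Fin r → ℤ), (∀ j, HasE (p ^ k) ζ (d j) σ (n j)) →
        (∀ l, HasE (p ^ k) ζ (g l) σ (n' l)) →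
        η σ = (∏ j, m j ^ n j) * ∏ l, (b l).2 ^ n' l := by
  have hq : 0 < p ^ k := pow_pos hp.pos k
  obtain ⟨r, g, z, hval⟩ := kumd (p ^ k) hq ζ hζ hD η hηf
  choose a x hax using fun l => hgen (z l)
  have hDz : ∀ (t : D) (u v : ℤ), ((p ^ k : ℕ) : ℤ) ∣ u - v → t ^ u = t ^ v := by
    intro t u v ⟨c, hc⟩
    have h1 : u = v + ((p ^ k : ℕ) : ℤ) * c := by linarith
    rw [h1, zpow_add, zpow_mul, zpow_natCast, hD, one_zpow, mul_one]
  have hvf : ∀ (σ : Gal(Ω/K)) (n : Fin e → ℤ) (n' : Fin r → ℤ),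
      (∀ j, HasE (p ^ k) ζ (∏ l, g l ^ a l j) σ (n j)) →
      (∀ l, HasE (p ^ k) ζ (g l) σ (n' l)) →
        η σ = (∏ j, m j ^ n j) * ∏ l, (x l * (θ (x l))⁻¹) ^ n' l := by
    intro σ n n' h1 h2
    rw [hval σ n' h2]
    have h3 : ∀ l, z l ^ n' l = (∏ j, m j ^ (a l j * n' l)) * (x l * (θ (x l))⁻¹) ^ n' l := by
      intro l
      conv_lhs => rw [hax l]
      rw [mul_zpow, ← Finset.prod_zpow]
      congr 1
      exact Finset.prod_congr rfl fun j _ => (zpow_mul _ _ _).symm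
    rw [Finset.prod_congr rfl fun l _ => h3 l, Finset.prod_mul_distrib, Finset.prod_comm]
    congr 1
    refine Finset.prod_congr rfl fun j _ => ?_
    have h4 : ∏ l, m j ^ (a l j * n' l) = m j ^ (∑ l, a l j * n' l) :=
      seed_sum (m j) Finset.univ _
    rw [h4]
    exact (hDz _ _ _ (seed_uniq hq hζ (h1 j) (seed_prod hq hζ g (fun l => a l j) n' h2))).symm
  refine ⟨r, g, fun l => (x l, x l * (θ (x l))⁻¹), fun j => ∏ l, g l ^ a l j, ?_, ?_, ?_, ?_⟩
  · intro l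
    ext
    · simp only
      rw [mul_comm (x l), mul_inv_cancel_left]
    · rfl
  · exact fun j => ⟨fun l => a l j, rfl⟩
  · rintro n ⟨y, hy⟩ j₀
    rcases Nat.eq_zero_or_pos k with hk | hk
    · have h1 : ∀ t : D, t = 1 := by
        intro t
        have := hD t
        rwa [hk, pow_zero, pow_one] at this
      have h2 : (p : ℤ) ∣ 1 := hind (fun _ => 1) ⟨1, (h1 _).trans (h1 _).symm⟩ j₀
      exact h2.trans (one_dvd _)
    · obtain ⟨k', rfl⟩ : ∃ k', k = k' + 1 := ⟨k - 1, by omega⟩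
      obtain ⟨σ, hσ⟩ := hηs (m j₀)
      choose N hN using fun j => seed_ex hq hζ (∏ l, g l ^ a l j) σ
      choose n' hn' using fun l => seed_ex hq hζ (g l) σ
      have h1 := seed_prod hq hζ (fun j => ∏ l, g l ^ a l j) n N hN
      rw [hy] at h1
      have hpk : p ^ (k' + 1) = p * p ^ k' := pow_succ' p k'
      rw [hpk] at h1
      have hζ' := hζ
      rw [hpk] at hζ'
      have h2 : (p : ℤ) ∣ ∑ j, n j * N j := seed_powp hp (pow_pos hp.pos k') hζ' y h1
      have h3 := hvf σ N n' hN hn'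
      rw [hσ] at h3
      classical
      let φ : D →* D := MonoidHom.mk' (fun y => y * (θ y)⁻¹) (by
        intro u v
        simp only [map_mul, mul_inv]
        exact mul_mul_mul_comm _ _ _ _)
      have hφ : ∀ y, φ y = y * (θ y)⁻¹ := fun _ => rfl
      have h4 : (∏ l, (x l * (θ (x l))⁻¹) ^ n' l) = φ (∏ l, x l ^ n' l) := by
        rw [map_prod]
        exact Finset.prod_congr rfl fun l _ => by rw [map_zpow, hφ]
      rw [h4] at h3
      have h5 : ∀ j, (p : ℤ) ∣ N j - (if j = j₀ then 1 else 0) := by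
        apply hind
        refine ⟨(∏ l, x l ^ n' l)⁻¹, ?_⟩
        rw [← hφ, map_inv]
        have h6 : ∏ j, m j ^ (N j - (if j = j₀ then 1 else 0 : ℤ)) =
            (∏ j, m j ^ N j) * (m j₀)⁻¹ := by
          have h7 : ∀ j, m j ^ (N j - (if j = j₀ then 1 else 0 : ℤ)) =
              m j ^ N j * (if j = j₀ then (m j₀)⁻¹ else 1) := by
            intro j
            split_ifs with h8
            · rw [zpow_sub, zpow_one, h8]
            · rw [sub_zero, mul_one]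
          rw [Finset.prod_congr rfl fun j _ => h7 j, Finset.prod_mul_distrib,
            Finset.prod_ite_eq' Finset.univ j₀ (fun _ => (m j₀)⁻¹), if_pos (Finset.mem_univ _)]
        rw [h6]
        conv_lhs => rw [h3]
        rw [mul_inv, ← mul_assoc, mul_inv_cancel, one_mul]
      have h6 : ∑ j, n j * N j - ∑ j, n j * (N j - (if j = j₀ then 1 else 0)) = n j₀ := by
        rw [← Finset.sum_sub_distrib]
        have h7 : ∀ j, n j * N j - n j * (N j - (if j = j₀ then 1 else 0)) =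
            if j = j₀ then n j₀ else 0 := by
          intro j
          split_ifs with h8
          · rw [h8]; ring
          · ring
        rw [Finset.sum_congr rfl fun j _ => h7 j]
        simp
      rw [← h6]
      exact dvd_sub h2 (Finset.dvd_sum fun j _ => (h5 j).mul_left _)
  · exact hvf

end H83.LX
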