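import Pool.Agent.H83.LX.HOMB
import Pool.Agent.H83.LX.MXH
import Pool.Agent.H83.LX.PDX
import Pool.Agent.H83.LX.SEED
import Pool.Agent.H83.LX.GDN
import Pool.Agent.H38.TD.TwFt

/-!
# LX-HXB: the first homomorphism over a good class (assembly)

`hxb1`: general `pd : PD p A P`. `hxb`: the homomorphism to `Q`.
-/

set_option autoImplicit false

open scoped NumberField Pointwise
open scoped Classical

noncomputable section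

namespace H83.LX

open H38.TD H38.ML H83.LW

variable {K Ω : Type} [Field K] [NumberField K] [Field Ω] [Algebra K Ω] [IsAlgClosure K Ω]

/-- existence of the exponents -/
theorem hasE_ex (q : ℕ) (hq : 0 < q) (ζ : K) (hζ : IsPrimitiveRoot ζ q) (x : Kˣ)
    (σ : Gal(Ω/K)) : ∃ n : ℤ, HasE q ζ x σ n := by
  have hclosed : IsAlgClosed Ω := IsAlgClosure.isAlgClosed K
  have hq0 : NeZero q := ⟨hq.ne'⟩
  have hz : IsPrimitiveRoot (algebraMap K Ω ζ) q :=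
    hζ.map_of_injective (algebraMap K Ω).injective
  obtain ⟨B, hB⟩ := IsAlgClosed.exists_pow_nat_eq (algebraMap K Ω (x : K)) hq
  have hB0 : B ≠ 0 := by
    intro h0
    rw [h0, zero_pow hq.ne'] at hB
    have h1 : algebraMap K Ω (x : K) = algebraMap K Ω 0 := by rw [map_zero]; exact hB.symm
    exact x.ne_zero ((algebraMap K Ω).injective h1)
  have h1 : (σ B) ^ q = B ^ q := by rw [← map_pow, hB, AlgEquiv.commutes]
  have h2 : (σ B / B) ^ q = 1 := by rw [div_pow, h1, div_self (pow_ne_zero _ hB0)]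
  obtain ⟨l, -, hl⟩ := hz.eq_pow_of_pow_eq_one h2
  refine ⟨(l : ℤ), ?_⟩
  intro C hC
  have h3 : (C / B) ^ q = 1 := by
    rw [div_pow, hC, hB, div_self]
    rw [← hB]
    exact pow_ne_zero _ hB0
  obtain ⟨i, -, hi⟩ := hz.eq_pow_of_pow_eq_one h3
  have h4 : C = algebraMap K Ω ζ ^ i * B := by
    rw [hi, div_mul_cancel₀ _ hB0]
  have h5 : σ B = algebraMap K Ω ζ ^ l * B := by rw [hl, div_mul_cancel₀ _ hB0]
  rw [h4, map_mul, map_pow, AlgEquiv.commutes, h5, zpow_natCast]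
  ring

theorem hxb1 {A P : Type} [CommGroup A] [Finite A] [Group P] [Finite P] {p : ℕ}
    (pd : H38.TD.PD p A P) (hp : p.Prime) (k : ℕ) (ζ : K)
    (hζ : IsPrimitiveRoot ζ (p ^ k)) (ζp : K)
    (hζp : IsPrimitiveRoot ζp p) (hA : ∀ t : A, t ^ p ^ k = 1) (S : Set (Pl K))
    (hSp : ∀ v : Pl K, v ∉ S → ((p : ℕ) : 𝓞 K) ∉ v.asIdeal) (supp : Finset (Pl K)) (x : Kˣ)
    (hx : ∀ v, v ∉ S → v ∉ supp → (p : ℤ) ∣ od v x) (M : IntermediateField K Ω)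
    [FiniteDimensional K M] [IsGalois K M] [NumberField M] (DX : KX K M p ζp x)
    {J J' : Type} [Fintype J] [Fintype J'] (e : J → Mˣ) (he : ∀ j, e j ∈ TU K M S)
    (f : J' → Kˣ) (hf : ∀ j, f j ∈ TK K S) (a : J → A) (b : J' → A)
    (hb : ∀ j, pd.θ (b j) = b j) :
    ∃ ρ : Gal(Ω/K) →* P, FT ρ ∧ OverX pd ζp x ρ ∧
      (∀ v, v ∉ S → v ∉ supp → UnrAt ρ v.asIdeal) ∧
      (∀ v : Pl K, v ∉ S → ∀ 𝔓 : Ideal (𝓞 Ω), 𝔓.IsPrime → 𝔓.under (𝓞 K) = v.asIdeal →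
        ∀ τ ∈ 𝔓.inertia Gal(Ω/K), ρ τ ∈ pd.j.range → ρ τ = 1) ∧
      ∀ (σ : Gal(Ω/K)) (n : J → ℤ) (n' : J' → ℤ),
        (∀ j, HasE (p ^ k) ζ (nU K M (e j)) σ (n j)) →
        (∀ j, HasE (p ^ k) ζ (f j) σ (n' j)) →
        ∃ (y : A) (l : ℕ), ρ σ = pd.j ((∏ j, a j ^ n j) * (∏ j, b j ^ n' j) *
          (y * (pd.θ y)⁻¹)) * pd.c ^ l := by
  obtain ⟨ρb, hρb⟩ := kx_rep DX hp pd.c pd.cp
  obtain ⟨tb, htb⟩ := kx_rep DX hp (pd.θ : MulAut A) (hc_theta_pow pd)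
  have hconj : ∀ (g : Gal(M/K)) (t : A), pd.j (tb g t) = ρb g * pd.j t * (ρb g)⁻¹ := by
    intro g t
    obtain ⟨l, rfl⟩ := DX.gen g
    rw [map_pow, map_pow, hρb, htb]
    exact hc_conj pd l t
  obtain ⟨ρ, hρ, hval⟩ := homb M pd DX (p ^ k) (pow_pos hp.pos k) ζ hζ hA ρb tb htb hconj e f a b hb
  have hnu : ∀ v, v ∉ S → v ∉ (∅ : Finset (Pl K)) → ∀ Q : Pl M, Ov Q v →
      nu tb e f a b Q = 1 := by
    intro v hv _ Q hQ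
    refine nu_one tb e f a b Q (fun j g => ?_) (fun j => ?_)
    · exact hc_ord (gU_mem_TU _ g _ (he j)) hv hQ
    · exact hc_ord ((iU_mem_TU_iff _ (f j)).2 (hf j)) hv hQ
  obtain ⟨hun, -⟩ := homloc hp hζ hζp DX a b ρ hρ S hSp supp ∅ (Finset.disjoint_empty_right _) hx
    hnu (fun v hv => absurd hv (Finset.notMem_empty v))
  refine ⟨ρ, hρ.ft, hc_over pd hp hζp DX hρ hρb, fun v h1 h2 => hun v h1 h2 (Finset.notMem_empty v),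
    ?_, ?_⟩
  · intro v hv 𝔓 h𝔓 h𝔓v τ hτ hj
    have hres : res M τ = 1 := by
      obtain ⟨a', ha'⟩ := hρ.modA τ
      obtain ⟨l, hl⟩ := DX.gen (res M τ)
      have h1 : pd.c ^ l ∈ pd.j.range := by
        have h2 : ρb (res M τ) = pd.c ^ l := by rw [hl, map_pow, hρb]
        rw [← h2]
        have h3 : ρb (res M τ) = (pd.j a')⁻¹ * ρ τ := by rw [ha', inv_mul_cancel_left]
        rw [h3]
        exact mul_mem (inv_mem ⟨a', rfl⟩) hj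
      obtain ⟨l', rfl⟩ := pd.notin l h1
      have hγp : DX.γ ^ p = 1 := orderOf_dvd_iff_pow_eq_one.1 (dvd_of_eq DX.ord)
      rw [hl, pow_mul, hγp, one_pow]
    have h2 : 𝔓.under (𝓞 M) ≠ ⊥ := layerInert_ne_bot 𝔓 v.asIdeal v.ne_bot h𝔓v
    have hp𝔓 : ((p : ℕ) : 𝓞 Ω) ∉ 𝔓 := by
      intro hmem
      apply hSp v hv
      rw [← h𝔓v]
      change algebraMap (𝓞 K) (𝓞 Ω) ((p : ℕ) : 𝓞 K) ∈ 𝔓
      rw [map_natCast]
      exact hmem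
    let Q : Pl M := ⟨𝔓.under (𝓞 M), inferInstance, h2⟩
    obtain ⟨t, ht⟩ := kum_inert hp hζ a b ρ hρ 𝔓 h𝔓 hp𝔓 Q rfl τ hτ hres
    rw [ht, hnu v hv (Finset.notMem_empty v) Q (layerInert_under 𝔓 v.asIdeal h𝔓v), one_zpow,
      map_one]
  · intro σ n n' h1 h2
    obtain ⟨y, hy⟩ := hval σ n n' h1 h2
    obtain ⟨l, hl⟩ := DX.gen (res M σ)
    refine ⟨y, l, ?_⟩
    rw [hy, hl, map_pow, hρb]

/-- the powers of `c` in `P` -/
theorem pd_unique {A P : Type} [CommGroup A] [Group P] {p : ℕ} (pd : H38.TD.PD p A P)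
    {a a' : A} {k k' : ℕ} (h : pd.j a * pd.c ^ k = pd.j a' * pd.c ^ k') :
    a = a' ∧ pd.c ^ k = pd.c ^ k' ∧ k ≡ k' [MOD p] := by
  have key : ∀ {a a' : A} {k k' : ℕ}, k' ≤ k → pd.j a * pd.c ^ k = pd.j a' * pd.c ^ k' →
      p ∣ k - k' := by
    intro a a' k k' hk h
    apply pd.notin
    refine ⟨a⁻¹ * a', ?_⟩
    have h1 : pd.c ^ k = pd.c ^ (k - k') * pd.c ^ k' := by rw [← pow_add, Nat.sub_add_cancel hk]
    rw [h1, ← mul_assoc] at h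
    have h2 := mul_right_cancel h
    rw [map_mul, map_inv, ← h2, inv_mul_cancel_left]
  have hmod : k ≡ k' [MOD p] := by
    rcases le_total k' k with hk | hk
    · exact ((Nat.modEq_iff_dvd' hk).2 (key hk h)).symm
    · exact (Nat.modEq_iff_dvd' hk).2 (key hk h.symm)
  have hc : pd.c ^ k = pd.c ^ k' := pow_eq_pow_iff_modEq.2
    (hmod.of_dvd (orderOf_dvd_of_pow_eq_one pd.cp))
  rw [hc] at h
  exact ⟨pd.jinj (mul_right_cancel h), hc, hmod⟩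

theorem hxb {D Q : Type} [CommGroup D] [Finite D] [Group Q] [Finite Q] {p : ℕ} [NeZero p]
    (X : MXD p D Q) (hp : p.Prime) (hp2 : H63.MA.MOne p K) (k : ℕ) (ζ : K)
    (hζ : IsPrimitiveRoot ζ (p ^ k)) (ζp : K) (hζp : IsPrimitiveRoot ζp p)
    (hD : ∀ t : D, t ^ p ^ k = 1) (D0 : H63.MA.RD0 K p ζp) {e : ℕ} (m : Fin e → D)
    (d : Fin e → Kˣ) (𝒦 : Submodule (ZMod p) (Fin D0.r → ZMod p)) (hK : DK D0 e d 𝒦)
    {r : ℕ} (g : Fin r → Kˣ) (hg : ∀ l v, v ∉ D0.S0 → H63.MA.ord v (g l) = 0)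
    (b : Fin r → D × D) (hb : ∀ l, (X.θ (b l).1 * (b l).2, (b l).2) = b l)
    (ψ : Gal(Ω/K) →* X.M) (hψf : FT ψ) (hψu : ∀ v : Pl K, v ∉ D0.S0 → UnrAt ψ v.asIdeal)
    (hval : ∀ (σ : Gal(Ω/K)) (n : Fin e → ℤ) (n' : Fin r → ℤ),
      (∀ j, HasE (p ^ k) ζ (d j) σ (n j)) → (∀ l, HasE (p ^ k) ζ (g l) σ (n' l)) →
        X.del (ψ σ) = (∏ j, m j ^ n j) * ∏ l, (b l).2 ^ n' l)
    (i : H63.MA.Pl K →₀ ZMod p) (hi : ∀ v ∈ i.support, D0.Gd v)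
    (hcl : cl D0 i = 0) (hne : i ≠ 0) (hgood : (Rl D0 i).card = p)
    (hY : ∀ v ∈ i.support, ∀ κ ∈ 𝒦, H63.MA.dt κ (D0.q v) = 0) :
    ∃ ρ : Gal(Ω/K) →* Q, FT ρ ∧ OverQ X ζp (xx D0 i) ρ ∧
      (∀ v : Pl K, v ∉ D0.S0 → v ∉ i.support → UnrAt ρ v.asIdeal) ∧
      (∀ v : Pl K, v ∉ D0.S0 → InQ X ρ v.asIdeal) ∧
      ∀ σ, ∃ (a : D) (l : ℕ), ρ σ = ψ σ * X.j a * X.c ^ l := by
  have hiS : ∀ v ∈ i.support, v ∉ D0.S0 := fun v hv => (hi v hv).1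
  have hSp : ∀ v : H38.TD.Pl K, v ∉ (D0.S0 : Set (H63.MA.Pl K)) → ((p : ℕ) : 𝓞 K) ∉ v.asIdeal := by
    intro v hv h
    exact hv (Finset.mem_coe.2 (D0.above v h))
  obtain ⟨M, i1, i2, i3, DX, y, hy1, hy2⟩ := gdn (Ω := Ω) hp hp2 ζp hζp D0 e d 𝒦 hK i hi hcl hne
    hgood hY
  obtain ⟨P, _, _, pd, hpd⟩ := pdx hp X.θ (mx_theta X) (mx_norm X)
  have hA : ∀ t : D × D, t ^ p ^ k = 1 := by
    intro t
    ext
    · exact hD t.1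
    · exact hD t.2
  obtain ⟨ρ₁, h1f, h1o, h1u, h1i, h1v⟩ := hxb1 (Ω := Ω) pd hp k ζ hζ ζp hζp hA
    (D0.S0 : Set (H63.MA.Pl K)) hSp i.support (xx D0 i)
    (fun v hv hv' => by
      rw [gdn_out D0 i hiS v (fun h => hv (Finset.mem_coe.2 h)) hv']
      exact dvd_zero _) M DX y hy1 g
    (fun l v hv => by
      rw [od_eq]
      exact hg l v fun h => hv (Finset.mem_coe.2 h)) (fun j => (1, m j)) b
    (fun l => by rw [hpd]; exact hb l)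
  -- the second component
  have hsec : ∀ σ, ∃ (a : D) (l : ℕ), ρ₁ σ = pd.j (a, X.del (ψ σ)) * pd.c ^ l := by
    intro σ
    choose n hn using fun j => hasE_ex (p ^ k) (pow_pos hp.pos k) ζ hζ (d j) σ
    choose n' hn' using fun l => hasE_ex (p ^ k) (pow_pos hp.pos k) ζ hζ (g l) σ
    obtain ⟨z, l, hz⟩ := h1v σ n n' (fun j => by rw [hy2]; exact hn j) hn'
    have h3 : ((∏ j, ((1, m j) : D × D) ^ n j) * (∏ l, b l ^ n' l) * (z * (pd.θ z)⁻¹)).2 =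
        X.del (ψ σ) := by
      rw [hval σ n n' hn hn', Prod.snd_mul, Prod.snd_mul, Prod.snd_prod, Prod.snd_prod,
        Prod.snd_mul, Prod.snd_inv, hpd z]
      simp
    refine ⟨((∏ j, ((1, m j) : D × D) ^ n j) * (∏ l, b l ^ n' l) * (z * (pd.θ z)⁻¹)).1, l, ?_⟩
    rw [hz, ← h3]
  obtain ⟨ρ, hρ⟩ := mxh X pd hpd ψ ρ₁ hsec
  have hmod : ∀ σ, ∃ (a : D) (l : ℕ), ρ σ = ψ σ * X.j a * X.c ^ l := by
    intro σ
    obtain ⟨a, l, h⟩ := hsec σ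
    exact ⟨a, l, hρ σ a l h⟩
  have hone : ∀ σ, ψ σ = 1 → ρ₁ σ = 1 → ρ σ = 1 := by
    intro σ h1 h2
    have h3 := hρ σ 1 0 (by
      rw [h2, h1, map_one]
      have : ((1, 1) : D × D) = 1 := rfl
      rw [this, map_one, one_mul, pow_zero])
    rw [h3, h1]
    simp
  refine ⟨ρ, ft_of_two ψ ρ₁ ρ hψf h1f hone, ?_, ?_, ?_, hmod⟩
  · obtain ⟨B, hB, hBs⟩ := h1o
    refine ⟨B, hB, ?_⟩
    intro σ l hσ
    obtain ⟨a', ha'⟩ := hBs σ l hσ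
    obtain ⟨a, l', hal⟩ := hsec σ
    obtain ⟨h1, -, -⟩ := pd_unique pd (ha'.symm.trans hal)
    have h2 : ρ₁ σ = pd.j (a, X.del (ψ σ)) * pd.c ^ l := by rw [ha', h1]
    exact ⟨ψ σ * X.j a, mul_mem (ψ σ).2 (X.jM a), hρ σ a l h2⟩
  · intro v hv hv' 𝔓 h𝔓 h𝔓v τ hτ
    exact hone τ (hψu v hv 𝔓 h𝔓 h𝔓v τ hτ)
      (h1u v (fun h => hv (Finset.mem_coe.1 h)) hv' 𝔓 h𝔓 h𝔓v τ hτ)
  · intro v hv 𝔓 h𝔓 h𝔓v τ hτ
    have h1 := hψu v hv 𝔓 h𝔓 h𝔓v τ hτ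
    obtain ⟨a, l, hal⟩ := hsec τ
    refine ⟨a, l, ?_, ?_⟩
    · rw [hρ τ a l hal, h1]
      simp
    · rintro ⟨l', rfl⟩
      apply hone τ h1
      refine h1i v (fun h => hv (Finset.mem_coe.1 h)) 𝔓 h𝔓 h𝔓v τ hτ ⟨(a, X.del (ψ τ)), ?_⟩
      rw [hal, pow_mul, pd.cp, one_pow, mul_one]

end H83.LX
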