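import Pool.Agent.H83.LX.BDef
import Pool.Agent.H83.LX.GRPF

/-!
# [H83 LX INQ] small inertia groups (50-80 lines)

Let `R' = ρ(I)`, `I` an inertia group over `v`: a subgroup of `Q` all of whose elements are `j(a) c^k`, and `1` if `p ∣ k` (`InQ`).
`CjAt`: `ρ τ = j(a) c^k`. If `p ∣ k`: `ρ τ = 1 = 1 c^0 1⁻¹`. Otherwise `mx_conj` (`GRPF`).
`SmallAt`: `R' → Q ⧸ X.M` (or: a function `R' → ZMod p`, `j(a) c^k ↦ k`) is injective: if `ρ τ = j(a) c^k`, `ρ τ' = j(a') c^{k'}` lie in the same left coset of `M`, then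
`ρ (τ⁻¹ τ') ∈ M`, and it is `j(b) c^l` with `c^l ∈ M`, so `p ∣ l` (`X.notin`), so `ρ (τ⁻¹ τ') = 1`. The cosets of `M` are the `c^k M` with `k < p` (`gen`: `g = m c^k`, consider
right cosets `M g`, or use inverses): at most `p`.
-/

set_option autoImplicit false

open scoped NumberField Pointwise
open scoped Classical

noncomputable section

namespace H83.LX

open H38.TD H38.ML

variable {K Ω : Type} [Field K] [NumberField K] [Field Ω] [Algebra K Ω] [IsAlgClosure K Ω]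

theorem inq {D Q : Type} [CommGroup D] [Group Q] [Finite Q] {p : ℕ} (X : MXD p D Q)
    (hp : p.Prime) (ρ : Gal(Ω/K) →* Q) (v : Ideal (𝓞 K)) (h : InQ X ρ v) :
    SmallAt p ρ v ∧ CjAt X.c ρ v := by
  have hp0 : NeZero p := ⟨hp.ne_zero⟩
  constructor
  · intro 𝔓 h𝔓 h𝔓v
    have hI := h 𝔓 h𝔓 h𝔓v
    have hex : ∀ r : (𝔓.inertia Gal(Ω/K)).map ρ, ∃ (a : D) (k : ℕ), (r : Q) = X.j a * X.c ^ k := by
      rintro ⟨_, τ, hτ, rfl⟩
      obtain ⟨a, k, h1, -⟩ := hI τ hτ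
      exact ⟨a, k, h1⟩
    choose a k hak using hex
    have hinj : Function.Injective (fun r : (𝔓.inertia Gal(Ω/K)).map ρ => (k r : ZMod p)) := by
      intro r r' hrr
      have hmod : k r ≡ k r' [MOD p] := (ZMod.natCast_eq_natCast_iff _ _ _).1 hrr
      have hc : X.c ^ k r = X.c ^ k r' := by
        rw [pow_eq_pow_mod (k r) X.cp, pow_eq_pow_mod (k r') X.cp, hmod]
      have h1 : (r : Q) * (r' : Q)⁻¹ = X.j (a r * (a r')⁻¹) := by
        rw [hak r, hak r', hc, map_mul, map_inv]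
        group
      obtain ⟨τ, hτ, h2⟩ := r.2
      obtain ⟨τ', hτ', h3⟩ := r'.2
      obtain ⟨b, l, h4, h5⟩ := hI (τ * τ'⁻¹) (mul_mem hτ (inv_mem hτ'))
      have h6 : ρ (τ * τ'⁻¹) = (r : Q) * (r' : Q)⁻¹ := by rw [map_mul, map_inv, h2, h3]
      have h7 : X.c ^ l ∈ X.M := by
        have h8 : X.c ^ l = X.j (b⁻¹ * (a r * (a r')⁻¹)) := by
          rw [map_mul, map_inv, ← h1, ← h6, h4, inv_mul_cancel_left]
        rw [h8]
        exact X.jM _
      have h8 := h5 (X.notin l h7)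
      rw [h6, mul_inv_eq_one] at h8
      exact Subtype.ext h8
    have h1 := Nat.card_le_card_of_injective _ hinj
    rwa [Nat.card_zmod] at h1
  · intro 𝔓 h𝔓 h𝔓v τ hτ
    obtain ⟨a, k, h1, h2⟩ := h 𝔓 h𝔓 h𝔓v τ hτ
    by_cases hk : p ∣ k
    · exact ⟨1, 0, by rw [h2 hk]; simp⟩
    · obtain ⟨g, hg⟩ := mx_conj hp X k hk a
      exact ⟨g, k, by rw [hg, h1]⟩

end H83.LX
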