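import Pool.Agent.H83.LX.GRPF

/-!
# [H83 LX MXS] surjectivity (100-150 lines)

`R ≤ Q` is a subgroup satisfying (h1) for every `m ∈ M` some `m j(d) c^k ∈ R`; (h2) some `j(d) c^k ∈ R` with `p ∤ k`. Claim `R = ⊤`. `δ = X.del`, `θ = X.θ`.
(1) `R j(D) = Q` (`j(D)` is normal in `Q`): modulo `j(D)` the element `c` commutes with `M`; by (h2) `c^k ∈ R j(D)`, so `c ∈ R j(D)` (`c^p = 1`, Bezout), so `M ⊆ R j(D)`
by (h1), so `Q` (`gen`). So for every `g` there are `r ∈ R`, `d` with `g = r j(d)`.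
(2) `D₀ = {d : j(d) ∈ R}` is a subgroup of `D`, stable under `θ` and `θ⁻¹`: `c = r j(d')`, so `j(θ d) = c j(d) c⁻¹ = r j(d) r⁻¹ ∈ R`.
(3) `D = D₀ (θ - 1) D`: let `m ∈ M`, `m = r j(d)`, `c = r' j(d')` with `r, r' ∈ R`; `r ∈ M`. `c m c⁻¹ = (c r c⁻¹) j(θ d)` and `c r c⁻¹ = r' (j(d') r j(d')⁻¹) r'⁻¹ = r' r r'⁻¹`
  (`X.cen`). So `m j(δ m) = r' r r'⁻¹ j(θ d)`, `j(δ m) = j(d)⁻¹ r⁻¹ r' r r'⁻¹ j(θ d)`. Also `c r c⁻¹ = r j(δ r)`, so `r⁻¹ r' r r'⁻¹ = j(δ r) ∈ R`, `δ r ∈ D₀`, and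
  `δ m = δ r · (θ d / d)` (`mx_del`). As `δ` is surjective, every `z ∈ D` is `z₀ (θ d / d)` with `z₀ ∈ D₀`.
(4) `D₀ = ⊤`: `D̄ = D ⧸ D₀` is a finite group of order a power of `p` on which `θ` acts (`D₀` is `θ`-stable) with `θ̄^p = 1` (`mx_theta`), and `z ↦ θ̄ z / z` is
  surjective by (3), so injective: `1` is the only fixed point of `θ̄`. A group of order `p^a`, on which a group of order `p` (or `1`) acts, has a number of
  fixed points congruent to `#D̄` modulo `p` (`IsPGroup.card_modEq_card_fixedPoints`), so `#D̄ ≡ 1`, `#D̄ = 1`. (Alternative: iterate (3):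
  `D = D₀ (θ-1)^n D` for all `n` and `θ - 1` is nilpotent on `D`.)
(5) `j(D) ⊆ R`, so `R = R j(D) = Q`.
-/

set_option autoImplicit false

open scoped NumberField Pointwise
open scoped Classical

noncomputable section

namespace H83.LX

open H38.TD H38.ML

private theorem mxs_nil {D : Type} [AddCommGroup D] {p k : ℕ} (hp : p.Prime)
    (hD : ∀ d : D, p ^ k • d = 0) (θ : AddMonoid.End D) (hθ : θ ^ p = 1) :
    (θ - 1) ^ (p * k) = 0 := by
  have hcm : Commute (θ - 1) 1 := Commute.one_right _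
  obtain ⟨r, hr⟩ := hcm.exists_add_pow_prime_eq hp
  rw [sub_add_cancel, hθ, one_pow, mul_one] at hr
  have h1 : (θ - 1) ^ p = (p : AddMonoid.End D) * (-((θ - 1) * r)) := by
    have h2 : (θ - 1) ^ p + (p : AddMonoid.End D) * ((θ - 1) * r) = 0 := by
      have h3 : (1 : AddMonoid.End D) =
          ((θ - 1) ^ p + (p : AddMonoid.End D) * ((θ - 1) * r)) + 1 := by
        rw [← mul_assoc]
        rw [add_right_comm] at hr
        exact hr
      exact (add_eq_right.1 h3.symm)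
    rw [mul_neg]
    exact eq_neg_of_add_eq_zero_left h2
  have h4 : ((p : AddMonoid.End D)) ^ k = 0 := by
    ext d
    have h5 : ((p : AddMonoid.End D)) ^ k = ((p ^ k : ℕ) : AddMonoid.End D) := by
      rw [Nat.cast_pow]
    rw [h5]
    change ((p ^ k : ℕ) : AddMonoid.End D) d = 0
    rw [AddMonoid.End.natCast_apply]
    exact hD d
  rw [pow_mul, h1, (Nat.cast_commute p _).mul_pow, h4, zero_mul]

theorem mxs {D Q : Type} [CommGroup D] [Finite D] [Group Q] [Finite Q] {p : ℕ} (hp : p.Prime)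
    (X : MXD p D Q) (k : ℕ) (hD : ∀ d : D, d ^ p ^ k = 1) (R : Subgroup Q)
    (h1 : ∀ m : X.M, ∃ (d : D) (k : ℕ), (m : Q) * X.j d * X.c ^ k ∈ R)
    (h2 : ∃ (d : D) (k : ℕ), ¬ p ∣ k ∧ X.j d * X.c ^ k ∈ R) : R = ⊤ := by
  have hNn : X.j.range.Normal := by
    refine ⟨?_⟩
    rintro _ ⟨d, rfl⟩ g
    obtain ⟨m, l, rfl⟩ := X.gen g
    refine ⟨((X.θ : MulAut D) ^ l) d, ?_⟩
    have e1 := mx_thk X l d
    have e2 := X.cen m m.2 (((X.θ : MulAut D) ^ l) d)
    calc X.j (((X.θ : MulAut D) ^ l) d)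
        = X.j (((X.θ : MulAut D) ^ l) d) * m * (m : Q)⁻¹ := by group
      _ = m * X.j (((X.θ : MulAut D) ^ l) d) * (m : Q)⁻¹ := by rw [e2]
      _ = _ := by rw [e1]; group
  have hjN : ∀ d, X.j d ∈ R ⊔ X.j.range := fun d =>
    (le_sup_right : X.j.range ≤ R ⊔ X.j.range) ⟨d, rfl⟩
  have hRN : ∀ r ∈ R, r ∈ R ⊔ X.j.range := fun r hr =>
    (le_sup_left : R ≤ R ⊔ X.j.range) hr
  have hcS : X.c ∈ R ⊔ X.j.range := by
    obtain ⟨d, l, hl, hR⟩ := h2
    obtain ⟨a, ha⟩ := mx_pow hp X.cp l hl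
    rw [← ha]
    refine Subgroup.zpow_mem _ ?_ a
    have h3 := Subgroup.mul_mem _ (Subgroup.inv_mem _ (hjN d)) (hRN _ hR)
    rwa [inv_mul_cancel_left] at h3
  have hmS : ∀ m : X.M, (m : Q) ∈ R ⊔ X.j.range := by
    intro m
    obtain ⟨d, l, hR⟩ := h1 m
    have h3 := Subgroup.mul_mem _ (Subgroup.mul_mem _ (hRN _ hR)
      (Subgroup.inv_mem _ (Subgroup.pow_mem _ hcS l))) (Subgroup.inv_mem _ (hjN d))
    rwa [mul_inv_cancel_right, mul_inv_cancel_right] at h3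
  have hdec : ∀ g : Q, ∃ r ∈ R, ∃ d, g = r * X.j d := by
    intro g
    have hg : g ∈ R ⊔ X.j.range := by
      obtain ⟨m, l, rfl⟩ := X.gen g
      exact Subgroup.mul_mem _ (hmS m) (Subgroup.pow_mem _ hcS l)
    obtain ⟨r, hr, _, ⟨d, rfl⟩, h⟩ := Subgroup.mem_sup_of_normal_right.1 hg
    exact ⟨r, hr, d, h.symm⟩
  obtain ⟨r', hr', d', hc'⟩ := hdec X.c
  have hD0 : ∀ d, X.j d ∈ R → X.j (X.θ d) ∈ R := by
    intro d hd
    have h3 : X.j (X.θ d) = r' * X.j d * r'⁻¹ := by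
      rw [← X.conj, hc']
      have h4 : X.j d' * X.j d = X.j d * X.j d' := by rw [← map_mul, ← map_mul, mul_comm]
      calc r' * X.j d' * X.j d * (r' * X.j d')⁻¹ = r' * (X.j d' * X.j d) * (X.j d')⁻¹ * r'⁻¹ := by
            group
        _ = _ := by rw [h4]; group
    rw [h3]
    exact R.mul_mem (R.mul_mem hr' hd) (R.inv_mem hr')
  have h3 : ∀ z : D, ∃ z0 d : D, X.j z0 ∈ R ∧ z = z0 * (X.θ d * d⁻¹) := by
    intro z
    obtain ⟨m, rfl⟩ := X.dsur z
    obtain ⟨r, hr, d, hm⟩ := hdec m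
    have hrM : r ∈ X.M := by
      have h4 := X.M.mul_mem m.2 (X.M.inv_mem (X.jM d))
      rwa [hm, mul_inv_cancel_right] at h4
    have h5 : X.j (X.del ⟨r, hrM⟩) ∈ R := by
      have h6 := X.cj ⟨r, hrM⟩
      have h7 : X.c * r * X.c⁻¹ = r' * r * r'⁻¹ := by
        rw [hc']
        have h8 := X.cen r hrM d'
        calc r' * X.j d' * r * (r' * X.j d')⁻¹ = r' * (X.j d' * r) * (X.j d')⁻¹ * r'⁻¹ := by group
          _ = _ := by rw [← h8]; group
      have h9 : X.j (X.del ⟨r, hrM⟩) = r⁻¹ * (r' * r * r'⁻¹) := by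
        rw [← h7]
        rw [show X.c * r * X.c⁻¹ = r * X.j (X.del ⟨r, hrM⟩) from h6]
        group
      rw [h9]
      exact R.mul_mem (R.inv_mem hr) (R.mul_mem (R.mul_mem hr' hr) (R.inv_mem hr'))
    refine ⟨X.del ⟨r, hrM⟩, d, h5, ?_⟩
    rw [← mx_del, ← map_mul]
    congr 1
    exact Subtype.ext hm
  let θa : AddMonoid.End (Additive D) := MonoidHom.toAdditive (X.θ : D →* D)
  have hθa : ∀ x : Additive D, θa x = Additive.ofMul (X.θ x.toMul) := fun _ => rfl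
  have hθak : ∀ (n : ℕ) (x : Additive D),
      (θa ^ n) x = Additive.ofMul (((X.θ : MulAut D) ^ n) x.toMul) := by
    intro n
    induction n with
    | zero => intro x; rfl
    | succ n ih =>
      intro x
      rw [pow_succ', pow_succ', MulAut.mul_apply]
      change θa ((θa ^ n) x) = _
      rw [ih, hθa]
      rfl
  have hθp : θa ^ p = 1 := by
    ext x
    rw [hθak, mx_theta]
    rfl
  have hnil := mxs_nil hp (k := k) (fun d : Additive D => congrArg Additive.ofMul (hD d.toMul))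
    θa hθp
  have hit : ∀ (n : ℕ) (z : Additive D), ∃ z0 w : Additive D, X.j z0.toMul ∈ R ∧
      z = z0 + ((θa - 1) ^ n) w := by
    intro n
    induction n with
    | zero => exact fun z => ⟨0, z, by rw [toMul_zero, map_one]; exact R.one_mem, by simp⟩
    | succ n ih =>
      intro z
      obtain ⟨z0, d, hz0, hz⟩ := h3 z.toMul
      obtain ⟨d0, w, hd0, hd⟩ := ih (Additive.ofMul d)
      refine ⟨Additive.ofMul z0 + (θa - 1) d0, w, ?_, ?_⟩
      · have e1 : (Additive.ofMul z0 + (θa - 1) d0).toMul =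
            z0 * (X.θ d0.toMul * (d0.toMul)⁻¹) := by
          change z0 * (X.θ d0.toMul / d0.toMul) = _
          rw [div_eq_mul_inv]
        rw [e1, map_mul, map_mul, map_inv]
        exact R.mul_mem hz0 (R.mul_mem (hD0 _ hd0) (R.inv_mem hd0))
      · have e2 : z = Additive.ofMul z0 + (θa - 1) (Additive.ofMul d) := by
          apply Additive.toMul.injective
          change z.toMul = z0 * (X.θ d / d)
          rw [hz, div_eq_mul_inv]
        rw [e2, hd, map_add, add_assoc, pow_succ']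
        rfl
  have htop : ∀ d, X.j d ∈ R := by
    intro d
    obtain ⟨z0, w, hz0, hz⟩ := hit (p * k) (Additive.ofMul d)
    rw [hnil] at hz
    have h4 : Additive.ofMul d = z0 := by
      rw [hz]
      exact add_zero z0
    rw [← h4] at hz0
    exact hz0
  rw [eq_top_iff]
  intro g _
  obtain ⟨r, hr, d, rfl⟩ := hdec g
  exact R.mul_mem hr (htop d)

end H83.LX
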