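import Pool.Agent.H83.LX.RAMX
import Pool.Agent.H83.LX.MXS
import Pool.Agent.H38.ML.Final2

/-!
# [H83 LX SURQ] surjectivity of the homomorphisms (30-60 lines)

`mxs` for the range `R` of `ρ`. `h1` is the hypothesis (with `k` there). `h2`: choose a prime `𝔓` over `v` (`exists_over (Ω := Ω) v.asIdeal v.isPrime`, used in `H38/TD/TdOne.lean`) and
`τ` in its inertia group with `τ B ≠ B`, `B` the root in `OverQ` (`ramx`). `τ B = ζp^l B` for some `l : ℕ` (`B ≠ 0`, `(τ B / B)^p = 1`), `p ∤ l`, and `ρ τ = m c^l`, `m ∈ M`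
(`ho`), `ρ τ = j(a) c^k` (`hi`). So `c^k = j(a)⁻¹ m c^l`; if `p ∣ k` then `c^k = 1` (`X.cp`) and `c^l ∈ M`, `p ∣ l` (`X.notin`), a contradiction. So `p ∤ k`.
-/

set_option autoImplicit false

open scoped NumberField Pointwise
open scoped Classical

noncomputable section

namespace H83.LX

open H38.TD H38.ML

variable {K Ω : Type} [Field K] [NumberField K] [Field Ω] [Algebra K Ω] [IsAlgClosure K Ω]

theorem surq {D Q : Type} [CommGroup D] [Finite D] [Group Q] [Finite Q] {p : ℕ}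
    (X : MXD p D Q) (hp : p.Prime) (k : ℕ) (hD : ∀ d : D, d ^ p ^ k = 1) (ζp : K)
    (hζp : IsPrimitiveRoot ζp p) (x : Kˣ) (v : Pl K) (hx : ¬ (p : ℤ) ∣ od v x)
    (ρ : Gal(Ω/K) →* Q) (ho : OverQ X ζp x ρ) (hi : InQ X ρ v.asIdeal)
    (h1 : ∀ m : X.M, ∃ (σ : Gal(Ω/K)) (d : D) (l : ℕ), ρ σ = m * X.j d * X.c ^ l) :
    Function.Surjective ρ := by
  have hp0 : NeZero p := ⟨hp.ne_zero⟩
  rw [← MonoidHom.range_eq_top]
  refine mxs hp X k hD ρ.range ?_ ?_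
  · intro m
    obtain ⟨σ, d, l, h⟩ := h1 m
    exact ⟨d, l, σ, h⟩
  · obtain ⟨B, hB, hBρ⟩ := ho
    obtain ⟨𝔓, h𝔓, h𝔓v⟩ := exists_over (Ω := Ω) v.asIdeal v.isPrime
    obtain ⟨τ, hτ, hne⟩ := ramx p hp ζp hζp v 𝔓 h𝔓 h𝔓v x hx B hB
    have hz : IsPrimitiveRoot (algebraMap K Ω ζp) p :=
      hζp.map_of_injective (algebraMap K Ω).injective
    have hB0 : B ≠ 0 := by
      rintro rfl
      exact hne (map_zero τ)
    have h2 : (τ B) ^ p = B ^ p := by rw [← map_pow, hB, AlgEquiv.commutes]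
    have h3 : (τ B / B) ^ p = 1 := by
      rw [div_pow, h2, div_self (pow_ne_zero _ hB0)]
    obtain ⟨l, -, hl⟩ := hz.eq_pow_of_pow_eq_one h3
    have hl' : τ B = algebraMap K Ω ζp ^ l * B := by rw [hl, div_mul_cancel₀ _ hB0]
    obtain ⟨m, hm, h4⟩ := hBρ τ l hl'
    obtain ⟨a, n, h5, -⟩ := hi 𝔓 h𝔓 h𝔓v τ hτ
    refine ⟨a, n, fun hn => ?_, τ, h5⟩
    have hcn : X.c ^ n = 1 := by
      obtain ⟨t, rfl⟩ := hn
      rw [pow_mul, X.cp, one_pow]
    have hcl : X.c ^ l ∈ X.M := by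
      have h6 : X.c ^ l = m⁻¹ * X.j a := by
        rw [h5, hcn, mul_one] at h4
        rw [h4, inv_mul_cancel_left]
      rw [h6]
      exact X.M.mul_mem (X.M.inv_mem hm) (X.jM a)
    obtain ⟨t, rfl⟩ := X.notin l hcl
    apply hne
    rw [hl', pow_mul, hz.pow_eq_one, one_pow, one_mul]

end H83.LX
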