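import Pool.Agent.H83.LX.RAMX
import Pool.Agent.H83.LX.GRPF
import Pool.Agent.H63.MA.GKum
import Pool.Agent.H38.TD.TwFt

/-!
# [H83 LX TWE] the twists by central characters (150-220 lines)

`kk p ζp a σ : ZMod p` is the Kummer exponent (`H63/MA/GKum.lean`: `kk_root`, `kk_mul`, `kk_one`; `kc_is` gives `FT`). For `t : supp → fx X.θ` put
`χ_t σ = ∏_{v ∈ supp} (t v)^{(kk (π v) σ).val} ∈ D`; it is a homomorphism (`(t v)^p = 1`: `mx_fxp`), with values in `fx X.θ`, and `FT` (`ft_finprod` in `H38/TD/TwFt.lean` or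
directly). `ρ_t σ = ρ₀ σ * X.j (χ_t σ)` is a homomorphism (`mx_cen`). `FT`: `ft_of_two` (`H38/TD/TwFt`).
* `OverQ`: the same root `B`: `ρ₀ σ = m c^k`, `ρ_t σ = m c^k j(χ) = (m j(χ)) c^k`, `m j(χ) ∈ M` (`X.jM`).
* `v ∉ S ∪ supp`: `τ` in an inertia group over `v`: `ρ₀ τ = 1` and `kk (π u) τ = 0` for all `u ∈ supp` (`inert_fix` in `H38/TD/LocT`: `od v (π u) = 0`, so `τ` fixes the root of
  `π u`; `kk_of_root` with exponent `0`). So `ρ_t τ = 1`, and `InQ` holds with `a = 1, k = 0`.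
* `v ∈ supp`: `ρ₀ τ = j(a) c^k` (`h0i`), `ρ_t τ = j(a (t v)^{κ}) c^k`, `κ = (kk (π v) τ).val`. If `p ∣ k` then `ρ₀ τ = 1`; by `OverQ` (`τ B = ζp^l B` for some `l`, `1 = ρ₀ τ = m c^l`,
  so `c^l ∈ M`, `p ∣ l`) `τ B = B`. Claim `κ = 0`: let `a n + b p = 1`, `n = od v x` (`hx`), `y = π v / x^a`: `od v y = 1 - a n = b p` is divisible by `p`, so `τ` fixes the
  `p`-th roots of `y` (`inert_fix`), in particular `C / B^a` if `C^p = π v`; as `τ B = B`, `τ C = C`, so `κ = 0` (`kk_of_root`). So `ρ_t τ = 1`.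
* injectivity of `t ↦ ρ_t`: if `ρ_t = ρ_{t'}` then `χ_t = χ_{t'}` (`jinj`). Let `v ∈ supp`, `𝔓` a prime over `v` (`exists_over`, see `H38/TD/TdOne.lean`), `τ` in its inertia group with
  `τ C ≠ C`, `C^p = π v` (`ramx`): `κ = kk (π v) τ ≠ 0`, and `kk (π u) τ = 0` for `u ∈ supp`, `u ≠ v` (`inert_fix`). So `(t v)^κ.val = (t' v)^κ.val`, and `(t v)^p = (t' v)^p = 1`, so
  `t v = t' v`. So `H = ` the image of all `t` has `(#fx θ)^#supp` elements (`Fintype.card_fun` / `Nat.card_pi` for functions on the subtype `supp`).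
-/

set_option autoImplicit false

open scoped NumberField Pointwise
open scoped Classical

noncomputable section

namespace H83.LX

open H38.TD H38.ML

variable {K Ω : Type} [Field K] [NumberField K] [Field Ω] [Algebra K Ω] [IsAlgClosure K Ω]

private theorem twe_over (v : Ideal (𝓞 K)) (hv : v.IsPrime) :
    ∃ 𝔓 : Ideal (𝓞 Ω), 𝔓.IsPrime ∧ 𝔓.under (𝓞 K) = v := by
  obtain ⟨Q, hQ, hQv⟩ := Ideal.exists_ideal_over_prime_of_isIntegral v (⊥ : Ideal (𝓞 Ω)) (by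
    rw [← RingHom.ker_eq_comap_bot]
    have : Function.Injective (algebraMap (𝓞 K) (𝓞 Ω)) :=
      NumberField.RingOfIntegers.algebraMap.injective K Ω
    rw [(RingHom.injective_iff_ker_eq_bot _).mp this]
    exact bot_le)
  exact ⟨Q, hQv.1, hQv.2⟩


private theorem twe_kk0 {p : ℕ} (hp : p.Prime) (ζp : K) (hζp : IsPrimitiveRoot ζp p) (v : Pl K)
    (hv : ((p : ℕ) : 𝓞 K) ∉ v.asIdeal) (𝔓 : Ideal (𝓞 Ω)) (h𝔓 : 𝔓.IsPrime)
    (h𝔓v : 𝔓.under (𝓞 K) = v.asIdeal) (τ : Gal(Ω/K)) (hτ : τ ∈ 𝔓.inertia Gal(Ω/K)) (a : Kˣ)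
    (ha : (p : ℤ) ∣ od v a) : H63.MA.kk p ζp a τ = 0 := by
  obtain ⟨B, hB⟩ := H63.MA.gkum_root (K := K) (Ω := Ω) hp a
  have h1 := inert_fix p hp ζp hζp v hv 𝔓 h𝔓 h𝔓v a ha B hB τ hτ
  have h2 := H63.MA.kk_of_root (Ω := Ω) hp hζp a B hB τ 0 (by rw [zpow_zero, one_mul, h1])
  rw [h2, Int.cast_zero]

/-- the twisting character -/
private def tweχ {D : Type} [CommGroup D] {p : ℕ} [NeZero p] (ζp : K) (supp : Finset (Pl K))
    (π : Pl K → Kˣ) (t : supp → D) (ht : ∀ v, t v ^ p = 1) : Gal(Ω/K) →* D :=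
  ∏ v : supp, (zhom p (t v) (ht v)).comp (H63.MA.kc p ζp Ω (π v))

omit [IsAlgClosure K Ω] in
private theorem tweχ_apply {D : Type} [CommGroup D] {p : ℕ} [NeZero p] (ζp : K)
    (supp : Finset (Pl K)) (π : Pl K → Kˣ) (t : supp → D) (ht : ∀ v, t v ^ p = 1)
    (σ : Gal(Ω/K)) : tweχ (Ω := Ω) ζp supp π t ht σ =
      ∏ v : supp, t v ^ (H63.MA.kk p ζp (π v) σ).val := by
  unfold tweχ
  rw [MonoidHom.finsetProd_apply]
  rfl

private theorem tweχ_ft {D : Type} [CommGroup D] {p : ℕ} [NeZero p] (hp : p.Prime) (ζp : K)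
    (hζp : IsPrimitiveRoot ζp p) (supp : Finset (Pl K)) (π : Pl K → Kˣ) (t : supp → D)
    (ht : ∀ v, t v ^ p = 1) : FT (tweχ (Ω := Ω) ζp supp π t ht) := by
  unfold tweχ
  refine ft_finprod _ (fun v => ?_) _
  have h1 : FT (H63.MA.kc p ζp Ω (π v)) := (H63.MA.kc_is hp hζp (π v)).1
  refine ft_of_two _ _ _ h1 h1 fun σ h2 _ => ?_
  rw [MonoidHom.comp_apply, h2, map_one]

/-- the twist -/
private def tweρ {D Q : Type} [CommGroup D] [Group Q] {p : ℕ} (X : MXD p D Q)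
    (ρ₀ : Gal(Ω/K) →* Q) (χ : Gal(Ω/K) →* D) (hχ : ∀ σ, χ σ ∈ fx X.θ) : Gal(Ω/K) →* Q where
  toFun σ := ρ₀ σ * X.j (χ σ)
  map_one' := by rw [map_one, map_one, map_one, mul_one]
  map_mul' σ τ := by
    rw [map_mul, map_mul, map_mul, mul_assoc (ρ₀ σ) (X.j (χ σ)), ← mul_assoc (X.j (χ σ)),
      mx_cen X (χ σ) (hχ σ) (ρ₀ τ)]
    simp only [mul_assoc]

private theorem twe_pow {D : Type} [CommGroup D] {p : ℕ} (hp : p.Prime) (a b : D) (ha : a ^ p = 1)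
    (hb : b ^ p = 1) (k : ℕ) (hk : ¬ p ∣ k) (h : a ^ k = b ^ k) : a = b := by
  have h1 : (a / b) ^ p = 1 := by rw [div_pow, ha, hb, div_one]
  have h2 : (a / b) ^ k = 1 := by rw [div_pow, h, div_self']
  have h3 : orderOf (a / b) ∣ p := orderOf_dvd_of_pow_eq_one h1
  have h4 : orderOf (a / b) ∣ k := orderOf_dvd_of_pow_eq_one h2
  have h5 : orderOf (a / b) = 1 := by
    rcases (Nat.dvd_prime hp).1 h3 with h | h
    · exact h
    · exact absurd (h ▸ h4) hk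
  exact div_eq_one.1 (orderOf_eq_one_iff.1 h5)

theorem twe {D Q : Type} [CommGroup D] [Finite D] [Group Q] [Finite Q] {p : ℕ}
    (X : MXD p D Q) (hp : p.Prime) (ζp : K) (hζp : IsPrimitiveRoot ζp p) (S : Set (Pl K))
    (hSp : ∀ v : Pl K, v ∉ S → ((p : ℕ) : 𝓞 K) ∉ v.asIdeal) (supp : Finset (Pl K))
    (hsupp : ∀ v ∈ supp, v ∉ S) (π : Pl K → Kˣ) (hπ1 : ∀ v ∈ supp, od v (π v) = 1)
    (hπ2 : ∀ v ∈ supp, ∀ u, u ∉ S → u ≠ v → od u (π v) = 0) (x : Kˣ)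
    (hx : ∀ v ∈ supp, ¬ (p : ℤ) ∣ od v x) (ρ₀ : Gal(Ω/K) →* Q) (h0f : FT ρ₀)
    (h0o : OverQ X ζp x ρ₀) (h0u : ∀ v, v ∉ S → v ∉ supp → UnrAt ρ₀ v.asIdeal)
    (h0i : ∀ v, v ∉ S → InQ X ρ₀ v.asIdeal) :
    ∃ H : Finset (Gal(Ω/K) →* Q), Nat.card (fx X.θ) ^ supp.card ≤ H.card ∧
      ∀ ρ ∈ H, FT ρ ∧ OverQ X ζp x ρ ∧ (∀ v, v ∉ S → v ∉ supp → UnrAt ρ v.asIdeal) ∧
        (∀ v, v ∉ S → InQ X ρ v.asIdeal) ∧ ∀ σ, ∃ d ∈ fx X.θ, ρ σ = ρ₀ σ * X.j d := by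
  have hp0 : NeZero p := ⟨hp.ne_zero⟩
  have hfp : Fact p.Prime := ⟨hp⟩
  have hfin : Finite (fx X.θ) := inferInstance
  have hft : Fintype (fx X.θ) := Fintype.ofFinite _
  have hpw : ∀ (t : supp → fx X.θ) (v : supp), ((t v : D)) ^ p = 1 := fun t v =>
    mx_fxp X _ (t v).2
  set χ : (supp → fx X.θ) → (Gal(Ω/K) →* D) := fun t =>
    tweχ (Ω := Ω) ζp supp π (fun v => (t v : D)) (hpw t) with hχ
  have hχa : ∀ t σ, χ t σ = ∏ v : supp, (t v : D) ^ (H63.MA.kk p ζp (π v) σ).val := fun t σ =>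
    tweχ_apply ζp supp π _ (hpw t) σ
  have hχf : ∀ t σ, χ t σ ∈ fx X.θ := by
    intro t σ
    rw [hχa]
    exact Subgroup.prod_mem _ fun v _ => Subgroup.pow_mem _ (t v).2 _
  set R : (supp → fx X.θ) → (Gal(Ω/K) →* Q) := fun t => tweρ X ρ₀ (χ t) (hχf t) with hR
  have hRa : ∀ t σ, R t σ = ρ₀ σ * X.j (χ t σ) := fun _ _ => rfl
  -- unramified outside the support
  have hunr : ∀ t, ∀ v, v ∉ S → v ∉ supp → UnrAt (R t) v.asIdeal := by
    intro t v hvS hvs 𝔓 h𝔓 h𝔓v τ hτ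
    rw [hRa, h0u v hvS hvs 𝔓 h𝔓 h𝔓v τ hτ, one_mul, hχa]
    have h1 : ∀ u : supp, (t u : D) ^ (H63.MA.kk p ζp (π u) τ).val = 1 := by
      intro u
      have h2 : od v (π u) = 0 := hπ2 u u.2 v hvS (fun h => hvs (h ▸ u.2))
      rw [twe_kk0 hp ζp hζp v (hSp v hvS) 𝔓 h𝔓 h𝔓v τ hτ (π u) (by rw [h2]; exact dvd_zero _),
        ZMod.val_zero, pow_zero]
    rw [Finset.prod_eq_one fun u _ => h1 u, map_one]
  have hinq : ∀ t, ∀ v, v ∉ S → InQ X (R t) v.asIdeal := by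
    intro t v hvS
    by_cases hvs : v ∈ supp
    · intro 𝔓 h𝔓 h𝔓v τ hτ
      obtain ⟨a, k, e, hk⟩ := h0i v hvS 𝔓 h𝔓 h𝔓v τ hτ
      refine ⟨a * χ t τ, k, ?_, ?_⟩
      · rw [hRa, e, map_mul, mul_assoc, mul_assoc, mx_cen X _ (hχf t τ)]
      · intro hpk
        have h1 := hk hpk
        rw [hRa, h1, one_mul, hχa]
        -- the Kummer exponent of `x` vanishes
        have hx0 : H63.MA.kk p ζp x τ = 0 := by
          obtain ⟨B, hB, hO⟩ := h0o
          obtain ⟨m, hm, e2⟩ := hO τ _ (H63.MA.kk_root hp hζp x B hB τ)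
          rw [h1] at e2
          have h3 : X.c ^ (H63.MA.kk p ζp x τ).val = m⁻¹ := (inv_eq_of_mul_eq_one_right e2.symm).symm
          have h4 : p ∣ (H63.MA.kk p ζp x τ).val := X.notin _ (by rw [h3]; exact inv_mem hm)
          have h5 := ZMod.val_lt (H63.MA.kk p ζp x τ)
          exact (ZMod.val_eq_zero _).1 (Nat.eq_zero_of_dvd_of_lt h4 h5)
        have hpi : H63.MA.kk p ζp (π v) τ = 0 := by
          have hcop : IsCoprime (od v x) (p : ℤ) := by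
            rw [isCoprime_comm]
            exact (Prime.coprime_iff_not_dvd (Nat.prime_iff_prime_int.1 hp)).2 (hx v hvs)
          obtain ⟨a', b, hab⟩ := hcop
          have h3 : H63.MA.kk p ζp (π v * x ^ (-a')) τ = 0 := by
            refine twe_kk0 hp ζp hζp v (hSp v hvS) 𝔓 h𝔓 h𝔓v τ hτ _ ?_
            rw [od_mul, od_zpow, hπ1 v hvs]
            exact ⟨b, by linarith⟩
          have h4 : π v = (π v * x ^ (-a')) * x ^ a' := by
            rw [mul_assoc, ← zpow_add, neg_add_cancel, zpow_zero, mul_one]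
          rw [h4, H63.MA.kk_mul_arg hp hζp, h3, H63.MA.kk_zpow_arg hp hζp, hx0, mul_zero, add_zero]
        have h2 : ∀ u : supp, (t u : D) ^ (H63.MA.kk p ζp (π u) τ).val = 1 := by
          intro u
          by_cases huv : (u : Pl K) = v
          · rw [huv, hpi, ZMod.val_zero, pow_zero]
          · have h3 : od v (π u) = 0 := hπ2 u u.2 v hvS (fun h => huv h.symm)
            rw [twe_kk0 hp ζp hζp v (hSp v hvS) 𝔓 h𝔓 h𝔓v τ hτ (π u)
              (by rw [h3]; exact dvd_zero _), ZMod.val_zero, pow_zero]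
        rw [Finset.prod_eq_one fun u _ => h2 u, map_one]
    · intro 𝔓 h𝔓 h𝔓v τ hτ
      have h1 := hunr t v hvS hvs 𝔓 h𝔓 h𝔓v τ hτ
      exact ⟨1, 0, by rw [h1, map_one, pow_zero, mul_one], fun _ => h1⟩
  have hinj : Function.Injective R := by
    intro t t' htt
    have h1 : ∀ σ, χ t σ = χ t' σ := by
      intro σ
      have h2 : R t σ = R t' σ := by rw [htt]
      rw [hRa, hRa] at h2
      exact X.jinj (mul_left_cancel h2)
    funext v
    obtain ⟨𝔓, h𝔓, h𝔓v⟩ := twe_over (K := K) (Ω := Ω) v.1.asIdeal v.1.isPrime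
    obtain ⟨C, hC⟩ := H63.MA.gkum_root (K := K) (Ω := Ω) hp (π v)
    have hnd : ¬ (p : ℤ) ∣ od (v : Pl K) (π v) := by
      rw [hπ1 v v.2]
      intro h
      have := Int.eq_one_of_dvd_one (by positivity) h
      exact hp.one_lt.ne' (by exact_mod_cast this)
    obtain ⟨τ, hτ, hne⟩ := ramx p hp ζp hζp v 𝔓 h𝔓 h𝔓v (π v) hnd C hC
    have hk : H63.MA.kk p ζp (π v) τ ≠ 0 := by
      intro h0
      apply hne
      have h2 := H63.MA.kk_root hp hζp (π v) C hC τ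
      rw [h0, ZMod.val_zero, pow_zero, one_mul] at h2
      exact h2
    have hval : ∀ s : supp → fx X.θ, χ s τ = (s v : D) ^ (H63.MA.kk p ζp (π v) τ).val := by
      intro s
      rw [hχa, Finset.prod_eq_single v]
      · intro u _ huv
        have h3 : od (v : Pl K) (π u) = 0 :=
          hπ2 u u.2 v (hsupp v v.2) (fun h => huv (Subtype.ext h.symm))
        rw [twe_kk0 hp ζp hζp v (hSp v (hsupp v v.2)) 𝔓 h𝔓 h𝔓v τ hτ (π u)
          (by rw [h3]; exact dvd_zero _), ZMod.val_zero, pow_zero]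
      · intro h
        exact absurd (Finset.mem_univ v) h
    have h2 := h1 τ
    rw [hval, hval] at h2
    apply Subtype.ext
    refine twe_pow hp _ _ (hpw t v) (hpw t' v) _ ?_ h2
    intro h3
    exact hk ((ZMod.val_eq_zero _).1 (Nat.eq_zero_of_dvd_of_lt h3 (ZMod.val_lt _)))
  refine ⟨Finset.univ.image R, ?_, ?_⟩
  · rw [Finset.card_image_of_injective _ hinj, Finset.card_univ, Fintype.card_fun,
      Fintype.card_coe, Nat.card_eq_fintype_card]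
  · intro ρ hρ
    obtain ⟨t, -, rfl⟩ := Finset.mem_image.1 hρ
    refine ⟨?_, ?_, hunr t, hinq t, fun σ => ⟨χ t σ, hχf t σ, rfl⟩⟩
    · refine ft_of_two ρ₀ (χ t) _ h0f (tweχ_ft hp ζp hζp supp π _ (hpw t)) fun σ h1 h2 => ?_
      rw [hRa, h1, h2, map_one, mul_one]
    · obtain ⟨B, hB, hO⟩ := h0o
      refine ⟨B, hB, fun σ k hk => ?_⟩
      obtain ⟨m, hm, e⟩ := hO σ k hk
      refine ⟨m * X.j (χ t σ), X.M.mul_mem hm (X.jM _), ?_⟩
      rw [hRa, e, mul_assoc, mul_assoc, mx_cen X _ (hχf t σ)]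

end H83.LX
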