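import Pool.Agent.H83.LX.HXB
import Pool.Agent.H83.LX.TWE
import Pool.Agent.H83.LX.SURQ
import Pool.Agent.H83.LX.INQ

/-!
# LX-HXX: the homomorphisms over a good class (assembly; proved)
-/

set_option autoImplicit false

open scoped NumberField Pointwise
open scoped Classical

noncomputable section

namespace H83.LX

open H38.TD H38.ML H83.LW

variable {K Ω : Type} [Field K] [NumberField K] [Field Ω] [Algebra K Ω] [IsAlgClosure K Ω]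

theorem hxx {D Q : Type} [CommGroup D] [Finite D] [Group Q] [Finite Q] {p : ℕ} [NeZero p]
    (X : MXD p D Q) (hp : p.Prime) (hp2 : H63.MA.MOne p K) (k : ℕ) (ζ : K)
    (hζ : IsPrimitiveRoot ζ (p ^ k)) (ζp : K) (hζp : IsPrimitiveRoot ζp p)
    (hD : ∀ t : D, t ^ p ^ k = 1) (D0 : H63.MA.RD0 K p ζp) {e : ℕ} (m : Fin e → D)
    (d : Fin e → Kˣ) (𝒦 : Submodule (ZMod p) (Fin D0.r → ZMod p)) (hK : DK D0 e d 𝒦)
    {r : ℕ} (g : Fin r → Kˣ) (hg : ∀ l v, v ∉ D0.S0 → H63.MA.ord v (g l) = 0)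
    (b : Fin r → D × D) (hb : ∀ l, (X.θ (b l).1 * (b l).2, (b l).2) = b l)
    (ψ : Gal(Ω/K) →* X.M) (hψs : Function.Surjective ψ) (hψf : FT ψ)
    (hψu : ∀ v : Pl K, v ∉ D0.S0 → UnrAt ψ v.asIdeal)
    (hval : ∀ (σ : Gal(Ω/K)) (n : Fin e → ℤ) (n' : Fin r → ℤ),
      (∀ j, HasE (p ^ k) ζ (d j) σ (n j)) → (∀ l, HasE (p ^ k) ζ (g l) σ (n' l)) →
        X.del (ψ σ) = (∏ j, m j ^ n j) * ∏ l, (b l).2 ^ n' l)
    (i : H63.MA.Pl K →₀ ZMod p) (hi : ∀ v ∈ i.support, D0.Gd v)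
    (hcl : cl D0 i = 0) (hne : i ≠ 0) (hgood : (Rl D0 i).card = p)
    (hY : ∀ v ∈ i.support, ∀ κ ∈ 𝒦, H63.MA.dt κ (D0.q v) = 0) :
    ∃ H : Finset (Gal(Ω/K) →* Q), Nat.card (fx X.θ) ^ i.support.card ≤ H.card ∧
      ∀ ρ ∈ H, Function.Surjective ρ ∧ FT ρ ∧ OverQ X ζp (xx D0 i) ρ ∧
        (∀ v : Pl K, v ∉ D0.S0 → v ∉ i.support → UnrAt ρ v.asIdeal) ∧
        ∀ v : Pl K, v ∉ D0.S0 → SmallAt p ρ v.asIdeal ∧ CjAt X.c ρ v.asIdeal := by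
  have hiS : ∀ v ∈ i.support, v ∉ D0.S0 := fun v hv => (hi v hv).1
  have hm : ∀ v : H38.TD.Pl K, v ∉ (D0.S0 : Set (H63.MA.Pl K)) ↔ v ∉ D0.S0 := fun v =>
    not_congr Finset.mem_coe
  obtain ⟨ρ₀, h0f, h0o, h0u, h0i, h0m⟩ := hxb (Ω := Ω) X hp hp2 k ζ hζ ζp hζp hD D0 m d 𝒦 hK g hg b
    hb ψ hψf hψu hval i hi hcl hne hgood hY
  obtain ⟨H, hH1, hH2⟩ := twe (Ω := Ω) X hp ζp hζp (D0.S0 : Set (H63.MA.Pl K))
    (fun v hv h => hv (Finset.mem_coe.2 (D0.above v h))) i.support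
    (fun v hv => (hm v).2 (hiS v hv)) D0.pi
    (fun v hv => by rw [od_eq]; exact D0.pi_self v (hiS v hv))
    (fun v hv u hu huv => by rw [od_eq]; exact D0.pi_ne v u (hiS v hv) ((hm u).1 hu) huv)
    (xx D0 i) (fun v hv => gdn_supp D0 i hiS v hv) ρ₀ h0f h0o
    (fun v hv => h0u v ((hm v).1 hv)) (fun v hv => h0i v ((hm v).1 hv))
  refine ⟨H, hH1, fun ρ hρ => ?_⟩
  obtain ⟨h1, h2, h3, h4, h5⟩ := hH2 ρ hρ
  obtain ⟨v, hv⟩ := Finsupp.support_nonempty_iff.2 hne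
  refine ⟨?_, h1, h2, fun v hv => h3 v ((hm v).2 hv),
    fun v hv => inq X hp ρ v.asIdeal (h4 v ((hm v).2 hv))⟩
  refine surq X hp k hD ζp hζp (xx D0 i) v (gdn_supp D0 i hiS v hv) ρ h2
    (h4 v ((hm v).2 (hiS v hv))) ?_
  intro m'
  obtain ⟨σ, rfl⟩ := hψs m'
  obtain ⟨a, l, ha⟩ := h0m σ
  obtain ⟨d', hd', hd⟩ := h5 σ
  refine ⟨σ, a * d', l, ?_⟩
  rw [hd, ha, map_mul, mul_assoc (ψ σ * X.j a : Q), ← mx_cen X d' hd']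
  group

end H83.LX
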