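import Pool.Agent.H83.LX.BDef
import Pool.Agent.H63.MA.GKus
import Pool.Agent.H38.TD.HomEx

/-!
# [H83 LX KUMD] Kummer theory for homomorphisms to a finite commutative group (100-160 lines)

(1) Cyclic case: `N` a positive divisor of `q`, `χ : Gal(Ω/K) →* Multiplicative (ZMod N)` with `FT χ`, `ξ = ζ^{q/N} ∈ K` a primitive `N`-th root of unity. There is
`C ∈ Ω`, `C ≠ 0`, with `σ C = ξ^{(χ σ).val} C` for all `σ`: the proof of `kum_sub` in `H63/MA/GKus.lean` (there for `N = p` prime; it works for every `N`; here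
`U = ⊤`: linear independence of the finitely many restrictions to the field `E` of `FT χ`). So `C^N` is fixed by all `σ` and `C^N = g ∈ Kˣ`
(`InfiniteGalois.fixedField…`, see `kc_all` there). If `B^q = g` and `σ B = ζ^n B` then `B^{q/N}` is an `N`-th root of `g`, so `B^{q/N} = ξ^i C`, and
`σ (B^{q/N}) = ξ^n B^{q/N}` gives `ξ^n = ξ^{(χ σ).val}`: `n ≡ χ σ` modulo `N`.
(2) `CommGroup.equiv_prod_multiplicative_zmod_of_finite` (structure theorem): `D ≃* ∏_l Multiplicative (ZMod (N l))`, `1 < N l`, index type `ι` finite, `Fin r ≃ ι`. All `N l`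
divide `q` (`D^q = 1`). `z l` the element corresponding to `Pi.mulSingle l (ofAdd 1)`, `g l` from (1) for the `l`-th component of `η`:
`η σ = ∏ (z l)^{(η_l σ).val} = ∏ (z l)^{n l}` as `(z l)^{N l} = 1`.
-/

set_option autoImplicit false

open scoped NumberField Pointwise
open scoped Classical

noncomputable section

namespace H83.LX

open H38.TD H38.ML

variable {K Ω : Type} [Field K] [NumberField K] [Field Ω] [Algebra K Ω] [IsAlgClosure K Ω]

private theorem kumd_padd {N : ℕ} [NeZero N] {ξ : K} (hξ : IsPrimitiveRoot ξ N) (a b : ZMod N) :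
    algebraMap K Ω ξ ^ (a + b).val = algebraMap K Ω ξ ^ a.val * algebraMap K Ω ξ ^ b.val := by
  have h1 : algebraMap K Ω ξ ^ N = 1 := by rw [← map_pow, hξ.pow_eq_one, map_one]
  rw [← pow_add, ZMod.val_add, ← pow_eq_pow_mod _ h1]

private theorem kumd_sub {N : ℕ} [NeZero N] {ξ : K} (hξ : IsPrimitiveRoot ξ N)
    (χ : Gal(Ω/K) →* Multiplicative (ZMod N)) (E : IntermediateField K Ω) [FiniteDimensional K E]
    (hE : ∀ u : Gal(Ω/K), u ∈ E.fixingSubgroup → χ u = 1) :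
    ∃ B : Ω, B ≠ 0 ∧ ∀ u : Gal(Ω/K),
      u B = algebraMap K Ω ξ ^ (Multiplicative.toAdd (χ u)).val * B := by
  classical
  have : Fintype (E →ₐ[K] Ω) := Fintype.ofFinite _
  have hz0 : algebraMap K Ω ξ ≠ 0 := by
    intro h
    exact hξ.ne_zero (NeZero.ne N) ((map_eq_zero _).1 h)
  obtain ⟨r, hr⟩ : ∃ r : Gal(Ω/K) → (E →ₐ[K] Ω), ∀ u x, r u x = u (x : Ω) :=
    ⟨fun u => (u : Ω →ₐ[K] Ω).comp E.val, fun u x => rfl⟩
  have hχ : ∀ u v : Gal(Ω/K), r u = r v → χ u = χ v := by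
    intro u v huv
    have h1 : χ (v⁻¹ * u) = 1 := by
      apply hE
      rw [IntermediateField.mem_fixingSubgroup_iff]
      intro x hx
      have h2 := DFunLike.congr_fun huv ⟨x, hx⟩
      rw [hr, hr] at h2
      simp only at h2
      rw [AlgEquiv.mul_apply, h2, ← AlgEquiv.mul_apply, inv_mul_cancel]
      rfl
    rw [map_mul, map_inv] at h1
    exact (inv_mul_eq_one.1 h1).symm
  obtain ⟨c, hc⟩ : ∃ c : (E →ₐ[K] Ω) → Ω, c = fun φ => if h : ∃ v : Gal(Ω/K), r v = φ then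
      (algebraMap K Ω ξ ^ (Multiplicative.toAdd (χ h.choose)).val)⁻¹ else 0 := ⟨_, rfl⟩
  have hc1 : ∀ v : Gal(Ω/K), c (r v) =
      (algebraMap K Ω ξ ^ (Multiplicative.toAdd (χ v)).val)⁻¹ := by
    intro v
    have h : ∃ w : Gal(Ω/K), r w = r v := ⟨v, rfl⟩
    rw [hc]
    simp only [dif_pos h]
    rw [hχ _ _ h.choose_spec]
  have hc2 : ∀ φ, (¬ ∃ v : Gal(Ω/K), r v = φ) → c φ = 0 := by
    intro φ h
    rw [hc]
    simp only [dif_neg h]
  have hcK : ∀ (φ) (u : Gal(Ω/K)), u (c φ) = c φ := by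
    intro φ u
    by_cases h : ∃ v : Gal(Ω/K), r v = φ
    · obtain ⟨v, rfl⟩ := h
      rw [hc1, map_inv₀, map_pow, AlgEquiv.commutes]
    · rw [hc2 φ h, map_zero]
  obtain ⟨T, hT⟩ : ∃ T : Gal(Ω/K) → (E →ₐ[K] Ω) → (E →ₐ[K] Ω), ∀ u φ x,
      T u φ x = u (φ x) :=
    ⟨fun u φ => (u : Ω →ₐ[K] Ω).comp φ, fun u φ x => rfl⟩
  have hTinv : ∀ (u : Gal(Ω/K)) (φ), T u⁻¹ (T u φ) = φ := by
    intro u φ
    ext x
    rw [hT, hT, ← AlgEquiv.mul_apply, inv_mul_cancel]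
    rfl
  have hTb : ∀ u : Gal(Ω/K), Function.Bijective (T u) := by
    intro u
    constructor
    · intro φ ψ h
      rw [← hTinv u φ, h, hTinv u ψ]
    · intro φ
      refine ⟨T u⁻¹ φ, ?_⟩
      have := hTinv u⁻¹ φ
      rwa [inv_inv] at this
  have hTr : ∀ u v : Gal(Ω/K), T u (r v) = r (u * v) := by
    intro u v
    ext x
    rw [hT, hr, hr, ← AlgEquiv.mul_apply]
  have hcT : ∀ (u : Gal(Ω/K)) (φ), c φ =
      algebraMap K Ω ξ ^ (Multiplicative.toAdd (χ u)).val * c (T u φ) := by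
    intro u φ
    by_cases h : ∃ v : Gal(Ω/K), r v = φ
    · obtain ⟨v, rfl⟩ := h
      rw [hTr, hc1, hc1, map_mul, toAdd_mul, kumd_padd hξ, mul_inv, ← mul_assoc,
        mul_inv_cancel₀ (pow_ne_zero _ hz0), one_mul]
    · rw [hc2 φ h, hc2, mul_zero]
      rintro ⟨v, hv⟩
      apply h
      refine ⟨u⁻¹ * v, ?_⟩
      rw [← hTr, hv, hTinv]
  have hne : ∃ x : E, ∑ φ : (E →ₐ[K] Ω), c φ * φ x ≠ 0 := by
    by_contra hcon
    push Not at hcon
    have hli := linearIndependent_toLinearMap K E Ω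
    rw [Fintype.linearIndependent_iff] at hli
    have h1 := hli c (by
      ext x
      rw [LinearMap.sum_apply]
      simpa using hcon x) (r 1)
    rw [hc1] at h1
    exact inv_ne_zero (pow_ne_zero _ hz0) h1
  obtain ⟨x, hx⟩ := hne
  refine ⟨_, hx, fun u => ?_⟩
  rw [map_sum]
  calc ∑ φ : (E →ₐ[K] Ω), u (c φ * φ x) =
      ∑ φ : (E →ₐ[K] Ω), algebraMap K Ω ξ ^ (Multiplicative.toAdd (χ u)).val *
        (c (T u φ) * T u φ x) := by
        refine Finset.sum_congr rfl fun φ _ => ?_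
        rw [map_mul, hcK, hcT u φ, hT, mul_assoc]
    _ = algebraMap K Ω ξ ^ (Multiplicative.toAdd (χ u)).val *
        ∑ φ : (E →ₐ[K] Ω), c (T u φ) * T u φ x := by rw [Finset.mul_sum]
    _ = _ := by
        rw [(hTb u).sum_comp (fun φ => c φ * φ x)]

private theorem kumd_cyc {N : ℕ} [NeZero N] {ξ : K} (hξ : IsPrimitiveRoot ξ N)
    (χ : Gal(Ω/K) →* Multiplicative (ZMod N)) (hχ : FT χ) :
    ∃ (C : Ω) (g : Kˣ), C ≠ 0 ∧ C ^ N = algebraMap K Ω g ∧ ∀ σ : Gal(Ω/K),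
      σ C = algebraMap K Ω ξ ^ (Multiplicative.toAdd (χ σ)).val * C := by
  have : IsGalois K Ω := IsAlgClosure.isGalois K Ω
  obtain ⟨E, hEf, hE⟩ := hχ
  obtain ⟨B, hB0, hB⟩ := kumd_sub hξ χ E (fun u hu => hE hu)
  have hz1 : algebraMap K Ω ξ ^ N = 1 := by rw [← map_pow, hξ.pow_eq_one, map_one]
  have hfix : ∀ σ : Gal(Ω/K), σ (B ^ N) = B ^ N := by
    intro σ
    rw [map_pow, hB σ, mul_pow, ← pow_mul, mul_comm _ N, pow_mul, hz1, one_pow, one_mul]
  obtain ⟨a, ha⟩ := (InfiniteGalois.mem_range_algebraMap_iff_fixed (B ^ N)).2 hfix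
  have ha0 : a ≠ 0 := by
    rintro rfl
    rw [map_zero] at ha
    exact pow_ne_zero N hB0 ha.symm
  exact ⟨B, Units.mk0 a ha0, hB0, ha.symm, hB⟩

private theorem kumd_one {D : Type} [CommGroup D] {q : ℕ} (hq : 0 < q) {ζ : K}
    (hζ : IsPrimitiveRoot ζ q) {N : ℕ} (hN0 : 0 < N) (hN : N ∣ q) (z : D) (hz : z ^ N = 1)
    (χ : Gal(Ω/K) →* Multiplicative (ZMod N)) (hχ : FT χ) :
    ∃ g : Kˣ, ∀ (σ : Gal(Ω/K)) (n : ℤ), HasE q ζ g σ n →
      z ^ (Multiplicative.toAdd (χ σ)).val = z ^ n := by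
  have hcl : IsAlgClosed Ω := IsAlgClosure.isAlgClosed K
  have hNe : NeZero N := ⟨hN0.ne'⟩
  obtain ⟨m, rfl⟩ := hN
  have hξ : IsPrimitiveRoot (ζ ^ m) N := hζ.pow hq (mul_comm N m)
  have hξ' : IsPrimitiveRoot (algebraMap K Ω ζ ^ m) N := by
    rw [← map_pow]
    exact hξ.map_of_injective (algebraMap K Ω).injective
  obtain ⟨C, g, hC0, hCg, hC⟩ := kumd_cyc hξ χ hχ
  refine ⟨g, fun σ n hn => ?_⟩
  obtain ⟨B, hB⟩ := IsAlgClosed.exists_pow_nat_eq (algebraMap K Ω (g : K)) hq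
  have h1 := hn B hB
  have h2 : (B ^ m) ^ N = C ^ N := by rw [← pow_mul, mul_comm m N, hB, hCg]
  have h3 : (B ^ m / C) ^ N = 1 := by
    rw [div_pow, h2, div_self (pow_ne_zero _ hC0)]
  obtain ⟨i, -, hi⟩ := hξ'.eq_pow_of_pow_eq_one h3
  have h4 : B ^ m = (algebraMap K Ω ζ ^ m) ^ i * C := by
    rw [hi, div_mul_cancel₀ _ hC0]
  have hB0 : B ^ m ≠ 0 := by
    rw [h4]
    exact mul_ne_zero (pow_ne_zero _ (hξ'.ne_zero hN0.ne')) hC0
  refine hx_pow hN0 hz hξ' hB0 ?_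
  have h5 : σ (B ^ m) = (algebraMap K Ω ζ ^ m) ^ n * B ^ m := by
    rw [map_pow, h1, mul_pow, ← zpow_natCast, ← zpow_natCast (algebraMap K Ω ζ), ← zpow_mul,
      ← zpow_mul, mul_comm (n : ℤ)]
  rw [← h5, h4, map_mul, map_pow, map_pow, AlgEquiv.commutes, hC σ, map_pow]
  ring

theorem kumd {D : Type} [CommGroup D] [Finite D] (q : ℕ) (hq : 0 < q) (ζ : K)
    (hζ : IsPrimitiveRoot ζ q) (hD : ∀ d : D, d ^ q = 1) (η : Gal(Ω/K) →* D) (hη : FT η) :
    ∃ (r : ℕ) (g : Fin r → Kˣ) (z : Fin r → D), ∀ (σ : Gal(Ω/K)) (n : Fin r → ℤ),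
      (∀ l, HasE q ζ (g l) σ (n l)) → η σ = ∏ l, z l ^ n l := by
  classical
  obtain ⟨ι, hι, N, hN1, ⟨E⟩⟩ := CommGroup.equiv_prod_multiplicative_zmod_of_finite D
  have hN0 : ∀ l, 0 < N l := fun l => by have := hN1 l; omega
  have hNe : ∀ l, NeZero (N l) := fun l => ⟨(hN0 l).ne'⟩
  let s : (l : ι) → ((i : ι) → Multiplicative (ZMod (N i))) := fun l =>
    Pi.mulSingle l (Multiplicative.ofAdd (1 : ZMod (N l)))
  have hs : ∀ (l : ι) (k : ℕ), s l ^ k =
      Pi.mulSingle l (Multiplicative.ofAdd ((k : ℕ) : ZMod (N l))) := by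
    intro l k
    rw [show s l = Pi.mulSingle (M := fun i => Multiplicative (ZMod (N i))) l
      (Multiplicative.ofAdd (1 : ZMod (N l))) from rfl, ← Pi.mulSingle_pow, ← ofAdd_nsmul,
      nsmul_eq_mul, mul_one]
  let z : ι → D := fun l => E.symm (s l)
  have hzk : ∀ (l : ι) (k : ℕ), z l ^ k =
      E.symm (Pi.mulSingle l (Multiplicative.ofAdd ((k : ℕ) : ZMod (N l)))) := by
    intro l k
    rw [← hs, map_pow]
  have hzN : ∀ l, z l ^ N l = 1 := by
    intro l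
    rw [hzk, ZMod.natCast_self, ofAdd_zero, Pi.mulSingle_one, map_one]
  have hNq : ∀ l, N l ∣ q := by
    intro l
    have h1 := hD (z l)
    rw [hzk, map_eq_one_iff E.symm E.symm.injective] at h1
    have h2 := congrFun h1 l
    rw [Pi.mulSingle_eq_same] at h2
    exact (ZMod.natCast_eq_zero_iff q (N l)).1 (congrArg Multiplicative.toAdd h2)
  let χ : (l : ι) → Gal(Ω/K) →* Multiplicative (ZMod (N l)) := fun l =>
    (Pi.evalMonoidHom (fun i => Multiplicative (ZMod (N i))) l).comp (E.toMonoidHom.comp η)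
  have hχ : ∀ l, FT (χ l) := by
    intro l
    obtain ⟨F, hF, hF1⟩ := hη
    refine ⟨F, hF, fun σ hσ => ?_⟩
    have h1 : η σ = 1 := hF1 hσ
    rw [MonoidHom.mem_ker]
    change (E (η σ)) l = 1
    rw [h1, map_one]
    rfl
  have hone : ∀ l, ∃ g : Kˣ, ∀ (σ : Gal(Ω/K)) (n : ℤ), HasE q ζ g σ n →
      z l ^ (Multiplicative.toAdd (χ l σ)).val = z l ^ n := fun l =>
    kumd_one hq hζ (hN0 l) (hNq l) (z l) (hzN l) (χ l) (hχ l)
  choose g hg using hone
  let e := Fintype.equivFin ι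
  refine ⟨Fintype.card ι, fun j => g (e.symm j), fun j => z (e.symm j), fun σ n hn => ?_⟩
  have h1 : ∏ j, z (e.symm j) ^ n j = ∏ l, z l ^ n (e l) := by
    rw [← Equiv.prod_comp e]
    simp
  rw [h1]
  have h2 : ∀ l, z l ^ n (e l) = z l ^ (Multiplicative.toAdd (χ l σ)).val := by
    intro l
    refine (hg l σ (n (e l)) ?_).symm
    have := hn (e l)
    simpa using this
  rw [Finset.prod_congr rfl fun l _ => h2 l]
  apply E.injective
  rw [map_prod]
  have h3 : ∀ l, E (z l ^ (Multiplicative.toAdd (χ l σ)).val) = Pi.mulSingle l ((E (η σ)) l) := by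
    intro l
    rw [hzk, MulEquiv.apply_symm_apply, ZMod.natCast_zmod_val]
    rfl
  rw [Finset.prod_congr rfl fun l _ => h3 l, Finset.univ_prod_mulSingle]

end H83.LX
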