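import Pool.Agent.H83.LX.BDef
import Pool.Agent.H38.TD.LocT

/-!
# [H83 LX RAMX] ramification of `K(x^{1/p})` (40-70 lines)

`ram_move` (`H38/TD/LocT.lean`) is the case `od v x = 1`. Here `p ∤ n = od v x`: integers `a, b` with `a n + b p = 1` (`Int.gcd_eq_gcd_ab`, `p` prime). `exists_unif v` gives `π : Kˣ` with
`od v π = 1`. `x' = x^a (π^b)^p` has `od v x' = a n + b p = 1`, and `B' = B^a · π^b` (`π` in `Ω`) is a `p`-th root of it (`B ≠ 0`, `zpow`). If `τ B = B` then `τ B' = B'`.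
-/

set_option autoImplicit false

open scoped NumberField Pointwise
open scoped Classical

noncomputable section

namespace H83.LX

open H38.TD H38.ML

variable {K Ω : Type} [Field K] [NumberField K] [Field Ω] [Algebra K Ω] [IsAlgClosure K Ω]

theorem ramx (p : ℕ) (hp : p.Prime) (ζ : K) (hζ : IsPrimitiveRoot ζ p) (v : Pl K)
    (𝔓 : Ideal (𝓞 Ω)) (h𝔓 : 𝔓.IsPrime) (h𝔓v : 𝔓.under (𝓞 K) = v.asIdeal) (x : Kˣ)
    (hx : ¬ (p : ℤ) ∣ od v x) (B : Ω) (hB : B ^ p = algebraMap K Ω x) :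
    ∃ τ ∈ 𝔓.inertia Gal(Ω/K), τ B ≠ B := by
  obtain ⟨b, a, hab⟩ := (Nat.prime_iff_prime_int.1 hp).coprime_iff_not_dvd.2 hx
  obtain ⟨π, hπ⟩ := exists_unif v
  have hodx : od v (x ^ a * (π ^ b) ^ p) = 1 := by
    rw [od_mul, od_pow, od_zpow, od_zpow, hπ]
    linarith
  have hB' : (B ^ a * (algebraMap K Ω π) ^ b) ^ p =
      algebraMap K Ω ((x ^ a * (π ^ b) ^ p : Kˣ) : K) := by
    rw [Units.val_mul, Units.val_zpow_eq_zpow_val, Units.val_pow_eq_pow_val,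
      Units.val_zpow_eq_zpow_val, map_mul, map_zpow₀, map_pow, map_zpow₀, ← hB, mul_pow]
    congr 1
    rw [← zpow_natCast, ← zpow_mul, mul_comm, zpow_mul, zpow_natCast]
  obtain ⟨τ, hτ, hne⟩ := ram_move p hp ζ hζ v 𝔓 h𝔓 h𝔓v _ hodx _ hB'
  refine ⟨τ, hτ, fun h0 => hne ?_⟩
  rw [map_mul, map_zpow₀, map_zpow₀, h0, AlgEquiv.commutes]

end H83.LX
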