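import Pool.Agent.H83.LX.XDef
import Pool.Agent.H77.GN.GBlkA

/-!
# [H83 LX XBLKA] absolute bound for a block, general weights (two theorems, 60-120 lines)

* `xwk_le`: `‖WK … κ a n‖ = ∏_{v ∈ n} om (τ a) v` (`≤` suffices): `WO` is the real number `∏ om ≥ 0` (`om_le` in `H77/GN/GOm`), `‖ep‖ ≤ 1` (`ep_norm`).
* `xblka`: as `gblka` in `H77/GN/GBlkA.lean`, for all weights `W` with `‖W a n‖ ≤ ∏_{v ∈ n} om (τ a) v`. In the proof of `gblka_drop` the weights are
  only used through `‖WO a n‖ ≤ ∏ om`: copy `gblka_drop` (with `hW : ‖W a (g a)‖ ≤ ∏ om` in place of the equality) and `gblka`. (Or directly: for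
  `W` as above `‖TW … W‖` is at most the sum of `∏_a ∏_{v ∈ g a} om` over the same families, and then as there.)
-/

set_option autoImplicit false

open scoped NumberField
open IsDedekindDomain
open scoped Classical

noncomputable section

namespace H83.LX

open H63.MA H38.BB H77.AB H77.GN H83.LW

private theorem xblka_drop {K : Type} [Field K] [NumberField K] {p : ℕ} {ζ : K} (D : RD0 K p ζ)
    {m β : ℕ} {J : Type} [Fintype J] (P : PD p m J) (τ : J → Fin β) (q : Fin β → ℕ)
    (Δ : Fin β → Submodule (ZMod p) (Fin m → ZMod p)) (hq0 : ∀ i, 0 < q i)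
    (hq : ∀ i, Nat.card (Δ i) ≤ q i) (b : Fin m → Kˣ) (E : Finset (Pl K)) (Lg : Finset J)
    (s : J → Finset (Pl K)) (Y z : ℝ) (W : J → Finset (Pl K) → ℂ)
    (hWW : ∀ a n, ‖W a n‖ ≤ ∏ v ∈ n, om D q Δ b (τ a) v) :
    ‖TW D P b E W Y z Lg s‖ ≤
      ∑ n ∈ (GF D (Y / sn Lg s)).filter (fun n => Disjoint n E),
        ∏ v ∈ n, ∑ a ∈ Lg, om D q Δ b (τ a) v := by
  have hsn : 0 < sn Lg s := by
    unfold sn
    exact Finset.prod_pos fun a _ => lt_of_lt_of_le one_pos (one_le_nr _)
  obtain ⟨h, hh⟩ : ∃ h : J → Pl K → ℝ, h = fun a v =>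
      if a ∈ Lg then om D q Δ b (τ a) v else 0 := ⟨_, rfl⟩
  have hh0 : ∀ a v, 0 ≤ h a v := by
    intro a v
    rw [hh]
    simp only
    split_ifs
    · exact (om_le D q Δ b _ (hq0 _) (hq _) v).1
    · exact le_rfl
  have hsum : ∀ v, ∑ a, h a v = ∑ a ∈ Lg, om D q Δ b (τ a) v := by
    intro v
    rw [hh]
    simp only
    rw [← Finset.sum_filter]
    refine Finset.sum_congr ?_ fun a _ => rfl
    ext a
    simp
  have hpart := blka_part D E (Y / sn Lg s) h
  simp only [hsum] at hpart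
  rw [← hpart]
  unfold TW
  refine (norm_sum_le _ _).trans ?_
  obtain ⟨cut, hcut⟩ : ∃ cut : (J → Finset (Pl K)) → J → Finset (Pl K), cut = fun g a =>
      if a ∈ Lg then g a else ∅ := ⟨_, rfl⟩
  obtain ⟨G, hG⟩ : ∃ G : (J → Finset (Pl K)) → ℝ, G = fun g =>
      if Dj g ∧ (∀ a, Disjoint (g a) E) ∧ ∏ a, nr (g a) ≤ Y / sn Lg s then
        ∏ a, ∏ v ∈ g a, h a v else 0 := ⟨_, rfl⟩
  obtain ⟨F, hF⟩ : ∃ F : (J → Finset (Pl K)) → ℝ, F = fun g =>
      ‖(if Dj g ∧ (∀ a, Disjoint (g a) E) ∧ (∀ a ∈ Lg, z < nr (g a)) ∧ ∏ a, nr (g a) ≤ Y then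
        (∏ a, W a (g a)) * ep p (ph D P b g) else 0 : ℂ)‖ := ⟨_, rfl⟩
  have hG0 : ∀ g, 0 ≤ G g := by
    intro g
    rw [hG]
    simp only
    split_ifs
    · exact Finset.prod_nonneg fun a _ => Finset.prod_nonneg fun v _ => hh0 a v
    · exact le_rfl
  have hnr : ∀ g : J → Finset (Pl K), (∀ a, a ∉ Lg → g a = s a) →
      ∏ a, nr (g a) = (∏ a, nr (cut g a)) * sn Lg s := by
    intro g hg
    unfold sn
    rw [Finset.prod_filter, ← Finset.prod_mul_distrib]
    refine Finset.prod_congr rfl fun a _ => ?_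
    rw [hcut]
    simp only
    by_cases ha : a ∈ Lg
    · rw [if_pos ha, if_neg (fun h => h ha), mul_one]
    · have e1 : nr (∅ : Finset (Pl K)) = 1 := by
        unfold nr
        exact Finset.prod_empty
      rw [if_neg ha, if_pos ha, hg a ha, e1, one_mul]
  have hmem : ∀ g ∈ Fintype.piFinset (fun a => if a ∈ Lg then GF D Y else {s a}),
      (∀ a, a ∉ Lg → g a = s a) ∧ ∀ a, a ∈ Lg → g a ∈ GF D Y := by
    intro g hg
    rw [Fintype.mem_piFinset] at hg
    refine ⟨fun a ha => ?_, fun a ha => ?_⟩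
    · have := hg a
      rw [if_neg ha, Finset.mem_singleton] at this
      exact this
    · have := hg a
      rwa [if_pos ha] at this
  have hle : ∀ g ∈ Fintype.piFinset (fun a => if a ∈ Lg then GF D Y else {s a}),
      F g ≤ G (cut g) ∧ (G (cut g) ≠ 0 → cut g ∈ Fintype.piFinset
        (fun _ : J => GF D (Y / sn Lg s))) := by
    intro g hg
    obtain ⟨hg1, hg2⟩ := hmem g hg
    constructor
    · rw [hF]
      simp only
      by_cases hc : Dj g ∧ (∀ a, Disjoint (g a) E) ∧ (∀ a ∈ Lg, z < nr (g a)) ∧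
          ∏ a, nr (g a) ≤ Y
      · rw [if_pos hc, norm_mul, ep_norm, mul_one, norm_prod, hG]
        simp only
        have hc' : Dj (cut g) ∧ (∀ a, Disjoint (cut g a) E) ∧
            ∏ a, nr (cut g a) ≤ Y / sn Lg s := by
          refine ⟨fun a a' haa => ?_, fun a => ?_, ?_⟩
          · rw [hcut]
            simp only
            split_ifs
            · exact hc.1 a a' haa
            · exact Finset.disjoint_empty_right _
            · exact Finset.disjoint_empty_left _
            · exact Finset.disjoint_empty_left _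
          · rw [hcut]
            simp only
            split_ifs
            · exact hc.2.1 a
            · exact Finset.disjoint_empty_left _
          · rw [le_div_iff₀ hsn, ← hnr g hg1]
            exact hc.2.2.2
        rw [if_pos hc']
        refine Finset.prod_le_prod (fun a _ => norm_nonneg _) fun a _ => ?_
        refine (hWW a (g a)).trans ?_
        rw [hcut, hh]
        simp only
        by_cases ha : a ∈ Lg
        · simp only [if_pos ha]
          exact le_rfl
        · simp only [if_neg ha]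
          rw [Finset.prod_empty]
          exact Finset.prod_le_one (fun v _ => (om_le D q Δ b _ (hq0 _) (hq _) v).1)
            fun v _ => (om_le D q Δ b _ (hq0 _) (hq _) v).2
      · rw [if_neg hc, norm_zero]
        exact hG0 _
    · intro hne
      rw [hG] at hne
      simp only at hne
      have hc : Dj (cut g) ∧ (∀ a, Disjoint (cut g a) E) ∧
          ∏ a, nr (cut g a) ≤ Y / sn Lg s := by
        by_contra hcon
        rw [if_neg hcon] at hne
        exact hne rfl
      rw [Fintype.mem_piFinset]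
      intro a
      rw [rx_mem_GF]
      constructor
      · refine le_trans ?_ hc.2.2
        rw [← Finset.mul_prod_erase _ _ (Finset.mem_univ a)]
        have e1 : 1 ≤ ∏ x ∈ Finset.univ.erase a, nr (cut g x) := by
          calc (1 : ℝ) = ∏ x ∈ Finset.univ.erase a, (1 : ℝ) := Finset.prod_const_one.symm
            _ ≤ _ := Finset.prod_le_prod (fun _ _ => zero_le_one) fun x _ => one_le_nr _
        exact le_mul_of_one_le_right (by linarith [one_le_nr (cut g a)]) e1
      · intro v hv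
        by_cases ha : a ∈ Lg
        · have e1 : cut g a = g a := by
            rw [hcut]
            simp only [if_pos ha]
          rw [e1] at hv
          exact (rx_mem_GF.1 (hg2 a ha)).2 v hv
        · have e1 : cut g a = ∅ := by
            rw [hcut]
            simp only [if_neg ha]
          rw [e1] at hv
          exact absurd hv (Finset.notMem_empty v)
  have hinj : ∀ g ∈ Fintype.piFinset (fun a => if a ∈ Lg then GF D Y else {s a}),
      ∀ g' ∈ Fintype.piFinset (fun a => if a ∈ Lg then GF D Y else {s a}),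
        cut g = cut g' → g = g' := by
    intro g hg g' hg' he
    funext a
    by_cases ha : a ∈ Lg
    · have e1 := congrFun he a
      rw [hcut] at e1
      simp only [if_pos ha] at e1
      exact e1
    · rw [(hmem g hg).1 a ha, (hmem g' hg').1 a ha]
  have hgoal : ∑ g ∈ Fintype.piFinset (fun a => if a ∈ Lg then GF D Y else {s a}), F g ≤
      ∑ g ∈ Fintype.piFinset (fun _ : J => GF D (Y / sn Lg s)), G g := by
    calc ∑ g ∈ Fintype.piFinset (fun a => if a ∈ Lg then GF D Y else {s a}), F g ≤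
        ∑ g ∈ Fintype.piFinset (fun a => if a ∈ Lg then GF D Y else {s a}), G (cut g) :=
          Finset.sum_le_sum fun g hg => (hle g hg).1
      _ = ∑ g ∈ (Fintype.piFinset (fun a => if a ∈ Lg then GF D Y else {s a})).image cut, G g := by
          rw [Finset.sum_image]
          intro g hg g' hg' he
          exact hinj g hg g' hg' he
      _ = ∑ g ∈ ((Fintype.piFinset (fun a => if a ∈ Lg then GF D Y else {s a})).image cut).filter
            (fun g => G g ≠ 0), G g := (Finset.sum_filter_ne_zero _).symm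
      _ ≤ _ := by
          refine Finset.sum_le_sum_of_subset_of_nonneg ?_ fun g _ _ => hG0 g
          intro g hg
          rw [Finset.mem_filter, Finset.mem_image] at hg
          obtain ⟨⟨g', hg', rfl⟩, hne⟩ := hg
          exact (hle g' hg').2 hne
  rw [hF, hG] at hgoal
  exact hgoal

theorem xwk_le {K : Type} [Field K] [NumberField K] {p : ℕ} {ζ : K} [NeZero p]
    (D : RD0 K p ζ) {m β : ℕ} {J : Type} (τ : J → Fin β) (q : Fin β → ℕ)
    (Δ : Fin β → Submodule (ZMod p) (Fin m → ZMod p)) (hq0 : ∀ i, 0 < q i)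
    (hq : ∀ i, Nat.card (Δ i) ≤ q i) (b : Fin m → Kˣ) (κ : J → Fin D.r → ZMod p) (a : J)
    (n : Finset (Pl K)) :
    ‖WK D q Δ b τ κ a n‖ ≤ ∏ v ∈ n, om D q Δ b (τ a) v ∧ ‖WK D q Δ b τ κ a n‖ ≤ 1 := by
  have hom := fun v => om_le D q Δ b (τ a) (hq0 _) (hq _) v
  have h1 : ‖WK D q Δ b τ κ a n‖ = ∏ v ∈ n, om D q Δ b (τ a) v := by
    unfold WK WO
    rw [norm_mul, ep_norm, mul_one, Complex.norm_real, Real.norm_of_nonneg]
    exact Finset.prod_nonneg fun v _ => (hom v).1
  rw [h1]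
  exact ⟨le_rfl, Finset.prod_le_one (fun v _ => (hom v).1) fun v _ => (hom v).2⟩

theorem xblka {K : Type} [Field K] [NumberField K] {p : ℕ} {ζ : K} [NeZero p] (hp : p.Prime)
    (hζ : IsPrimitiveRoot ζ p) (D : RD K p ζ) {m β : ℕ} {J : Type} [Fintype J] (P : PD p m J)
    (τ : J → Fin β) (q : Fin β → ℕ) (Δ : Fin β → Submodule (ZMod p) (Fin m → ZMod p))
    (hq0 : ∀ i, 0 < q i) (hq : ∀ i, Nat.card (Δ i) ≤ q i) (η : ℝ) (hη : 0 < η) :
    ∃ C : ℝ, 0 < C ∧ ∀ (b : Fin m → Kˣ) (E : Finset (Pl K)), BS2 D.toRD0 b E → Inb p Δ b →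
      ∀ W : J → Finset (Pl K) → ℂ, (∀ a n, ‖W a n‖ ≤ ∏ v ∈ n, om D.toRD0 q Δ b (τ a) v) →
      ∀ (Lg : Finset J) (s : J → Finset (Pl K)) (Y z : ℝ), 9 ≤ Y → sn Lg s ≤ Y ^ (1 / 2 : ℝ) →
        ‖TW D.toRD0 P b E W Y z Lg s‖ ≤
          C * nr E ^ η * (Y / sn Lg s) * Real.log Y ^ (mwt q τ Lg - 1) := by
  obtain ⟨C, hC, hall⟩ := gabs hp hζ D J τ q Δ hq0 hq η hη
  refine ⟨2 * C, by positivity, fun b E hb hi W hWW Lg s Y z hY hsY => ?_⟩
  have hY0 : 0 < Y := by linarith
  have hsn1 : 1 ≤ sn Lg s := by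
    unfold sn
    calc (1 : ℝ) = ∏ a ∈ Finset.univ.filter (fun a => a ∉ Lg), (1 : ℝ) :=
          Finset.prod_const_one.symm
      _ ≤ _ := Finset.prod_le_prod (fun _ _ => zero_le_one) fun x _ => one_le_nr _
  have hsn : 0 < sn Lg s := by linarith
  have hhalf : Y ^ (1 / 2 : ℝ) * Y ^ (1 / 2 : ℝ) = Y := by
    rw [← Real.rpow_add hY0]
    norm_num
  have hh0 : 0 < Y ^ (1 / 2 : ℝ) := Real.rpow_pos_of_pos hY0 _
  have hh3 : 3 ≤ Y ^ (1 / 2 : ℝ) := by
    by_contra hcon
    push Not at hcon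
    nlinarith
  obtain ⟨Y', hY'⟩ : ∃ Y', Y' = Y / sn Lg s := ⟨_, rfl⟩
  have hY'1 : Y ^ (1 / 2 : ℝ) ≤ Y' := by
    rw [hY', le_div_iff₀ hsn]
    calc Y ^ (1 / 2 : ℝ) * sn Lg s ≤ Y ^ (1 / 2 : ℝ) * Y ^ (1 / 2 : ℝ) :=
          mul_le_mul_of_nonneg_left hsY hh0.le
      _ = Y := hhalf
  have hY'Y : Y' ≤ Y := by
    rw [hY']
    exact div_le_self hY0.le hsn1
  have hY'0 : 0 < Y' := by linarith
  have h1 := xblka_drop D.toRD0 P τ q Δ hq0 hq b E Lg s Y z W hWW
  rw [← hY'] at h1 ⊢
  have h2 := hall E b hb hi Lg Y' (by linarith)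
  refine h1.trans (h2.trans ?_)
  obtain ⟨γ, hγ⟩ : ∃ γ, γ = mwt q τ Lg := ⟨_, rfl⟩
  rw [← hγ]
  have hγ0 : 0 ≤ γ := by
    rw [hγ]
    exact Finset.sum_nonneg fun a _ => by positivity
  have hL3 : 0 < Real.log Y' := Real.log_pos (by linarith)
  have hLY : 0 < Real.log Y := Real.log_pos (by linarith)
  have hLL : Real.log Y' ≤ Real.log Y := Real.log_le_log hY'0 hY'Y
  have hLh : 1 / 2 * Real.log Y ≤ Real.log Y' := by
    have e1 := Real.log_le_log hh0 hY'1
    rwa [Real.log_rpow hY0] at e1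
  have hkey : Real.log Y' ^ (γ - 1) ≤ 2 * Real.log Y ^ (γ - 1) := by
    have hp0 : 0 < Real.log Y ^ (γ - 1) := Real.rpow_pos_of_pos hLY _
    rcases le_or_gt 1 γ with hg | hg
    · have e1 : Real.log Y' ^ (γ - 1) ≤ Real.log Y ^ (γ - 1) :=
        Real.rpow_le_rpow hL3.le hLL (by linarith)
      linarith
    · have e1 : Real.log Y' ^ (γ - 1) ≤ (1 / 2 * Real.log Y) ^ (γ - 1) :=
        Real.rpow_le_rpow_of_nonpos (by positivity) hLh (by linarith)
      rw [Real.mul_rpow (by norm_num) hLY.le] at e1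
      have e2 : (1 / 2 : ℝ) ^ (γ - 1) ≤ 2 := by
        have e3 : (1 / 2 : ℝ) ^ (γ - 1) = 2 ^ (1 - γ) := by
          rw [one_div, Real.inv_rpow (by norm_num), ← Real.rpow_neg (by norm_num)]
          congr 1
          ring
        rw [e3]
        calc (2 : ℝ) ^ (1 - γ) ≤ 2 ^ (1 : ℝ) :=
              Real.rpow_le_rpow_of_exponent_le (by norm_num) (by linarith)
          _ = 2 := Real.rpow_one 2
      exact e1.trans (mul_le_mul_of_nonneg_right e2 hp0.le)
  have hnrE : 0 ≤ nr E ^ η := Real.rpow_nonneg (by linarith [one_le_nr E]) _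
  have hC0 : 0 ≤ C * nr E ^ η * Y' := by positivity
  calc C * nr E ^ η * Y' * Real.log Y' ^ (γ - 1) ≤
      C * nr E ^ η * Y' * (2 * Real.log Y ^ (γ - 1)) := mul_le_mul_of_nonneg_left hkey hC0
    _ = 2 * C * nr E ^ η * Y' * Real.log Y ^ (γ - 1) := by ring

end H83.LX
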