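import Pool.Agent.H83.LX.XBLK0
import Pool.Agent.H77.GN.GBlkS

/-!
# [H83 LX XBLKS] a block with a linked small variable and class characters (120-180 lines)

This is `gblks` (`H77/GN/GBlkS.lean`) with the weights `WK … κ` in place of `WO`; copy its proof with `xblk0` in place of `gblk0` and `xblka`
(`xwk_le`) in place of `gblka`. (The small variables carry `WK` of norm `≤ 1`; `exc` in `H77/AB/Exc` is for general weights.)
-/

set_option autoImplicit false

open scoped NumberField
open IsDedekindDomain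
open scoped Classical

noncomputable section

namespace H83.LX

open H63.MA H38.BB H77.AB H77.GN H83.LW

theorem xblks {K : Type} [Field K] [NumberField K] {p : ℕ} {ζ : K} [NeZero p] (hp : p.Prime)
    (hζ : IsPrimitiveRoot ζ p) (D : RD K p ζ) {m β : ℕ} {J : Type} [Fintype J] (P : PD p m J)
    (τ : J → Fin β) (q : Fin β → ℕ) (Δ : Fin β → Submodule (ZMod p) (Fin m → ZMod p))
    (hq0 : ∀ i, 0 < q i) (hq : ∀ i, Nat.card (Δ i) ≤ q i) (B : ℕ) (η : ℝ) (hη : 0 < η) :
    ∃ C δ Y₀ : ℝ, 0 < C ∧ 0 < δ ∧ 9 ≤ Y₀ ∧ ∀ (b : Fin m → Kˣ) (E : Finset (Pl K)),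
      BS2 D.toRD0 b E → Inb p Δ b →
      ∀ (κ : J → Fin D.r → ZMod p) (S : Finset (Fin β)) (Lg : Finset J)
        (s : J → Finset (Pl K)) (Y : ℝ), Y₀ ≤ Y →
        (∀ l, l ∉ Lg → (∀ v ∈ s l, D.Gd v) ∧ nr (s l) ≤ Real.log Y ^ B) →
        (∀ a ∈ Lg, ∀ a' ∈ Lg, P.lk a a' = 0) → (∀ a ∈ Lg, τ a ∈ S) →
        (∀ i ∈ S, (Lg.filter fun a => τ a = i).card = q i) →
        (∃ a ∈ Lg, ∃ l, l ∉ Lg ∧ s l ≠ ∅ ∧ P.lk a l ≠ 0) →
          ‖TW D.toRD0 P b E (WK D.toRD0 q Δ b τ κ) Y (Real.log Y ^ B) Lg s‖ ≤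
            C * nr E ^ η * (Y / sn Lg s) * Real.log Y ^ ((S.card : ℝ) - 1 - δ) := by
  obtain ⟨C₀, δ₀, Yz, hC₀, hδ₀, hYz, h0⟩ := xblk0 hp hζ D P τ q Δ hq0 hq B η hη
  obtain ⟨C₁, hC₁, h1⟩ := xblka hp hζ D P τ q Δ hq0 hq η hη
  obtain ⟨C₂, hC₂, h2⟩ := thr_sum K J
  obtain ⟨ε, hε⟩ : ∃ ε : ℝ, ε = (((∑ i, q i + 1 : ℕ) : ℝ))⁻¹ := ⟨_, rfl⟩
  have hε0 : 0 < ε := by rw [hε]; positivity
  obtain ⟨Yn, hYn, hnum⟩ := num B (Fintype.card J) (ε / 2) (by positivity)
  refine ⟨2 ^ Fintype.card J * (C₀ + C₁ * C₂), min δ₀ (ε / 2), max Yz Yn, by positivity,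
    lt_min hδ₀ (by positivity), hYz.trans (le_max_left _ _), ?_⟩
  intro b E hb hInb κ S Lg s Y hYY hs hlk hτ hcardS ha
  obtain ⟨hlog, hn1, hn2⟩ := hnum Y ((le_max_right _ _).trans hYY)
  have hYz' : Yz ≤ Y := (le_max_left _ _).trans hYY
  obtain ⟨T, hTd⟩ : ∃ T : ℝ, T = Real.log Y ^ B := ⟨_, rfl⟩
  rw [← hTd] at hn1 hn2 hs ⊢
  obtain ⟨a, haL, l, hlL, hsl, hal⟩ := ha
  have hY : 9 ≤ Y := hYz.trans hYz'
  have hY0 : (0 : ℝ) < Y := by linarith
  have hY1 : (1 : ℝ) ≤ Y := by linarith
  have hT : 1 ≤ T := by rw [hTd]; exact one_le_pow₀ hlog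
  have hT0 : (0 : ℝ) < T := by linarith
  have hcard : Fintype.card J ≠ 0 := by
    have : Nonempty J := ⟨a⟩
    exact Fintype.card_ne_zero
  have hTle : T ≤ Y := by
    calc T ≤ T ^ Fintype.card J := le_self_pow₀ hT hcard
      _ ≤ Y ^ (1 / 8 : ℝ) := hn2
      _ ≤ Y ^ (1 : ℝ) := Real.rpow_le_rpow_of_exponent_le hY1 (by norm_num)
      _ = Y := Real.rpow_one Y
  have hY42 : Y ^ (1 / 8 : ℝ) ≤ Y ^ (1 / 2 : ℝ) :=
    Real.rpow_le_rpow_of_exponent_le hY1 (by norm_num)
  have hE0 : 0 < nr E := akb_nr_pos E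
  have hsn0 : 0 < sn Lg s := aks_sn_pos Lg s
  have hmS : mwt q τ Lg = S.card := gblks_mwt τ q hq0 S Lg hτ hcardS
  obtain ⟨γ, hγ⟩ : ∃ γ : ℝ, γ = S.card := ⟨_, rfl⟩
  obtain ⟨δ, hδ⟩ : ∃ δ : ℝ, δ = min δ₀ (ε / 2) := ⟨_, rfl⟩
  have hδ1 : δ ≤ δ₀ := by rw [hδ]; exact min_le_left _ _
  have hδ2 : δ ≤ ε / 2 := by rw [hδ]; exact min_le_right _ _
  obtain ⟨Q, hQ⟩ : ∃ Q, Q = Real.log Y ^ (γ - 1 - δ) := ⟨_, rfl⟩
  have hQ0 : 0 < Q := by
    rw [hQ]
    exact Real.rpow_pos_of_pos (by linarith) _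
  obtain ⟨R, hR⟩ : ∃ R, R = nr E ^ η * (Y / sn Lg s) * Q := ⟨_, rfl⟩
  have hR0 : 0 ≤ R := by
    rw [hR]
    positivity
  have goal1 : ‖TW D.toRD0 P b E (WK D.toRD0 q Δ b τ κ) Y T Lg s‖ ≤
      2 ^ Fintype.card J * (C₀ + C₁ * C₂) * R := by
    rw [exc D.toRD0 P b E (WK D.toRD0 q Δ b τ κ) Y T hTle Lg s]
    have key : ∀ U ∈ Lg.powerset, ‖(-1 : ℂ) ^ U.card *
        ∑ t ∈ Fintype.piFinset (fun a => if a ∈ U then GF D.toRD0 T else {∅}),
          TW D.toRD0 P b E (WK D.toRD0 q Δ b τ κ) Y 0 (Lg \ U)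
            (fun a => if a ∈ U then t a else s a)‖ ≤ (C₀ + C₁ * C₂) * R := by
      intro U hU
      have hUL : U ⊆ Lg := Finset.mem_powerset.mp hU
      have hn : ‖(-1 : ℂ) ^ U.card‖ = 1 := by
        rw [norm_pow, norm_neg, norm_one, one_pow]
      rw [norm_mul, hn, one_mul]
      by_cases hU0 : U = ∅
      · subst hU0
        have e1 : Fintype.piFinset (fun a : J => if a ∈ (∅ : Finset J) then GF D.toRD0 T
            else {∅}) = {fun _ => (∅ : Finset (Pl K))} := by
          ext t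
          simp only [Fintype.mem_piFinset, Finset.notMem_empty, if_false,
            Finset.mem_singleton]
          constructor
          · intro h
            funext a
            exact h a
          · intro h a
            rw [h]
        rw [e1, Finset.sum_singleton]
        have e2 : (fun a => if a ∈ (∅ : Finset J) then (∅ : Finset (Pl K)) else s a) = s := by
          funext a
          simp
        have e3 : Lg \ (∅ : Finset J) = Lg := Finset.sdiff_empty
        rw [e3, e2]
        have h3 := h0 b E hb hInb κ S Lg s Y hYz' (by rw [← hTd]; exact hs) hlk hτ hcardS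
          ⟨a, haL, l, hlL, hsl, hal⟩
        refine h3.trans ?_
        have h5 : Real.log Y ^ ((S.card : ℝ) - 1 - δ₀) ≤ Q := by
          rw [hQ, hγ]
          apply Real.rpow_le_rpow_of_exponent_le hlog
          linarith
        calc C₀ * nr E ^ η * (Y / sn Lg s) * Real.log Y ^ ((S.card : ℝ) - 1 - δ₀)
            ≤ C₀ * nr E ^ η * (Y / sn Lg s) * Q :=
              mul_le_mul_of_nonneg_left h5 (by positivity)
          _ = C₀ * R := by rw [hR]; ring
          _ ≤ _ := by
            apply mul_le_mul_of_nonneg_right _ hR0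
            have : 0 ≤ C₁ * C₂ := by positivity
            linarith
      · have hne := Finset.nonempty_iff_ne_empty.mpr hU0
        have hexp : mwt q τ (Lg \ U) ≤ γ - ε := by
          rw [hε, hγ, ← hmS]
          exact gblks_sdiff τ q hq0 Lg U hUL hne
        have h5 : Real.log Y ^ (mwt q τ (Lg \ U) - 1) ≤ Real.log Y ^ (γ - ε - 1) := by
          apply Real.rpow_le_rpow_of_exponent_le hlog
          linarith
        have hset : Fintype.piFinset (fun a => if a ∈ U then GF D.toRD0 T else {∅}) =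
            Fintype.piFinset (fun a => if a ∈ Finset.univ \ U then {∅} else GF D.toRD0 T) := by
          congr 1
          funext a
          by_cases h : a ∈ U
          · rw [if_pos h, if_neg (by simp [h])]
          · rw [if_neg h, if_pos (by simp [h])]
        have hterm : ∀ t ∈ Fintype.piFinset (fun a => if a ∈ U then GF D.toRD0 T else {∅}),
            ‖TW D.toRD0 P b E (WK D.toRD0 q Δ b τ κ) Y 0 (Lg \ U)
              (fun a => if a ∈ U then t a else s a)‖ ≤
            C₁ * nr E ^ η * (Y / sn Lg s) * Real.log Y ^ (γ - ε - 1) *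
              (sn (Finset.univ \ U) t)⁻¹ := by
          intro t ht
          rw [Fintype.mem_piFinset] at ht
          have hsn' : ∀ a', a' ∉ Lg \ U → nr (if a' ∈ U then t a' else s a') ≤ T := by
            intro a' ha'
            by_cases h : a' ∈ U
            · rw [if_pos h]
              have := ht a'
              rw [if_pos h] at this
              exact (rx_mem_GF.mp this).1
            · rw [if_neg h]
              apply (hs a' _).2
              intro h'
              exact ha' (Finset.mem_sdiff.mpr ⟨h', h⟩)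
          have h3 := h1 b E hb hInb (WK D.toRD0 q Δ b τ κ)
            (fun a n => (xwk_le D.toRD0 τ q Δ hq0 hq b κ a n).1) (Lg \ U) (fun a => if a ∈ U then t a else s a) Y 0 hY
            (((blks_sn_le (Lg \ U) _ T hT hsn').trans hn2).trans hY42)
          refine h3.trans ?_
          rw [blks_sn Lg U hUL s t]
          have hst : 0 < sn (Finset.univ \ U) t := aks_sn_pos _ _
          have e1 : C₁ * nr E ^ η * (Y / sn Lg s) * Real.log Y ^ (γ - ε - 1) *
              (sn (Finset.univ \ U) t)⁻¹ =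
              C₁ * nr E ^ η * (Y / (sn Lg s * sn (Finset.univ \ U) t)) *
                Real.log Y ^ (γ - ε - 1) := by
            field_simp
          rw [e1]
          exact mul_le_mul_of_nonneg_left h5 (by positivity)
        have hsum := h2 p ζ D.toRD0 T (Finset.univ \ U) hT
        have hlp : 0 < Real.log Y ^ (γ - ε - 1) := Real.rpow_pos_of_pos (by linarith) _
        calc ‖∑ t ∈ Fintype.piFinset (fun a => if a ∈ U then GF D.toRD0 T else {∅}),
              TW D.toRD0 P b E (WK D.toRD0 q Δ b τ κ) Y 0 (Lg \ U)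
                (fun a => if a ∈ U then t a else s a)‖
            ≤ ∑ t ∈ Fintype.piFinset (fun a => if a ∈ U then GF D.toRD0 T else {∅}),
              ‖TW D.toRD0 P b E (WK D.toRD0 q Δ b τ κ) Y 0 (Lg \ U)
                (fun a => if a ∈ U then t a else s a)‖ := norm_sum_le _ _
          _ ≤ ∑ t ∈ Fintype.piFinset (fun a => if a ∈ U then GF D.toRD0 T else {∅}),
              C₁ * nr E ^ η * (Y / sn Lg s) * Real.log Y ^ (γ - ε - 1) *
                (sn (Finset.univ \ U) t)⁻¹ :=
              Finset.sum_le_sum hterm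
          _ = C₁ * nr E ^ η * (Y / sn Lg s) * Real.log Y ^ (γ - ε - 1) *
              ∑ t ∈ Fintype.piFinset
                (fun a => if a ∈ Finset.univ \ U then {∅} else GF D.toRD0 T),
                (sn (Finset.univ \ U) t)⁻¹ := by
              rw [← Finset.mul_sum, hset]
          _ ≤ C₁ * nr E ^ η * (Y / sn Lg s) * Real.log Y ^ (γ - ε - 1) *
              (C₂ * Real.log Y ^ (ε / 2)) := by
              refine mul_le_mul_of_nonneg_left (hsum.trans ?_) (by positivity)
              exact mul_le_mul_of_nonneg_left hn1 (by linarith)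
          _ = C₁ * C₂ * (nr E ^ η * (Y / sn Lg s) * Real.log Y ^ (γ - ε - 1 + ε / 2)) := by
              rw [Real.rpow_add (by linarith : 0 < Real.log Y)]
              ring
          _ ≤ C₁ * C₂ * R := by
              apply mul_le_mul_of_nonneg_left _ (by positivity)
              rw [hR, hQ]
              apply mul_le_mul_of_nonneg_left _ (by positivity)
              apply Real.rpow_le_rpow_of_exponent_le hlog
              linarith
          _ ≤ (C₀ + C₁ * C₂) * R := by
              apply mul_le_mul_of_nonneg_right _ hR0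
              linarith
    refine (norm_sum_le_of_le _ key).trans ?_
    rw [Finset.sum_const, Finset.card_powerset, nsmul_eq_mul]
    have h9 : ((2 ^ Lg.card : ℕ) : ℝ) ≤ 2 ^ Fintype.card J := by
      push_cast
      exact pow_le_pow_right₀ (by norm_num) (Finset.card_le_univ _)
    calc ((2 ^ Lg.card : ℕ) : ℝ) * ((C₀ + C₁ * C₂) * R)
        ≤ 2 ^ Fintype.card J * ((C₀ + C₁ * C₂) * R) :=
          mul_le_mul_of_nonneg_right h9 (by positivity)
      _ = _ := by ring
  refine goal1.trans (le_of_eq ?_)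
  rw [hR, hQ, hγ, hδ]
  ring


end H83.LX
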