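import Pool.Agent.H83.LX.XDef
import Pool.Agent.H83.LW.COMB

/-!
# [H83 LX XCMB] combinatorics of rows and columns (four theorems, 60-100 lines)

`lk a a' = (a.t - a'.t) (a.j a'.i - a.i a'.j)` (`PX_lk`, the same as `PJ_lk`). Put `s a = a.j / a.i` (`a.i ≠ 0`): `lk a a' = 0` iff `a.t = a'.t` or
`s a = s a'`. `row t = {a.t = t}`, `col c = {s a = c}` (`a.j = c a.i`), `MM` = all rows and columns. See `H83/LW/COMB.lean` (`comb1`, `comb2`).
* `xcmb1`: as in `comb2`. `Lg = ∅`: any row. Otherwise choose `a₀ ∈ Lg`. If all `a.t = a₀.t` then `Lg ⊆ row a₀.t`. Otherwise some `a₁` has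
  `a₁.t ≠ a₀.t`, so `s a₁ = s a₀ =: c`, and every `a ∈ Lg` has `s a = c` (otherwise `a.t = a₀.t` and `a.t = a₁.t`).
* `xcmb2`: `comb1` (with `PX_lk`, `PJ_lk`: the linking numbers are equal).
* `xcmb3`: the elements of type `i` in `row t`: `(i, j, t, copy)`, `j ∈ ZMod p`, `copy ∈ Fin (p^e)`: `p * p^e`; in `col c`: `(i, c i, t, copy)`,
  `t ∈ ZMod p`. (`tyX a = i` iff `(a.i).val = i + 1`.)
* `xcmb4`: `row t` and `col c` have the same number of elements (`comb1`), so `S ⊆ S'` implies `S = S'` (`Finset.eq_of_subset_of_card_le`).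
* `xcmb5`: `mwt = #Lg / (p p^e)`, `#S = (p - 1) p p^e` (`comb1`).
-/

set_option autoImplicit false

open scoped Classical

noncomputable section

namespace H83.LX

open H63.MA H38.BB H77.AB H77.GN H83.LW

variable {p e : ℕ}

private theorem xc_lk {p ϖ : ℕ} [Fact p.Prime] (a a' : JT p ϖ) :
    (PJ p ϖ).lk a a' = 0 ↔ a.t = a'.t ∨ a.j * a'.i = a.i * a'.j := by
  rw [PJ_lk, mul_eq_zero, sub_eq_zero, sub_eq_zero]

private theorem xc_px (a a' : JT p (p ^ e)) : (PX p e).lk a a' = (PJ p (p ^ e)).lk a a' := by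
  rw [PX_lk, PJ_lk]

private theorem xc_mem {p ϖ : ℕ} [NeZero p] (S : Finset (JT p ϖ)) :
    S ∈ MM p ϖ ↔ (∃ t, row t = S) ∨ ∃ c, col c = S := by
  simp [MM]

private theorem xc_inrow {p ϖ : ℕ} [NeZero p] (t : ZMod p) (a : JT p ϖ) :
    a ∈ (row t : Finset (JT p ϖ)) ↔ a.t = t := by
  simp [row]

private theorem xc_incol {p ϖ : ℕ} [NeZero p] (c : ZMod p) (a : JT p ϖ) :
    a ∈ (col c : Finset (JT p ϖ)) ↔ a.j = c * a.i := by
  simp [col]

theorem xcmb1 [NeZero p] (hp : p.Prime) (Lg : Finset (JT p (p ^ e)))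
    (h : ∀ a ∈ Lg, ∀ a' ∈ Lg, (PX p e).lk a a' = 0) : ∃ S ∈ MM p (p ^ e), Lg ⊆ S := by
  have : Fact p.Prime := ⟨hp⟩
  rcases Lg.eq_empty_or_nonempty with rfl | ⟨a₀, ha₀⟩
  · exact ⟨row 0, (xc_mem _).2 (Or.inl ⟨0, rfl⟩), Finset.empty_subset _⟩
  by_cases hr : ∀ a ∈ Lg, a.t = a₀.t
  · refine ⟨row a₀.t, (xc_mem _).2 (Or.inl ⟨_, rfl⟩), fun a ha => ?_⟩
    rw [xc_inrow]
    exact hr a ha
  · push Not at hr
    obtain ⟨a₁, ha₁, ht⟩ := hr
    have hi0 : (a₀.i : ZMod p) ≠ 0 := a₀.i.2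
    have hi1 : (a₁.i : ZMod p) ≠ 0 := a₁.i.2
    have hlk : ∀ a ∈ Lg, ∀ a' ∈ Lg, a.t = a'.t ∨ a.j * a'.i = a.i * a'.j := fun a ha a' ha' => by
      rw [← xc_lk, ← xc_px]
      exact h a ha a' ha'
    have h1 : a₁.j * a₀.i = a₁.i * a₀.j := (hlk a₁ ha₁ a₀ ha₀).resolve_left ht
    refine ⟨col (a₀.j / a₀.i), (xc_mem _).2 (Or.inr ⟨_, rfl⟩), fun a ha => ?_⟩
    rw [xc_incol]
    rcases hlk a ha a₀ ha₀ with h2 | h2
    · have h3 : a.j * a₁.i = a.i * a₁.j :=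
        (hlk a ha a₁ ha₁).resolve_left (fun h4 => ht (h4.symm.trans h2))
      rw [div_mul_eq_mul_div, eq_div_iff hi0]
      apply mul_right_cancel₀ hi1
      calc a.j * a₀.i * a₁.i = (a.j * a₁.i) * a₀.i := by ring
        _ = a.i * (a₁.j * a₀.i) := by rw [h3]; ring
        _ = a₀.j * a.i * a₁.i := by rw [h1]; ring
    · rw [div_mul_eq_mul_div, eq_div_iff hi0, h2]
      ring

theorem xcmb2 [NeZero p] (hp : p.Prime) (S : Finset (JT p (p ^ e))) (hS : S ∈ MM p (p ^ e)) :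
    (∀ a ∈ S, ∀ a' ∈ S, (PX p e).lk a a' = 0) ∧
      ∀ a', a' ∉ S → ∃ a ∈ S, (PX p e).lk a a' ≠ 0 := by
  simp only [xc_px]
  exact (comb1 hp (Nat.one_le_pow _ _ hp.pos) S hS).2

private theorem xc_typ [NeZero p] (i : Fin (p - 1)) :
    ∃ c : {c : ZMod p // c ≠ 0}, ∀ a : JT p (p ^ e), tyX p (p ^ e) a = i ↔ a.i = c := by
  have hi := i.2
  have h0 : 0 < p := Nat.pos_of_ne_zero (NeZero.ne p)
  have hv : (((i : ℕ) + 1 : ℕ) : ZMod p).val = (i : ℕ) + 1 :=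
    ZMod.val_cast_of_lt (by omega)
  refine ⟨⟨(((i : ℕ) + 1 : ℕ) : ZMod p), fun h => ?_⟩, fun a => ?_⟩
  · rw [h, ZMod.val_zero] at hv
    omega
  · have hne : (a.i : ZMod p).val ≠ 0 := fun h => a.i.2 ((ZMod.val_eq_zero _).1 h)
    rw [Fin.ext_iff, Subtype.ext_iff]
    change (a.i : ZMod p).val - 1 = (i : ℕ) ↔ _
    constructor
    · intro h
      apply ZMod.val_injective
      change (a.i : ZMod p).val = (((i : ℕ) + 1 : ℕ) : ZMod p).val
      rw [hv]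
      omega
    · intro h
      change (a.i : ZMod p) = (((i : ℕ) + 1 : ℕ) : ZMod p) at h
      rw [h, hv]
      omega

theorem xcmb3 [NeZero p] (hp : p.Prime) (S : Finset (JT p (p ^ e))) (hS : S ∈ MM p (p ^ e))
    (i : Fin (p - 1)) : (S.filter fun a => tyX p (p ^ e) a = i).card = p * p ^ e := by
  obtain ⟨c, hc⟩ := xc_typ (e := e) i
  simp only [hc]
  have hcard : (Finset.univ : Finset (ZMod p × Fin (p ^ e))).card = p * p ^ e := by
    rw [Finset.card_univ, Fintype.card_prod, ZMod.card, Fintype.card_fin]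
  rw [← hcard]
  rcases (xc_mem S).1 hS with ⟨t, rfl⟩ | ⟨c', rfl⟩
  · refine Finset.card_nbij' (fun a => (a.j, a.copy)) (fun x => ⟨c, x.1, t, x.2⟩) ?_ ?_ ?_ ?_
    · intro a _
      simp
    · intro x _
      simp [row]
    · intro a ha
      simp only [row, Finset.coe_filter, Finset.mem_filter, Finset.mem_univ, true_and,
        Set.mem_ofPred_eq] at ha
      cases a
      simp_all
    · intro x _
      rfl
  · refine Finset.card_nbij' (fun a => (a.t, a.copy)) (fun x => ⟨c, c' * c, x.1, x.2⟩) ?_ ?_ ?_ ?_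
    · intro a _
      simp
    · intro x _
      simp [col]
    · intro a ha
      simp only [col, Finset.coe_filter, Finset.mem_filter, Finset.mem_univ, true_and,
        Set.mem_ofPred_eq] at ha
      cases a
      simp_all
    · intro x _
      rfl

theorem xcmb4 [NeZero p] (hp : p.Prime) (S S' : Finset (JT p (p ^ e))) (hS : S ∈ MM p (p ^ e))
    (hS' : S' ∈ MM p (p ^ e)) (h : S ⊆ S') : S = S' := by
  refine Finset.eq_of_subset_of_card_le h ?_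
  rw [(comb1 hp (Nat.one_le_pow _ _ hp.pos) S hS).1, (comb1 hp (Nat.one_le_pow _ _ hp.pos) S' hS').1]

theorem xcmb5 [NeZero p] (hp : p.Prime) (Lg : Finset (JT p (p ^ e))) :
    mwt (fun _ : Fin (p - 1) => p * p ^ e) (tyX p (p ^ e)) Lg =
        (Lg.card : ℝ) / ((p : ℝ) * (p : ℝ) ^ e) ∧
      ∀ S ∈ MM p (p ^ e), (Lg ⊆ S → Lg ≠ S →
        mwt (fun _ : Fin (p - 1) => p * p ^ e) (tyX p (p ^ e)) Lg ≤
          (p : ℝ) - 1 - 1 / ((p : ℝ) * (p : ℝ) ^ e)) ∧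
        mwt (fun _ : Fin (p - 1) => p * p ^ e) (tyX p (p ^ e)) S = (p : ℝ) - 1 := by
  have h1 : ∀ L : Finset (JT p (p ^ e)),
      mwt (fun _ : Fin (p - 1) => p * p ^ e) (tyX p (p ^ e)) L =
        (L.card : ℝ) / ((p : ℝ) * (p : ℝ) ^ e) := by
    intro L
    unfold mwt
    rw [Finset.sum_const, nsmul_eq_mul, div_eq_mul_inv]
    push_cast
    rfl
  have hpp : (0 : ℝ) < p := by exact_mod_cast hp.pos
  have hpe : (0 : ℝ) < (p : ℝ) * (p : ℝ) ^ e := by positivity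
  have hp1 : ((p - 1 : ℕ) : ℝ) = (p : ℝ) - 1 := by
    rw [Nat.cast_sub hp.one_le, Nat.cast_one]
  refine ⟨h1 Lg, fun S hS => ⟨fun hL hne => ?_, ?_⟩⟩
  · rw [h1]
    have h2 : Lg.card < S.card := Finset.card_lt_card (lt_of_le_of_ne hL hne)
    rw [(comb1 hp (Nat.one_le_pow _ _ hp.pos) S hS).1] at h2
    have h3 : (Lg.card : ℝ) + 1 ≤ ((p : ℝ) - 1) * p * (p : ℝ) ^ e := by
      rw [← hp1]
      exact_mod_cast h2
    rw [div_le_iff₀ hpe, sub_mul, one_div, inv_mul_cancel₀ hpe.ne']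
    linarith
  · rw [h1, (comb1 hp (Nat.one_le_pow _ _ hp.pos) S hS).1, div_eq_iff hpe.ne']
    push_cast
    rw [hp1]
    ring

end H83.LX
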