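import Pool.Agent.H83.LX.XDef
import Pool.Agent.H83.LW.FAMJ

/-!
# [H83 LX XFAM] from families to Kummer classes, bounded norm (60-100 lines)

Apply `famj` (`H83/LW/FAMJ.lean`) with `Z = gdY D Y` and
`Φ' i j k = if nr i.support ≤ Y then (nr i.support : ℂ) * (∏ v ∈ i.support, c v) * Φ i j k else 0`.
* Left side: for a disjoint family `g` with all `g a ⊆ Z`: `(ig g).support = ⋃ g a` (a private lemma; see `FAMJ`, `ROWB`), so
  `nr (ig g).support = ∏ nr (g a)`, `∏_{v ∈ supp} c v = ∏_a ∏_{v ∈ g a} c v` (`Finset.prod_biUnion`) and `wg g * nr (supp) = 1`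
  (`wg g = ∏ 1 / nr (g a)`, `nr > 0`). The families in `piFinset (GF D Y)` with `∏ nr (g a) ≤ Y` are the same as the families in
  `piFinset (gdY D Y).powerset` with `∏ nr (g a) ≤ Y` (each `nr (g a) ≤ ∏ ≤ Y`, each `nm v ≤ nr (g a) ≤ Y`; `rx_mem_GF` in `H38/BB/CExp`,
  `mer_mem` in `H38/BB/CMer`).
* Right side: `Wt ϖ i = ϖ^{#supp} / nr supp`, so `Wt ϖ i * nr supp = ϖ^{#supp}`.
-/

set_option autoImplicit false

open scoped NumberField
open IsDedekindDomain
open scoped Classical

noncomputable section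

namespace H83.LX

open H63.MA H38.BB H77.AB H77.GN H83.LW

variable {K : Type} [Field K] [NumberField K] {p : ℕ} {ζ : K}

private theorem xf_apply {J : Type} [Fintype J] (g : J → Finset (Pl K)) (hd : Dj g)
    (c : J → ZMod p) {a : J} {v : Pl K} (hv : v ∈ g a) :
    (∑ a, ∑ v ∈ g a, Finsupp.single v (c a)) v = c a := by
  rw [Finsupp.finsetSum_apply, Finset.sum_eq_single a]
  · rw [Finsupp.finsetSum_apply, Finset.sum_eq_single v]
    · rw [Finsupp.single_apply, if_pos rfl]
    · intro w _ hw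
      rw [Finsupp.single_apply, if_neg hw]
    · intro h
      exact absurd hv h
  · intro a' _ ha'
    rw [Finsupp.finsetSum_apply]
    refine Finset.sum_eq_zero fun w hw => ?_
    rw [Finsupp.single_apply, if_neg]
    rintro rfl
    exact Finset.disjoint_left.1 (hd a' a ha') hw hv
  · intro h
    exact absurd (Finset.mem_univ _) h

private theorem xf_zero {J : Type} [Fintype J] (g : J → Finset (Pl K))
    (c : J → ZMod p) {v : Pl K} (hv : v ∉ Finset.univ.biUnion g) :
    (∑ a, ∑ v ∈ g a, Finsupp.single v (c a)) v = 0 := by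
  rw [Finsupp.finsetSum_apply]
  refine Finset.sum_eq_zero fun a _ => ?_
  rw [Finsupp.finsetSum_apply]
  refine Finset.sum_eq_zero fun w hw => ?_
  rw [Finsupp.single_apply, if_neg]
  rintro rfl
  exact hv (Finset.mem_biUnion.2 ⟨a, Finset.mem_univ _, hw⟩)

private theorem xf_supp [NeZero p] {ϖ : ℕ} (g : JT p ϖ → Finset (Pl K)) (hd : Dj g) :
    (ig g).support = Finset.univ.biUnion g := by
  ext v
  rw [Finsupp.mem_support_iff]
  constructor
  · intro h
    by_contra hv
    exact h (xf_zero g (fun a => (a.i : ZMod p)) hv)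
  · intro hv
    obtain ⟨a, -, ha⟩ := Finset.mem_biUnion.1 hv
    have h1 : ig g v = a.i := xf_apply g hd (fun a => (a.i : ZMod p)) ha
    rw [h1]
    exact a.i.2

private theorem nm_le_nr {n : Finset (Pl K)} {v : Pl K} (hv : v ∈ n) : (nm v : ℝ) ≤ nr n := by
  have h := nr_mono (Finset.singleton_subset_iff.2 hv)
  unfold nr at h ⊢
  rwa [Finset.prod_singleton] at h

private theorem nr_pos (n : Finset (Pl K)) : 0 < nr n := lt_of_lt_of_le one_pos (one_le_nr n)

theorem xfam [NeZero p] (hp : p.Prime) (ϖ : ℕ) (D : RD0 K p ζ) (Y : ℝ) (c : Pl K → ℂ)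
    (Φ : (Pl K →₀ ZMod p) → (Pl K →₀ ZMod p) → (Pl K →₀ ZMod p) → ℂ) :
    ∑ g ∈ Fintype.piFinset (fun _ : JT p ϖ => GF D Y),
      (if Dj g ∧ ∏ a, nr (g a) ≤ Y then
        (∏ a, ∏ v ∈ g a, c v) * Φ (ig g) (jg g) (kg g) else 0) =
      ∑ i ∈ (XF p (gdY D Y)).filter (fun i => nr i.support ≤ Y), ∑ j ∈ XF p i.support,
        ∑ k ∈ XF p i.support,
          ((ϖ : ℂ) ^ i.support.card * ∏ v ∈ i.support, c v) * Φ i j k := by
  have h := famj (p := p) (ϖ := ϖ) (gdY D Y) (fun i j k =>
    if nr i.support ≤ Y then ((nr i.support : ℝ) : ℂ) * (∏ v ∈ i.support, c v) * Φ i j k else 0)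
  have hsub : Fintype.piFinset (fun _ : JT p ϖ => GF D Y) ⊆
      Fintype.piFinset (fun _ : JT p ϖ => (gdY D Y).powerset) := by
    intro g hg
    rw [Fintype.mem_piFinset] at hg ⊢
    intro a
    rw [Finset.mem_powerset]
    intro v hv
    have h1 := rx_mem_GF.1 (hg a)
    exact mer_mem.2 ⟨(nm_le_nr hv).trans h1.1, h1.2 v hv⟩
  rw [Finset.sum_subset hsub (fun g hg hg' => by
    rw [if_neg]
    rintro ⟨hd, hY⟩
    apply hg'
    rw [Fintype.mem_piFinset] at hg ⊢
    intro a
    rw [rx_mem_GF]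
    constructor
    · refine le_trans ?_ hY
      rw [← Finset.mul_prod_erase _ _ (Finset.mem_univ a)]
      have e1 : 1 ≤ ∏ x ∈ Finset.univ.erase a, nr (g x) := by
        calc (1 : ℝ) = ∏ x ∈ Finset.univ.erase a, (1 : ℝ) := Finset.prod_const_one.symm
          _ ≤ _ := Finset.prod_le_prod (fun _ _ => zero_le_one) fun x _ => one_le_nr _
      exact le_mul_of_one_le_right (nr_pos _).le e1
    · intro v hv
      exact (mer_mem.1 (Finset.mem_powerset.1 (hg a) hv)).2)]
  have hL : ∀ g ∈ Fintype.piFinset (fun _ : JT p ϖ => (gdY D Y).powerset),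
      (if Dj g ∧ ∏ a, nr (g a) ≤ Y then
        (∏ a, ∏ v ∈ g a, c v) * Φ (ig g) (jg g) (kg g) else 0) =
      (if Dj g then ((wg g : ℝ) : ℂ) * (if nr (ig g).support ≤ Y then
        ((nr (ig g).support : ℝ) : ℂ) * (∏ v ∈ (ig g).support, c v) *
          Φ (ig g) (jg g) (kg g) else 0) else 0) := by
    intro g _
    by_cases hd : Dj g
    swap
    · rw [if_neg hd, if_neg (fun h => hd h.1)]
    rw [if_pos hd, xf_supp g hd]
    have hnr : nr (Finset.univ.biUnion g) = ∏ a, nr (g a) := by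
      unfold nr
      rw [Finset.prod_biUnion (fun l _ l' _ h => hd l l' h)]
    have hc : ∏ v ∈ Finset.univ.biUnion g, c v = ∏ a, ∏ v ∈ g a, c v := by
      rw [Finset.prod_biUnion (fun l _ l' _ h => hd l l' h)]
    rw [hnr, hc]
    by_cases hY : ∏ a, nr (g a) ≤ Y
    · rw [if_pos ⟨hd, hY⟩, if_pos hY]
      have hw : ((wg g : ℝ) : ℂ) * ((∏ a, nr (g a) : ℝ) : ℂ) = 1 := by
        rw [← Complex.ofReal_mul]
        have e : wg g * ∏ a, nr (g a) = 1 := by
          unfold wg
          rw [← Finset.prod_mul_distrib]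
          refine Finset.prod_eq_one fun a _ => ?_
          rw [one_div, inv_mul_cancel₀ (nr_pos _).ne']
        rw [e, Complex.ofReal_one]
      rw [← mul_assoc, ← mul_assoc, hw, one_mul]
    · rw [if_neg (fun h => hY h.2), if_neg hY, mul_zero]
  rw [Finset.sum_congr rfl hL, h, Finset.sum_filter]
  refine Finset.sum_congr rfl fun i _ => ?_
  by_cases hi : nr i.support ≤ Y
  · rw [if_pos hi]
    refine Finset.sum_congr rfl fun j _ => Finset.sum_congr rfl fun k _ => ?_
    rw [if_pos hi]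
    have hw : ((Wt ϖ i : ℝ) : ℂ) * ((nr i.support : ℝ) : ℂ) = (ϖ : ℂ) ^ i.support.card := by
      rw [← Complex.ofReal_mul]
      have e : Wt ϖ i * nr i.support = (ϖ : ℝ) ^ i.support.card := by
        unfold H83.LW.Wt nr
        rw [← Finset.prod_mul_distrib, ← Finset.prod_const]
        refine Finset.prod_congr rfl fun v _ => ?_
        have h1 : (0 : ℝ) < nm v := by
          have := one_lt_nm v
          positivity
        field_simp
      rw [e]
      push_cast
      rfl
    rw [← hw]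
    ring
  · rw [if_neg hi]
    refine Finset.sum_eq_zero fun j _ => Finset.sum_eq_zero fun k _ => ?_
    rw [if_neg hi, mul_zero]

end H83.LX
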