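import Pool.Agent.H83.LX.XOM
import Pool.Agent.H83.LX.XFAM
import Pool.Agent.H83.LW.COLN
import Pool.Agent.H77.GN.GAbs

/-!
# [H83 LX XCOLN] the columns for a unit independent of the `d j` (three theorems, 120-180 lines; compare COLN in H83/LW)

`xcoln`. As in `COLN`: for a disjoint `g` of good primes supported in `col c` (`a.j = c a.i` if `g a ≠ ∅`) the phase
`ph D (PX p e) (bX u d) g = ph D (PJ …) ![1, u] g` (`xom_ph`) is `∑_{v ∈ supp} (- k v i v LL v u)`, `i = ig g`, `k = kg g` (the private lemmas of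
`COLN`). `xfam` with `Φ i j k = [∀ v ∈ supp i, j v = c i v] ep(dt κ (cl i)) ep(- ∑ k v i v LL v u)`; the sum over `k` is
`p^{#supp} [∀ v ∈ supp i, LL v u = 0]`. So the norm is at most
`∑_{i, nr supp ≤ Y, supp good} ∏_{v ∈ supp} (p^e [∀ κ ∈ 𝒦, dt κ (q v) = 0] [LL v u = 0])`, and the sum over the `i` with given support `n` (there are
`(p - 1)^{#n}`) gives `∑_{n ∈ GF D Y} ∏_{v ∈ n} (p - 1) p^e [v ⊥ 𝒦, LL v u = 0]`.
Now `gabs` (`H77/GN/GAbs`) with `η = 1`, `E = ∅` (`nr ∅ = 1`), `J = Fin ((p - 1) p^e)`, `τ : J → Fin 1`, `q = fun _ => p * p^e`,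
`Δ = fun _ => DU`, `DU = {δ | δ 0 = 0}` (`# = p^{e+1}`), `b = bX u d`, `Lg = univ`: `om v = 1` if all `LL v (d j) = 0` and `LL v u = 0`, and `0`
otherwise; `mwt = (p - 1) p^e / (p p^e) = (p - 1)/p`. `Inb`: `xcoln_i`. (`Disjoint n ∅`; for good `v`: `hK.iff`.)
* `xcoln_i`: `0 ≠ δ ∈ DU`, `bp (bX u d) δ = u^(δ 1).val ∏ d_j^(δ (j+2)).val = y^p`. If `δ 1 = 0`: `hK.ind`. Otherwise let `m` be the inverse of
  `δ 1` modulo `p`; the `m`-th power is `u ∏ d_j^(m δ (j+2)).val` times a `p`-th power, contradiction to `hu2`.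
* `xun`: the number of the `u ∈ U` such that `F u ∏ d_j^{a j}` is a `p`-th power for some `a : Fin e → ZMod p` is at most `p^e`: if `u, u'` have the
  same `a` then `F u = F u' y^p`, so `F (u u'⁻¹)` is a `p`-th power and `u = u'` (`hU.mul`, `hU.inj`, `hU.one`); so `u ↦ a` (choice) is injective.
-/

set_option autoImplicit false

open scoped NumberField
open IsDedekindDomain
open scoped Classical

noncomputable section

namespace H83.LX

open H63.MA H38.BB H77.AB H77.GN H83.LW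

variable {K : Type} [Field K] [NumberField K] {p : ℕ} {ζ : K} {e : ℕ}

/-- the vectors with first coordinate `0` -/
def DU (p e : ℕ) : Submodule (ZMod p) (Fin (e + 2) → ZMod p) where
  carrier := {δ | δ 0 = 0}
  add_mem' := by
    intro a b h1 h3
    show (a + b) 0 = 0
    rw [Pi.add_apply, show a 0 = 0 from h1, show b 0 = 0 from h3, add_zero]
  zero_mem' := rfl
  smul_mem' := by
    intro r a h1
    show (r • a) 0 = 0
    rw [Pi.smul_apply, show a 0 = 0 from h1, smul_zero]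

/-- `u` is independent of the `d j` -/
def UInd (p : ℕ) (u : Kˣ) (d : Fin e → Kˣ) : Prop :=
  ∀ (a : Fin e → ZMod p) (y : Kˣ), u * ∏ j, d j ^ (a j).val ≠ y ^ p

section copy

variable {ϖ : ℕ}

private theorem xcl_apply {J : Type} [Fintype J] (g : J → Finset (Pl K)) (hd : Dj g)
    (c : J → ZMod p) {a : J} {v : Pl K} (hv : v ∈ g a) :
    (∑ a, ∑ v ∈ g a, Finsupp.single v (c a)) v = c a := by
  rw [Finsupp.finsetSum_apply, Finset.sum_eq_single a]
  · rw [Finsupp.finsetSum_apply, Finset.sum_eq_single v]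
    · rw [Finsupp.single_apply, if_pos rfl]
    · intro w _ hw
      rw [Finsupp.single_apply, if_neg hw]
    · intro h
      exact absurd hv h
  · intro a' _ ha'
    rw [Finsupp.finsetSum_apply]
    refine Finset.sum_eq_zero fun w hw => ?_
    rw [Finsupp.single_apply, if_neg]
    rintro rfl
    exact Finset.disjoint_left.1 (hd a' a ha') hw hv
  · intro h
    exact absurd (Finset.mem_univ _) h

private theorem xcl_zero {J : Type} [Fintype J] (g : J → Finset (Pl K))
    (c : J → ZMod p) {v : Pl K} (hv : v ∉ Finset.univ.biUnion g) :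
    (∑ a, ∑ v ∈ g a, Finsupp.single v (c a)) v = 0 := by
  rw [Finsupp.finsetSum_apply]
  refine Finset.sum_eq_zero fun a _ => ?_
  rw [Finsupp.finsetSum_apply]
  refine Finset.sum_eq_zero fun w hw => ?_
  rw [Finsupp.single_apply, if_neg]
  rintro rfl
  exact hv (Finset.mem_biUnion.2 ⟨a, Finset.mem_univ _, hw⟩)

private theorem xcl_supp {J : Type} [Fintype J] (g : J → Finset (Pl K)) (c : J → ZMod p) :
    (∑ a, ∑ v ∈ g a, Finsupp.single v (c a)).support ⊆ Finset.univ.biUnion g := by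
  intro v hv
  by_contra h
  exact (Finsupp.mem_support_iff.1 hv) (xcl_zero g c h)

private theorem xcl_uniq [NeZero p] (X : Finset (Pl K)) (t : Pl K → ZMod p) :
    ((XF p X).filter fun k => ∀ v ∈ X, k v = t v).card ≤ 1 := by
  refine Finset.card_le_one.2 fun k hk k' hk' => ?_
  rw [Finset.mem_filter, mem_XF] at hk hk'
  ext v
  by_cases hv : v ∈ X
  · rw [hk.2 v hv, hk'.2 v hv]
  · rw [Finsupp.notMem_support_iff.1 fun h => hv (hk.1 h),
      Finsupp.notMem_support_iff.1 fun h => hv (hk'.1 h)]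

private theorem xcl_one [NeZero p] (X : Finset (Pl K)) (t : Pl K → ZMod p)
    (P : (Pl K →₀ ZMod p) → Prop) (hP : ∀ k, P k → ∀ v ∈ X, k v = t v) :
    ∑ k ∈ XF p X, (if P k then (1 : ℝ) else 0) ≤ 1 := by
  rw [← Finset.sum_filter, Finset.sum_const, nsmul_eq_mul, mul_one]
  have h1 : (XF p X).filter P ⊆ (XF p X).filter fun k => ∀ v ∈ X, k v = t v := by
    intro k hk
    rw [Finset.mem_filter] at hk ⊢
    exact ⟨hk.1, hP k hk.2⟩
  exact_mod_cast (Finset.card_le_card h1).trans (xcl_uniq X t)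

private theorem xcl_gen {R : Type} [CommSemiring R] [NeZero p] (Z : Finset (Pl K))
    (ψ : Pl K → ZMod p → R) :
    ∑ i ∈ XF p Z, ∏ v ∈ Z, ψ v (i v) = ∏ v ∈ Z, ∑ c, ψ v c := by
  unfold XF
  rw [Finset.prod_sum, Finset.finsupp, Finset.sum_map]
  refine Finset.sum_congr rfl fun g _ => ?_
  show ∏ v ∈ Z, ψ v (Finsupp.indicator Z g v) = _
  rw [← Finset.prod_attach Z fun v => ψ v (Finsupp.indicator Z g v)]
  refine Finset.prod_congr rfl fun v _ => ?_
  rw [Finsupp.indicator_of_mem v.2]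

/-- the phase for families in a column -/
private theorem xcl_phc [NeZero p] (hp : p.Prime) (hζ : IsPrimitiveRoot ζ p) (D : RD0 K p ζ)
    (g : JT p ϖ → Finset (Pl K)) (hg : ∀ a, ∀ v ∈ g a, D.Gd v) (hd : Dj g) (u : Kˣ) (c : ZMod p)
    (κ : Fin D.r → ZMod p) (hc : ∀ a, a ∉ col c → g a = ∅) :
    phc D (PJ p ϖ) ![1, u] (fun a => (a.i : ZMod p) • κ) g =
      ∑ v ∈ (ig g).support, (-(kg g v * ig g v * D.LL v u) + ig g v * dt κ (D.q v)) := by
  have hgS : ∀ a, ∀ v ∈ g a, v ∉ D.S0 := fun a v hv => (hg a v hv).1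
  have hiv : ∀ a, ∀ v ∈ g a, ig g v = a.i := fun a v hv =>
    xcl_apply g hd (fun a => (a.i : ZMod p)) hv
  have hkv : ∀ a, ∀ v ∈ g a, kg g v = a.t := fun a v hv => xcl_apply g hd (fun a => a.t) hv
  have hsupp : (ig g).support = Finset.univ.biUnion g := by
    refine Finset.Subset.antisymm (xcl_supp g _) fun v hv => ?_
    obtain ⟨a, -, ha⟩ := Finset.mem_biUnion.1 hv
    rw [Finsupp.mem_support_iff, hiv a v ha]
    exact a.i.2
  rw [hsupp, Finset.sum_biUnion (fun l _ l' _ h => hd l l' h)]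
  have h1 : ∀ a a' : JT p ϖ, dt ((PJ p ϖ).θ a) ((PJ p ϖ).x a') =
      a.t * (a.j * a'.i - a.i * a'.j) := fun a a' => by
    simp [dt, PJ, Fin.sum_univ_two]
    ring
  have h2 : ∀ a : JT p ϖ, ∀ v ∈ g a, dt ((PJ p ϖ).θ a) (fun k => D.LL v (![1, u] k)) =
      -(a.t * a.i * D.LL v u) := fun a v hv => by
    simp [dt, PJ, Fin.sum_univ_two, LL_one hp hζ D (hgS a v hv)]
  have h0 : ∑ a : JT p ϖ, ∑ a' : JT p ϖ, dt ((PJ p ϖ).θ a) ((PJ p ϖ).x a') *
      Lf D (g a) (pf D (g a')) = 0 := by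
    refine Finset.sum_eq_zero fun a _ => Finset.sum_eq_zero fun a' _ => ?_
    by_cases ha : a ∈ (col c : Finset (JT p ϖ))
    · by_cases ha' : a' ∈ (col c : Finset (JT p ϖ))
      · rw [h1, (Finset.mem_filter.1 ha).2, (Finset.mem_filter.1 ha').2]
        ring
      · rw [hc a' ha', lf_pf hp hζ D (hgS a)]
        simp
    · rw [hc a ha]
      unfold Lf
      simp
  unfold phc ph
  rw [h0, add_zero, ← Finset.sum_add_distrib]
  refine Finset.sum_congr rfl fun a _ => ?_
  have h3 : dt ((a.i : ZMod p) • κ) (qf D (g a)) = ∑ v ∈ g a, (a.i : ZMod p) * dt κ (D.q v) := by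
    unfold dt qf
    simp only [Finset.sum_apply, Pi.smul_apply, smul_eq_mul, Finset.mul_sum]
    rw [Finset.sum_comm]
    refine Finset.sum_congr rfl fun v _ => Finset.sum_congr rfl fun k _ => ?_
    ring
  rw [h3, ← Finset.sum_add_distrib]
  refine Finset.sum_congr rfl fun v hv => ?_
  rw [h2 a v hv, hiv a v hv, hkv a v hv]

private theorem xcl_cond [NeZero p] (g : JT p ϖ → Finset (Pl K)) (hd : Dj g) (c : ZMod p) :
    (∀ a, a ∉ col c → g a = ∅) ↔ ∀ v ∈ (ig g).support, jg g v = c * ig g v := by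
  have hiv : ∀ a, ∀ v ∈ g a, ig g v = a.i := fun a v hv =>
    xcl_apply g hd (fun a => (a.i : ZMod p)) hv
  have hjv : ∀ a, ∀ v ∈ g a, jg g v = a.j := fun a v hv => xcl_apply g hd (fun a => a.j) hv
  constructor
  · intro hC v hv
    obtain ⟨a, -, ha⟩ := Finset.mem_biUnion.1 (xcl_supp g _ hv)
    have h2 : a ∈ (col c : Finset (JT p ϖ)) := by
      by_contra h
      rw [hC a h] at ha
      exact absurd ha (Finset.notMem_empty _)
    rw [hjv a v ha, hiv a v ha]
    exact (Finset.mem_filter.1 h2).2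
  · intro h a ha
    by_contra hne
    obtain ⟨v, hv⟩ := Finset.nonempty_iff_ne_empty.2 hne
    have h1 := h v (by
      rw [Finsupp.mem_support_iff, hiv a v hv]
      exact a.i.2)
    rw [hjv a v hv, hiv a v hv] at h1
    exact ha (Finset.mem_filter.2 ⟨Finset.mem_univ _, h1⟩)

end copy

private theorem xcl_can {G : Type} [CommGroup G] (a b c d : G) :
    a * c = a * b * (c * d) * b⁻¹ * d⁻¹ := by
  rw [eq_mul_inv_iff_mul_eq, eq_mul_inv_iff_mul_eq]
  ac_rfl

private theorem xcl_val {p : ℕ} (a b : ZMod p) : ∃ s : ℕ, a.val * b.val = (a * b).val + p * s := by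
  refine ⟨a.val * b.val / p, ?_⟩
  rw [ZMod.val_mul]
  exact (Nat.mod_add_div _ _).symm

private theorem xcl_bp (u : Kˣ) (d : Fin e → Kˣ) (δ : Fin (e + 2) → ZMod p) :
    bp (bX u d) δ = u ^ (δ 1).val * ∏ j : Fin e, d j ^ (δ j.succ.succ).val := by
  unfold bp bX
  rw [Fin.prod_univ_succ, Fin.prod_univ_succ]
  simp

private theorem xcl_card (p e : ℕ) [NeZero p] : Nat.card (DU p e) = p * p ^ e := by
  have f : (DU p e) ≃ (Fin (e + 1) → ZMod p) :=
    { toFun := fun δ k => δ.1 k.succ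
      invFun := fun a => ⟨Fin.cons 0 a, by
        show (Fin.cons 0 a : Fin (e + 2) → ZMod p) 0 = 0
        rfl⟩
      left_inv := by
        rintro ⟨δ, hδ⟩
        apply Subtype.ext
        funext k
        refine Fin.cases ?_ (fun k => ?_) k
        · exact (show δ 0 = 0 from hδ).symm
        · rfl
      right_inv := by
        intro a
        funext k
        rfl }
  rw [Nat.card_congr f, Nat.card_eq_fintype_card, Fintype.card_fun, ZMod.card, Fintype.card_fin,
    pow_succ, mul_comm]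

private theorem xcl_supp_card [NeZero p] (Z n : Finset (Pl K)) :
    (((XF p Z).filter fun i => i.support = n).card : ℝ) ≤ ((p : ℝ) - 1) ^ n.card := by
  have h1 := xcl_gen (p := p) n (fun _ c => if c = 0 then (0 : ℝ) else 1)
  have h2 : ∀ v : Pl K, ∑ c : ZMod p, (if c = 0 then (0 : ℝ) else 1) = (p : ℝ) - 1 := by
    intro _
    have : ∀ c : ZMod p, (if c = 0 then (0 : ℝ) else 1) = 1 - if c = 0 then 1 else 0 := by
      intro c
      split_ifs <;> norm_num
    rw [Finset.sum_congr rfl fun c _ => this c, Finset.sum_sub_distrib, Finset.sum_const,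
      Finset.card_univ, ZMod.card, nsmul_eq_mul, mul_one, Finset.sum_ite_eq' Finset.univ (0 : ZMod p),
      if_pos (Finset.mem_univ _)]
  rw [Finset.prod_congr rfl fun v _ => h2 v, Finset.prod_const] at h1
  rw [← h1, Finset.card_eq_sum_ones]
  push_cast
  refine (Finset.sum_le_sum (g := fun i => ∏ v ∈ n, if i v = 0 then (0 : ℝ) else 1)
    fun i hi => ?_).trans (Finset.sum_le_sum_of_subset_of_nonneg ?_ fun i _ _ => ?_)
  · rw [Finset.mem_filter] at hi
    rw [Finset.prod_eq_one]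
    intro v hv
    rw [← hi.2, Finsupp.mem_support_iff] at hv
    rw [if_neg hv]
  · intro i hi
    rw [Finset.mem_filter] at hi
    rw [mem_XF, hi.2]
  · exact Finset.prod_nonneg fun v _ => by split_ifs <;> norm_num

theorem xcoln_i [NeZero p] (hp : p.Prime) (D : RD0 K p ζ) {d : Fin e → Kˣ}
    {𝒦 : Submodule (ZMod p) (Fin D.r → ZMod p)} (hK : DK D e d 𝒦) (u : Kˣ) (hu2 : UInd p u d) :
    Inb p (fun _ : Fin 1 => DU p e) (bX u d) := by
  have : Fact p.Prime := ⟨hp⟩
  have hp1 : Fact (1 < p) := ⟨hp.one_lt⟩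
  rintro _ δ hδ hne ⟨y, hy⟩
  rw [xcl_bp] at hy
  have hδ0 : δ 0 = 0 := hδ
  by_cases h1 : δ 1 = 0
  · rw [h1, ZMod.val_zero, pow_zero, one_mul] at hy
    have h2 := hK.ind (fun j => ((δ j.succ.succ).val : ℤ)) ⟨y, by
      rw [hy]
      refine Finset.prod_congr rfl fun j _ => ?_
      rw [zpow_natCast]⟩
    apply hne
    funext k
    refine Fin.cases hδ0 (fun k => ?_) k
    refine Fin.cases ?_ (fun j => ?_) k
    · exact h1
    · have h3 := Int.natCast_dvd_natCast.1 (h2 j)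
      have h4 : (δ j.succ.succ).val = 0 := Nat.eq_zero_of_dvd_of_lt h3 (ZMod.val_lt _)
      exact (ZMod.val_eq_zero _).1 h4
  · obtain ⟨t, ht⟩ := xcl_val (δ 1) (δ 1)⁻¹
    rw [mul_inv_cancel₀ h1, ZMod.val_one] at ht
    have h3 : ∀ j : Fin e, ∃ s : ℕ, (δ j.succ.succ).val * ((δ 1)⁻¹).val =
        (δ j.succ.succ * (δ 1)⁻¹).val + p * s := fun j => xcl_val _ _
    choose s hs using h3
    refine hu2 (fun j => δ j.succ.succ * (δ 1)⁻¹)
      (y ^ ((δ 1)⁻¹).val * (u ^ t)⁻¹ * (∏ j, d j ^ s j)⁻¹) ?_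
    have h5 : (y ^ ((δ 1)⁻¹).val) ^ p = (u * (u ^ t) ^ p) *
        ((∏ j, d j ^ (δ j.succ.succ * (δ 1)⁻¹).val) * (∏ j, d j ^ s j) ^ p) := by
      rw [← pow_mul, mul_comm _ p, pow_mul, hy, mul_pow, ← pow_mul, ht, pow_add, pow_one,
        pow_mul u p t, ← Finset.prod_pow, ← Finset.prod_pow, ← Finset.prod_mul_distrib,
        ← pow_mul u p t, mul_comm p t, pow_mul u t p]
      congr 1
      refine Finset.prod_congr rfl fun j _ => ?_
      rw [← pow_mul, hs j, pow_add, ← pow_mul, mul_comm p (s j)]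
    rw [mul_pow, mul_pow, h5, inv_pow, inv_pow]
    exact xcl_can _ _ _ _

theorem xun [NeZero p] (hp : p.Prime) (D : RD0 K p ζ) (d : Fin e → Kˣ) {U : Type} [CommGroup U]
    [Fintype U] (F : U → Kˣ) (hU : UR D U F) :
    (Finset.univ.filter fun u : U => ¬ UInd p (F u) d).card ≤ p ^ e := by
  have h1 : ∀ u : U, ∃ a : Fin e → ZMod p, ¬ UInd p (F u) d →
      ∃ y : Kˣ, F u * ∏ j, d j ^ (a j).val = y ^ p := by
    intro u
    by_cases h : UInd p (F u) d
    · exact ⟨0, fun h' => absurd h h'⟩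
    · unfold UInd at h
      push Not at h
      obtain ⟨a, y, hy⟩ := h
      exact ⟨a, fun _ => ⟨y, hy⟩⟩
  choose f hf using h1
  have h2 : (Finset.univ : Finset (Fin e → ZMod p)).card = p ^ e := by
    rw [Finset.card_univ, Fintype.card_fun, ZMod.card, Fintype.card_fin]
  rw [← h2]
  refine Finset.card_le_card_of_injOn f (fun _ _ => Finset.mem_coe.2 (Finset.mem_univ _)) ?_
  intro u hu u' hu' he
  rw [Finset.mem_coe, Finset.mem_filter] at hu hu'
  obtain ⟨y, hy⟩ := hf u hu.2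
  obtain ⟨y', hy'⟩ := hf u' hu'.2
  rw [he] at hy
  obtain ⟨z, hz⟩ := hU.mul (u * u'⁻¹) u'
  rw [inv_mul_cancel_right] at hz
  have h3 : F (u * u'⁻¹) = (y * y'⁻¹ * z⁻¹) ^ p := by
    have e1 : F u = y ^ p * (∏ j, d j ^ (f u' j).val)⁻¹ := by rw [← hy, mul_inv_cancel_right]
    have e2 : F u' = y' ^ p * (∏ j, d j ^ (f u' j).val)⁻¹ := by rw [← hy', mul_inv_cancel_right]
    have e3 : F (u * u'⁻¹) = F u * (F u')⁻¹ * (z ^ p)⁻¹ := by
      rw [eq_mul_inv_iff_mul_eq, eq_mul_inv_iff_mul_eq, hz]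
      ac_rfl
    rw [e3, e1, e2, mul_pow, mul_pow, inv_pow, inv_pow, mul_inv, inv_inv,
      mul_assoc (y ^ p) (_)⁻¹ _, mul_left_comm (_)⁻¹ (y' ^ p)⁻¹ _, inv_mul_cancel, mul_one]
  have h4 := hU.inj _ ⟨_, h3⟩
  exact mul_inv_eq_one.1 h4

theorem xcoln [NeZero p] (hp : p.Prime) (hζ : IsPrimitiveRoot ζ p) (D : RD K p ζ)
    {d : Fin e → Kˣ} {𝒦 : Submodule (ZMod p) (Fin D.r → ZMod p)} (hK : DK D.toRD0 e d 𝒦) :
    ∃ C : ℝ, 0 < C ∧ ∀ (u : Kˣ), (∀ v, v ∉ D.S0 → ord v u = 0) → UInd p u d →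
      ∀ (c : ZMod p) (κ : Fin D.r → ZMod p) (Y : ℝ), 3 ≤ Y →
        ‖FX D.toRD0 d u (fun a => (a.i : ZMod p) • κ) Y (fun g => ∀ a, a ∉ col c → g a = ∅)‖ ≤
          C * Y * Real.log Y ^ (((p : ℝ) - 1) / p - 1) := by
  have hpF : Fact p.Prime := ⟨hp⟩
  have hpR : (0 : ℝ) < p := by exact_mod_cast hp.pos
  have hp1 : (0 : ℝ) ≤ (p : ℝ) - 1 := by
    have : (1 : ℝ) ≤ p := by exact_mod_cast hp.one_lt.le
    linarith
  obtain ⟨C, hC, hall⟩ := gabs hp hζ D (Fin ((p - 1) * p ^ e)) (fun _ => (0 : Fin 1))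
    (fun _ => p * p ^ e) (fun _ => DU p e) (fun _ => Nat.mul_pos hp.pos (pow_pos hp.pos _))
    (fun _ => (xcl_card p e).le) 1 one_pos
  refine ⟨C, hC, fun u hu hu2 c κ Y hY => ?_⟩
  have hg := hall ∅ (bX u d) (xom_b D.toRD0 hK u hu) (xcoln_i hp D.toRD0 hK u hu2) Finset.univ Y hY
  have hm : mwt (fun _ : Fin 1 => p * p ^ e) (fun _ : Fin ((p - 1) * p ^ e) => (0 : Fin 1))
      Finset.univ = ((p : ℝ) - 1) / p := by
    unfold mwt
    rw [Finset.sum_const, Finset.card_univ, Fintype.card_fin, nsmul_eq_mul]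
    push_cast [Nat.cast_sub hp.one_lt.le]
    have h1 : (p : ℝ) ^ e ≠ 0 := (pow_pos hpR e).ne'
    field_simp
  have hn : nr (∅ : Finset (Pl K)) = 1 := by
    unfold nr
    rw [Finset.prod_empty]
  rw [hm, hn, Real.one_rpow, mul_one] at hg
  refine le_trans ?_ hg
  -- the weights
  obtain ⟨cw, hcw⟩ : ∃ cw : Pl K → ℝ, cw = fun v =>
    if ∀ κ ∈ 𝒦, dt κ (D.q v) = 0 then (p : ℝ)⁻¹ else 0 := ⟨_, rfl⟩
  obtain ⟨Q, hQ⟩ : ∃ Q : (Pl K →₀ ZMod p) → (Pl K →₀ ZMod p) → Prop, Q = fun i j =>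
    ∀ v ∈ i.support, j v = c * i v := ⟨_, rfl⟩
  obtain ⟨C', hC'⟩ : ∃ C' : (JT p (p ^ e) → Finset (Pl K)) → Prop, C' = fun g =>
    ∀ a, a ∉ col c → g a = ∅ := ⟨_, rfl⟩
  have hcw0 : ∀ v, 0 ≤ cw v := by
    intro v
    rw [hcw]
    simp only
    split_ifs
    · positivity
    · exact le_rfl
  have h1 : FX D.toRD0 d u (fun a => (a.i : ZMod p) • κ) Y C' =
      ∑ i ∈ (XF p (gdY D.toRD0 Y)).filter (fun i => nr i.support ≤ Y), ∑ j ∈ XF p i.support,
        ∑ k ∈ XF p i.support,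
          (((p ^ e : ℕ) : ℂ) ^ i.support.card * ∏ v ∈ i.support, ((cw v : ℝ) : ℂ)) *
          (if Q i j then ep p (∑ v ∈ i.support, (-(k v * i v * D.LL v u) + i v * dt κ (D.q v)))
          else 0) := by
    rw [← xfam hp (p ^ e) D.toRD0 Y (fun v => ((cw v : ℝ) : ℂ)) (fun i j k => if Q i j then
      ep p (∑ v ∈ i.support, (-(k v * i v * D.LL v u) + i v * dt κ (D.q v))) else 0)]
    unfold FX
    refine Finset.sum_congr rfl fun g hg => ?_
    rw [Fintype.mem_piFinset] at hg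
    by_cases hd : Dj g ∧ ∏ a, nr (g a) ≤ Y
    · have hcq : C' g ↔ Q (ig g) (jg g) := by
        rw [hC', hQ]
        exact xcl_cond g hd.1 c
      by_cases h : C' g
      · rw [if_pos ⟨hd.1, hd.2, h⟩, if_pos hd, if_pos (hcq.1 h)]
        have hgd : ∀ a, ∀ v ∈ g a, D.Gd v := fun a v hv => (chr_mem_GF.1 (hg a)).2 v hv
        rw [← xcl_phc hp hζ D.toRD0 g hgd hd.1 u c κ (by
            rw [hC'] at h
            exact h), xom_ph]
        have e1 : ∏ a, WX D.toRD0 u d (fun a => (a.i : ZMod p) • κ) a (g a) =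
            (∏ a, ∏ v ∈ g a, ((cw v : ℝ) : ℂ)) *
              ep p (∑ a : JT p (p ^ e), dt ((a.i : ZMod p) • κ) (qf D.toRD0 (g a))) := by
          rw [aexp_ep_sum hp, ← Finset.prod_mul_distrib]
          refine Finset.prod_congr rfl fun a _ => ?_
          unfold WX WK WO
          congr 1
          push_cast
          refine Finset.prod_congr rfl fun v hv => ?_
          rw [xom_v hp D.toRD0 hK u _ v (hgd a v hv), hcw]
        rw [e1]
        unfold phc
        rw [ep_add hp]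
        ring
      · rw [if_neg (fun h' => h h'.2.2), if_pos hd, if_neg (fun h' => h (hcq.2 h')), mul_zero]
    · rw [if_neg (fun h => hd ⟨h.1, h.2.1⟩), if_neg hd]
  rw [← hC', h1]
  refine (norm_sum_le _ _).trans ?_
  obtain ⟨t, ht⟩ : ∃ t : Pl K → ℝ, t = fun v =>
    if D.LL v u = 0 then (p : ℝ) ^ e * (cw v * p) else 0 := ⟨_, rfl⟩
  have ht0 : ∀ v, 0 ≤ t v := by
    intro v
    rw [ht]
    simp only
    split_ifs
    · have := hcw0 v
      positivity
    · exact le_rfl
  have h2 : ∀ i ∈ (XF p (gdY D.toRD0 Y)).filter (fun i => nr i.support ≤ Y),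
      ‖∑ j ∈ XF p i.support, ∑ k ∈ XF p i.support,
          (((p ^ e : ℕ) : ℂ) ^ i.support.card * ∏ v ∈ i.support, ((cw v : ℝ) : ℂ)) *
          (if Q i j then ep p (∑ v ∈ i.support, (-(k v * i v * D.LL v u) + i v * dt κ (D.q v)))
          else 0)‖ ≤ ∏ v ∈ i.support, t v := by
    intro i _
    obtain ⟨A, hA⟩ : ∃ A : ℝ, A = ((p ^ e : ℕ) : ℝ) ^ i.support.card * ∏ v ∈ i.support, cw v :=
      ⟨_, rfl⟩
    have hA0 : 0 ≤ A := by
      rw [hA]
      exact mul_nonneg (by positivity) (Finset.prod_nonneg fun v _ => hcw0 v)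
    have hAc : (((p ^ e : ℕ) : ℂ) ^ i.support.card * ∏ v ∈ i.support, ((cw v : ℝ) : ℂ)) =
        ((A : ℝ) : ℂ) := by
      rw [hA]
      push_cast
      rfl
    rw [hAc]
    have e1 : ∑ j ∈ XF p i.support, ∑ k ∈ XF p i.support, ((A : ℝ) : ℂ) *
        (if Q i j then ep p (∑ v ∈ i.support, (-(k v * i v * D.LL v u) + i v * dt κ (D.q v)))
          else 0) = ((A : ℝ) : ℂ) *
        (((∑ j ∈ XF p i.support, if Q i j then (1 : ℝ) else 0 : ℝ)) : ℂ) *
        ∑ k ∈ XF p i.support,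
          ep p (∑ v ∈ i.support, (-(k v * i v * D.LL v u) + i v * dt κ (D.q v))) := by
      push_cast
      rw [mul_assoc, Finset.sum_mul, Finset.mul_sum]
      refine Finset.sum_congr rfl fun j _ => ?_
      by_cases h : Q i j
      · simp only [if_pos h]
        rw [Complex.ofReal_one, one_mul, Finset.mul_sum]
      · simp only [if_neg h]
        simp
    have e2 : ∑ k ∈ XF p i.support,
          ep p (∑ v ∈ i.support, (-(k v * i v * D.LL v u) + i v * dt κ (D.q v))) =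
        ∏ v ∈ i.support, (ep p (i v * dt κ (D.q v)) *
          if -(i v * D.LL v u) = 0 then (p : ℂ) else 0) := by
      have e3 := xcl_gen (p := p) i.support
        (fun v t => ep p (-(t * i v * D.LL v u) + i v * dt κ (D.q v)))
      have e4 : ∀ k ∈ XF p i.support,
          ep p (∑ v ∈ i.support, (-(k v * i v * D.LL v u) + i v * dt κ (D.q v))) =
          ∏ v ∈ i.support, ep p (-(k v * i v * D.LL v u) + i v * dt κ (D.q v)) :=
        fun k _ => aexp_ep_sum hp _ _
      refine (Finset.sum_congr rfl e4).trans (e3.trans ?_)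
      refine Finset.prod_congr rfl fun v _ => ?_
      rw [← ep_sum hp (-(i v * D.LL v u)), Finset.mul_sum]
      refine Finset.sum_congr rfl fun t _ => ?_
      rw [ep_add hp, mul_comm]
      congr 2
      ring
    have e5 : ‖∏ v ∈ i.support, (ep p (i v * dt κ (D.q v)) *
          if -(i v * D.LL v u) = 0 then (p : ℂ) else 0)‖ =
        ∏ v ∈ i.support, (if D.LL v u = 0 then (p : ℝ) else 0) := by
      rw [norm_prod]
      refine Finset.prod_congr rfl fun v hv => ?_
      by_cases h : D.LL v u = 0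
      · rw [if_pos h, h, mul_zero, neg_zero, if_pos rfl, norm_mul, ep_norm, one_mul,
          Complex.norm_natCast]
      · rw [if_neg h, if_neg, mul_zero, norm_zero]
        intro h0
        rcases mul_eq_zero.1 (neg_eq_zero.1 h0) with h1 | h1
        · exact Finsupp.mem_support_iff.1 hv h1
        · exact h h1
    have e6 : ∑ j ∈ XF p i.support, (if Q i j then (1 : ℝ) else 0) ≤ 1 :=
      xcl_one i.support (fun v => c * i v) (Q i) (fun j hj => by
        rw [hQ] at hj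
        exact hj)
    have e7 : 0 ≤ ∑ j ∈ XF p i.support, (if Q i j then (1 : ℝ) else 0) :=
      Finset.sum_nonneg fun j _ => by split_ifs <;> norm_num
    rw [e1, norm_mul, norm_mul, e2, e5, Complex.norm_real, Complex.norm_real, Real.norm_eq_abs,
      Real.norm_eq_abs, abs_of_nonneg hA0, abs_of_nonneg e7]
    have e8 : 0 ≤ ∏ v ∈ i.support, (if D.LL v u = 0 then (p : ℝ) else 0) :=
      Finset.prod_nonneg fun v _ => by split_ifs <;> positivity
    have e9 : A * ∏ v ∈ i.support, (if D.LL v u = 0 then (p : ℝ) else 0) =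
        ∏ v ∈ i.support, t v := by
      rw [hA, ← Finset.prod_const, ← Finset.prod_mul_distrib, ← Finset.prod_mul_distrib]
      refine Finset.prod_congr rfl fun v _ => ?_
      rw [ht]
      simp only
      split_ifs
      · push_cast
        ring
      · rw [mul_zero]
    calc A * (∑ j ∈ XF p i.support, if Q i j then (1 : ℝ) else 0) *
          ∏ v ∈ i.support, (if D.LL v u = 0 then (p : ℝ) else 0)
        ≤ A * 1 * ∏ v ∈ i.support, (if D.LL v u = 0 then (p : ℝ) else 0) :=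
          mul_le_mul_of_nonneg_right (mul_le_mul_of_nonneg_left e6 hA0) e8
      _ = ∏ v ∈ i.support, t v := by rw [mul_one, e9]
  refine (Finset.sum_le_sum h2).trans ?_
  have h3 : ∀ i ∈ (XF p (gdY D.toRD0 Y)).filter (fun i => nr i.support ≤ Y),
      i.support ∈ (GF D.toRD0 Y).filter (fun n => Disjoint n ∅) := by
    intro i hi
    rw [Finset.mem_filter, mem_XF] at hi
    rw [Finset.mem_filter, chr_mem_GF]
    exact ⟨⟨hi.2, fun v hv => (chr_mem.1 (hi.1 hv)).2⟩, Finset.disjoint_empty_right _⟩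
  rw [← Finset.sum_fiberwise_of_maps_to h3]
  refine Finset.sum_le_sum fun n hn => ?_
  rw [Finset.mem_filter, chr_mem_GF] at hn
  have h4 : ∑ i ∈ ((XF p (gdY D.toRD0 Y)).filter (fun i => nr i.support ≤ Y)).filter
      (fun i => i.support = n), ∏ v ∈ i.support, t v =
      ((((XF p (gdY D.toRD0 Y)).filter (fun i => nr i.support ≤ Y)).filter
      (fun i => i.support = n)).card : ℝ) * ∏ v ∈ n, t v := by
    rw [← nsmul_eq_mul, ← Finset.sum_const]
    refine Finset.sum_congr rfl fun i hi => ?_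
    rw [(Finset.mem_filter.1 hi).2]
  rw [h4]
  have h5 : ((((XF p (gdY D.toRD0 Y)).filter (fun i => nr i.support ≤ Y)).filter
      (fun i => i.support = n)).card : ℝ) ≤ ((p : ℝ) - 1) ^ n.card := by
    refine le_trans ?_ (xcl_supp_card (gdY D.toRD0 Y) n)
    exact_mod_cast Finset.card_le_card (Finset.filter_subset_filter _ (Finset.filter_subset _ _))
  refine (mul_le_mul_of_nonneg_right h5 (Finset.prod_nonneg fun v _ => ht0 v)).trans ?_
  rw [← Finset.prod_const, ← Finset.prod_mul_distrib]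
  refine Finset.prod_le_prod (fun v _ => mul_nonneg hp1 (ht0 v)) fun v hv => ?_
  have hv' := hn.1.2 v hv
  rw [Finset.sum_const, Finset.card_univ, Fintype.card_fin, nsmul_eq_mul]
  unfold om
  have hq : (Nat.card (DU p e) : ℝ) / ((p * p ^ e : ℕ) : ℝ) = 1 := by
    rw [xcl_card]
    exact div_self (by
      have := Nat.mul_pos hp.pos (pow_pos hp.pos e)
      exact_mod_cast this.ne')
  simp only [hq]
  rw [ht]
  simp only
  by_cases h6 : D.LL v u = 0 ∧ ∀ κ ∈ 𝒦, dt κ (D.q v) = 0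
  · have h7 := (hK.iff v hv').1 h6.2
    rw [if_pos h6.1, if_pos]
    · rw [hcw]
      simp only
      rw [if_pos h6.2, inv_mul_cancel₀ hpR.ne']
      push_cast [Nat.cast_sub hp.one_lt.le]
      linarith
    · intro δ hδ
      have hδ0 : δ 0 = 0 := hδ
      unfold dt
      rw [Fin.sum_univ_succ, Fin.sum_univ_succ, hδ0]
      beta_reduce
      have e1 : D.LL v (bX u d (Fin.succ 0)) = D.LL v u := rfl
      rw [e1, h6.1, zero_mul, mul_zero, zero_add, zero_add]
      refine Finset.sum_eq_zero fun j _ => ?_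
      have e2 : D.LL v (bX u d j.succ.succ) = D.LL v (d j) := rfl
      rw [e2, h7 j, mul_zero]
  · have h8 : (if D.LL v u = 0 then (p : ℝ) ^ e * (cw v * p) else 0) = 0 := by
      by_cases h9 : D.LL v u = 0
      · rw [if_pos h9, hcw]
        simp only
        rw [if_neg (fun h => h6 ⟨h9, h⟩)]
        ring
      · rw [if_neg h9]
    rw [h8, mul_zero]
    exact mul_nonneg (Nat.cast_nonneg _) (by split_ifs <;> norm_num)

end H83.LX
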