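import Pool.Agent.H77.GN.GDef
import Pool.Agent.H83.LW.JDef

/-!
# LX-XDEF: definitions for the count of the good Kummer classes of norm at most `Y` (complete)

`e` units `d`, `h = p^e` copies, the index set `JT p (p^e)` of `LW/JDef` (`a = (i, j, t, copy)`, `i ≠ 0`).
* `bX u d = (1, u, d_0, …)`, `PX p e`: the phase data `PJ` with `e` more coordinates (all `0`); `DX p e`: the vectors with first two
  coordinates `0`; `tyX a`: the exponent `a.i`, as an element of `Fin (p - 1)`; all weights are `1 / (p h)`.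
* `WK D q Δ b τ κ a n`: the weight `WO` of `H77/GN/GDef` times the class character `ep(dt (κ a) (qf n))`.
* `FX D d u κ Y C`: the sum over the disjoint families with `∏ nr (g a) ≤ Y` and the property `C`.
* `XY D 𝒦 Y`: the Kummer classes `i` with support in the good primes orthogonal to `𝒦`, of class `0` and norm `nr (supp i) ≤ Y`;
  `EX D 𝒦 e Y` the sum of the weights `(p^e)^{#supp i}`.
-/

set_option autoImplicit false

open scoped NumberField
open IsDedekindDomain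
open scoped Classical

noncomputable section

namespace H83.LX

open H63.MA H38.BB H77.AB H77.GN H83.LW

variable {K : Type} [Field K] [NumberField K] {p : ℕ} {ζ : K} {e : ℕ}

/-- the parameters -/
def bX (u : Kˣ) (d : Fin e → Kˣ) : Fin (e + 2) → Kˣ := Fin.cons 1 (Fin.cons u d)

/-- the phase data -/
def PX (p e : ℕ) : PD p (e + 2) (JT p (p ^ e)) where
  x a := Fin.cons (a.i : ZMod p) (Fin.cons a.j 0)
  θ a := Fin.cons (a.t * a.j) (Fin.cons (-(a.t * a.i)) 0)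
  self a := by
    simp [dt, Fin.sum_univ_succ]
    ring

theorem PX_lk (p e : ℕ) (a a' : JT p (p ^ e)) :
    (PX p e).lk a a' = (a.t - a'.t) * (a.j * a'.i - a.i * a'.j) := by
  simp [PD.lk, PX, dt, Fin.sum_univ_succ]
  ring

/-- the vectors with first two coordinates `0` -/
def DX (p e : ℕ) : Submodule (ZMod p) (Fin (e + 2) → ZMod p) where
  carrier := {δ | δ 0 = 0 ∧ δ 1 = 0}
  add_mem' := by
    rintro a b ⟨h1, h2⟩ ⟨h3, h4⟩
    exact ⟨by rw [Pi.add_apply, h1, h3, add_zero], by rw [Pi.add_apply, h2, h4, add_zero]⟩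
  zero_mem' := ⟨rfl, rfl⟩
  smul_mem' := by
    rintro r a ⟨h1, h2⟩
    exact ⟨by rw [Pi.smul_apply, h1, smul_zero], by rw [Pi.smul_apply, h2, smul_zero]⟩

/-- the type of an index -/
def tyX (p ϖ : ℕ) [NeZero p] (a : JT p ϖ) : Fin (p - 1) :=
  ⟨(a.i : ZMod p).val - 1, by
    have h1 := ZMod.val_lt (a.i : ZMod p)
    have h2 : (a.i : ZMod p).val ≠ 0 := fun h => a.i.2 ((ZMod.val_eq_zero _).1 h)
    omega⟩

/-- the weight of a finite set in one variable with a class character -/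
def WK {m β : ℕ} (D : RD0 K p ζ) (q : Fin β → ℕ) (Δ : Fin β → Submodule (ZMod p) (Fin m → ZMod p))
    (b : Fin m → Kˣ) {J : Type} (τ : J → Fin β) (κ : J → Fin D.r → ZMod p) (a : J)
    (n : Finset (Pl K)) : ℂ := WO D q Δ b τ a n * ep p (dt (κ a) (qf D n))

/-- the weights of the problem -/
def WX [NeZero p] (D : RD0 K p ζ) (u : Kˣ) (d : Fin e → Kˣ) (κ : JT p (p ^ e) → Fin D.r → ZMod p)
    (a : JT p (p ^ e)) (n : Finset (Pl K)) : ℂ :=
  WK D (fun _ : Fin (p - 1) => p * p ^ e) (fun _ => DX p e) (bX u d) (tyX p (p ^ e)) κ a n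

/-- the sum over the families -/
def FX [NeZero p] (D : RD0 K p ζ) (d : Fin e → Kˣ) (u : Kˣ) (κ : JT p (p ^ e) → Fin D.r → ZMod p)
    (Y : ℝ) (C : (JT p (p ^ e) → Finset (Pl K)) → Prop) : ℂ :=
  ∑ g ∈ Fintype.piFinset (fun _ : JT p (p ^ e) => GF D Y),
    if Dj g ∧ ∏ a, nr (g a) ≤ Y ∧ C g then
      (∏ a, WX D u d κ a (g a)) * ep p (ph D (PX p e) (bX u d) g) else 0

/-- the Kummer classes -/
def XY [NeZero p] (D : RD0 K p ζ) (𝒦 : Submodule (ZMod p) (Fin D.r → ZMod p)) (Y : ℝ) :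
    Finset (Pl K →₀ ZMod p) :=
  (XF p (gdY D Y)).filter fun i => nr i.support ≤ Y ∧ cl D i = 0 ∧
    ∀ v ∈ i.support, ∀ κ ∈ 𝒦, dt κ (D.q v) = 0

theorem mem_XY [NeZero p] {D : RD0 K p ζ} {𝒦 : Submodule (ZMod p) (Fin D.r → ZMod p)} {Y : ℝ}
    {i : Pl K →₀ ZMod p} : i ∈ XY D 𝒦 Y ↔ (∀ v ∈ i.support, (nm v : ℝ) ≤ Y ∧ D.Gd v) ∧
      nr i.support ≤ Y ∧ cl D i = 0 ∧ ∀ v ∈ i.support, ∀ κ ∈ 𝒦, dt κ (D.q v) = 0 := by
  unfold XY
  rw [Finset.mem_filter, mem_XF]
  refine and_congr_left fun _ => ⟨fun h v hv => mer_mem.1 (h hv), fun h v hv => mer_mem.2 (h v hv)⟩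

/-- the sum of the weights -/
def EX [NeZero p] (D : RD0 K p ζ) (𝒦 : Submodule (ZMod p) (Fin D.r → ZMod p)) (e : ℕ) (Y : ℝ) : ℝ :=
  ∑ i ∈ XY D 𝒦 Y, ((p : ℝ) ^ e) ^ i.support.card

end H83.LX
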