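import Pool.Agent.H83.LX.XDef
import Pool.Agent.H77.GN.GOm

/-!
# [H83 LX XOM] the parameters and the weights (five theorems, 90-150 lines)

* `xom_b`: `bX u d = (1, u, d_0, …)`, all entries have order `0` outside `S0` (`hK.ord0`).
* `xom_i`: `δ ∈ DX`, `δ ≠ 0`: `bp (bX u d) δ = 1^0 u^0 ∏_j d_j ^ (δ (j+2)).val` (`Fin.prod_univ_succ`); if it is `y^p` then `hK.ind` with
  `n j = (δ (j+2)).val` gives `p ∣ (δ (j+2)).val < p`, so all coordinates vanish.
* `xom_c`: `DX p e ≃ (Fin e → ZMod p)` (drop the first two coordinates): `Nat.card_congr`, `Nat.card_fun`/`Nat.card_eq_fintype_card`,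
  `ZMod.card`.
* `xom_v`: for good `v`: all `δ ∈ DX` satisfy `dt δ (LL v (bX u d ·)) = ∑_j δ (j+2) LL v (d j) = 0` iff all `LL v (d j) = 0` iff `κ · q v = 0` for all
  `κ ∈ 𝒦` (`hK.iff`); the value is `#DX / (p p^e) = 1/p` (`xom_c`).
* `xom_ph`: the coordinates `≥ 2` of the `x a`, `θ a` are `0`, so all scalar products are those of `PJ` (`ph` is a sum of
  `dt (θ a) (LL v (b ·))` and `dt (θ a) (x a') * …`; `simp [dt, Fin.sum_univ_succ]`).
-/

set_option autoImplicit false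

open scoped NumberField
open IsDedekindDomain
open scoped Classical

noncomputable section

namespace H83.LX

open H63.MA H38.BB H77.AB H77.GN H83.LW

variable {K : Type} [Field K] [NumberField K] {p : ℕ} {ζ : K} {e : ℕ}

private theorem dt_fs {p e : ℕ} (δ x : Fin (e + 2) → ZMod p) :
    dt δ x = δ 0 * x 0 + (δ 1 * x 1 + ∑ j : Fin e, δ j.succ.succ * x j.succ.succ) := by
  unfold dt
  rw [Fin.sum_univ_succ, Fin.sum_univ_succ]
  rfl

theorem xom_b (D : RD0 K p ζ) {d : Fin e → Kˣ} {𝒦 : Submodule (ZMod p) (Fin D.r → ZMod p)}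
    (hK : DK D e d 𝒦) (u : Kˣ) (hu : ∀ v, v ∉ D.S0 → ord v u = 0) : BS2 D (bX u d) ∅ := by
  refine ⟨fun v hv => absurd hv (Finset.notMem_empty v), fun k v hv _ => ?_⟩
  refine Fin.cases ?_ (fun k => Fin.cases ?_ (fun j => ?_) k) k
  · exact ord_one v
  · exact hu v hv
  · exact hK.ord0 j v hv

theorem xom_i [NeZero p] (hp : p.Prime) (D : RD0 K p ζ) {d : Fin e → Kˣ}
    {𝒦 : Submodule (ZMod p) (Fin D.r → ZMod p)} (hK : DK D e d 𝒦) (u : Kˣ) :
    Inb p (fun _ : Fin (p - 1) => DX p e) (bX u d) := by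
  rintro _ δ ⟨h0, h1⟩ hne ⟨y, hy⟩
  apply hne
  have h2 : bp (bX u d) δ = ∏ j : Fin e, d j ^ (δ j.succ.succ).val := by
    unfold bp
    rw [Fin.prod_univ_succ, Fin.prod_univ_succ]
    have e1 : δ (Fin.succ 0) = 0 := h1
    rw [h0, e1, ZMod.val_zero, pow_zero, pow_zero, one_mul, one_mul]
    rfl
  have h3 := hK.ind (fun j => ((δ j.succ.succ).val : ℤ)) ⟨y, by
    simp only [zpow_natCast]
    rw [hy, h2]⟩
  funext k
  refine Fin.cases h0 (fun k => Fin.cases h1 (fun j => ?_) k) k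
  have h4 := h3 j
  have h5 : p ∣ (δ j.succ.succ).val := by exact_mod_cast h4
  have h6 := Nat.eq_zero_of_dvd_of_lt h5 (ZMod.val_lt _)
  exact (ZMod.val_eq_zero _).1 h6

theorem xom_c (p e : ℕ) [NeZero p] : Nat.card (DX p e) = p ^ e := by
  have E : DX p e ≃ (Fin e → ZMod p) :=
    { toFun := fun δ j => δ.1 j.succ.succ
      invFun := fun f => ⟨Fin.cons 0 (Fin.cons 0 f), ⟨rfl, rfl⟩⟩
      left_inv := by
        rintro ⟨δ, h0, h1⟩
        apply Subtype.ext
        funext k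
        refine Fin.cases h0.symm (fun k => Fin.cases h1.symm (fun j => ?_) k) k
        rfl
      right_inv := fun f => rfl }
  rw [Nat.card_congr E, Nat.card_fun, Nat.card_eq_fintype_card, Nat.card_eq_fintype_card,
    ZMod.card, Fintype.card_fin]

theorem xom_v [NeZero p] (hp : p.Prime) (D : RD0 K p ζ) {d : Fin e → Kˣ}
    {𝒦 : Submodule (ZMod p) (Fin D.r → ZMod p)} (hK : DK D e d 𝒦) (u : Kˣ) (i : Fin (p - 1))
    (v : Pl K) (hv : D.Gd v) :
    om D (fun _ : Fin (p - 1) => p * p ^ e) (fun _ => DX p e) (bX u d) i v =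
      if ∀ κ ∈ 𝒦, dt κ (D.q v) = 0 then (p : ℝ)⁻¹ else 0 := by
  have hiff : (∀ δ ∈ DX p e, dt δ (fun k => D.LL v (bX u d k)) = 0) ↔
      ∀ κ ∈ 𝒦, dt κ (D.q v) = 0 := by
    rw [hK.iff v hv]
    constructor
    · intro h j
      have h1 := h (Fin.cons 0 (Fin.cons 0 (Pi.single j 1))) ⟨rfl, rfl⟩
      rw [dt_fs] at h1
      have h2 : ∀ j', (Fin.cons 0 (Fin.cons 0 (Pi.single j 1)) : Fin (e + 2) → ZMod p)
          j'.succ.succ = (Pi.single j 1 : Fin e → ZMod p) j' := fun j' => rfl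
      have h3 : ∀ j', D.LL v (bX u d j'.succ.succ) = D.LL v (d j') := fun j' => rfl
      have h4 : (Fin.cons 0 (Fin.cons 0 (Pi.single j 1)) : Fin (e + 2) → ZMod p) 0 = 0 := rfl
      have h5 : (Fin.cons 0 (Fin.cons 0 (Pi.single j 1)) : Fin (e + 2) → ZMod p) 1 = 0 := rfl
      rw [h4, h5, zero_mul, zero_mul, zero_add, zero_add] at h1
      simp only [h2, h3] at h1
      rw [Finset.sum_eq_single j] at h1
      · rwa [Pi.single_eq_same, one_mul] at h1
      · intro j' _ hj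
        rw [Pi.single_eq_of_ne hj, zero_mul]
      · intro hj
        exact absurd (Finset.mem_univ j) hj
    · rintro h δ ⟨h0, h1⟩
      rw [dt_fs, h0, h1, zero_mul, zero_mul, zero_add, zero_add]
      refine Finset.sum_eq_zero fun j _ => ?_
      have h3 : D.LL v (bX u d j.succ.succ) = D.LL v (d j) := rfl
      rw [h3, h j, mul_zero]
  unfold om
  beta_reduce
  by_cases hc : ∀ κ ∈ 𝒦, dt κ (D.q v) = 0
  · rw [if_pos (hiff.2 hc), if_pos hc, xom_c]
    have hp0 : (p : ℝ) ≠ 0 := by exact_mod_cast hp.ne_zero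
    push_cast
    field_simp
  · rw [if_neg (fun h => hc (hiff.1 h)), if_neg hc]

theorem xom_ph (D : RD0 K p ζ) (d : Fin e → Kˣ) (u : Kˣ)
    (g : JT p (p ^ e) → Finset (Pl K)) [NeZero p] :
    ph D (PX p e) (bX u d) g = ph D (PJ p (p ^ e)) ![1, u] g := by
  have h1 : ∀ (a : JT p (p ^ e)) (x : Fin (e + 2) → ZMod p) (y : Fin 2 → ZMod p), x 0 = y 0 →
      x 1 = y 1 → dt ((PX p e).θ a) x = dt ((PJ p (p ^ e)).θ a) y := by
    intro a x y hx0 hx1
    rw [dt_fs]
    have e0 : (PX p e).θ a 0 = a.t * a.j := rfl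
    have e1 : (PX p e).θ a 1 = -(a.t * a.i) := rfl
    have e2 : ∀ j : Fin e, (PX p e).θ a j.succ.succ = 0 := fun j => rfl
    simp only [e0, e1, e2, zero_mul, Finset.sum_const_zero, add_zero]
    unfold dt
    rw [Fin.sum_univ_two, hx0, hx1]
    rfl
  unfold ph
  congr 1
  · refine Finset.sum_congr rfl fun a _ => Finset.sum_congr rfl fun v _ => ?_
    exact h1 a _ _ rfl rfl
  · refine Finset.sum_congr rfl fun a _ => Finset.sum_congr rfl fun a' _ => ?_
    rw [h1 a ((PX p e).x a') ((PJ p (p ^ e)).x a') rfl rfl]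

end H83.LX
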