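import Pool.Agent.H83.LX.XBLKS
import Pool.Agent.H83.LX.XCMB
import Pool.Agent.H83.LX.XOM
import Pool.Agent.H77.AB.KpaW
import Pool.Agent.H77.AB.Thr
import Pool.Agent.H77.AB.Num

/-!
# [H83 LX XMN] the decomposition into rows and columns (200-280 lines; compare `gmn` in H77/GN/GMn.lean)

`J = JT p (p^e)`, `P = PX p e`, `b = bX u d`, `q = fun _ => p p^e`, `Δ = fun _ => DX p e`, `τ = tyX`, `E = ∅` (`nr ∅ = 1`), `W = WX D u d κ` (`= WK …` by
definition), `BS2`, `Inb`: `xom_b`, `xom_i`; `#DX = p^e ≤ p p^e` (`xom_c`).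
(1) `dec1` (`H77/AB/Thr`) with `T = (log Y)^B ≤ Y`, `B` the `B₁` of `kpaW` for the exponent `A = 3` (also `≥ 1`). For `g` in the inner sum (`g a = s a`,
`nr (s a) ≤ T` for `a ∉ Lg`; `T < nr (g a)` for `a ∈ Lg`): for `S : Finset J` the condition `∀ a ∉ S, g a = ∅` holds iff `Lg ⊆ S` (`nr ∅ = 1 ≤ T`) and
`s a = ∅` for all `a ∉ S`. So (as in `gmn_dec`) `FX (supp ⊆ S) = ∑_{Lg} ∑_s [Lg ⊆ S ∧ ∀ a ∉ S, s a = ∅] TW D P b ∅ W Y T Lg s`, and the difference of the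
theorem is `∑_{Lg} ∑_s c(Lg, s) TW(Lg, s)`, `c(Lg, s) = 1 - #{S ∈ MM : Lg ⊆ S ∧ ∀ a ∉ S, s a = ∅}`, `|c| ≤ 1 + #MM`. `sn Lg s ≤ T^{#J} ≤ Y^{1/8}`.
(2) `Lg` has a linked pair: `kpaW`: `|TW| ≤ (Y/sn) (log Y)^{-3}`; `∑_s 1/sn ≤ C (1 + log T)^{#J}` (`thr_sum`) `≤ C log Y`: total
`≤ C Y (log Y)^{-2} ≤ C Y (log Y)^{p - 2 - δ}` (`p ≥ 2`, `δ ≤ 1`).
(3) `Lg` unlinked: `xcmb1` gives `S ∈ MM` with `Lg ⊆ S`. If `Lg ≠ S`: `xcmb5`: `mwt ≤ p - 1 - 1/(p p^e)`, `xblka` (`η = 1`): `|TW| ≤ C (Y/sn) (log Y)^{p - 2 - 1/(p p^e)}`.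
(4) `Lg = S ∈ MM`, `s` identically `∅`: `c(Lg, s) = 0`: the only `S' ∈ MM` with `Lg ⊆ S'` is `S` (`xcmb4`), and `s = ∅` outside `S`.
(5) `Lg = S ∈ MM`, `s l ≠ ∅` for some `l`, so `l ∉ Lg` (for `l ∈ Lg` we have `s l = ∅`): `xcmb2`: some `a ∈ Lg` has `lk a l ≠ 0`. `xblks` with
`S = univ : Finset (Fin (p - 1))` (`card = p - 1`; `xcmb3`): `|TW| ≤ C (Y/sn) (log Y)^{p - 1 - 1 - δ₀}`.
(6) In (3) and (5) the sum over `s` gives a factor `C (1 + log T)^{#J} ≤ C (log Y)^{δ₁/2}` for large `Y` (`num` in `H77/AB/Num`, see `gmn`),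
`δ₁ = min δ₀ (1/(p p^e))`; `δ = δ₁/2` (and `δ ≤ 1/2`). There are `2^{#J}` sets `Lg`.
-/

set_option autoImplicit false

open scoped NumberField
open IsDedekindDomain
open scoped Classical

noncomputable section

namespace H83.LX

open H63.MA H38.BB H77.AB H77.GN H83.LW

variable {K : Type} [Field K] [NumberField K] {p : ℕ} {ζ : K} {e : ℕ}

private theorem xmn_mem_GF (D : RD0 K p ζ)
    {y : ℝ} {n : Finset (Pl K)} : n ∈ GF D y ↔ nr n ≤ y ∧ ∀ v ∈ n, D.Gd v := by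
  unfold GF
  rw [Finset.mem_filter, mem_AF]

private theorem xmn_nr_empty : nr (∅ : Finset (Pl K)) = 1 := by
  unfold nr
  rw [Finset.prod_empty]

/-- the sum over the families supported in `S` through the sums `TW` -/
private theorem xmn_dec [NeZero p] (D : RD0 K p ζ) (d : Fin e → Kˣ) (u : Kˣ)
    (κ : JT p (p ^ e) → Fin D.r → ZMod p) (S : Finset (JT p (p ^ e))) {Y T : ℝ} (hT1 : 1 ≤ T)
    (hTY : T ≤ Y) :
    FX D d u κ Y (fun g => ∀ a, a ∉ S → g a = ∅) = ∑ Lg : Finset (JT p (p ^ e)),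
      ∑ s ∈ Fintype.piFinset (fun a => if a ∈ Lg then {∅} else GF D T),
        (if Lg ⊆ S ∧ (∀ a, a ∉ S → s a = ∅) then 1 else 0) *
          TW D (PX p e) (bX u d) ∅ (WX D u d κ) Y T Lg s := by
  unfold FX
  rw [dec1 D T Y hTY]
  refine Finset.sum_congr rfl fun Lg _ => Finset.sum_congr rfl fun s hs => ?_
  unfold TW
  rw [Finset.mul_sum]
  refine Finset.sum_congr rfl fun g hg => ?_
  rw [Fintype.mem_piFinset] at hs hg
  have hsm : ∀ a, a ∉ Lg → g a = s a := by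
    intro a ha
    have h1 := hg a
    rwa [if_neg ha, Finset.mem_singleton] at h1
  by_cases hA : ∀ a ∈ Lg, T < nr (g a)
  · have he : (∀ a, a ∉ S → g a = ∅) ↔ (Lg ⊆ S ∧ ∀ a, a ∉ S → s a = ∅) := by
      constructor
      · intro h1
        refine ⟨fun a ha => ?_, fun a ha => ?_⟩
        · by_contra h3
          have h4 := hA a ha
          rw [h1 a h3, xmn_nr_empty] at h4
          linarith
        · by_cases haL : a ∈ Lg
          · have h3 := hs a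
            rwa [if_pos haL, Finset.mem_singleton] at h3
          · rw [← hsm a haL]
            exact h1 a ha
      · rintro ⟨h1, h3⟩ a ha
        have haL : a ∉ Lg := fun h => ha (h1 h)
        rw [hsm a haL]
        exact h3 a ha
    rw [if_pos hA]
    by_cases hB : Dj g ∧ ∏ a, nr (g a) ≤ Y
    · have hB' : Dj g ∧ (∀ a, Disjoint (g a) ∅) ∧ (∀ a ∈ Lg, T < nr (g a)) ∧
          ∏ a, nr (g a) ≤ Y := ⟨hB.1, fun a => Finset.disjoint_empty_right _, hA, hB.2⟩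
      rw [if_pos hB']
      by_cases hC : Lg ⊆ S ∧ ∀ a, a ∉ S → s a = ∅
      · rw [if_pos hC, if_pos ⟨hB.1, hB.2, he.2 hC⟩, one_mul]
      · rw [if_neg hC, if_neg (fun h => hC (he.1 h.2.2)), zero_mul]
    · have hB' : ¬ (Dj g ∧ (∀ a, Disjoint (g a) ∅) ∧ (∀ a ∈ Lg, T < nr (g a)) ∧
          ∏ a, nr (g a) ≤ Y) := fun h => hB ⟨h.1, h.2.2.2⟩
      rw [if_neg (fun h => hB ⟨h.1, h.2.1⟩), if_neg hB', mul_zero]
  · have hB' : ¬ (Dj g ∧ (∀ a, Disjoint (g a) ∅) ∧ (∀ a ∈ Lg, T < nr (g a)) ∧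
        ∏ a, nr (g a) ≤ Y) := fun h => hA h.2.2.1
    rw [if_neg hA, if_neg hB', mul_zero]

private theorem xmn_final {A Y L e f : ℝ} (hA : 0 ≤ A) (hY : 0 ≤ Y) (hL : 1 ≤ L)
    (hef : e ≤ f) : A * Y * L ^ e ≤ A * Y * L ^ f :=
  mul_le_mul_of_nonneg_left (Real.rpow_le_rpow_of_exponent_le hL hef) (by positivity)

/-- the coefficient of a pair `Lg, s` -/
private def xmn_c [NeZero p] (Lg : Finset (JT p (p ^ e))) (s : JT p (p ^ e) → Finset (Pl K)) : ℂ :=
  1 - ∑ S ∈ MM p (p ^ e), if Lg ⊆ S ∧ (∀ a, a ∉ S → s a = ∅) then 1 else 0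

private theorem xmn_c_le [NeZero p] (Lg : Finset (JT p (p ^ e)))
    (s : JT p (p ^ e) → Finset (Pl K)) : ‖xmn_c Lg s‖ ≤ 1 + (MM p (p ^ e)).card := by
  unfold xmn_c
  refine (norm_sub_le _ _).trans ?_
  rw [norm_one]
  refine add_le_add le_rfl ((norm_sum_le _ _).trans ?_)
  refine (Finset.sum_le_card_nsmul _ _ 1 fun S _ => ?_).trans ?_
  · split_ifs
    · rw [norm_one]
    · rw [norm_zero]
      exact zero_le_one
  · rw [nsmul_eq_mul, mul_one]

private theorem xmn_split [NeZero p] (D : RD0 K p ζ) (d : Fin e → Kˣ) (u : Kˣ)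
    (κ : JT p (p ^ e) → Fin D.r → ZMod p) {Y T : ℝ} (hT1 : 1 ≤ T) (hTY : T ≤ Y) :
    FX D d u κ Y (fun _ => True) -
        ∑ S ∈ MM p (p ^ e), FX D d u κ Y (fun g => ∀ a, a ∉ S → g a = ∅) =
      ∑ Lg : Finset (JT p (p ^ e)),
        ∑ s ∈ Fintype.piFinset (fun a => if a ∈ Lg then {∅} else GF D T),
          xmn_c Lg s * TW D (PX p e) (bX u d) ∅ (WX D u d κ) Y T Lg s := by
  have h1 : FX D d u κ Y (fun _ => True) =
      FX D d u κ Y (fun g => ∀ a, a ∉ (Finset.univ : Finset (JT p (p ^ e))) → g a = ∅) := by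
    congr 1
    funext g
    refine propext ⟨fun _ a ha => absurd (Finset.mem_univ a) ha, fun _ => trivial⟩
  rw [h1, xmn_dec D d u κ Finset.univ hT1 hTY,
    Finset.sum_congr rfl fun S _ => xmn_dec D d u κ S hT1 hTY, Finset.sum_comm,
    ← Finset.sum_sub_distrib]
  refine Finset.sum_congr rfl fun Lg _ => ?_
  rw [Finset.sum_comm, ← Finset.sum_sub_distrib]
  refine Finset.sum_congr rfl fun s _ => ?_
  rw [if_pos ⟨Finset.subset_univ _, fun a ha => absurd (Finset.mem_univ a) ha⟩]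
  unfold xmn_c
  rw [sub_mul, Finset.sum_mul]

theorem xmn [NeZero p] (hp : p.Prime) (hζ : IsPrimitiveRoot ζ p) (D : RD K p ζ)
    {d : Fin e → Kˣ} {𝒦 : Submodule (ZMod p) (Fin D.r → ZMod p)} (hK : DK D.toRD0 e d 𝒦) :
    ∃ C δ Y₀ : ℝ, 0 < C ∧ 0 < δ ∧ δ ≤ 1 / 2 ∧ 9 ≤ Y₀ ∧ ∀ u : Kˣ,
      (∀ v, v ∉ D.S0 → ord v u = 0) → ∀ (κ : JT p (p ^ e) → Fin D.r → ZMod p) (Y : ℝ), Y₀ ≤ Y →
        ‖FX D.toRD0 d u κ Y (fun _ => True) -
            ∑ S ∈ MM p (p ^ e), FX D.toRD0 d u κ Y (fun g => ∀ a, a ∉ S → g a = ∅)‖ ≤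
          C * Y * Real.log Y ^ ((p : ℝ) - 2 - δ) := by
  set n : ℕ := Fintype.card (JT p (p ^ e)) with hn
  have hp0 : 0 < p := hp.pos
  have hpr : (2 : ℝ) ≤ p := by exact_mod_cast hp.two_le
  obtain ⟨q, hqd⟩ : ∃ q : Fin (p - 1) → ℕ, q = fun _ => p * p ^ e := ⟨_, rfl⟩
  obtain ⟨Δ, hΔd⟩ : ∃ Δ : Fin (p - 1) → Submodule (ZMod p) (Fin (e + 2) → ZMod p),
    Δ = fun _ => DX p e := ⟨_, rfl⟩
  have hq0 : ∀ i, 0 < q i := fun i => by rw [hqd]; positivity
  have hq : ∀ i, Nat.card (Δ i) ≤ q i := fun i => by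
    rw [hqd, hΔd]
    simp only
    rw [xom_c]
    exact Nat.le_mul_of_pos_left _ hp0
  obtain ⟨κ0, hκ0d⟩ : ∃ κ0 : ℝ, κ0 = 1 / ((p : ℝ) * (p : ℝ) ^ e) := ⟨_, rfl⟩
  have hκ0 : 0 < κ0 := by rw [hκ0d]; positivity
  have hcardS : (((Finset.univ : Finset (Fin (p - 1))).card : ℕ) : ℝ) = (p : ℝ) - 1 := by
    rw [Finset.card_univ, Fintype.card_fin, Nat.cast_sub hp.one_le, Nat.cast_one]
  -- constants
  obtain ⟨B, X₀, hX₀, hkp⟩ := kpaW hp hζ D (PX p e) 3
  obtain ⟨CA, hCA, hblka⟩ := xblka hp hζ D (PX p e) (tyX p (p ^ e)) q Δ hq0 hq 1 one_pos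
  obtain ⟨CS, δ0, Ys, hCS, hδ0, hYs, hblks⟩ := xblks hp hζ D (PX p e) (tyX p (p ^ e)) q Δ hq0 hq B
    1 one_pos
  obtain ⟨CT, hCT, hthr⟩ := thr_sum K (JT p (p ^ e))
  set ε : ℝ := min (δ0 / 2) (min (1 / 2) (κ0 / 2)) with hε
  have hε0 : 0 < ε := lt_min (by linarith) (lt_min (by norm_num) (by linarith))
  have hε1 : ε ≤ δ0 / 2 := min_le_left _ _
  have hε2 : ε ≤ 1 / 2 := (min_le_right _ _).trans (min_le_left _ _)
  have hε3 : ε ≤ κ0 / 2 := (min_le_right _ _).trans (min_le_right _ _)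
  obtain ⟨Y₁, hY₁, hnum⟩ := num B (n + 1) ε hε0
  obtain ⟨M1, hM1d⟩ : ∃ M1 : ℝ, M1 = 1 + (MM p (p ^ e)).card := ⟨_, rfl⟩
  have hM1 : 1 ≤ M1 := by
    rw [hM1d]
    have : (0 : ℝ) ≤ (MM p (p ^ e)).card := Nat.cast_nonneg _
    linarith
  have hM10 : 0 < M1 := by linarith
  have hCT0 : 0 < CT := by linarith
  set CC : ℝ := M1 * CT + M1 * CA * CT + M1 * CS * CT with hCC
  have hCC0 : 0 < CC := by positivity
  refine ⟨(Fintype.card (Finset (JT p (p ^ e))) : ℝ) * CC, ε, max (max Y₁ X₀) Ys, ?_, hε0, hε2,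
    le_max_of_le_left (le_max_of_le_left hY₁), ?_⟩
  · have : 0 < (Fintype.card (Finset (JT p (p ^ e))) : ℝ) := by
      exact_mod_cast Fintype.card_pos
    positivity
  intro u hu κ Y hY
  obtain ⟨b, hbd⟩ : ∃ b : Fin (e + 2) → Kˣ, b = bX u d := ⟨_, rfl⟩
  have hb : BS2 D.toRD0 b ∅ := by rw [hbd]; exact xom_b D.toRD0 hK u hu
  have hInb : Inb p Δ b := by rw [hbd, hΔd]; exact xom_i hp D.toRD0 hK u
  have hWX : WX D.toRD0 u d κ = WK D.toRD0 q Δ b (tyX p (p ^ e)) κ := by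
    rw [hbd, hΔd, hqd]
    rfl
  have hYY₁ : Y₁ ≤ Y := (le_max_left _ _).trans ((le_max_left _ _).trans hY)
  have hYX₀ : X₀ ≤ Y := (le_max_right _ _).trans ((le_max_left _ _).trans hY)
  have hYYs : Ys ≤ Y := (le_max_right _ _).trans hY
  have hY9 : 9 ≤ Y := hY₁.trans hYY₁
  have hY1 : 1 ≤ Y := by linarith
  have hY0 : 0 < Y := by linarith
  obtain ⟨hL1, hLTn', hTn'⟩ := hnum Y hYY₁
  set L : ℝ := Real.log Y with hL
  have hL0 : 0 < L := by linarith
  set T : ℝ := L ^ B with hT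
  have hT1 : 1 ≤ T := one_le_pow₀ hL1
  set LT : ℝ := 1 + Real.log T with hLT
  have hLT1 : 1 ≤ LT := by
    have := Real.log_nonneg hT1
    linarith
  have hLTn : LT ^ n ≤ L ^ ε := (pow_le_pow_right₀ hLT1 (by omega)).trans hLTn'
  have hTn : T ^ n ≤ Y ^ (1 / 8 : ℝ) := (pow_le_pow_right₀ hT1 (by omega)).trans hTn'
  have hTn2 : T ^ n ≤ Y ^ (1 / 2 : ℝ) :=
    hTn.trans (Real.rpow_le_rpow_of_exponent_le hY1 (by norm_num))
  have hTY : T ≤ Y := by
    calc T ≤ T ^ (n + 1) := le_self_pow₀ hT1 (by omega)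
      _ ≤ Y ^ (1 / 8 : ℝ) := hTn'
      _ ≤ Y ^ (1 : ℝ) := Real.rpow_le_rpow_of_exponent_le hY1 (by norm_num)
      _ = Y := Real.rpow_one Y
  rw [xmn_split D.toRD0 d u κ hT1 hTY, hWX, ← hbd]
  have hEη : nr (∅ : Finset (Pl K)) ^ (1 : ℝ) = 1 := by rw [xmn_nr_empty, Real.one_rpow]
  -- one set of large variables
  have hone : ∀ Lg : Finset (JT p (p ^ e)),
      ‖∑ s ∈ Fintype.piFinset (fun a => if a ∈ Lg then {∅} else GF D.toRD0 T),
        xmn_c Lg s * TW D.toRD0 (PX p e) b ∅ (WK D.toRD0 q Δ b (tyX p (p ^ e)) κ) Y T Lg s‖ ≤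
        CC * Y * L ^ ((p : ℝ) - 2 - ε) := by
    intro Lg
    have hLf0 : 0 ≤ L ^ ((p : ℝ) - 2 - ε) := Real.rpow_nonneg hL0.le _
    set SS := Fintype.piFinset (fun a => if a ∈ Lg then {∅} else GF D.toRD0 T) with hSS
    have hSm : ∀ s ∈ SS, (∀ l ∈ Lg, s l = ∅) ∧
        ∀ l, l ∉ Lg → (∀ v ∈ s l, D.toRD0.Gd v) ∧ nr (s l) ≤ T := by
      intro s hs
      rw [hSS, Fintype.mem_piFinset] at hs
      refine ⟨fun l hl => ?_, fun l hl => ?_⟩
      · have := hs l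
        rwa [if_pos hl, Finset.mem_singleton] at this
      · have := hs l
        rw [if_neg hl, xmn_mem_GF] at this
        exact ⟨this.2, this.1⟩
    have hsn : ∀ s ∈ SS, sn Lg s ≤ T ^ n := fun s hs =>
      blks_sn_le Lg s T hT1 fun l hl => ((hSm s hs).2 l hl).2
    have hsum : ∑ s ∈ SS, (sn Lg s)⁻¹ ≤ CT * LT ^ n := hthr p ζ D.toRD0 T Lg hT1
    have hsum2 : ∑ s ∈ SS, (sn Lg s)⁻¹ ≤ CT * L ^ ε :=
      hsum.trans (mul_le_mul_of_nonneg_left hLTn hCT0.le)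
    obtain ⟨W, hWd⟩ : ∃ W : JT p (p ^ e) → Finset (Pl K) → ℂ,
      W = WK D.toRD0 q Δ b (tyX p (p ^ e)) κ := ⟨_, rfl⟩
    have hW1 : ∀ a n, ‖W a n‖ ≤ ∏ v ∈ n, om D.toRD0 q Δ b (tyX p (p ^ e) a) v := fun a n => by
      rw [hWd]
      exact (xwk_le D.toRD0 (tyX p (p ^ e)) q Δ hq0 hq b κ a n).1
    have hW2 : ∀ a n, ‖W a n‖ ≤ 1 := fun a n => by
      rw [hWd]
      exact (xwk_le D.toRD0 (tyX p (p ^ e)) q Δ hq0 hq b κ a n).2
    rw [← hWd]
    have htw1 : ∀ s, ‖xmn_c Lg s * TW D.toRD0 (PX p e) b ∅ W Y T Lg s‖ ≤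
        M1 * ‖TW D.toRD0 (PX p e) b ∅ W Y T Lg s‖ := by
      intro s
      rw [norm_mul, hM1d]
      exact mul_le_mul_of_nonneg_right (xmn_c_le Lg s) (norm_nonneg _)
    refine (norm_sum_le _ _).trans ?_
    by_cases hlk : ∃ a ∈ Lg, ∃ a' ∈ Lg, (PX p e).lk a a' ≠ 0
    · -- (a)
      have h1 : ∀ s ∈ SS, ‖xmn_c Lg s * TW D.toRD0 (PX p e) b ∅ W Y T Lg s‖ ≤
          (M1 * Y * L ^ (-3 : ℝ)) * (sn Lg s)⁻¹ := by
        intro s hs
        have h2 := hkp Y T hYX₀ le_rfl b ∅ Lg s (fun l hl => ((hSm s hs).2 l hl).1) W hW2 hlk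
        refine (htw1 s).trans ((mul_le_mul_of_nonneg_left h2 hM10.le).trans (le_of_eq ?_))
        rw [div_eq_mul_inv]
        ring
      refine (Finset.sum_le_sum h1).trans ?_
      rw [← Finset.mul_sum]
      have h3 : 0 ≤ L ^ (-3 : ℝ) := Real.rpow_nonneg hL0.le _
      calc M1 * Y * L ^ (-3 : ℝ) * ∑ s ∈ SS, (sn Lg s)⁻¹
          ≤ M1 * Y * L ^ (-3 : ℝ) * (CT * L ^ ε) :=
            mul_le_mul_of_nonneg_left hsum2 (by positivity)
        _ = (M1 * CT) * Y * L ^ (-3 + ε) := by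
            rw [Real.rpow_add hL0]
            ring
        _ ≤ (M1 * CT) * Y * L ^ ((p : ℝ) - 2 - ε) :=
            xmn_final (by positivity) hY0.le hL1 (by linarith)
        _ ≤ CC * Y * L ^ ((p : ℝ) - 2 - ε) := by
            have : M1 * CT ≤ CC := by
              rw [hCC]
              have h5 : 0 ≤ M1 * CA * CT := by positivity
              have h6 : 0 ≤ M1 * CS * CT := by positivity
              linarith
            gcongr
    · -- (b)
      have hun : ∀ a ∈ Lg, ∀ a' ∈ Lg, (PX p e).lk a a' = 0 := by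
        intro a ha a' ha'
        by_contra h
        exact hlk ⟨a, ha, a', ha', h⟩
      obtain ⟨S, hS, hLS⟩ := xcmb1 hp Lg hun
      by_cases hne : Lg = S
      swap
      · -- (b1)
        have hγ := ((xcmb5 hp Lg).2 S hS).1 hLS hne
        rw [← hqd, ← hκ0d] at hγ
        have hA : ∀ s ∈ SS, ‖xmn_c Lg s * TW D.toRD0 (PX p e) b ∅ W Y T Lg s‖ ≤
            (M1 * CA * Y * L ^ ((p : ℝ) - 2 - κ0)) * (sn Lg s)⁻¹ := by
          intro s hs
          have h2 := hblka b ∅ hb hInb W hW1 Lg s Y T hY9 ((hsn s hs).trans hTn2)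
          rw [hEη, mul_one] at h2
          have h3 : L ^ (mwt q (tyX p (p ^ e)) Lg - 1) ≤ L ^ ((p : ℝ) - 2 - κ0) :=
            Real.rpow_le_rpow_of_exponent_le hL1 (by linarith)
          have h4 := aks_sn_pos Lg s
          have h5 : CA * (Y / sn Lg s) * L ^ (mwt q (tyX p (p ^ e)) Lg - 1) ≤
              CA * (Y / sn Lg s) * L ^ ((p : ℝ) - 2 - κ0) :=
            mul_le_mul_of_nonneg_left h3 (by positivity)
          refine (htw1 s).trans ((mul_le_mul_of_nonneg_left (h2.trans h5) hM10.le).trans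
            (le_of_eq ?_))
          rw [div_eq_mul_inv]
          ring
        refine (Finset.sum_le_sum hA).trans ?_
        rw [← Finset.mul_sum]
        have h3 : 0 ≤ L ^ ((p : ℝ) - 2 - κ0) := Real.rpow_nonneg hL0.le _
        calc M1 * CA * Y * L ^ ((p : ℝ) - 2 - κ0) * ∑ s ∈ SS, (sn Lg s)⁻¹
            ≤ M1 * CA * Y * L ^ ((p : ℝ) - 2 - κ0) * (CT * L ^ ε) :=
              mul_le_mul_of_nonneg_left hsum2 (by positivity)
          _ = (M1 * CA * CT) * Y * L ^ ((p : ℝ) - 2 - κ0 + ε) := by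
              rw [Real.rpow_add hL0]
              ring
          _ ≤ (M1 * CA * CT) * Y * L ^ ((p : ℝ) - 2 - ε) :=
              xmn_final (by positivity) hY0.le hL1 (by linarith)
          _ ≤ CC * Y * L ^ ((p : ℝ) - 2 - ε) := by
              have : M1 * CA * CT ≤ CC := by
                rw [hCC]
                have h5 : 0 ≤ M1 * CT := by positivity
                have h6 : 0 ≤ M1 * CS * CT := by positivity
                linarith
              gcongr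
      · -- (b2)
        have hSL : Lg ∈ MM p (p ^ e) := by rw [hne]; exact hS
        have hB : ∀ s ∈ SS, ‖xmn_c Lg s * TW D.toRD0 (PX p e) b ∅ W Y T Lg s‖ ≤
            (M1 * CS * Y * L ^ ((p : ℝ) - 2 - δ0)) * (sn Lg s)⁻¹ := by
          intro s hs
          have hsp := aks_sn_pos Lg s
          have h3 : 0 ≤ L ^ ((p : ℝ) - 2 - δ0) := Real.rpow_nonneg hL0.le _
          by_cases h0 : ∀ l, s l = ∅
          · have hc : xmn_c Lg s = 0 := by
              unfold xmn_c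
              rw [Finset.sum_eq_single Lg]
              · rw [if_pos ⟨Finset.Subset.refl _, fun a _ => h0 a⟩, sub_self]
              · intro S' hS' hne'
                rw [if_neg]
                rintro ⟨h5, -⟩
                exact hne' (xcmb4 hp Lg S' hSL hS' h5).symm
              · intro h
                exact absurd hSL h
            rw [hc, zero_mul, norm_zero]
            positivity
          · rw [not_forall] at h0
            obtain ⟨l, hl⟩ := h0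
            have hlL : l ∉ Lg := fun h => hl ((hSm s hs).1 l h)
            obtain ⟨a, ha, hal⟩ := (xcmb2 hp Lg hSL).2 l hlL
            have h6 := hblks b ∅ hb hInb κ Finset.univ Lg s Y hYYs (hSm s hs).2 hun
              (fun a _ => Finset.mem_univ _) (fun i _ => by
                rw [hqd]
                exact xcmb3 hp Lg hSL i) ⟨a, ha, l, hlL, hl, hal⟩
            rw [hEη, mul_one, hcardS, ← hWd] at h6
            refine (htw1 s).trans ((mul_le_mul_of_nonneg_left h6 hM10.le).trans (le_of_eq ?_))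
            have h7 : (p : ℝ) - 1 - 1 - δ0 = (p : ℝ) - 2 - δ0 := by ring
            rw [h7, div_eq_mul_inv]
            ring
        refine (Finset.sum_le_sum hB).trans ?_
        rw [← Finset.mul_sum]
        have h3 : 0 ≤ L ^ ((p : ℝ) - 2 - δ0) := Real.rpow_nonneg hL0.le _
        calc M1 * CS * Y * L ^ ((p : ℝ) - 2 - δ0) * ∑ s ∈ SS, (sn Lg s)⁻¹
            ≤ M1 * CS * Y * L ^ ((p : ℝ) - 2 - δ0) * (CT * L ^ ε) :=
              mul_le_mul_of_nonneg_left hsum2 (by positivity)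
          _ = (M1 * CS * CT) * Y * L ^ ((p : ℝ) - 2 - δ0 + ε) := by
              rw [Real.rpow_add hL0]
              ring
          _ ≤ (M1 * CS * CT) * Y * L ^ ((p : ℝ) - 2 - ε) :=
              xmn_final (by positivity) hY0.le hL1 (by linarith)
          _ ≤ CC * Y * L ^ ((p : ℝ) - 2 - ε) := by
              have : M1 * CS * CT ≤ CC := by
                rw [hCC]
                have h5 : 0 ≤ M1 * CT := by positivity
                have h6 : 0 ≤ M1 * CA * CT := by positivity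
                linarith
              gcongr
  refine (norm_sum_le_of_le _ fun Lg _ => hone Lg).trans ?_
  rw [Finset.sum_const, Finset.card_univ, nsmul_eq_mul]
  refine le_of_eq ?_
  ring

end H83.LX
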