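import Pool.Agent.H63.MA.ALem
import Pool.Agent.H83.LX.XOM
import Pool.Agent.H83.LX.XFAM
import Pool.Agent.H83.LW.RELC
import Pool.Agent.H83.LW.BFORM

/-!
# [H83 LX XMOM] the first moment of the number of relations (80-130 lines; compare MONEW, MONEB in H83/LW)

For `i ∈ XY` (all primes of the support good): `relc` (`H83/LW/RELC`):
`#Rl(i) * (#U p^{#supp}) = ∑_j ∑_k ∑_u ep(∑_{v ∈ supp} k v B v (xx i) (F u xx j))`, `j, k ∈ XF p i.support`. And
`p^r [cl i = 0] = ∑_κ ep(dt κ (cl i))` (`alem_orth` in `H63/MA/ALem`). So the left side is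
`∑_{i, nr supp ≤ Y} ∑_j ∑_k (p^e)^{#supp} ∏_{v ∈ supp} c v * ∑_κ ∑_u ep(dt κ (cl i)) ep(∑ k v B v (xx i) (F u xx j))`,
`c v = if ∀ κ ∈ 𝒦, dt κ (q v) = 0 then (p : ℂ)⁻¹ else 0` (the product of the `c v` is `p^{-#supp}` if all `v` are orthogonal to `𝒦`, and `0`
otherwise). By `xfam` (`ϖ = p^e`) this is a sum over the families `g`; for a family `g ∈ piFinset (GF D Y)` with `Dj g` (good primes):
`∏_a ∏_{v ∈ g a} c v * ep(dt κ (cl (ig g))) = ∏_a WX a (g a)` for `κ a = a.i • κ` (`WX = WK = WO * ep`, `WO a n = ∏_{v ∈ n} om (tyX a) v`,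
`xom_v`; `cl (ig g) = ∑_a a.i • qf (g a)`, see `ROWB`), and `∑ k v B … = ph D (PJ …) ![1, F u] g = ph D (PX …) (bX (F u) d) g`
(`bph` in `H83/LW/BFORM`, `xom_ph`; `F u` has order `0` outside `S0`: `hU.mem`).
-/

set_option autoImplicit false

open scoped NumberField
open IsDedekindDomain
open scoped Classical

noncomputable section

namespace H83.LX

open H63.MA H38.BB H77.AB H77.GN H83.LW

variable {K : Type} [Field K] [NumberField K] {p : ℕ} {ζ : K} {e : ℕ}

private theorem xmm_apply {J : Type} [Fintype J] (g : J → Finset (Pl K)) (hd : Dj g)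
    (c : J → ZMod p) {a : J} {v : Pl K} (hv : v ∈ g a) :
    (∑ a, ∑ v ∈ g a, Finsupp.single v (c a)) v = c a := by
  rw [Finsupp.finsetSum_apply, Finset.sum_eq_single a]
  · rw [Finsupp.finsetSum_apply, Finset.sum_eq_single v]
    · rw [Finsupp.single_apply, if_pos rfl]
    · intro w _ hw
      rw [Finsupp.single_apply, if_neg hw]
    · intro h
      exact absurd hv h
  · intro a' _ ha'
    rw [Finsupp.finsetSum_apply]
    refine Finset.sum_eq_zero fun w hw => ?_
    rw [Finsupp.single_apply, if_neg]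
    rintro rfl
    exact Finset.disjoint_left.1 (hd a' a ha') hw hv
  · intro h
    exact absurd (Finset.mem_univ _) h

private theorem xmm_zero {J : Type} [Fintype J] (g : J → Finset (Pl K))
    (c : J → ZMod p) {v : Pl K} (hv : v ∉ Finset.univ.biUnion g) :
    (∑ a, ∑ v ∈ g a, Finsupp.single v (c a)) v = 0 := by
  rw [Finsupp.finsetSum_apply]
  refine Finset.sum_eq_zero fun a _ => ?_
  rw [Finsupp.finsetSum_apply]
  refine Finset.sum_eq_zero fun w hw => ?_
  rw [Finsupp.single_apply, if_neg]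
  rintro rfl
  exact hv (Finset.mem_biUnion.2 ⟨a, Finset.mem_univ _, hw⟩)

private theorem xmm_supp {J : Type} [Fintype J] (g : J → Finset (Pl K)) (c : J → ZMod p) :
    (∑ a, ∑ v ∈ g a, Finsupp.single v (c a)).support ⊆ Finset.univ.biUnion g := by
  intro v hv
  by_contra h
  exact (Finsupp.mem_support_iff.1 hv) (xmm_zero g c h)

private theorem xmm_sum {M : Type} [AddCommMonoid M] {J : Type} [Fintype J]
    (g : J → Finset (Pl K)) (hd : Dj g)
    (c : J → ZMod p) (Φ : Pl K → ZMod p → M) (h0 : ∀ v, Φ v 0 = 0) :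
    ∑ v ∈ (∑ a, ∑ v ∈ g a, Finsupp.single v (c a)).support,
        Φ v ((∑ a, ∑ v ∈ g a, Finsupp.single v (c a)) v) =
      ∑ a, ∑ v ∈ g a, Φ v (c a) := by
  rw [Finset.sum_subset (xmm_supp g c) (fun v _ hv => by
    rw [Finsupp.notMem_support_iff.1 hv, h0]), Finset.sum_biUnion (fun l _ l' _ h => hd l l' h)]
  refine Finset.sum_congr rfl fun a _ => Finset.sum_congr rfl fun v hv => ?_
  rw [xmm_apply g hd c hv]

/-- the class characters -/
private theorem xmm_cl [NeZero p] {ϖ : ℕ} (D : RD0 K p ζ) (g : JT p ϖ → Finset (Pl K))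
    (hd : Dj g) (κ : Fin D.r → ZMod p) :
    ∑ a : JT p ϖ, dt ((a.i : ZMod p) • κ) (qf D (g a)) = dt κ (cl D (ig g)) := by
  have h1 : cl D (ig g) = ∑ a : JT p ϖ, (a.i : ZMod p) • qf D (g a) := by
    unfold cl
    have := xmm_sum g hd (fun a : JT p ϖ => (a.i : ZMod p)) (fun v c => c • D.q v)
      (fun v => zero_smul _ _)
    refine this.trans (Finset.sum_congr rfl fun a _ => ?_)
    unfold qf
    rw [Finset.smul_sum]
  rw [h1]
  unfold dt
  simp only [Finset.sum_apply, Pi.smul_apply, smul_eq_mul, Finset.mul_sum]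
  rw [Finset.sum_comm]
  refine Finset.sum_congr rfl fun k _ => Finset.sum_congr rfl fun a _ => ?_
  ring

private theorem xmm_ep [NeZero p] (hp : p.Prime) {ι : Type} (s : Finset ι) (f : ι → ZMod p) :
    ep p (∑ a ∈ s, f a) = ∏ a ∈ s, ep p (f a) := by
  induction s using Finset.induction_on with
  | empty => rw [Finset.prod_empty, Finset.sum_empty, ep_zero]
  | insert a s ha ih => rw [Finset.prod_insert ha, Finset.sum_insert ha, ep_add hp, ih]

theorem xmom [NeZero p] (hp : p.Prime) (hζ : IsPrimitiveRoot ζ p) (D : RD0 K p ζ) {d : Fin e → Kˣ}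
    {𝒦 : Submodule (ZMod p) (Fin D.r → ZMod p)} (hK : DK D e d 𝒦) {U : Type} [CommGroup U]
    [Fintype U] (F : U → Kˣ) (hU : UR D U F) (Y : ℝ) :
    ((∑ i ∈ XY D 𝒦 Y, ((p : ℝ) ^ e) ^ i.support.card * ((Rl D i).card : ℝ) : ℝ) : ℂ) *
        ((Fintype.card U : ℂ) * (p : ℂ) ^ D.r) =
      ∑ κ : Fin D.r → ZMod p, ∑ u : U,
        FX D d (F u) (fun a => (a.i : ZMod p) • κ) Y (fun _ => True) := by
  obtain ⟨c, hc⟩ : ∃ c : Pl K → ℂ,
    c = fun v => if ∀ κ ∈ 𝒦, dt κ (D.q v) = 0 then (p : ℂ)⁻¹ else 0 := ⟨_, rfl⟩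
  have hp0 : (p : ℂ) ≠ 0 := by exact_mod_cast hp.ne_zero
  -- one inner sum
  have h1 : ∀ (u : U) (κ : Fin D.r → ZMod p),
      FX D d (F u) (fun a => (a.i : ZMod p) • κ) Y (fun _ => True) =
      ∑ i ∈ (XF p (gdY D Y)).filter (fun i => nr i.support ≤ Y), ∑ j ∈ XF p i.support,
        ∑ k ∈ XF p i.support, (((p ^ e : ℕ) : ℂ) ^ i.support.card * ∏ v ∈ i.support, c v) *
        (ep p (∑ v ∈ i.support, k v * B p ζ v (xx D i) (F u * xx D j)) *
          ep p (dt κ (cl D i))) := by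
    intro u κ
    rw [← xfam hp (p ^ e) D Y c (fun i j k =>
      ep p (∑ v ∈ i.support, k v * B p ζ v (xx D i) (F u * xx D j)) * ep p (dt κ (cl D i)))]
    unfold FX
    refine Finset.sum_congr rfl fun g hg => ?_
    rw [Fintype.mem_piFinset] at hg
    have hgd : ∀ a, ∀ v ∈ g a, D.Gd v := fun a v hv => (rx_mem_GF.1 (hg a)).2 v hv
    by_cases hd : Dj g ∧ ∏ a, nr (g a) ≤ Y
    · rw [if_pos ⟨hd.1, hd.2, trivial⟩, if_pos hd]
      have e1 : ∏ a, WX D (F u) d (fun a => (a.i : ZMod p) • κ) a (g a) =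
          (∏ a, ∏ v ∈ g a, c v) * ep p (dt κ (cl D (ig g))) := by
        rw [← xmm_cl D g hd.1 κ, xmm_ep hp, ← Finset.prod_mul_distrib]
        refine Finset.prod_congr rfl fun a _ => ?_
        unfold WX WK WO
        congr 1
        rw [Complex.ofReal_prod]
        refine Finset.prod_congr rfl fun v hv => ?_
        rw [xom_v hp D hK (F u) (tyX p (p ^ e) a) v (hgd a v hv), hc]
        by_cases h : ∀ κ ∈ 𝒦, dt κ (D.q v) = 0
        · simp only [if_pos h]
          push_cast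
          rfl
        · simp only [if_neg h]
          push_cast
          rfl
      rw [e1, xom_ph, bph hp hζ D g hgd hd.1 (F u) (hU.mem u)]
      ring
    · rw [if_neg (fun h => hd ⟨h.1, h.2.1⟩), if_neg hd]
  have h2 : ∀ i ∈ (XF p (gdY D Y)).filter (fun i => nr i.support ≤ Y),
      ∑ κ : Fin D.r → ZMod p, ∑ u : U,
      ∑ j ∈ XF p i.support, ∑ k ∈ XF p i.support,
        (((p ^ e : ℕ) : ℂ) ^ i.support.card * ∏ v ∈ i.support, c v) *
        (ep p (∑ v ∈ i.support, k v * B p ζ v (xx D i) (F u * xx D j)) *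
          ep p (dt κ (cl D i))) =
      if cl D i = 0 ∧ ∀ v ∈ i.support, ∀ κ ∈ 𝒦, dt κ (D.q v) = 0 then
        ((((p : ℝ) ^ e) ^ i.support.card * ((Rl D i).card : ℝ) : ℝ) : ℂ) *
          ((Fintype.card U : ℂ) * (p : ℂ) ^ D.r) else 0 := by
    intro i hi
    have hiG : ∀ v ∈ i.support, D.Gd v := fun v hv =>
      (mer_mem.1 (mem_XF.1 (Finset.mem_filter.1 hi).1 hv)).2
    have e1 : ∑ κ : Fin D.r → ZMod p, ∑ u : U,
        ∑ j ∈ XF p i.support, ∑ k ∈ XF p i.support,
        (((p ^ e : ℕ) : ℂ) ^ i.support.card * ∏ v ∈ i.support, c v) *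
        (ep p (∑ v ∈ i.support, k v * B p ζ v (xx D i) (F u * xx D j)) *
          ep p (dt κ (cl D i))) =
        (((p ^ e : ℕ) : ℂ) ^ i.support.card * ∏ v ∈ i.support, c v) *
          (∑ κ : Fin D.r → ZMod p, ep p (dt κ (cl D i))) *
          ∑ j ∈ XF p i.support, ∑ k ∈ XF p i.support, ∑ u : U,
            ep p (∑ v ∈ i.support, k v * B p ζ v (xx D i) (F u * xx D j)) := by
      rw [mul_assoc, Finset.sum_mul, Finset.mul_sum]
      refine Finset.sum_congr rfl fun κ _ => ?_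
      rw [Finset.sum_comm, Finset.mul_sum, Finset.mul_sum]
      refine Finset.sum_congr rfl fun j _ => ?_
      rw [Finset.sum_comm, Finset.mul_sum, Finset.mul_sum]
      refine Finset.sum_congr rfl fun k _ => ?_
      rw [Finset.mul_sum, Finset.mul_sum]
      refine Finset.sum_congr rfl fun u _ => ?_
      ring
    rw [e1, alem_orth hp, ← relc hp hζ D F hU i hiG]
    by_cases h0 : cl D i = 0
    · rw [if_pos h0]
      by_cases h3 : ∀ v ∈ i.support, ∀ κ ∈ 𝒦, dt κ (D.q v) = 0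
      · rw [if_pos ⟨h0, h3⟩]
        have e2 : ∏ v ∈ i.support, c v = ((p : ℂ) ^ i.support.card)⁻¹ := by
          rw [← inv_pow, ← Finset.prod_const]
          refine Finset.prod_congr rfl fun v hv => ?_
          rw [hc]
          exact if_pos (h3 v hv)
        rw [e2]
        have hpn : (p : ℂ) ^ i.support.card ≠ 0 := pow_ne_zero _ hp0
        push_cast
        field_simp
      · rw [if_neg (fun h => h3 h.2)]
        have e2 : ∏ v ∈ i.support, c v = 0 := by
          rw [not_forall] at h3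
          obtain ⟨v, hv⟩ := h3
          rw [Classical.not_imp] at hv
          refine Finset.prod_eq_zero hv.1 ?_
          rw [hc]
          exact if_neg hv.2
        rw [e2]
        ring
    · rw [if_neg h0, if_neg (fun h => h0 h.1)]
      ring
  have h3 : ∑ κ : Fin D.r → ZMod p, ∑ u : U,
        FX D d (F u) (fun a => (a.i : ZMod p) • κ) Y (fun _ => True) =
      ∑ i ∈ (XF p (gdY D Y)).filter (fun i => nr i.support ≤ Y),
      ∑ κ : Fin D.r → ZMod p, ∑ u : U,
      ∑ j ∈ XF p i.support, ∑ k ∈ XF p i.support,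
        (((p ^ e : ℕ) : ℂ) ^ i.support.card * ∏ v ∈ i.support, c v) *
        (ep p (∑ v ∈ i.support, k v * B p ζ v (xx D i) (F u * xx D j)) *
          ep p (dt κ (cl D i))) := by
    rw [Finset.sum_congr rfl fun κ _ => Finset.sum_congr rfl fun u _ => h1 u κ,
      Finset.sum_congr rfl fun κ _ => Finset.sum_comm, Finset.sum_comm]
  rw [h3, Finset.sum_congr rfl h2, ← Finset.sum_filter, Finset.filter_filter]
  unfold XY
  push_cast
  rw [Finset.sum_mul]

end H83.LX
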