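import Pool.Agent.H83.LX.XOM
import Pool.Agent.H83.LX.XFAM
import Pool.Agent.H83.LW.ROWB

/-!
# [H83 LX XROW] the rows and the columns, trivial bounds

For a disjoint family `g` of good primes and `κ a = a.i • κ`: `∏_a WX a (g a) = ∏_a ∏_{v ∈ g a} c v * ep(dt κ (cl (ig g)))`,
`c v = if ∀ κ ∈ 𝒦, dt κ (q v) = 0 then p⁻¹ else 0` (`xom_v`). Sum over `κ` (`alem_orth`):
`∑_κ ∏_a WX = p^r [cl (ig g) = 0] ∏ ∏ c v`. So the norm of the left side is at most `p^r` times the sum of `∏ ∏ c v` over the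
disjoint `g` with `∏ nr ≤ Y`, `cl (ig g) = 0` and the support condition; `xfam` transforms it to a sum over the Kummer classes.
-/

set_option autoImplicit false

open scoped NumberField
open IsDedekindDomain
open scoped Classical

noncomputable section

namespace H83.LX

open H63.MA H38.BB H77.AB H77.GN H83.LW

variable {K : Type} [Field K] [NumberField K] {p : ℕ} {ζ : K} {e : ℕ}

private theorem xrw_apply {J : Type} [Fintype J] (g : J → Finset (Pl K)) (hd : Dj g)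
    (c : J → ZMod p) {a : J} {v : Pl K} (hv : v ∈ g a) :
    (∑ a, ∑ v ∈ g a, Finsupp.single v (c a)) v = c a := by
  rw [Finsupp.finsetSum_apply, Finset.sum_eq_single a]
  · rw [Finsupp.finsetSum_apply, Finset.sum_eq_single v]
    · rw [Finsupp.single_apply, if_pos rfl]
    · intro w _ hw
      rw [Finsupp.single_apply, if_neg hw]
    · intro h
      exact absurd hv h
  · intro a' _ ha'
    rw [Finsupp.finsetSum_apply]
    refine Finset.sum_eq_zero fun w hw => ?_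
    rw [Finsupp.single_apply, if_neg]
    rintro rfl
    exact Finset.disjoint_left.1 (hd a' a ha') hw hv
  · intro h
    exact absurd (Finset.mem_univ _) h

private theorem xrw_zero {J : Type} [Fintype J] (g : J → Finset (Pl K))
    (c : J → ZMod p) {v : Pl K} (hv : v ∉ Finset.univ.biUnion g) :
    (∑ a, ∑ v ∈ g a, Finsupp.single v (c a)) v = 0 := by
  rw [Finsupp.finsetSum_apply]
  refine Finset.sum_eq_zero fun a _ => ?_
  rw [Finsupp.finsetSum_apply]
  refine Finset.sum_eq_zero fun w hw => ?_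
  rw [Finsupp.single_apply, if_neg]
  rintro rfl
  exact hv (Finset.mem_biUnion.2 ⟨a, Finset.mem_univ _, hw⟩)

private theorem xrw_supp {J : Type} [Fintype J] (g : J → Finset (Pl K)) (c : J → ZMod p) :
    (∑ a, ∑ v ∈ g a, Finsupp.single v (c a)).support ⊆ Finset.univ.biUnion g := by
  intro v hv
  by_contra h
  exact (Finsupp.mem_support_iff.1 hv) (xrw_zero g c h)

private theorem xrw_sum {M : Type} [AddCommMonoid M] {J : Type} [Fintype J]
    (g : J → Finset (Pl K)) (hd : Dj g)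
    (c : J → ZMod p) (Φ : Pl K → ZMod p → M) (h0 : ∀ v, Φ v 0 = 0) :
    ∑ v ∈ (∑ a, ∑ v ∈ g a, Finsupp.single v (c a)).support,
        Φ v ((∑ a, ∑ v ∈ g a, Finsupp.single v (c a)) v) =
      ∑ a, ∑ v ∈ g a, Φ v (c a) := by
  rw [Finset.sum_subset (xrw_supp g c) (fun v _ hv => by
    rw [Finsupp.notMem_support_iff.1 hv, h0]), Finset.sum_biUnion (fun l _ l' _ h => hd l l' h)]
  refine Finset.sum_congr rfl fun a _ => Finset.sum_congr rfl fun v hv => ?_
  rw [xrw_apply g hd c hv]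

/-- the class characters -/
private theorem xrw_cl [NeZero p] {ϖ : ℕ} (D : RD0 K p ζ) (g : JT p ϖ → Finset (Pl K)) (hd : Dj g)
    (κ : Fin D.r → ZMod p) :
    ∑ a : JT p ϖ, dt ((a.i : ZMod p) • κ) (qf D (g a)) = dt κ (cl D (ig g)) := by
  have h1 : cl D (ig g) = ∑ a : JT p ϖ, (a.i : ZMod p) • qf D (g a) := by
    unfold cl
    have := xrw_sum g hd (fun a : JT p ϖ => (a.i : ZMod p)) (fun v c => c • D.q v)
      (fun v => zero_smul _ _)
    refine this.trans (Finset.sum_congr rfl fun a _ => ?_)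
    unfold qf
    rw [Finset.smul_sum]
  rw [h1]
  unfold dt
  simp only [Finset.sum_apply, Pi.smul_apply, smul_eq_mul, Finset.mul_sum]
  rw [Finset.sum_comm]
  refine Finset.sum_congr rfl fun k _ => Finset.sum_congr rfl fun a _ => ?_
  ring

private theorem xrw_card [NeZero p] (X : Finset (Pl K)) :
    ((XF p X).card : ℝ) = (p : ℝ) ^ X.card := by
  unfold XF
  rw [Finset.card_finsupp, Finset.prod_const, Finset.card_univ, ZMod.card]
  push_cast
  rfl

private theorem xrw_uniq [NeZero p] (X : Finset (Pl K)) (t : Pl K → ZMod p) :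
    ((XF p X).filter fun k => ∀ v ∈ X, k v = t v).card ≤ 1 := by
  refine Finset.card_le_one.2 fun k hk k' hk' => ?_
  rw [Finset.mem_filter, mem_XF] at hk hk'
  ext v
  by_cases hv : v ∈ X
  · rw [hk.2 v hv, hk'.2 v hv]
  · rw [Finsupp.notMem_support_iff.1 fun h => hv (hk.1 h),
      Finsupp.notMem_support_iff.1 fun h => hv (hk'.1 h)]

private theorem xrw_one [NeZero p] (X : Finset (Pl K)) (t : Pl K → ZMod p)
    (P : (Pl K →₀ ZMod p) → Prop) (hP : ∀ k, P k → ∀ v ∈ X, k v = t v) :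
    ∑ k ∈ XF p X, (if P k then (1 : ℝ) else 0) ≤ 1 := by
  rw [← Finset.sum_filter, Finset.sum_const, nsmul_eq_mul, mul_one]
  have h1 : (XF p X).filter P ⊆ (XF p X).filter fun k => ∀ v ∈ X, k v = t v := by
    intro k hk
    rw [Finset.mem_filter] at hk ⊢
    exact ⟨hk.1, hP k hk.2⟩
  exact_mod_cast (Finset.card_le_card h1).trans (xrw_uniq X t)

/-- the weight of a prime -/
private def xc [NeZero p] (D : RD0 K p ζ) (𝒦 : Submodule (ZMod p) (Fin D.r → ZMod p)) (v : Pl K) : ℝ :=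
  if ∀ κ ∈ 𝒦, dt κ (D.q v) = 0 then (p : ℝ)⁻¹ else 0

private theorem xc_nonneg [NeZero p] (D : RD0 K p ζ) (𝒦 : Submodule (ZMod p) (Fin D.r → ZMod p))
    (v : Pl K) : 0 ≤ xc D 𝒦 v := by
  unfold xc
  split_ifs
  · positivity
  · exact le_rfl

private theorem xrw_ep [NeZero p] (hp : p.Prime) {J : Type} [Fintype J] (f : J → ZMod p) :
    ∏ a, ep p (f a) = ep p (∑ a, f a) := by
  have h : ∀ S : Finset J, ∏ a ∈ S, ep p (f a) = ep p (∑ a ∈ S, f a) := by
    intro S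
    induction S using Finset.induction_on with
    | empty => rw [Finset.prod_empty, Finset.sum_empty, ep_zero]
    | insert a S ha ih => rw [Finset.prod_insert ha, Finset.sum_insert ha, ep_add hp, ih]
  exact h Finset.univ

private theorem xrw_WX [NeZero p] (hp : p.Prime) (D : RD0 K p ζ) {d : Fin e → Kˣ}
    {𝒦 : Submodule (ZMod p) (Fin D.r → ZMod p)} (hK : DK D e d 𝒦) (u : Kˣ) {Y : ℝ}
    (g : JT p (p ^ e) → Finset (Pl K)) (hd : Dj g) (hg : ∀ a, g a ∈ GF D Y)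
    (κ : Fin D.r → ZMod p) :
    ∏ a, WX D u d (fun a => (a.i : ZMod p) • κ) a (g a) =
      ((∏ a, ∏ v ∈ g a, xc D 𝒦 v : ℝ) : ℂ) * ep p (dt κ (cl D (ig g))) := by
  unfold WX WK WO
  rw [Finset.prod_mul_distrib, xrw_ep hp, xrw_cl D g hd κ]
  congr 1
  rw [← Complex.ofReal_prod]
  congr 1
  refine Finset.prod_congr rfl fun a _ => Finset.prod_congr rfl fun v hv => ?_
  rw [xom_v hp D hK u _ v ((rx_mem_GF.1 (hg a)).2 v hv)]
  unfold xc
  rfl

private theorem xrw_gen [NeZero p] (hp : p.Prime) (D : RD0 K p ζ) {d : Fin e → Kˣ}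
    {𝒦 : Submodule (ZMod p) (Fin D.r → ZMod p)} (hK : DK D e d 𝒦) (u : Kˣ) (Y : ℝ)
    (C : (JT p (p ^ e) → Finset (Pl K)) → Prop)
    (Q : (Pl K →₀ ZMod p) → (Pl K →₀ ZMod p) → (Pl K →₀ ZMod p) → Prop)
    (hQ : ∀ g, Dj g → C g → Q (ig g) (jg g) (kg g))
    (hcount : ∀ i : Pl K →₀ ZMod p, ∑ j ∈ XF p i.support, ∑ k ∈ XF p i.support,
      (if Q i j k then (1 : ℝ) else 0) ≤ (p : ℝ) ^ i.support.card) :
    ‖∑ κ : Fin D.r → ZMod p, FX D d u (fun a => (a.i : ZMod p) • κ) Y C‖ ≤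
      (p : ℝ) ^ D.r * EX D 𝒦 e Y := by
  have hp0 : (p : ℝ) ≠ 0 := by exact_mod_cast hp.ne_zero
  have h1 : ∑ κ : Fin D.r → ZMod p, FX D d u (fun a => (a.i : ZMod p) • κ) Y C =
      ∑ g ∈ Fintype.piFinset (fun _ : JT p (p ^ e) => GF D Y),
        if Dj g ∧ ∏ a, nr (g a) ≤ Y ∧ C g then
          ((∏ a, ∏ v ∈ g a, xc D 𝒦 v : ℝ) : ℂ) * (ep p (ph D (PX p e) (bX u d) g) *
          (if cl D (ig g) = 0 then (p : ℂ) ^ D.r else 0)) else 0 := by
    unfold FX
    rw [Finset.sum_comm]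
    refine Finset.sum_congr rfl fun g hg => ?_
    by_cases h : Dj g ∧ ∏ a, nr (g a) ≤ Y ∧ C g
    · simp only [if_pos h]
      rw [← alem_orth hp (cl D (ig g)), Finset.mul_sum, Finset.mul_sum]
      refine Finset.sum_congr rfl fun κ _ => ?_
      rw [xrw_WX hp D hK u g h.1 (Fintype.mem_piFinset.1 hg) κ]
      ring
    · simp only [if_neg h]
      exact Finset.sum_const_zero
  have h2 : ∑ g ∈ Fintype.piFinset (fun _ : JT p (p ^ e) => GF D Y),
      (if Dj g ∧ ∏ a, nr (g a) ≤ Y then (∏ a, ∏ v ∈ g a, xc D 𝒦 v) *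
        (if cl D (ig g) = 0 ∧ Q (ig g) (jg g) (kg g) then 1 else 0) else 0) =
      ∑ i ∈ (XF p (gdY D Y)).filter (fun i => nr i.support ≤ Y), ∑ j ∈ XF p i.support,
        ∑ k ∈ XF p i.support,
        (((p ^ e : ℕ) : ℝ) ^ i.support.card * ∏ v ∈ i.support, xc D 𝒦 v) *
          (if cl D i = 0 ∧ Q i j k then 1 else 0) := by
    have h := xfam hp (p ^ e) D Y (fun v => ((xc D 𝒦 v : ℝ) : ℂ))
      (fun i j k => if cl D i = 0 ∧ Q i j k then (1 : ℂ) else 0)
    have e1 : ∀ g : JT p (p ^ e) → Finset (Pl K), (if Dj g ∧ ∏ a, nr (g a) ≤ Y then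
        (∏ a, ∏ v ∈ g a, ((xc D 𝒦 v : ℝ) : ℂ)) *
        (if cl D (ig g) = 0 ∧ Q (ig g) (jg g) (kg g) then (1 : ℂ) else 0) else 0) =
        (((if Dj g ∧ ∏ a, nr (g a) ≤ Y then (∏ a, ∏ v ∈ g a, xc D 𝒦 v) *
          (if cl D (ig g) = 0 ∧ Q (ig g) (jg g) (kg g) then 1 else 0)
          else 0 : ℝ)) : ℂ) := by
      intro g
      split_ifs <;> push_cast <;> rfl
    have e2 : ∀ i j k : Pl K →₀ ZMod p, ((((p ^ e : ℕ) : ℂ) ^ i.support.card *
        ∏ v ∈ i.support, ((xc D 𝒦 v : ℝ) : ℂ)) *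
        (if cl D i = 0 ∧ Q i j k then (1 : ℂ) else 0)) =
        ((((((p ^ e : ℕ) : ℝ) ^ i.support.card * ∏ v ∈ i.support, xc D 𝒦 v) *
          (if cl D i = 0 ∧ Q i j k then 1 else 0) : ℝ)) : ℂ) := by
      intro i j k
      split_ifs <;> push_cast <;> rfl
    simp only [e1, e2] at h
    exact_mod_cast h
  rw [h1]
  refine (norm_sum_le _ _).trans ?_
  have hw0 : ∀ g : JT p (p ^ e) → Finset (Pl K), 0 ≤ ∏ a, ∏ v ∈ g a, xc D 𝒦 v := fun g =>
    Finset.prod_nonneg fun a _ => Finset.prod_nonneg fun v _ => xc_nonneg D 𝒦 v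
  have h3 : ∀ g ∈ Fintype.piFinset (fun _ : JT p (p ^ e) => GF D Y),
      ‖if Dj g ∧ ∏ a, nr (g a) ≤ Y ∧ C g then
          ((∏ a, ∏ v ∈ g a, xc D 𝒦 v : ℝ) : ℂ) * (ep p (ph D (PX p e) (bX u d) g) *
          (if cl D (ig g) = 0 then (p : ℂ) ^ D.r else 0)) else 0‖ ≤
      (p : ℝ) ^ D.r *
      (if Dj g ∧ ∏ a, nr (g a) ≤ Y then (∏ a, ∏ v ∈ g a, xc D 𝒦 v) *
        (if cl D (ig g) = 0 ∧ Q (ig g) (jg g) (kg g) then 1 else 0) else 0) := by
    intro g _
    have hnn : 0 ≤ (p : ℝ) ^ D.r *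
        (if Dj g ∧ ∏ a, nr (g a) ≤ Y then (∏ a, ∏ v ∈ g a, xc D 𝒦 v) *
          (if cl D (ig g) = 0 ∧ Q (ig g) (jg g) (kg g) then 1 else 0) else 0) := by
      have := hw0 g
      split_ifs
      · positivity
      · simp
      · simp
    by_cases h : Dj g ∧ ∏ a, nr (g a) ≤ Y ∧ C g
    · by_cases h0 : cl D (ig g) = 0
      · rw [if_pos h, if_pos h0, if_pos ⟨h.1, h.2.1⟩, if_pos ⟨h0, hQ g h.1 h.2.2⟩, norm_mul,
          norm_mul, ep_norm, Complex.norm_real, Real.norm_eq_abs, abs_of_nonneg (hw0 g), norm_pow,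
          Complex.norm_natCast]
        exact le_of_eq (by ring)
      · rw [if_pos h, if_neg h0, mul_zero, mul_zero, norm_zero]
        exact hnn
    · rw [if_neg h, norm_zero]
      exact hnn
  refine le_trans (Finset.sum_le_sum h3) ?_
  rw [← Finset.mul_sum, h2]
  refine mul_le_mul_of_nonneg_left ?_ (by positivity)
  have hXY : XY D 𝒦 Y = ((XF p (gdY D Y)).filter (fun i => nr i.support ≤ Y)).filter
      (fun i => cl D i = 0 ∧ ∀ v ∈ i.support, ∀ κ ∈ 𝒦, dt κ (D.q v) = 0) := by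
    unfold XY
    rw [Finset.filter_filter]
  have hEX : EX D 𝒦 e Y = ∑ i ∈ (XF p (gdY D Y)).filter (fun i => nr i.support ≤ Y),
      if cl D i = 0 ∧ ∀ v ∈ i.support, ∀ κ ∈ 𝒦, dt κ (D.q v) = 0 then
        ((p : ℝ) ^ e) ^ i.support.card else 0 := by
    unfold EX
    rw [hXY, Finset.sum_filter]
  rw [hEX]
  refine Finset.sum_le_sum fun i _ => ?_
  have e3 : ∑ j ∈ XF p i.support, ∑ k ∈ XF p i.support,
        (((p ^ e : ℕ) : ℝ) ^ i.support.card * ∏ v ∈ i.support, xc D 𝒦 v) *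
          (if cl D i = 0 ∧ Q i j k then (1 : ℝ) else 0) =
      (((p ^ e : ℕ) : ℝ) ^ i.support.card * ∏ v ∈ i.support, xc D 𝒦 v) *
        if cl D i = 0 then ∑ j ∈ XF p i.support, ∑ k ∈ XF p i.support,
        (if Q i j k then (1 : ℝ) else 0) else 0 := by
    by_cases h0 : cl D i = 0
    · rw [if_pos h0, Finset.mul_sum]
      refine Finset.sum_congr rfl fun j _ => ?_
      rw [Finset.mul_sum]
      refine Finset.sum_congr rfl fun k _ => ?_
      congr 1
      exact if_congr ⟨fun h => h.2, fun h => ⟨h0, h⟩⟩ rfl rfl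
    · rw [if_neg h0, mul_zero]
      refine Finset.sum_eq_zero fun j _ => Finset.sum_eq_zero fun k _ => ?_
      rw [if_neg fun h => h0 h.1, mul_zero]
  rw [e3]
  by_cases h0 : cl D i = 0
  · by_cases h4 : ∀ v ∈ i.support, ∀ κ ∈ 𝒦, dt κ (D.q v) = 0
    · rw [if_pos h0, if_pos ⟨h0, h4⟩]
      have h5 : ∏ v ∈ i.support, xc D 𝒦 v = ((p : ℝ)⁻¹) ^ i.support.card := by
        rw [← Finset.prod_const]
        refine Finset.prod_congr rfl fun v hv => ?_
        unfold xc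
        rw [if_pos (h4 v hv)]
      rw [h5]
      refine (mul_le_mul_of_nonneg_left (hcount i) (by positivity)).trans (le_of_eq ?_)
      push_cast
      rw [mul_assoc, ← mul_pow, inv_mul_cancel₀ hp0, one_pow, mul_one]
    · rw [if_pos h0, if_neg (fun h => h4 h.2)]
      push Not at h4
      obtain ⟨v, hv, κ, hκ, h5⟩ := h4
      have h6 : ∏ v ∈ i.support, xc D 𝒦 v = 0 := by
        refine Finset.prod_eq_zero hv ?_
        unfold xc
        rw [if_neg (fun h => h5 (h κ hκ))]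
      rw [h6, mul_zero, zero_mul]
  · rw [if_neg h0, mul_zero, if_neg (fun h => h0 h.1)]

theorem xrow [NeZero p] (hp : p.Prime) (D : RD0 K p ζ) {d : Fin e → Kˣ}
    {𝒦 : Submodule (ZMod p) (Fin D.r → ZMod p)} (hK : DK D e d 𝒦) (u : Kˣ) (t : ZMod p) (Y : ℝ) :
    ‖∑ κ : Fin D.r → ZMod p, FX D d u (fun a => (a.i : ZMod p) • κ) Y
        (fun g => ∀ a, a ∉ row t → g a = ∅)‖ ≤ (p : ℝ) ^ D.r * EX D 𝒦 e Y := by
  refine xrw_gen hp D hK u Y _ (fun i _ k => ∀ v ∈ i.support, k v = t) ?_ ?_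
  · intro g hd hC v hv
    obtain ⟨a, -, ha⟩ := Finset.mem_biUnion.1 (xrw_supp g _ hv)
    have h1 : kg g v = a.t := xrw_apply g hd (fun a => a.t) ha
    have h2 : a ∈ (row t : Finset (JT p (p ^ e))) := by
      by_contra h
      rw [hC a h] at ha
      exact absurd ha (Finset.notMem_empty _)
    rw [h1]
    exact (Finset.mem_filter.1 h2).2
  · intro i
    refine (Finset.sum_le_sum fun j _ => xrw_one i.support (fun _ => t)
      (fun k => ∀ v ∈ i.support, k v = t) (fun k h => h)).trans (le_of_eq ?_)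
    rw [Finset.sum_const, nsmul_eq_mul, mul_one, xrw_card]

theorem xcol [NeZero p] (hp : p.Prime) (D : RD0 K p ζ) {d : Fin e → Kˣ}
    {𝒦 : Submodule (ZMod p) (Fin D.r → ZMod p)} (hK : DK D e d 𝒦) (u : Kˣ) (c : ZMod p) (Y : ℝ) :
    ‖∑ κ : Fin D.r → ZMod p, FX D d u (fun a => (a.i : ZMod p) • κ) Y
        (fun g => ∀ a, a ∉ col c → g a = ∅)‖ ≤ (p : ℝ) ^ D.r * EX D 𝒦 e Y := by
  refine xrw_gen hp D hK u Y _ (fun i j _ => ∀ v ∈ i.support, j v = c * i v) ?_ ?_
  · intro g hd hC v hv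
    obtain ⟨a, -, ha⟩ := Finset.mem_biUnion.1 (xrw_supp g _ hv)
    have h1 : jg g v = a.j := xrw_apply g hd (fun a => a.j) ha
    have h3 : ig g v = a.i := xrw_apply g hd (fun a => (a.i : ZMod p)) ha
    have h2 : a ∈ (col c : Finset (JT p (p ^ e))) := by
      by_contra h
      rw [hC a h] at ha
      exact absurd ha (Finset.notMem_empty _)
    rw [h1, h3]
    exact (Finset.mem_filter.1 h2).2
  · intro i
    rw [Finset.sum_comm]
    refine (Finset.sum_le_sum fun j _ => xrw_one i.support (fun v => c * i v)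
      (fun k => ∀ v ∈ i.support, k v = c * i v) (fun k h => h)).trans (le_of_eq ?_)
    rw [Finset.sum_const, nsmul_eq_mul, mul_one, xrw_card]

end H83.LX
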