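import Pool.Agent.H83.LX.XMN
import Pool.Agent.H83.LX.XMOM
import Pool.Agent.H83.LX.XROW
import Pool.Agent.H83.LX.XCOLN

/-!
# [H83 LX XONE] the first moment (100-160 lines; compare MONEB in H83/LW)

`R = p^r`, `u = #U`. `xmom`: `u R (∑_{XY} (p^e)^{#supp} #Rl) = ∑_κ ∑_{u} FX(u, κ, True)`. By `xmn` (`κ a = a.i • κ`; `F u` has order `0` outside `S0`) this is
`∑_u ∑_{S ∈ MM} ∑_κ FX(u, κ, supp ⊆ S)` up to `u R C Y (log Y)^{p-2-δ}`. `MM` is the union of the images of `row` and `col`: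
* rows (at most `p`): the norm of `∑_κ FX` is at most `R EX` (`xrow`). All `u` together: `u p R EX`.
* columns (at most `p`), `u` with `¬ UInd p (F u) d` (at most `p^e` of them, `xun`): `R EX` each (`xcol`). Together `p^e p R EX`.
* columns, `UInd p (F u) d`: every `FX` is at most `C Y (log Y)^{(p-1)/p - 1}` (`xcoln`), and `(p-1)/p - 1 = -1/p ≤ p - 2 - δ` for `δ ≤ 1/2`
  (`p = 2`: `-1/2 ≤ -δ`; `p ≥ 3`: `-1/p ≤ 0 < 1/2 ≤ p - 2 - δ`). Together `u p R C Y (log Y)^{p-2-δ}`.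
(Split `∑_{S ∈ MM}` in norm: `≤ ∑_{S ∈ image row} + ∑_{S ∈ image col}`, and `∑_{S ∈ image f} ≤ ∑_t` (`Finset.sum_image_le`-type, nonnegative terms).)
Divide by `u R`. The left side is a nonnegative real number.
-/

set_option autoImplicit false

open scoped NumberField
open IsDedekindDomain
open scoped Classical

noncomputable section

namespace H83.LX

open H63.MA H38.BB H77.AB H77.GN H83.LW

variable {K : Type} [Field K] [NumberField K] {p : ℕ} {ζ : K} {e : ℕ}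

private theorem xo_sum {p ϖ : ℕ} [NeZero p] (f : Finset (JT p ϖ) → ℝ) (hf : ∀ S, 0 ≤ f S) :
    ∑ S ∈ MM p ϖ, f S ≤ ∑ t, f (row t) + ∑ c, f (col c) := by
  classical
  have him : ∀ r : ZMod p → Finset (JT p ϖ), ∑ S ∈ Finset.univ.image r, f S ≤ ∑ t, f (r t) := by
    intro r
    rw [← Finset.sum_fiberwise_of_maps_to (s := Finset.univ) (t := Finset.univ.image r)
      (g := r) (fun t _ => Finset.mem_image_of_mem _ (Finset.mem_univ t)) (fun t => f (r t))]
    refine Finset.sum_le_sum fun S hS => ?_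
    obtain ⟨t, _, ht⟩ := Finset.mem_image.1 hS
    rw [← ht]
    exact Finset.single_le_sum (f := fun t' => f (r t')) (fun t' _ => hf _)
      (Finset.mem_filter.2 ⟨Finset.mem_univ t, rfl⟩)
  have h1 := Finset.sum_union_inter (s₁ := Finset.univ.image (row (p := p) (ϖ := ϖ)))
    (s₂ := Finset.univ.image (col (p := p) (ϖ := ϖ))) (f := f)
  have h2 : 0 ≤ ∑ S ∈ Finset.univ.image (row (p := p) (ϖ := ϖ)) ∩
      Finset.univ.image (col (p := p) (ϖ := ϖ)), f S := Finset.sum_nonneg fun S _ => hf S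
  have h3 := him row
  have h4 := him col
  unfold MM
  linarith

theorem xone [NeZero p] (hp : p.Prime) (hζ : IsPrimitiveRoot ζ p) (D : RD K p ζ)
    {d : Fin e → Kˣ} {𝒦 : Submodule (ZMod p) (Fin D.r → ZMod p)} (hK : DK D.toRD0 e d 𝒦)
    {U : Type} [CommGroup U] [Fintype U] (F : U → Kˣ) (hU : UR D.toRD0 U F) :
    ∃ C δ Y₀ : ℝ, 0 < C ∧ 0 < δ ∧ 9 ≤ Y₀ ∧ ∀ Y : ℝ, Y₀ ≤ Y →
      ∑ i ∈ XY D.toRD0 𝒦 Y, ((p : ℝ) ^ e) ^ i.support.card * ((Rl D.toRD0 i).card : ℝ) ≤
        ((p : ℝ) + p * (p : ℝ) ^ e / Fintype.card U) * EX D.toRD0 𝒦 e Y +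
          C * Y * Real.log Y ^ ((p : ℝ) - 2 - δ) := by
  have hp2r : (2 : ℝ) ≤ p := by exact_mod_cast hp.two_le
  have hpR : (0 : ℝ) < p := by linarith
  obtain ⟨C1, δ, Y₀, hC1, hδ, hδ2, hY₀, hmn⟩ := xmn hp hζ D hK
  obtain ⟨C2, hC2, hcn⟩ := xcoln hp hζ D hK
  refine ⟨C1 + p * C2, δ, Y₀, by positivity, hδ, hY₀, fun Y hY => ?_⟩
  have hY9 : 9 ≤ Y := hY₀.trans hY
  have hlog : 1 ≤ Real.log Y := by
    rw [Real.le_log_iff_exp_le (by linarith)]
    exact (Real.exp_one_lt_d9.le.trans (by norm_num)).trans hY9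
  obtain ⟨L, hL⟩ : ∃ L : ℝ, L = Y * Real.log Y ^ ((p : ℝ) - 2 - δ) := ⟨_, rfl⟩
  have hL0 : 0 ≤ L := by
    rw [hL]
    exact mul_nonneg (by linarith) (Real.rpow_nonneg (by linarith) _)
  have hexp : ((p : ℝ) - 1) / p - 1 ≤ (p : ℝ) - 2 - δ := by
    have e1 : ((p : ℝ) - 1) / p - 1 = -(1 / p) := by
      field_simp
      ring
    rw [e1]
    rcases hp.two_le.eq_or_lt with h | h
    · have : (p : ℝ) = 2 := by exact_mod_cast h.symm
      rw [this]
      linarith
    · have h3 : (3 : ℝ) ≤ p := by exact_mod_cast h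
      have : 0 ≤ 1 / (p : ℝ) := by positivity
      linarith
  have hexpL : Y * Real.log Y ^ (((p : ℝ) - 1) / p - 1) ≤ L := by
    rw [hL]
    exact mul_le_mul_of_nonneg_left (Real.rpow_le_rpow_of_exponent_le hlog hexp) (by linarith)
  obtain ⟨N, hN⟩ : ∃ N : ℝ, N = (p : ℝ) ^ D.r := ⟨_, rfl⟩
  have hN0 : 0 < N := by rw [hN]; positivity
  obtain ⟨M0, hM0⟩ : ∃ M0 : ℝ, M0 = EX D.toRD0 𝒦 e Y := ⟨_, rfl⟩
  obtain ⟨M1, hM1⟩ : ∃ M1 : ℝ, M1 = ∑ i ∈ XY D.toRD0 𝒦 Y,
    ((p : ℝ) ^ e) ^ i.support.card * ((Rl D.toRD0 i).card : ℝ) := ⟨_, rfl⟩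
  have hM00 : 0 ≤ M0 := by
    rw [hM0]
    exact Finset.sum_nonneg fun i _ => by positivity
  have hM10 : 0 ≤ M1 := by
    rw [hM1]
    exact Finset.sum_nonneg fun i _ => by positivity
  have hmom := xmom hp hζ D.toRD0 hK F hU Y
  rw [← hM1] at hmom ⊢
  rw [← hM0]
  have hcardκ : ((Finset.univ : Finset (Fin D.r → ZMod p)).card : ℝ) = N := by
    rw [Finset.card_univ, Fintype.card_fun, ZMod.card, Fintype.card_fin, hN]
    push_cast
    rfl
  have hrow : ∀ (u : U) (t : ZMod p), ‖∑ κ : Fin D.r → ZMod p, FX D.toRD0 d (F u)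
      (fun a => (a.i : ZMod p) • κ) Y (fun g => ∀ a, a ∉ row t → g a = ∅)‖ ≤ N * M0 := by
    intro u t
    rw [hN, hM0]
    exact xrow hp D.toRD0 hK (F u) t Y
  have hcol : ∀ (u : U) (c : ZMod p), ‖∑ κ : Fin D.r → ZMod p, FX D.toRD0 d (F u)
      (fun a => (a.i : ZMod p) • κ) Y (fun g => ∀ a, a ∉ col c → g a = ∅)‖ ≤ N * M0 := by
    intro u c
    rw [hN, hM0]
    exact xcol hp D.toRD0 hK (F u) c Y
  have hcoln : ∀ (u : U) (c : ZMod p), UInd p (F u) d → ‖∑ κ : Fin D.r → ZMod p,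
      FX D.toRD0 d (F u) (fun a => (a.i : ZMod p) • κ) Y
        (fun g => ∀ a, a ∉ col c → g a = ∅)‖ ≤ N * (C2 * L) := by
    intro u c hu
    refine (norm_sum_le _ _).trans ?_
    refine (Finset.sum_le_card_nsmul _ _ (C2 * L) fun κ _ => ?_).trans ?_
    · refine (hcn (F u) (hU.mem u) hu c κ Y (by linarith)).trans ?_
      rw [mul_assoc]
      exact mul_le_mul_of_nonneg_left hexpL hC2.le
    · rw [nsmul_eq_mul, hcardκ]
  have hT : ∀ u : U, ‖∑ κ : Fin D.r → ZMod p, FX D.toRD0 d (F u)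
      (fun a => (a.i : ZMod p) • κ) Y (fun _ => True)‖ ≤
        N * (C1 * L) + p * (N * M0) + ((if ¬ UInd p (F u) d then p * (N * M0) else 0) +
          p * (N * (C2 * L))) := by
    intro u
    obtain ⟨f, hf⟩ : ∃ f : Finset (JT p (p ^ e)) → ℝ, f = fun S => ‖∑ κ : Fin D.r → ZMod p,
      FX D.toRD0 d (F u) (fun a => (a.i : ZMod p) • κ) Y
        (fun g => ∀ a, a ∉ S → g a = ∅)‖ := ⟨_, rfl⟩
    have h1 : ‖∑ κ : Fin D.r → ZMod p, (FX D.toRD0 d (F u)
        (fun a => (a.i : ZMod p) • κ) Y (fun _ => True) - ∑ S ∈ MM p (p ^ e),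
          FX D.toRD0 d (F u) (fun a => (a.i : ZMod p) • κ) Y
            (fun g => ∀ a, a ∉ S → g a = ∅))‖ ≤ N * (C1 * L) := by
      refine (norm_sum_le _ _).trans ?_
      refine (Finset.sum_le_card_nsmul _ _ (C1 * L) fun κ _ => ?_).trans ?_
      · refine (hmn (F u) (hU.mem u) (fun a => (a.i : ZMod p) • κ) Y hY).trans ?_
        rw [hL, mul_assoc]
      · rw [nsmul_eq_mul, hcardκ]
    have h2 : ‖∑ κ : Fin D.r → ZMod p, ∑ S ∈ MM p (p ^ e),
          FX D.toRD0 d (F u) (fun a => (a.i : ZMod p) • κ) Y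
            (fun g => ∀ a, a ∉ S → g a = ∅)‖ ≤ ∑ t, f (row t) + ∑ c, f (col c) := by
      rw [Finset.sum_comm]
      refine (norm_sum_le _ _).trans ?_
      rw [hf]
      exact xo_sum (fun S => ‖∑ κ : Fin D.r → ZMod p,
        FX D.toRD0 d (F u) (fun a => (a.i : ZMod p) • κ) Y
          (fun g => ∀ a, a ∉ S → g a = ∅)‖) fun S => norm_nonneg _
    have h3 : ∑ t, f (row t) ≤ p * (N * M0) := by
      refine (Finset.sum_le_card_nsmul _ _ (N * M0) fun t _ => ?_).trans ?_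
      · rw [hf]
        exact hrow u t
      · rw [nsmul_eq_mul, Finset.card_univ, ZMod.card]
    have h4 : ∑ c, f (col c) ≤ (if ¬ UInd p (F u) d then p * (N * M0) else 0) +
        p * (N * (C2 * L)) := by
      by_cases hu : ¬ UInd p (F u) d
      · rw [if_pos hu]
        have h5 : ∑ c, f (col c) ≤ p * (N * M0) := by
          refine (Finset.sum_le_card_nsmul _ _ (N * M0) fun c _ => ?_).trans ?_
          · rw [hf]
            exact hcol u c
          · rw [nsmul_eq_mul, Finset.card_univ, ZMod.card]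
        have h6 : 0 ≤ p * (N * (C2 * L)) := by positivity
        linarith
      · rw [if_neg hu, zero_add]
        refine (Finset.sum_le_card_nsmul _ _ (N * (C2 * L)) fun c _ => ?_).trans ?_
        · rw [hf]
          exact hcoln u c (not_not.1 hu)
        · rw [nsmul_eq_mul, Finset.card_univ, ZMod.card]
    have h5 : ∑ κ : Fin D.r → ZMod p, FX D.toRD0 d (F u)
        (fun a => (a.i : ZMod p) • κ) Y (fun _ => True) =
        ∑ κ : Fin D.r → ZMod p, (FX D.toRD0 d (F u)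
        (fun a => (a.i : ZMod p) • κ) Y (fun _ => True) - ∑ S ∈ MM p (p ^ e),
          FX D.toRD0 d (F u) (fun a => (a.i : ZMod p) • κ) Y
            (fun g => ∀ a, a ∉ S → g a = ∅)) +
        ∑ κ : Fin D.r → ZMod p, ∑ S ∈ MM p (p ^ e),
          FX D.toRD0 d (F u) (fun a => (a.i : ZMod p) • κ) Y
            (fun g => ∀ a, a ∉ S → g a = ∅) := by
      rw [Finset.sum_sub_distrib, sub_add_cancel]
    rw [h5]
    refine (norm_add_le _ _).trans ?_
    linarith
  have hUc : (0 : ℝ) < Fintype.card U := by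
    have : 0 < Fintype.card U := Fintype.card_pos_iff.2 ⟨1⟩
    exact_mod_cast this
  have hun := xun hp D.toRD0 d F hU
  have hunR : ((Finset.univ.filter fun u : U => ¬ UInd p (F u) d).card : ℝ) ≤ (p : ℝ) ^ e := by
    exact_mod_cast hun
  have hfin : M1 * (Fintype.card U * N) ≤
      Fintype.card U * (N * (C1 * L) + p * (N * M0) + p * (N * (C2 * L))) +
        (p : ℝ) ^ e * (p * (N * M0)) := by
    have e1 : ‖((M1 : ℝ) : ℂ) * ((Fintype.card U : ℂ) * (p : ℂ) ^ D.r)‖ =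
        M1 * (Fintype.card U * N) := by
      rw [norm_mul, norm_mul, Complex.norm_real, Real.norm_eq_abs, abs_of_nonneg hM10,
        Complex.norm_natCast, norm_pow, Complex.norm_natCast, hN]
    rw [← e1, hmom, Finset.sum_comm]
    refine (norm_sum_le _ _).trans ((Finset.sum_le_sum fun u _ => hT u).trans ?_)
    rw [Finset.sum_add_distrib, Finset.sum_add_distrib, Finset.sum_add_distrib,
      Finset.sum_const, Finset.sum_const, Finset.sum_const, Finset.card_univ, nsmul_eq_mul,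
      nsmul_eq_mul, nsmul_eq_mul, ← Finset.sum_filter, Finset.sum_const, nsmul_eq_mul]
    have e2 : ((Finset.univ.filter fun u : U => ¬ UInd p (F u) d).card : ℝ) * (p * (N * M0)) ≤
        (p : ℝ) ^ e * (p * (N * M0)) := mul_le_mul_of_nonneg_right hunR (by positivity)
    linarith
  have hUN : 0 < (Fintype.card U : ℝ) * N := by positivity
  have e3 : ((p : ℝ) + p * (p : ℝ) ^ e / Fintype.card U) * M0 +
      (C1 + p * C2) * Y * Real.log Y ^ ((p : ℝ) - 2 - δ) =
      (Fintype.card U * (N * (C1 * L) + p * (N * M0) + p * (N * (C2 * L))) +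
        (p : ℝ) ^ e * (p * (N * M0))) / (Fintype.card U * N) := by
    rw [hL]
    field_simp
    ring
  rw [e3, le_div_iff₀ hUN]
  exact hfin

end H83.LX
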